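import Pool.Agent.H67.Liou.ExEmb

/-! Absorbing cores, and extension of germs along the core to the whole manifold. -/

open Topology Filter Set Function
open scoped ContDiff Manifold

set_option linter.unusedSectionVars false

namespace Pool.Agent.H67.Liou

universe u u'

variable {E : Type u} [NormedAddCommGroup E] [NormedSpace ℝ E]
  {H : Type*} [TopologicalSpace H] {I : ModelWithCorners ℝ E H}
  {M : Type*} [TopologicalSpace M] [ChartedSpace H M]
  {E' : Type u'} [NormedAddCommGroup E'] [NormedSpace ℝ E']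
  {H' : Type*} [TopologicalSpace H'] {J : ModelWithCorners ℝ E' H'}
  {N : Type*} [TopologicalSpace N] [ChartedSpace H' N]

/-- The backward Liouville flow absorbs every compact set into every neighbourhood of the compact
invariant set `C`. -/
structure Absorbs (S : LStr J N) (C : Set N) : Prop where
  isCompact : IsCompact C
  inv : ∀ t, ∀ x ∈ C, S.φ t x ∈ C
  absorb : ∀ B, IsCompact B → ∀ W, IsOpen W → C ⊆ W →
    ∃ T : ℝ, 0 ≤ T ∧ ∀ t, T ≤ t → ∀ x ∈ B, S.φ (-t) x ∈ W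

section

variable [FiniteDimensional ℝ E'] [IsManifold J ∞ N] [IsManifold J 1 N] [J.Boundaryless]
  [T2Space N]

theorem Absorbs.trap {S : LStr J N} {C : Set N} (hA : Absorbs S C) {W : Set N} (hW : IsOpen W)
    (hCW : C ⊆ W) : ∃ W', IsOpen W' ∧ C ⊆ W' ∧ W' ⊆ W ∧
      ∀ x ∈ W', ∀ t, 0 ≤ t → S.φ (-t) x ∈ W := by
  have hlc : LocallyCompactSpace N := Manifold.locallyCompact_of_finiteDimensional J
  obtain ⟨B, hB, hCB⟩ := exists_compact_superset hA.isCompact
  obtain ⟨T, hT0, hT⟩ := hA.absorb B hB W hW hCW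
  have hcont : Continuous (fun p : ℝ × N => S.φ (-p.1) p.2) :=
    S.continuous_joint.comp ((continuous_neg.comp continuous_fst).prodMk continuous_snd)
  have hsub : Icc 0 T ×ˢ C ⊆ (fun p : ℝ × N => S.φ (-p.1) p.2) ⁻¹' W := by
    rintro ⟨t, x⟩ ⟨-, hx⟩
    exact hCW (hA.inv _ x hx)
  obtain ⟨u, v, -, hv, hu', hv', huv⟩ := generalized_tube_lemma isCompact_Icc hA.isCompact
    (hW.preimage hcont) hsub
  refine ⟨v ∩ interior B, hv.inter isOpen_interior, subset_inter hv' hCB, ?_, ?_⟩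
  · rintro x ⟨hxv, -⟩
    have h0 : (0 : ℝ) ∈ u := hu' ⟨le_rfl, hT0⟩
    have h1 : ((0 : ℝ), x) ∈ u ×ˢ v := ⟨h0, hxv⟩
    have := huv h1
    simpa [S.zero] using this
  · rintro x ⟨hxv, hxB⟩ t ht
    rcases le_total t T with h | h
    · have h1 : (t, x) ∈ u ×ˢ v := ⟨hu' ⟨ht, h⟩, hxv⟩
      exact huv h1
    · exact hT t h x (interior_subset hxB)

theorem Absorbs.hull {S : LStr J N} {C : Set N} (hA : Absorbs S C) {B : Set N}
    (hB : IsCompact B) : ∃ B', IsCompact B' ∧ B ⊆ B' ∧ C ⊆ interior B' ∧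
      ∀ x ∈ B', ∀ t, 0 ≤ t → S.φ (-t) x ∈ B' := by
  have hlc : LocallyCompactSpace N := Manifold.locallyCompact_of_finiteDimensional J
  obtain ⟨B₂, hB₂, hCB⟩ := exists_compact_superset (hB.union hA.isCompact)
  obtain ⟨T, hT0, hT⟩ := hA.absorb B₂ hB₂ (interior B₂) isOpen_interior
    (subset_union_right.trans hCB)
  have hsub : B₂ ⊆ (fun p : ℝ × N => S.φ p.1 p.2) '' (Icc (-T) 0 ×ˢ B₂) := by
    intro x hx
    exact ⟨(0, x), ⟨⟨by linarith, le_rfl⟩, hx⟩, S.zero x⟩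
  refine ⟨(fun p : ℝ × N => S.φ p.1 p.2) '' (Icc (-T) 0 ×ˢ B₂),
    (isCompact_Icc.prod hB₂).image S.continuous_joint, ?_, ?_, ?_⟩
  · exact (subset_union_left.trans (hCB.trans interior_subset)).trans hsub
  · exact (subset_union_right.trans hCB).trans (interior_mono hsub)
  · rintro _ ⟨⟨s, y⟩, ⟨hs, hy⟩, rfl⟩ t ht
    simp only
    rw [← S.add]
    rcases le_total (-T) (-t + s) with h | h
    · exact ⟨(-t + s, y), ⟨⟨h, by linarith [hs.2]⟩, hy⟩, rfl⟩
    · have h1 : S.φ (-(t - s)) y ∈ interior B₂ := hT (t - s) (by linarith) y hy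
      have h2 : -(t - s) = -t + s := by ring
      rw [h2] at h1
      exact hsub (interior_subset h1)

theorem Absorbs.nonempty {S : LStr J N} {C : Set N} (hA : Absorbs S C) [Nonempty N] :
    C.Nonempty := by
  by_contra h
  rw [not_nonempty_iff_eq_empty] at h
  obtain ⟨x⟩ := ‹Nonempty N›
  obtain ⟨T, -, hT⟩ := hA.absorb {x} isCompact_singleton ∅ isOpen_empty h.subset
  exact hT T le_rfl x rfl

end

section

variable [FiniteDimensional ℝ E] [IsManifold I ∞ M] [IsManifold I 1 M] [I.Boundaryless]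
  [FiniteDimensional ℝ E'] [IsManifold J ∞ N] [IsManifold J 1 N] [J.Boundaryless]
  [T2Space M] [T2Space N]

theorem ExEmb.of_pb {S : LStr J N} {S' : LStr I M} {g : N → M} (hs : ContMDiff J I ∞ g)
    (hi : Injective g) (hb : ∀ x, Bijective (mfderiv J I g x))
    (hp : ∀ x, pb J I g S'.lam x = S.lam x) : ExEmb S S' g (fun _ => 0) where
  smooth := hs
  inj := hi
  bij := hb
  smoothK := contMDiff_const
  pull x v := by
    rw [dfn_const, ← hp x]
    simp [pb]

/-- Extension of a germ along the core preserving the Liouville forms. -/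
theorem exists_extension (S : LStr J N) (S' : LStr I M) {C : Set N} (hA : Absorbs S C) {U : Set N}
    (hU : IsOpen U) (hCU : C ⊆ U) {j : N → M} (hj : ∀ x ∈ U, ContMDiffAt J I ∞ j x)
    (hb : ∀ x ∈ U, Bijective (mfderiv J I j x)) (hpb : ∀ x ∈ U, pb J I j S'.lam x = S.lam x)
    (hinj : InjOn j U) :
    ∃ g : N → M, ExEmb S S' g (fun _ => 0) ∧ ∃ W, IsOpen W ∧ C ⊆ W ∧ ∀ x ∈ W, g x = j x := by
  have hlc : LocallyCompactSpace N := Manifold.locallyCompact_of_finiteDimensional J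
  have hT : ∀ x : N, ∃ T : ℝ, 0 ≤ T ∧ ∀ t, T ≤ t → S.φ (-t) x ∈ U := by
    intro x
    obtain ⟨T, h0, h1⟩ := hA.absorb {x} isCompact_singleton U hU hCU
    exact ⟨T, h0, fun t ht => h1 t ht x rfl⟩
  choose T hT0 hT using hT
  -- the value is independent of the time
  have hind : ∀ x : N, ∀ t t' : ℝ, (∀ s, t ≤ s → S.φ (-s) x ∈ U) → t ≤ t' →
      S'.φ t' (j (S.φ (-t') x)) = S'.φ t (j (S.φ (-t) x)) := by
    intro x t t' ht htt'
    have h1 : ∀ s ∈ Icc (-(t' - t)) 0, S.φ s (S.φ (-t) x) ∈ U := by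
      intro s hs
      rw [← S.add]
      have : s + -t = -(t - s) := by ring
      rw [this]
      exact ht _ (by linarith [hs.2])
    have h2 := intertwine S S' hU hj hb hpb (x := S.φ (-t) x) (a := -(t' - t)) (b := 0)
      (by linarith) le_rfl h1 (s := -(t' - t)) ⟨le_rfl, by linarith⟩
    have h3 : S.φ (-(t' - t)) (S.φ (-t) x) = S.φ (-t') x := by
      rw [← S.add]
      congr 1
      ring
    rw [h3] at h2
    rw [h2]
    have h4 : S'.φ t' (S'.φ (-(t' - t)) (j (S.φ (-t) x))) =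
        S'.φ (t' + -(t' - t)) (j (S.φ (-t) x)) := (S'.add _ _ _).symm
    rw [h4]
    congr 1
    ring
  set g : N → M := fun x => S'.φ (T x) (j (S.φ (-(T x)) x)) with hg
  have hgen : ∀ x : N, ∀ t : ℝ, (∀ s, t ≤ s → S.φ (-s) x ∈ U) →
      g x = S'.φ t (j (S.φ (-t) x)) := by
    intro x t ht
    rcases le_total t (T x) with h | h
    · exact hind x t (T x) ht h
    · exact (hind x (T x) t (hT x) h).symm
  -- local description
  have hloc : ∀ x₀ : N, ∃ t : ℝ, S.φ (-t) x₀ ∈ U ∧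
      g =ᶠ[𝓝 x₀] fun x => S'.φ t (j (S.φ (-t) x)) := by
    intro x₀
    obtain ⟨B, hB, hBx⟩ := exists_compact_mem_nhds x₀
    obtain ⟨t, ht0, ht⟩ := hA.absorb B hB U hU hCU
    refine ⟨t, ht t le_rfl x₀ (mem_of_mem_nhds hBx), ?_⟩
    filter_upwards [hBx] with x hx
    exact hgen x t (fun s hs => ht s hs x hx)
  have hsm : ContMDiff J I ∞ g := by
    intro x₀
    obtain ⟨t, htU, ht⟩ := hloc x₀
    refine ContMDiffAt.congr_of_eventuallyEq ?_ ht
    have h1 : ContMDiffAt J I ∞ (fun x => j (S.φ (-t) x)) x₀ :=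
      ContMDiffAt.comp x₀ (hj _ htU) (S.smooth_time (-t) x₀)
    exact ContMDiffAt.comp x₀ (S'.smooth_time t _) h1
  have hder : ∀ x₀ : N, ∀ t, S.φ (-t) x₀ ∈ U → (g =ᶠ[𝓝 x₀] fun x => S'.φ t (j (S.φ (-t) x))) →
      (mfderiv J I g x₀ : E' →L[ℝ] E) =
        ((mfderiv I I (S'.φ t) (j (S.φ (-t) x₀))).comp
          ((mfderiv J I j (S.φ (-t) x₀)).comp (mfderiv J J (S.φ (-t)) x₀)) : E' →L[ℝ] E) := by
    intro x₀ t htU ht
    have h1 : (mfderiv J I g x₀ : E' →L[ℝ] E) =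
        mfderiv J I (S'.φ t ∘ (j ∘ S.φ (-t))) x₀ := ht.mfderiv_eq
    have hd1 : MDifferentiableAt J J (S.φ (-t)) x₀ :=
      (S.smooth_time (-t) x₀).mdifferentiableAt infty_ne_zero
    have hd2 : MDifferentiableAt J I j (S.φ (-t) x₀) :=
      (hj _ htU).mdifferentiableAt infty_ne_zero
    have hd3 : MDifferentiableAt I I (S'.φ t) ((j ∘ S.φ (-t)) x₀) :=
      (S'.smooth_time t _).mdifferentiableAt infty_ne_zero
    rw [h1, mfderiv_comp x₀ hd3 (hd2.comp x₀ hd1), mfderiv_comp x₀ hd2 hd1]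
    rfl
  have hbij : ∀ x, Bijective (mfderiv J I g x) := by
    intro x₀
    obtain ⟨t, htU, ht⟩ := hloc x₀
    have h1 := hder x₀ t htU ht
    have h2 : Bijective ((mfderiv I I (S'.φ t) (j (S.φ (-t) x₀))).comp
          ((mfderiv J I j (S.φ (-t) x₀)).comp (mfderiv J J (S.φ (-t)) x₀)) : E' →L[ℝ] E) :=
      (S'.bij t _).comp ((hb _ htU).comp (S.bij (-t) x₀))
    rw [← h1] at h2
    exact h2
  have hpull : ∀ x, pb J I g S'.lam x = S.lam x := by
    intro x₀
    obtain ⟨t, htU, ht⟩ := hloc x₀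
    ext v
    have h1 : pb J I g S'.lam x₀ = pb J I (S'.φ t ∘ (j ∘ S.φ (-t))) S'.lam x₀ := pb_congr ht
    rw [h1]
    have hd1 : MDifferentiableAt J J (S.φ (-t)) x₀ :=
      (S.smooth_time (-t) x₀).mdifferentiableAt infty_ne_zero
    have hd2 : MDifferentiableAt J I j (S.φ (-t) x₀) :=
      (hj _ htU).mdifferentiableAt infty_ne_zero
    have hd3 : MDifferentiableAt I I (S'.φ t) ((j ∘ S.φ (-t)) x₀) :=
      (S'.smooth_time t _).mdifferentiableAt infty_ne_zero
    rw [pb_comp hd3 (hd2.comp x₀ hd1)]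
    have h2 : pb J I (j ∘ S.φ (-t)) (pb I I (S'.φ t) S'.lam) x₀ v =
        S'.lam (S'.φ t (j (S.φ (-t) x₀))) (mfderiv I I (S'.φ t) (j (S.φ (-t) x₀))
          (mfderiv J I (j ∘ S.φ (-t)) x₀ v)) := rfl
    rw [h2, S'.pull, ← ContinuousLinearMap.comp_apply]
    have h3 : (S'.lam (j (S.φ (-t) x₀))).comp (mfderiv J I (j ∘ S.φ (-t)) x₀) =
        pb J I (j ∘ S.φ (-t)) S'.lam x₀ := rfl
    have h4 : pb J I (j ∘ S.φ (-t)) S'.lam x₀ v = S.lam (S.φ (-t) x₀)
        (mfderiv J J (S.φ (-t)) x₀ v) := by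
      rw [pb_comp hd2 hd1]
      have h5 := hpb _ htU
      have h6 : pb J J (S.φ (-t)) (pb J I j S'.lam) x₀ v = pb J I j S'.lam (S.φ (-t) x₀)
        (mfderiv J J (S.φ (-t)) x₀ v) := rfl
      rw [h6, h5]
    have h7 : (S'.lam (j (S.φ (-t) x₀))) ((mfderiv J I (j ∘ S.φ (-t)) x₀) v) =
        pb J I (j ∘ S.φ (-t)) S'.lam x₀ v := rfl
    have h8 : Real.exp t * (S'.lam (j (S.φ (-t) x₀))) ((mfderiv J I (j ∘ S.φ (-t)) x₀) v) =
        S.lam x₀ v := by
      rw [h7, h4, S.pull, ← mul_assoc, ← Real.exp_add]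
      simp
    exact h8
  have hginj : Injective g := by
    intro x y hxy
    set t := max (T x) (T y) with ht
    have h1 : ∀ s, t ≤ s → S.φ (-s) x ∈ U := fun s hs => hT x s ((le_max_left _ _).trans hs)
    have h2 : ∀ s, t ≤ s → S.φ (-s) y ∈ U := fun s hs => hT y s ((le_max_right _ _).trans hs)
    rw [hgen x t h1, hgen y t h2] at hxy
    exact S.injective_time (-t) (hinj (h1 t le_rfl) (h2 t le_rfl) (S'.injective_time t hxy))
  refine ⟨g, ExEmb.of_pb hsm hginj hbij hpull, ?_⟩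
  obtain ⟨W, hW, hCW, -, hWU⟩ := hA.trap hU hCU
  refine ⟨W, hW, hCW, fun x hx => ?_⟩
  rw [hgen x 0 (fun s hs => hWU x hx s hs)]
  simp only [neg_zero]
  rw [S'.zero, S.zero]

end

end Pool.Agent.H67.Liou
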