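import Pool.Agent.H67.Liou.Absorb

/-! The absorption lemma. -/

open Topology Filter Set Function
open scoped ContDiff Manifold

set_option linter.unusedSectionVars false

namespace Pool.Agent.H67.Liou

universe u u'

variable {E : Type u} [NormedAddCommGroup E] [NormedSpace ℝ E]
  {H : Type*} [TopologicalSpace H] {I : ModelWithCorners ℝ E H}
  {M : Type*} [TopologicalSpace M] [ChartedSpace H M]
  [FiniteDimensional ℝ E] [IsManifold I ∞ M] [IsManifold I 1 M] [I.Boundaryless] [T2Space M]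

theorem Absorbs.sigmaCompact {S : LStr I M} {C : Set M} (hA : Absorbs S C) :
    SigmaCompactSpace M := by
  have hlc : LocallyCompactSpace M := Manifold.locallyCompact_of_finiteDimensional I
  obtain ⟨B, hB, hCB⟩ := exists_compact_superset hA.isCompact
  refine SigmaCompactSpace.of_countable (range fun n : ℕ => S.φ n '' B) (countable_range _) ?_ ?_
  · rintro _ ⟨n, rfl⟩
    exact hB.image (S.continuous_time n)
  · rw [eq_univ_iff_forall]
    intro x
    obtain ⟨T, hT0, hT⟩ := hA.absorb {x} isCompact_singleton (interior B) isOpen_interior hCB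
    obtain ⟨n, hn⟩ := exists_nat_ge T
    refine mem_sUnion.2 ⟨_, ⟨n, rfl⟩, S.φ (-n) x, interior_subset (hT n hn x rfl), ?_⟩
    exact S.apply_neg n x

theorem exists_cutoff [SigmaCompactSpace M] {K O : Set M} (hK : IsCompact K) (hO : IsOpen O)
    (hKO : K ⊆ O) : ∃ χ : M → ℝ, ContMDiff I 𝓘(ℝ, ℝ) ∞ χ ∧ ∃ C, IsCompact C ∧ C ⊆ O ∧
      (∀ x ∉ C, χ x = 0) ∧ ∃ V, IsOpen V ∧ K ⊆ V ∧ V ⊆ O ∧ ∀ x ∈ V, χ x = 1 := by
  have hlc : LocallyCompactSpace M := Manifold.locallyCompact_of_finiteDimensional I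
  obtain ⟨C, hC, hKC, hCO⟩ := exists_compact_between hK hO hKO
  obtain ⟨χ, h1, h0, -⟩ := exists_contMDiffMap_one_nhds_of_subset_interior (n := ⊤) I
    hK.isClosed hKC
  refine ⟨χ, ?_, C, hC, hCO, h0, ?_⟩
  · exact χ.contMDiff
  · obtain ⟨V, hV, hKV, hV1⟩ := eventually_nhdsSet_iff_exists.1 h1
    exact ⟨V ∩ O, hV.inter hO, subset_inter hKV hKO, inter_subset_right, fun x hx => hV1 x hx.1⟩

theorem contMDiff_cutoff_mul {χ h : M → ℝ} {C O : Set M} (hχ : ContMDiff I 𝓘(ℝ, ℝ) ∞ χ)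
    (hC : IsCompact C) (hCO : C ⊆ O) (h0 : ∀ x ∉ C, χ x = 0)
    (hh : ∀ x ∈ O, ContMDiffAt I 𝓘(ℝ, ℝ) ∞ h x) :
    ContMDiff I 𝓘(ℝ, ℝ) ∞ (fun x => χ x * h x) := by
  intro x
  by_cases hx : x ∈ O
  · exact (hχ x).mul (hh x hx)
  · have hxC : x ∉ C := fun h => hx (hCO h)
    have h1 : (fun x => χ x * h x) =ᶠ[𝓝 x] fun _ => 0 := by
      filter_upwards [hC.isClosed.isOpen_compl.mem_nhds hxC] with y hy
      rw [h0 y hy, zero_mul]
    exact contMDiffAt_const.congr_of_eventuallyEq h1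

/-- Composition of the two flows `φ^T ∘ φ'^{-T}` for a compactly supported exact perturbation. -/
theorem exEmb_flow_comp (S S' : LStr I M) {kh : M → ℝ} (hkh : ContMDiff I 𝓘(ℝ, ℝ) ∞ kh)
    (hS' : ∀ x, S'.lam x = S.lam x - dfn I kh x) (T : ℝ) :
    ExEmb S S (S.φ T ∘ S'.φ (-T)) (fun x => -kh x + Real.exp T * kh (S'.φ (-T) x)) where
  smooth := (S.smooth_time T).comp (S'.smooth_time (-T))
  inj := (S.injective_time T).comp (S'.injective_time (-T))
  bij x := by
    rw [mfderiv_comp x ((S.smooth_time T _).mdifferentiableAt infty_ne_zero)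
      ((S'.smooth_time (-T) _).mdifferentiableAt infty_ne_zero)]
    exact (S.bij T _).comp (S'.bij (-T) x)
  smoothK := by
    have h1 : ContMDiff I 𝓘(ℝ, ℝ) ∞ (fun x => kh (S'.φ (-T) x)) := hkh.comp (S'.smooth_time (-T))
    exact (hkh.neg).add (contMDiff_const.mul h1)
  pull x v := by
    have h1 := mfderiv_comp_apply x ((S.smooth_time T (S'.φ (-T) x)).mdifferentiableAt
      infty_ne_zero) ((S'.smooth_time (-T) x).mdifferentiableAt infty_ne_zero) v
    have h2 : S.lam ((S.φ T ∘ S'.φ (-T)) x) (mfderiv I I (S.φ T ∘ S'.φ (-T)) x v) =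
        S.lam (S.φ T (S'.φ (-T) x)) (mfderiv I I (S.φ T) (S'.φ (-T) x)
          (mfderiv I I (S'.φ (-T)) x v)) :=
      congrArg (S.lam (S.φ T (S'.φ (-T) x)) : E →L[ℝ] ℝ) h1
    have h3 : ContMDiff I 𝓘(ℝ, ℝ) ∞ (fun x => kh (S'.φ (-T) x)) := hkh.comp (S'.smooth_time (-T))
    have h4 : S.lam (S'.φ (-T) x) (mfderiv I I (S'.φ (-T)) x v) =
        S'.lam (S'.φ (-T) x) (mfderiv I I (S'.φ (-T)) x v) +
        dfn I kh (S'.φ (-T) x) (mfderiv I I (S'.φ (-T)) x v) := by
      rw [hS', ContinuousLinearMap.sub_apply]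
      ring
    have h5 : dfn I (fun x => -kh x + Real.exp T * kh (S'.φ (-T) x)) x v =
        - dfn I kh x v + Real.exp T * dfn I (fun x => kh (S'.φ (-T) x)) x v := by
      have h6 := dfn_add_apply (f := fun x => -kh x)
        (g := fun x => Real.exp T * kh (S'.φ (-T) x)) (x := x) (hkh.neg x)
        ((contMDiff_const.mul h3) x) v
      rw [h6, dfn_neg_apply (hkh x), dfn_const_mul_apply (f := fun x => kh (S'.φ (-T) x)) (h3 x)]
    rw [h2, S.pull, h4, S'.pull, h5, ← dfn_comp_apply (hkh _) (S'.smooth_time (-T) x), hS',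
      ContinuousLinearMap.sub_apply, mul_add, ← mul_assoc, ← Real.exp_add]
    simp only [add_neg_cancel, Real.exp_zero, one_mul]
    ring

theorem absorption {S : LStr I M} {C : Set M} (hA : Absorbs S C) {g : M → M} {k : M → ℝ}
    (hg : ExEmb S S g k) (hnear : ∃ W, IsOpen W ∧ C ⊆ W ∧ ∀ x ∈ W, g x = x ∧ k x = 0)
    {B : Set M} (hB : IsCompact B) :
    ∃ (f : M → M) (l : M → ℝ), ExEmb S S f l ∧ Surjective f ∧
      (∃ W, IsOpen W ∧ C ⊆ W ∧ ∀ x ∈ W, f x = x ∧ l x = 0) ∧ ∀ x ∈ B, f (g x) = x := by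
  rcases isEmpty_or_nonempty M with hM | hM
  · exact ⟨g, k, hg, fun x => (hM.false x).elim, hnear, fun x => (hM.false x).elim⟩
  have hsc := hA.sigmaCompact
  obtain ⟨B', hB', hBB', hCB', hback⟩ := hA.hull hB
  have hrange : IsOpen (range g) := isOpen_range_of_bij hg.smooth hg.bij
  obtain ⟨χ, hχ, C', hC', hC'r, hχ0, V, hV, hgV, hVr, hχ1⟩ :=
    exists_cutoff (I := I) (hB'.image hg.smooth.continuous) hrange (image_subset_range g B')
  obtain ⟨W, hW, hCW, hWid⟩ := hnear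
  set kh : M → ℝ := fun y => χ y * k (invFun g y) with hkh
  have hinv : ∀ y ∈ range g, ContMDiffAt I 𝓘(ℝ, ℝ) ∞ (fun y => k (invFun g y)) y := by
    rintro _ ⟨x, rfl⟩
    exact ContMDiffAt.comp (g x) (hg.smoothK _) (contMDiffAt_invFun (hg.smooth x) (hg.bij x) hg.inj)
  have hkhs : ContMDiff I 𝓘(ℝ, ℝ) ∞ kh := contMDiff_cutoff_mul hχ hC' hC'r hχ0 hinv
  have hkh0 : ∀ x ∉ C', kh x = 0 := by
    intro x hx
    simp only [hkh, hχ0 x hx, zero_mul]
  obtain ⟨S', hS'⟩ := S.exists_perturb hkhs hC' hkh0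
  have hli : ∀ x, invFun g (g x) = x := leftInverse_invFun hg.inj
  -- on the preimage of V the perturbed form pulls back to the original one
  have hVo : IsOpen (g ⁻¹' V) := hV.preimage hg.smooth.continuous
  have hpb1 : ∀ x ∈ g ⁻¹' V, pb I I g S'.lam x = S.lam x := by
    intro x hx
    ext v
    have h1 : pb I I g S'.lam x v = S'.lam (g x) (mfderiv I I g x v) := rfl
    have h2 : (fun x => kh (g x)) =ᶠ[𝓝 x] k := by
      filter_upwards [hVo.mem_nhds hx] with y hy
      simp only [hkh, hχ1 _ hy, hli, one_mul]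
    rw [h1, hS', ContinuousLinearMap.sub_apply, hg.pull, ← dfn_comp_apply (hkhs _) (hg.smooth x),
      dfn_congr h2]
    ring
  have hkhW : ∀ x ∈ W, kh x = 0 := by
    intro x hx
    have h1 : invFun g x = x := by
      have := hli x
      rwa [(hWid x hx).1] at this
    simp only [hkh, h1, (hWid x hx).2, mul_zero]
  have hlamW : ∀ x ∈ W, S'.lam x = S.lam x := by
    intro x hx
    have h1 : kh =ᶠ[𝓝 x] fun _ => 0 := by
      filter_upwards [hW.mem_nhds hx] with y hy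
      exact hkhW y hy
    rw [hS', dfn_congr h1, dfn_const, sub_zero]
  -- intertwining
  have hint1 : ∀ x ∈ B, ∀ t, 0 ≤ t → g (S.φ (-t) x) = S'.φ (-t) (g x) := by
    intro x hx t ht
    refine intertwine S S' hVo (fun x _ => hg.smooth x) (fun x _ => hg.bij x) hpb1
      (a := -t) (b := 0) (by linarith) le_rfl ?_ ⟨le_rfl, by linarith⟩
    intro s hs
    have h1 := hback x (hBB' hx) (-s) (by linarith [hs.2])
    rw [neg_neg] at h1
    exact hgV (mem_image_of_mem g h1)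
  obtain ⟨W₂, hW₂, hCW₂, hW₂W, htrap⟩ := hA.trap hW hCW
  have hint2 : ∀ x ∈ W₂, ∀ t, 0 ≤ t → S.φ (-t) x = S'.φ (-t) x := by
    intro x hx t ht
    refine intertwine (g := id) S S' hW (fun x _ => contMDiffAt_id) (fun x _ => ?_) ?_
      (a := -t) (b := 0) (by linarith) le_rfl ?_ ⟨le_rfl, by linarith⟩
    · rw [mfderiv_id]
      exact bijective_id
    · intro x hx
      rw [pb_id]
      exact hlamW x hx
    · intro s hs
      have h1 := htrap x hx (-s) (by linarith [hs.2])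
      rwa [neg_neg] at h1
  obtain ⟨T, hT0, hT⟩ := hA.absorb B hB W hW hCW
  refine ⟨S.φ T ∘ S'.φ (-T), _, exEmb_flow_comp S S' hkhs hS' T,
    (S.surjective_time T).comp (S'.surjective_time (-T)), ⟨W₂, hW₂, hCW₂, ?_⟩, ?_⟩
  · intro x hx
    have h1 := hint2 x hx T hT0
    constructor
    · change S.φ T (S'.φ (-T) x) = x
      rw [← h1, S.apply_neg]
    · rw [hkhW x (hW₂W hx), ← h1, hkhW _ (htrap x hx T hT0)]
      simp
  · intro x hx
    change S.φ T (S'.φ (-T) (g x)) = x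
    rw [← hint1 x hx T hT0, (hWid _ (hT T le_rfl x hx)).1, S.apply_neg]

end Pool.Agent.H67.Liou
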