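import Pool.Agent.H67.Liou.LocalForm

/-! Adapted coordinates near an immersed submanifold. -/

open Topology Filter Set Function
open scoped ContDiff Manifold

set_option linter.unusedSectionVars false

namespace Pool.Agent.H67.Liou

universe u v

variable {F : Type u} [NormedAddCommGroup F] [NormedSpace ℝ F] [FiniteDimensional ℝ F]
  {H : Type*} [TopologicalSpace H] {I : ModelWithCorners ℝ F H}
  {L : Type*} [TopologicalSpace L] [ChartedSpace H L]
  [IsManifold I ∞ L] [IsManifold I 1 L] [I.Boundaryless]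
  {G : Type*} [NormedAddCommGroup G] [NormedSpace ℝ G] [FiniteDimensional ℝ G]
  {E : Type v} [NormedAddCommGroup E] [NormedSpace ℝ E] [FiniteDimensional ℝ E]
  {HE : Type*} [TopologicalSpace HE] {IE : ModelWithCorners ℝ E HE}
  {M : Type*} [TopologicalSpace M] [ChartedSpace HE M]
  [IsManifold IE ∞ M] [IsManifold IE 1 M] [IE.Boundaryless]

theorem exists_complement_map (D : F →L[ℝ] E) (hD : Injective D)
    (hdim : Module.finrank ℝ E = Module.finrank ℝ F + Module.finrank ℝ G) :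
    ∃ B : G →L[ℝ] E, Bijective (fun p : F × G => D p.1 + B p.2) := by
  let D' : F →ₗ[ℝ] E := D
  obtain ⟨C, hC⟩ := Submodule.exists_isCompl (LinearMap.range D')
  have h1 : Module.finrank ℝ (LinearMap.range D') = Module.finrank ℝ F :=
    LinearMap.finrank_range_of_inj hD
  have h2 := Submodule.finrank_add_eq_of_isCompl hC
  have h3 : Module.finrank ℝ G = Module.finrank ℝ C := by omega
  let e : G ≃ₗ[ℝ] C := LinearEquiv.ofFinrankEq G C h3
  let B : G →L[ℝ] E := LinearMap.toContinuousLinearMap (C.subtype.comp (e : G →ₗ[ℝ] C))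
  have hB : ∀ p, B p = (e p : E) := fun p => rfl
  refine ⟨B, ?_, ?_⟩
  · rintro ⟨a, b⟩ ⟨a', b'⟩ h
    simp only at h
    have h4 : D (a - a') = B (b' - b) := by
      rw [map_sub, map_sub]
      have : D a - D a' = B b' - B b := by
        rw [sub_eq_sub_iff_add_eq_add, h, add_comm]
      exact this
    have h5 : D (a - a') ∈ LinearMap.range D' ⊓ C := by
      refine ⟨⟨a - a', rfl⟩, ?_⟩
      rw [h4, hB]
      exact (e (b' - b)).2
    rw [hC.inf_eq_bot, Submodule.mem_bot] at h5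
    have h6 : a - a' = 0 := hD (h5.trans (map_zero D).symm)
    rw [h5, hB] at h4
    have h7 : e (b' - b) = 0 := Subtype.ext h4.symm
    have h8 : b' - b = 0 := e.injective (h7.trans (map_zero e).symm)
    exact Prod.ext (sub_eq_zero.1 h6) (sub_eq_zero.1 h8).symm
  · intro z
    have h4 : z ∈ LinearMap.range D' ⊔ C := by rw [hC.sup_eq_top]; trivial
    obtain ⟨_, ⟨a, rfl⟩, c, hc, rfl⟩ := Submodule.mem_sup.1 h4
    refine ⟨(a, e.symm ⟨c, hc⟩), ?_⟩
    simp only [hB, LinearEquiv.apply_symm_apply]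
    rfl

theorem bijective_nhds {E' : Type*} [NormedAddCommGroup E'] [NormedSpace ℝ E']
    [FiniteDimensional ℝ E'] {g : E' → E} {p : E'} (hg : ContDiffAt ℝ ∞ g p)
    (hb : Bijective (fderiv ℝ g p)) : ∀ᶠ p' in 𝓝 p, Bijective (fderiv ℝ g p') := by
  have hcomplete : CompleteSpace E' := FiniteDimensional.complete ℝ E'
  let A : E' ≃L[ℝ] E :=
    (LinearEquiv.ofBijective (fderiv ℝ g p : E' →ₗ[ℝ] E) hb).toContinuousLinearEquiv
  have hA : (A : E' →L[ℝ] E) = fderiv ℝ g p := by
    ext v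
    rfl
  have h1 : ContinuousAt (fderiv ℝ g) p :=
    (hg.fderiv_right (m := ∞) (by simp)).continuousAt
  have h2 := A.nhds
  rw [hA] at h2
  filter_upwards [h1.eventually h2] with p' hp'
  obtain ⟨A', hA'⟩ := hp'
  rw [← hA']
  exact A'.bijective

/-- Adapted coordinates near a point of an immersed submanifold. -/
theorem exists_adapted {ι : L → M} (hι : ContMDiff I IE ∞ ι) {x₀ : L}
    (hinj : Injective (mfderiv I IE ι x₀))
    (hdim : Module.finrank ℝ E = Module.finrank ℝ F + Module.finrank ℝ G) :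
    ∃ c : F × G → M,
      (∀ᶠ p in 𝓝 ((extChartAt I x₀ x₀, 0) : F × G), ContMDiffAt 𝓘(ℝ, F × G) IE ∞ c p ∧
        Bijective (mfderiv 𝓘(ℝ, F × G) IE c p)) ∧
      ∀ᶠ q in 𝓝 (extChartAt I x₀ x₀), c (q, 0) = ι ((extChartAt I x₀).symm q) := by
  set q₀ := extChartAt I x₀ x₀ with hq₀
  set eX := extChartAt IE (ι x₀) with heX
  have hx := mem_extChartAt_source (I := I) x₀
  have hz : q₀ ∈ (extChartAt I x₀).target := (extChartAt I x₀).map_source hx
  have hl : (extChartAt I x₀).symm q₀ = x₀ := (extChartAt I x₀).left_inv hx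
  have hιx : ι x₀ ∈ eX.source := mem_extChartAt_source (ι x₀)
  set g : F → E := eX ∘ ι ∘ (extChartAt I x₀).symm with hg
  have hcont : ContinuousAt (fun q => ι ((extChartAt I x₀).symm q)) q₀ :=
    hι.continuous.continuousAt.comp (contMDiffAt_symm (I := I) x₀ hz).continuousAt
  have hsrc : ∀ᶠ q in 𝓝 q₀, ι ((extChartAt I x₀).symm q) ∈ eX.source := by
    apply hcont.eventually
    simp only [hl]
    exact (isOpen_extChartAt_source (ι x₀)).mem_nhds hιx
  have hgs : ∀ᶠ q in 𝓝 q₀, ContDiffAt ℝ ∞ g q := by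
    filter_upwards [(isOpen_extChartAt_target (I := I) x₀).mem_nhds hz, hsrc] with q h1 h2
    exact contDiffAt_written x₀ (ι x₀) h1 (hι _) h2
  have hginj : Injective (fderiv ℝ g q₀) := by
    intro u v huv
    rw [hg, heX, hq₀, fderiv_written (hι x₀), fderiv_written (hι x₀)] at huv
    have h1 := (bijective_mfderiv_chart (I := IE) (ι x₀) hιx).1 huv
    exact (bijective_mfderiv_symm (I := I) x₀ hz).1 (hinj h1)
  obtain ⟨B, hB⟩ := exists_complement_map (G := G) (fderiv ℝ g q₀) hginj hdim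
  set Γ : F × G → E := fun p => g p.1 + B p.2 with hΓ
  have hfst : Tendsto (fun p : F × G => p.1) (𝓝 (q₀, 0)) (𝓝 q₀) := by
    have : ContinuousAt (fun p : F × G => p.1) (q₀, 0) := by fun_prop
    exact this
  have hΓs : ∀ᶠ p in 𝓝 ((q₀, 0) : F × G), ContDiffAt ℝ ∞ Γ p := by
    filter_upwards [hfst.eventually hgs] with p hp
    have h1 : ContDiffAt ℝ ∞ (fun p : F × G => g p.1) p :=
      ContDiffAt.comp (x := p) (g := g) (f := fun p : F × G => p.1) hp contDiffAt_fst
    have h2 : ContDiffAt ℝ ∞ (fun p : F × G => B p.2) p :=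
      B.contDiff.contDiffAt.comp p contDiffAt_snd
    exact h1.add h2
  have hΓb : Bijective (fderiv ℝ Γ (q₀, 0)) := by
    have h1 : HasFDerivAt (fun p : F × G => g p.1)
        ((fderiv ℝ g q₀).comp (ContinuousLinearMap.fst ℝ F G)) (q₀, 0) :=
      HasFDerivAt.comp (x := ((q₀, 0) : F × G)) (g := g) (f := fun p : F × G => p.1)
        ((hgs.self_of_nhds).differentiableAt (by simp)).hasFDerivAt hasFDerivAt_fst
    have h2 : HasFDerivAt (fun p : F × G => B p.2)
        (B.comp (ContinuousLinearMap.snd ℝ F G)) (q₀, 0) :=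
      B.hasFDerivAt.comp (q₀, 0) hasFDerivAt_snd
    have h3 : HasFDerivAt Γ ((fderiv ℝ g q₀).comp (ContinuousLinearMap.fst ℝ F G) +
        B.comp (ContinuousLinearMap.snd ℝ F G)) (q₀, 0) := h1.add h2
    rw [h3.fderiv]
    exact hB
  have hΓbn := bijective_nhds hΓs.self_of_nhds hΓb
  have hΓ0 : Γ (q₀, 0) = eX (ι x₀) := by
    simp only [hΓ, hg, comp_apply, hl, map_zero, add_zero]
  have hΓt : ∀ᶠ p in 𝓝 ((q₀, 0) : F × G), Γ p ∈ eX.target := by
    apply (hΓs.self_of_nhds).continuousAt.eventually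
    rw [hΓ0]
    exact (isOpen_extChartAt_target (ι x₀)).mem_nhds (eX.map_source hιx)
  refine ⟨eX.symm ∘ Γ, ?_, ?_⟩
  · filter_upwards [hΓs, hΓbn, hΓt] with p h1 h2 h3
    have h4 : ContMDiffAt 𝓘(ℝ, F × G) 𝓘(ℝ, E) ∞ Γ p := contMDiffAt_iff_contDiffAt.2 h1
    have h5 : ContMDiffAt 𝓘(ℝ, E) IE ∞ eX.symm (Γ p) := contMDiffAt_symm (ι x₀) h3
    refine ⟨h5.comp p h4, ?_⟩
    rw [mfderiv_comp p (h5.mdifferentiableAt infty_ne_zero) (h4.mdifferentiableAt infty_ne_zero)]
    have h6 : Bijective (mfderiv 𝓘(ℝ, F × G) 𝓘(ℝ, E) Γ p) := by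
      rw [mfderiv_eq_fderiv]
      exact h2
    exact (bijective_mfderiv_symm (I := IE) (ι x₀) h3).comp h6
  · filter_upwards [hsrc] with q hq
    change eX.symm (g q + B 0) = _
    rw [map_zero, add_zero]
    exact eX.left_inv hq

end Pool.Agent.H67.Liou
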