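import Pool.Agent.H67.Liou.Flow

/-! Completeness of compactly supported perturbations of complete vector fields. -/

open Topology Filter Set Function
open scoped ContDiff Manifold

namespace Pool.Agent.H67.Liou

universe u

variable {E : Type u} [NormedAddCommGroup E] [NormedSpace ℝ E]
  {H : Type*} [TopologicalSpace H] {I : ModelWithCorners ℝ E H}
  {M : Type*} [TopologicalSpace M] [ChartedSpace H M]
  [IsManifold I ∞ M] [IsManifold I 1 M] [I.Boundaryless]

set_option backward.isDefEq.respectTransparency false in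
/-- Locally uniform existence time. -/
theorem local_uniform_time [FiniteDimensional ℝ E] {v : (x : M) → TangentSpace I x}
    (hv : SmoothVF I v) (x₀ : M) :
    ∃ N ∈ 𝓝 x₀, ∃ ε > 0, ∀ x ∈ N, ∃ γ : ℝ → M, γ 0 = x ∧ IsMIntegralCurveOn γ v (Ioo (-ε) ε) := by
  obtain ⟨ψ, hψ, hψ0, hψc⟩ := local_flow hv x₀
  set e := extChartAt I x₀ with he
  rw [nhds_prod_eq, eventually_prod_iff] at hψc
  obtain ⟨pa, hpa, pb, hpb, hab⟩ := hψc
  obtain ⟨δ, hδ, hδa⟩ := Metric.eventually_nhds_iff_ball.1 hpa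
  have hτ : pa (δ / 2) := hδa _ (by
    rw [Metric.mem_ball, Real.dist_eq, sub_zero, abs_of_pos (by positivity)]; linarith)
  have hτ0 : (0 : ℝ) < δ / 2 := by positivity
  refine ⟨{x | x ∈ e.source ∧ pb (e x)}, ?_, δ / 2, hτ0, ?_⟩
  · have h1 : ∀ᶠ x in 𝓝 x₀, pb (e x) := (continuousAt_extChartAt (I := I) x₀).eventually hpb
    have h2 : ∀ᶠ x in 𝓝 x₀, x ∈ e.source :=
      (isOpen_extChartAt_source x₀).mem_nhds (mem_extChartAt_source x₀)
    exact h2.and h1
  · rintro x ⟨hxs, hxb⟩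
    obtain ⟨-, hinit, hcurve⟩ := hab hτ hxb
    have h1 := hcurve.comp_mul (δ / 2)⁻¹
    refine ⟨(e.symm ∘ fun t => ψ (δ / 2, e x) (pr t)) ∘ (· * (δ / 2)⁻¹), ?_, ?_⟩
    · simp only [comp_apply, zero_mul, hinit]
      exact e.left_inv hxs
    · have h2 : ((δ / 2)⁻¹ • fun x => ((δ / 2) • v x : TangentSpace I x)) = v := by
        funext x
        simp only [Pi.smul_apply]
        rw [smul_smul, inv_mul_cancel₀ hτ0.ne', one_smul]
      have h3 : IsMIntegralCurveOn ((e.symm ∘ fun t => ψ (δ / 2, e x) (pr t)) ∘ (· * (δ / 2)⁻¹)) v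
          {t | t * (δ / 2)⁻¹ ∈ Ioo (-2 : ℝ) 2} := by
        rw [h2] at h1
        exact h1
      refine h3.mono ?_
      intro t ht
      have h4 : t * (δ / 2)⁻¹ < 2 := by
        rw [← div_eq_mul_inv, div_lt_iff₀ hτ0]
        linarith [ht.2]
      have h5 : -2 < t * (δ / 2)⁻¹ := by
        rw [← div_eq_mul_inv, lt_div_iff₀ hτ0]
        linarith [ht.1]
      exact ⟨h5, h4⟩

theorem exists_flow_of_eq_off_compact [FiniteDimensional ℝ E] [T2Space M]
    {v v' : (x : M) → TangentSpace I x} (hv : SmoothVF I v) (hv' : SmoothVF I v')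
    {φ : ℝ → M → M} (hφ : IsFlow I v φ) {C : Set M} (hC : IsCompact C)
    (hvv : ∀ x ∉ C, v' x = v x) : ∃ φ', IsFlow I v' φ' := by
  apply IsFlow.exists
  have hcont : Continuous (fun p : ℝ × M => φ p.1 p.2) := (hφ.contMDiff hv).continuous
  set C' : Set M := (fun p : ℝ × M => φ p.1 p.2) '' (Icc (-1) 1 ×ˢ C) with hC'
  have hC'c : IsCompact C' := (isCompact_Icc.prod hC).image hcont
  -- uniform time on C'
  obtain ⟨ε₁, hε₁, hunif⟩ : ∃ ε₁ > 0, ∀ x ∈ C', ∃ γ : ℝ → M, γ 0 = x ∧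
      IsMIntegralCurveOn γ v' (Ioo (-ε₁) ε₁) := by
    choose N hN ε hε hNε using fun x : M => local_uniform_time hv' x
    obtain ⟨t, htC, ht⟩ := hC'c.elim_nhds_subcover N (fun x _ => hN x)
    by_cases hne : t.Nonempty
    · refine ⟨t.inf' hne ε, ?_, ?_⟩
      · rw [gt_iff_lt, Finset.lt_inf'_iff]
        exact fun x _ => hε x
      · intro x hx
        obtain ⟨y, hy, hxy⟩ := by simpa only [mem_iUnion, exists_prop] using ht hx
        obtain ⟨γ, h0, hγ⟩ := hNε y x hxy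
        have hle : t.inf' hne ε ≤ ε y := Finset.inf'_le _ hy
        exact ⟨γ, h0, hγ.mono (Ioo_subset_Ioo (neg_le_neg hle) hle)⟩
    · rw [Finset.not_nonempty_iff_eq_empty] at hne
      refine ⟨1, one_pos, fun x hx => ?_⟩
      have := ht hx
      simp [hne] at this
  have hε : 0 < min ε₁ 1 := lt_min hε₁ one_pos
  refine exists_isMIntegralCurve_of_isMIntegralCurveOn hv'.one hε ?_
  intro x
  by_cases hx : x ∈ C'
  · obtain ⟨γ, h0, hγ⟩ := hunif x hx
    exact ⟨γ, h0, hγ.mono (Ioo_subset_Ioo (neg_le_neg (min_le_left _ _)) (min_le_left _ _))⟩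
  · refine ⟨fun t => φ t x, hφ.zero x, ?_⟩
    intro t ht
    have ht1 : |t| < 1 := abs_lt.2 ⟨by linarith [ht.1, min_le_right ε₁ 1],
      by linarith [ht.2, min_le_right ε₁ 1]⟩
    have hnot : φ t x ∉ C := by
      intro hmem
      apply hx
      refine ⟨(-t, φ t x), ⟨?_, hmem⟩, hφ.neg_apply hv t x⟩
      rw [abs_lt] at ht1
      constructor <;> simp only <;> linarith [ht1.1, ht1.2]
    have h1 := (hφ.curve x t).hasMFDerivWithinAt (s := Ioo (-(min ε₁ 1)) (min ε₁ 1))
    rw [← hvv _ hnot] at h1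
    exact h1

end Pool.Agent.H67.Liou
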