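import Pool.Agent.H67.Liou.Main

/-! Convex domains and cores of Liouville manifolds. -/

open Topology Filter Set Function
open scoped ContDiff Manifold

set_option linter.unusedSectionVars false

namespace Pool.Agent.H67.Liou

universe u v

section

variable {E : Type u} [NormedAddCommGroup E] [NormedSpace ℝ E] [FiniteDimensional ℝ E]
  {H : Type*} [TopologicalSpace H] {I : ModelWithCorners ℝ E H}
  {M : Type*} [TopologicalSpace M] [ChartedSpace H M]
  [IsManifold I ∞ M] [IsManifold I 1 M] [I.Boundaryless] [T2Space M]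

variable {S : LStr I M} {X₀ : Set M}

/-- A curve that leaves a boundary point backwards enters the interior. -/
theorem ConvexDomain.enter (hX : ConvexDomain I (zdual I S.lam) S.φ X₀) {x : M} (hx : x ∈ X₀) :
    ∃ ε : ℝ, 0 < ε ∧ ∀ r, 0 < r → r < ε → S.φ (-r) x ∈ interior X₀ := by
  have hcont : Tendsto (fun r : ℝ => S.φ (-r) x) (𝓝 0) (𝓝 x) := by
    have h1 : Continuous (fun r : ℝ => S.φ (-r) x) := (S.continuous_orbit x).comp continuous_neg
    have h2 := h1.tendsto 0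
    simp only [neg_zero] at h2
    rwa [S.zero] at h2
  by_cases hint : x ∈ interior X₀
  · have h1 : ∀ᶠ r : ℝ in 𝓝 0, S.φ (-r) x ∈ interior X₀ :=
      hcont.eventually (isOpen_interior.mem_nhds hint)
    obtain ⟨ε, hε, h2⟩ := Metric.eventually_nhds_iff.1 h1
    refine ⟨ε, hε, fun r hr0 hr => h2 ?_⟩
    rw [Real.dist_eq, sub_zero, abs_of_pos hr0]
    exact hr
  · have hfr : x ∈ frontier X₀ := ⟨subset_closure hx, hint⟩
    obtain ⟨h, hs, h0, hloc, hpos⟩ := hX.boundary x hfr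
    -- the derivative of `h` along the orbit
    have h3 := (hs.mdifferentiableAt infty_ne_zero).hasMFDerivAt
    have h2 : HasMFDerivAt 𝓘(ℝ, ℝ) I (fun t => S.φ t x) 0 _ := S.flow.curve x 0
    have hx0 : S.φ 0 x = x := S.zero x
    have h3' : HasMFDerivAt I 𝓘(ℝ, ℝ) h (S.φ 0 x) (mfderiv I 𝓘(ℝ, ℝ) h (S.φ 0 x)) := by
      have : MDifferentiableAt I 𝓘(ℝ, ℝ) h (S.φ 0 x) := by
        rw [hx0]
        exact hs.mdifferentiableAt infty_ne_zero
      exact this.hasMFDerivAt
    have h4 := h3'.comp 0 h2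
    have hpos' : 0 < dfn I h (S.φ 0 x) (zdual I S.lam (S.φ 0 x)) := by
      rw [hx0]
      exact hpos
    have h6 : HasDerivAt (h ∘ fun t => S.φ t x) (dfn I h (S.φ 0 x) (zdual I S.lam (S.φ 0 x))) 0 := by
      have h5 : HasFDerivAt (h ∘ fun t => S.φ t x) ((1 : ℝ →L[ℝ] ℝ).smulRight
          (dfn I h (S.φ 0 x) (zdual I S.lam (S.φ 0 x)) : ℝ)) 0 := by
        refine HasMFDerivAt.hasFDerivAt (h4.congr_mfderiv ?_)
        have h8 : ∀ r : ℝ, (mfderiv I 𝓘(ℝ, ℝ) h (S.φ 0 x) : E →L[ℝ] ℝ)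
            (r • (zdual I S.lam (S.φ 0 x) : E)) =
            r • ((mfderiv I 𝓘(ℝ, ℝ) h (S.φ 0 x) : E →L[ℝ] ℝ) (zdual I S.lam (S.φ 0 x)) : ℝ) :=
          fun r => map_smul (mfderiv I 𝓘(ℝ, ℝ) h (S.φ 0 x) : E →L[ℝ] ℝ) r
            (zdual I S.lam (S.φ 0 x) : E)
        exact ContinuousLinearMap.ext h8
      have h7 := h5.hasDerivAt
      refine h7.congr_deriv ?_
      rw [ContinuousLinearMap.smulRight_apply]
      simp
    -- near `x`, points with negative `h` are interior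
    have hcn : ∀ᶠ y in 𝓝 x, ContinuousAt h y := by
      filter_upwards [eventually_contMDiffAt_one hs] with y hy
      exact hy.continuousAt
    have hneg : ∀ᶠ y in 𝓝 x, h y < 0 → y ∈ interior X₀ := by
      filter_upwards [hloc.eventually_nhds, hcn] with y h1 h2 h3
      rw [mem_interior_iff_mem_nhds]
      filter_upwards [h1, h2.eventually (Iio_mem_nhds h3)] with z hz1 hz2
      exact hz1.2 (le_of_lt hz2)
    -- the derivative is positive, so `h` is negative just before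
    have h8 : ∀ᶠ t in 𝓝[<] (0 : ℝ), (h ∘ fun t => S.φ t x) t < (h ∘ fun t => S.φ t x) 0 := by
      have h9 := h6.hasDerivWithinAt (s := Iio 0)
      have h10 := (hasDerivWithinAt_iff_tendsto_slope' (by simp)).1 h9
      have h11 : ∀ᶠ t in 𝓝[<] (0 : ℝ), 0 < slope (h ∘ fun t => S.φ t x) 0 t :=
        h10.eventually (Ioi_mem_nhds hpos')
      filter_upwards [h11, self_mem_nhdsWithin] with t ht1 ht2
      rw [slope_def_field] at ht1
      have ht3 : t - 0 < 0 := by
        have : t < 0 := ht2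
        linarith
      by_contra hcon
      rw [not_lt] at hcon
      have := div_nonpos_of_nonneg_of_nonpos (sub_nonneg.2 hcon) ht3.le
      linarith
    have h12 : ∀ᶠ t in 𝓝[<] (0 : ℝ), h (S.φ t x) < 0 := by
      filter_upwards [h8] with t ht
      have h13 : h (S.φ t x) < h (S.φ 0 x) := ht
      rwa [hx0, h0] at h13
    have h14 : Tendsto (fun t : ℝ => S.φ t x) (𝓝[<] 0) (𝓝 x) := by
      have h1 := (S.continuous_orbit x).tendsto 0
      rw [S.zero] at h1
      exact h1.mono_left nhdsWithin_le_nhds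
    have h15 : ∀ᶠ t in 𝓝[<] (0 : ℝ), S.φ t x ∈ interior X₀ := by
      filter_upwards [h12, h14.eventually hneg] with t h1 h2
      exact h2 h1
    rw [eventually_nhdsWithin_iff] at h15
    obtain ⟨ε, hε, h16⟩ := Metric.eventually_nhds_iff.1 h15
    refine ⟨ε, hε, fun r hr0 hr => h16 ?_ ?_⟩
    · rw [Real.dist_eq, sub_zero, abs_neg, abs_of_pos hr0]
      exact hr
    · exact neg_lt_zero.2 hr0

theorem ConvexDomain.back (hX : ConvexDomain I (zdual I S.lam) S.φ X₀) {x : M} (hx : x ∈ X₀)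
    {t : ℝ} (ht : 0 ≤ t) : S.φ (-t) x ∈ X₀ := by
  have hclosed : IsClosed X₀ := hX.isCompact.isClosed
  have hc : Continuous (fun r : ℝ => S.φ (-r) x) := (S.continuous_orbit x).comp continuous_neg
  have h1 : Icc 0 t ⊆ {r : ℝ | S.φ (-r) x ∈ X₀} := by
    apply IsClosed.Icc_subset_of_forall_exists_gt
    · exact (hclosed.preimage hc).inter isClosed_Icc
    · change S.φ (-0) x ∈ X₀
      rw [neg_zero, S.zero]
      exact hx
    · rintro s ⟨hs, hs0, hst⟩ y hy
      obtain ⟨ε, hε, h2⟩ := hX.enter hs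
      set r := min (ε / 2) (y - s) with hr
      have hy' : s < y := hy
      have hr0 : 0 < r := lt_min (by linarith) (by linarith)
      have hr1 : r < ε := (min_le_left _ _).trans_lt (by linarith)
      have hr2 : r ≤ y - s := min_le_right _ _
      refine ⟨s + r, ?_, by linarith, by linarith⟩
      have h3 := h2 r hr0 hr1
      rw [← S.add] at h3
      have h4 : -r + -s = -(s + r) := by ring
      rw [h4] at h3
      have h5 : S.φ (-(s + r)) x ∈ X₀ := interior_subset h3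
      exact h5
  exact h1 ⟨ht, le_rfl⟩

theorem ConvexDomain.back_int (hX : ConvexDomain I (zdual I S.lam) S.φ X₀) {x : M}
    (hx : x ∈ interior X₀) {t : ℝ} (ht : 0 ≤ t) : S.φ (-t) x ∈ interior X₀ := by
  have hV : IsOpen (S.φ t ⁻¹' interior X₀) := isOpen_interior.preimage (S.continuous_time t)
  have hVB : S.φ t ⁻¹' interior X₀ ⊆ X₀ := by
    intro y hy
    have h3 := hX.back (interior_subset hy) ht
    rwa [S.neg_apply] at h3
  apply interior_maximal hVB hV
  rw [mem_preimage, S.apply_neg]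
  exact hx

theorem ConvexDomain.back_pos (hX : ConvexDomain I (zdual I S.lam) S.φ X₀) {x : M} (hx : x ∈ X₀)
    {t : ℝ} (ht : 0 < t) : S.φ (-t) x ∈ interior X₀ := by
  obtain ⟨ε, hε, h1⟩ := hX.enter hx
  set r := min (ε / 2) t with hr
  have hr0 : 0 < r := lt_min (by linarith) ht
  have hr1 : r < ε := (min_le_left _ _).trans_lt (by linarith)
  have hr2 : r ≤ t := min_le_right _ _
  have h2 := hX.back_int (h1 r hr0 hr1) (t := t - r) (by linarith)
  rw [← S.add] at h2
  have h3 : -(t - r) + -r = -t := by ring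
  rwa [h3] at h2

theorem ConvexDomain.exhaust (hX : ConvexDomain I (zdual I S.lam) S.φ X₀) (y : M) :
    ∃ t : ℝ, 0 ≤ t ∧ ∀ s, t ≤ s → S.φ (-s) y ∈ interior X₀ := by
  have h0 : ∃ t : ℝ, 0 ≤ t ∧ S.φ (-t) y ∈ interior X₀ := by
    by_cases hy : y ∈ interior X₀
    · refine ⟨0, le_rfl, ?_⟩
      rw [neg_zero, S.zero]
      exact hy
    · obtain ⟨x, hx, t, ht, rfl⟩ := hX.sweep y hy
      have hxX : x ∈ X₀ := by
        have h1 := frontier_subset_closure hx
        rwa [hX.isCompact.isClosed.closure_eq] at h1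
      refine ⟨t + 1, by linarith, ?_⟩
      have h2 : -(t + 1) = -1 + -t := by ring
      rw [h2, S.add, S.neg_apply]
      exact hX.back_pos hxX one_pos
  obtain ⟨t, ht, h1⟩ := h0
  refine ⟨t, ht, fun s hs => ?_⟩
  have h2 := hX.back_int h1 (t := s - t) (by linarith)
  rw [← S.add] at h2
  have h3 : -(s - t) + -t = -s := by ring
  rwa [h3] at h2

theorem ConvexDomain.exhaust_compact (hX : ConvexDomain I (zdual I S.lam) S.φ X₀) {B : Set M}
    (hB : IsCompact B) : ∃ T : ℝ, 0 ≤ T ∧ ∀ x ∈ B, S.φ (-T) x ∈ interior X₀ := by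
  have hopen : ∀ n : ℕ, IsOpen {x : M | S.φ (-(n : ℝ)) x ∈ interior X₀} := fun n =>
    isOpen_interior.preimage (S.continuous_time _)
  obtain ⟨t, ht⟩ := hB.elim_finite_subcover _ hopen (fun y _ => by
    obtain ⟨t, _, h1⟩ := hX.exhaust y
    obtain ⟨n, hn⟩ := exists_nat_ge t
    exact mem_iUnion.2 ⟨n, h1 n hn⟩)
  refine ⟨(t.sup id : ℕ), by positivity, fun x hx => ?_⟩
  obtain ⟨n, hn, h1⟩ := mem_iUnion₂.1 (ht hx)
  have h2 : n ≤ t.sup id := Finset.le_sup (f := id) hn
  have h2' : (n : ℝ) ≤ (t.sup id : ℕ) := by exact_mod_cast h2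
  have h3 : S.φ (-(n : ℝ)) x ∈ interior X₀ := h1
  have h4 := hX.back_int h3 (t := ((t.sup id : ℕ) : ℝ) - n) (by linarith)
  rw [← S.add] at h4
  have h5 : -(((t.sup id : ℕ) : ℝ) - n) + -(n : ℝ) = -((t.sup id : ℕ) : ℝ) := by ring
  rwa [h5] at h4

theorem ConvexDomain.mem_core (hX : ConvexDomain I (zdual I S.lam) S.φ X₀) {x : M} :
    x ∈ core S.φ X₀ ↔ ∀ t : ℝ, S.φ t x ∈ X₀ := by
  unfold core
  simp only [mem_iInter, mem_Ioi]
  constructor
  · intro h t
    have h1 : ∀ s : ℝ, 0 < s → S.φ s x ∈ X₀ := by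
      intro s hs
      obtain ⟨y, hy, rfl⟩ := h s hs
      rwa [S.apply_neg]
    set s := max t 0 + 1 with hs
    have hs0 : 0 < s := by
      have := le_max_right t 0
      linarith
    have hst : t ≤ s := by
      have := le_max_left t 0
      linarith
    have h2 := hX.back (h1 s hs0) (t := s - t) (by linarith)
    rw [← S.add] at h2
    have h3 : -(s - t) + s = t := by ring
    rwa [h3] at h2
  · intro h t _
    exact ⟨S.φ t x, h t, S.neg_apply t x⟩

theorem ConvexDomain.core_inv (hX : ConvexDomain I (zdual I S.lam) S.φ X₀) (t : ℝ) {x : M}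
    (hx : x ∈ core S.φ X₀) : S.φ t x ∈ core S.φ X₀ := by
  rw [hX.mem_core] at hx ⊢
  intro s
  rw [← S.add]
  exact hx _

theorem ConvexDomain.absorbs (hX : ConvexDomain I (zdual I S.lam) S.φ X₀) :
    Absorbs S (core S.φ X₀) where
  isCompact := by
    have hclosed : IsClosed (core S.φ X₀) := by
      unfold core
      refine isClosed_biInter fun t _ => ?_
      exact (hX.isCompact.image (S.continuous_time (-t))).isClosed
    refine hX.isCompact.of_isClosed_subset hclosed fun x hx => ?_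
    have h1 := hX.mem_core.1 hx 0
    rwa [S.zero] at h1
  inv := fun t x hx => hX.core_inv t hx
  absorb := by
    intro B hB W hW hCW
    obtain ⟨T, hT0, hT⟩ := hX.exhaust_compact hB
    have hcompact : ∀ n : ℕ, IsCompact (S.φ (-(n : ℝ)) '' X₀) := fun n =>
      hX.isCompact.image (S.continuous_time _)
    have hmono : ∀ n m : ℕ, n ≤ m → S.φ (-(m : ℝ)) '' X₀ ⊆ S.φ (-(n : ℝ)) '' X₀ := by
      rintro n m hnm _ ⟨x, hx, rfl⟩
      have hnm' : (n : ℝ) ≤ m := by exact_mod_cast hnm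
      refine ⟨S.φ (-((m : ℝ) - n)) x, hX.back hx (by linarith), ?_⟩
      rw [← S.add]
      congr 1
      ring
    have hdir : Directed (· ⊇ ·) (fun n : ℕ => S.φ (-(n : ℝ)) '' X₀) := by
      intro n m
      exact ⟨max n m, hmono _ _ (le_max_left _ _), hmono _ _ (le_max_right _ _)⟩
    obtain ⟨n, hn⟩ := exists_subset_nhds_of_isCompact hdir hcompact (U := W) (by
      intro x hx
      apply hW.mem_nhds
      apply hCW
      rw [hX.mem_core]
      intro t
      obtain ⟨n, hn⟩ := exists_nat_ge t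
      obtain ⟨y, hy, hyx⟩ := mem_iInter.1 hx n
      rw [← hyx, ← S.add]
      have h1 : t + -(n : ℝ) = -((n : ℝ) - t) := by ring
      rw [h1]
      exact hX.back hy (by linarith))
    refine ⟨T + n, by positivity, fun t ht x hx => ?_⟩
    apply hn
    have h1 := hX.back_int (hT x hx) (t := t - n - T) (by linarith)
    rw [← S.add] at h1
    refine ⟨_, interior_subset h1, ?_⟩
    rw [← S.add]
    congr 1
    ring

end

section tangent

variable {F : Type u} [NormedAddCommGroup F] [NormedSpace ℝ F] [FiniteDimensional ℝ F]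
  {H : Type*} [TopologicalSpace H] {I : ModelWithCorners ℝ F H}
  {L : Type*} [TopologicalSpace L] [ChartedSpace H L]
  [IsManifold I ∞ L] [IsManifold I 1 L] [I.Boundaryless]
  {E : Type v} [NormedAddCommGroup E] [NormedSpace ℝ E] [FiniteDimensional ℝ E]
  {HE : Type*} [TopologicalSpace HE] {IE : ModelWithCorners ℝ E HE}
  {M : Type*} [TopologicalSpace M] [ChartedSpace HE M]
  [IsManifold IE ∞ M] [IsManifold IE 1 M] [IE.Boundaryless]

/-- The velocity of a curve contained in a compact submanifold is tangent to it. -/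
theorem tangent_of_curve (G : Type*) [NormedAddCommGroup G] [NormedSpace ℝ G]
    [FiniteDimensional ℝ G] [T2Space M] [CompactSpace L]
    {ι : L → M} (hι : ContMDiff I IE ∞ ι) (hιi : Injective ι) {x₀ : L}
    (hinj : Injective (mfderiv I IE ι x₀))
    (hdim : Module.finrank ℝ E = Module.finrank ℝ F + Module.finrank ℝ G)
    {γ : ℝ → M} {z : E} (h0 : γ 0 = ι x₀)
    (hγ : HasMFDerivAt 𝓘(ℝ, ℝ) IE γ 0 ((1 : ℝ →L[ℝ] ℝ).smulRight z : ℝ →L[ℝ] E))
    (hr : ∀ t, γ t ∈ range ι) : ∃ w : TangentSpace I x₀, mfderiv I IE ι x₀ w = z := by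
  set q₀ := extChartAt I x₀ x₀ with hq₀
  have hx := mem_extChartAt_source (I := I) x₀
  have hz : q₀ ∈ (extChartAt I x₀).target := (extChartAt I x₀).map_source hx
  have hl : (extChartAt I x₀).symm q₀ = x₀ := (extChartAt I x₀).left_inv hx
  obtain ⟨c, hc, hcι⟩ := exists_adapted (G := G) hι hinj hdim
  have hc0 : c (q₀, 0) = ι x₀ := by rw [hcι.self_of_nhds, hl]
  obtain ⟨k, hk0, hks, hk1, hk2⟩ := ift_manifold_nhds hc
  rw [hc0] at hk0 hks hk1
  have hemb : IsClosedEmbedding ι := hι.continuous.isClosedEmbedding hιi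
  -- near `ι x₀` the second component of `k` vanishes on the range of `ι`
  have hq : Tendsto (fun x : L => ((extChartAt I x₀ x, 0) : F × G)) (𝓝 x₀) (𝓝 (q₀, 0)) := by
    have h1 : ContinuousAt (extChartAt I x₀) x₀ := continuousAt_extChartAt (I := I) x₀
    exact h1.prodMk continuousAt_const
  have hq' : Tendsto (extChartAt I x₀) (𝓝 x₀) (𝓝 q₀) := continuousAt_extChartAt (I := I) x₀
  have h1 : ∀ᶠ x in 𝓝 x₀, (k (ι x)).2 = 0 := by
    filter_upwards [(isOpen_extChartAt_source (I := I) x₀).mem_nhds hx, hq.eventually hk2,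
      hq'.eventually hcι] with x h1 h2 h3
    rw [(extChartAt I x₀).left_inv h1] at h3
    rw [← h3, h2]
  rw [hemb.isInducing.nhds_eq_comap, eventually_comap] at h1
  have hγc : Tendsto γ (𝓝 0) (𝓝 (ι x₀)) := by
    have := hγ.continuousAt
    rwa [ContinuousAt, h0] at this
  have h2 : ∀ᶠ t in 𝓝 (0 : ℝ), (k (γ t)).2 = 0 := by
    filter_upwards [hγc.eventually h1] with t ht
    obtain ⟨x, hx⟩ := hr t
    rw [← hx]
    exact ht x hx
  -- differentiate
  have hkd : HasMFDerivAt IE 𝓘(ℝ, F × G) k (γ 0) (mfderiv IE 𝓘(ℝ, F × G) k (γ 0)) := by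
    have : MDifferentiableAt IE 𝓘(ℝ, F × G) k (γ 0) := by
      rw [h0]
      exact hks.self_of_nhds.mdifferentiableAt infty_ne_zero
    exact this.hasMFDerivAt
  have h3 : HasFDerivAt (k ∘ γ) ((mfderiv IE 𝓘(ℝ, F × G) k (γ 0) : E →L[ℝ] F × G).comp
      ((1 : ℝ →L[ℝ] ℝ).smulRight z : ℝ →L[ℝ] E)) 0 := (hkd.comp 0 hγ).hasFDerivAt
  have h4 : HasFDerivAt (fun t => (k (γ t)).2) ((ContinuousLinearMap.snd ℝ F G).comp
      ((mfderiv IE 𝓘(ℝ, F × G) k (γ 0) : E →L[ℝ] F × G).comp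
      ((1 : ℝ →L[ℝ] ℝ).smulRight z : ℝ →L[ℝ] E))) 0 :=
    HasFDerivAt.comp (x := (0 : ℝ)) (g := (Prod.snd : F × G → G)) (f := k ∘ γ) hasFDerivAt_snd h3
  have h5 : HasFDerivAt (fun t => (k (γ t)).2) (0 : ℝ →L[ℝ] G) 0 :=
    (hasFDerivAt_const (0 : G) (0 : ℝ)).congr_of_eventuallyEq h2
  have h6 := h4.unique h5
  set A : E →L[ℝ] F × G := mfderiv IE 𝓘(ℝ, F × G) k (ι x₀) with hA
  have hAγ : (mfderiv IE 𝓘(ℝ, F × G) k (γ 0) : E →L[ℝ] F × G) = A := by
    have key : ∀ y : M, y = ι x₀ → (mfderiv IE 𝓘(ℝ, F × G) k y : E →L[ℝ] F × G) = A := by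
      rintro _ rfl
      rfl
    exact key _ h0
  have h7 : (A z).2 = 0 := by
    rw [hAγ] at h6
    have h8 : (A ((1 : ℝ) • z)).2 = 0 := congrArg (fun B : ℝ →L[ℝ] G => B 1) h6
    rwa [one_smul] at h8
  -- the derivative of `c` is inverse to `A`
  set B : F × G →L[ℝ] E := mfderiv 𝓘(ℝ, F × G) IE c (q₀, 0) with hB
  have hBA : B (A z) = z := by
    have e1 : (c ∘ k) =ᶠ[𝓝 (ι x₀)] id := hk1
    have e2 : MDifferentiableAt 𝓘(ℝ, F × G) IE c (k (ι x₀)) := by
      rw [hk0]
      exact hc.self_of_nhds.1.mdifferentiableAt infty_ne_zero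
    have e3 := mfderiv_comp (ι x₀) e2 (hks.self_of_nhds.mdifferentiableAt infty_ne_zero)
    have e4 : (mfderiv IE IE (c ∘ k) (ι x₀) : E →L[ℝ] E) = mfderiv IE IE id (ι x₀) :=
      e1.mfderiv_eq
    have e5 : (mfderiv IE IE (c ∘ k) (ι x₀) : E →L[ℝ] E) z = z := by
      rw [e4, mfderiv_id]
      rfl
    have e6 : (mfderiv 𝓘(ℝ, F × G) IE c (k (ι x₀)) : F × G →L[ℝ] E) = B := by
      have key : ∀ y : F × G, y = (q₀, 0) →
          (mfderiv 𝓘(ℝ, F × G) IE c y : F × G →L[ℝ] E) = B := by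
        rintro _ rfl
        rfl
      exact key _ hk0
    have e7 : (mfderiv IE IE (c ∘ k) (ι x₀) : E →L[ℝ] E) z =
      (mfderiv 𝓘(ℝ, F × G) IE c (k (ι x₀)) : F × G →L[ℝ] E) (A z) :=
      congrArg (fun C : E →L[ℝ] E => C z) e3
    exact (congrArg (fun C : F × G →L[ℝ] E => C (A z)) e6).symm.trans (e7.symm.trans e5)
  -- tangential derivative of `c`
  have hBu : ∀ u : F, ∃ w : TangentSpace I x₀, mfderiv I IE ι x₀ w = B (u, 0) := by
    intro u
    have e1 : HasFDerivAt (fun q' : F => ((q', 0) : F × G)) (ContinuousLinearMap.inl ℝ F G) q₀ :=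
      (ContinuousLinearMap.inl ℝ F G).hasFDerivAt
    have e2 := ((hc.self_of_nhds.1.mdifferentiableAt infty_ne_zero).hasMFDerivAt.comp q₀
      e1.hasMFDerivAt).mfderiv
    have e3 : (c ∘ fun q' : F => ((q', 0) : F × G)) =ᶠ[𝓝 q₀] ι ∘ (extChartAt I x₀).symm := by
      filter_upwards [hcι] with q' hq'
      exact hq'
    have hιd : MDifferentiableAt I IE ι ((extChartAt I x₀).symm q₀) :=
      (hι _).mdifferentiableAt infty_ne_zero
    have e4 := mfderiv_comp q₀ hιd (mdiffAt_symm (I := I) x₀ hz)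
    have e5 : (mfderiv 𝓘(ℝ, F) IE (c ∘ fun q' : F => ((q', 0) : F × G)) q₀ : F →L[ℝ] E) =
        mfderiv 𝓘(ℝ, F) IE (ι ∘ (extChartAt I x₀).symm) q₀ := e3.mfderiv_eq
    set w : F := (mfderiv 𝓘(ℝ, F) I (extChartAt I x₀).symm q₀ : F →L[ℝ] F) u with hw
    refine ⟨w, ?_⟩
    have e6 : (mfderiv 𝓘(ℝ, F) IE (c ∘ fun q' : F => ((q', 0) : F × G)) q₀ : F →L[ℝ] E) u =
        B (u, 0) := congrArg (fun C : F →L[ℝ] E => C u) e2
    have e7 : (mfderiv 𝓘(ℝ, F) IE (ι ∘ (extChartAt I x₀).symm) q₀ : F →L[ℝ] E) u =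
        (mfderiv I IE ι ((extChartAt I x₀).symm q₀) : F →L[ℝ] E) w :=
      congrArg (fun C : F →L[ℝ] E => C u) e4
    have e8 : (mfderiv I IE ι ((extChartAt I x₀).symm q₀) : F →L[ℝ] E) =
        (mfderiv I IE ι x₀ : F →L[ℝ] E) := by
      have key : ∀ y : L, y = x₀ →
          (mfderiv I IE ι y : F →L[ℝ] E) = (mfderiv I IE ι x₀ : F →L[ℝ] E) := by
        rintro _ rfl
        rfl
      exact key _ hl
    exact (congrArg (fun C : F →L[ℝ] E => C w) e8).symm.trans (e7.symm.trans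
      ((congrArg (fun C : F →L[ℝ] E => C u) e5).symm.trans e6))
  obtain ⟨w, hw⟩ := hBu (A z).1
  refine ⟨w, hw.trans ?_⟩
  have h8 : ((A z).1, (0 : G)) = A z := Prod.ext rfl h7.symm
  rw [h8, hBA]

end tangent

end Pool.Agent.H67.Liou
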