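import Pool.Agent.H67.Liou.Defs

/-! The cotangent bundle of a manifold as a manifold, with named instances, and its canonical
one-form. -/

open Topology Filter Set Function Bundle
open scoped ContDiff Manifold

namespace Pool.Agent.H67.Liou

section cot

/-- The model vector space of the cotangent bundle of a manifold modelled on `F`. -/
def CotE (F : Type*) [NormedAddCommGroup F] [NormedSpace ℝ F] : Type _ := F × (F →L[ℝ] ℝ)

/-- The model space of the cotangent bundle of a manifold modelled on `H` and `F`. -/
def CotH (F : Type*) [NormedAddCommGroup F] [NormedSpace ℝ F] (H : Type*) : Type _ :=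
  ModelProd H (F →L[ℝ] ℝ)

variable {F : Type*} [NormedAddCommGroup F] [NormedSpace ℝ F] {H : Type*} [TopologicalSpace H]

/-- The usual norm of `F × F^*`. -/
noncomputable instance CotE.group : NormedAddCommGroup (CotE F) :=
  (inferInstance : NormedAddCommGroup (F × (F →L[ℝ] ℝ)))

/-- The usual normed space structure of `F × F^*`. -/
noncomputable instance CotE.space : NormedSpace ℝ (CotE F) :=
  (inferInstance : NormedSpace ℝ (F × (F →L[ℝ] ℝ)))

/-- The usual topology of `H × F^*`. -/
noncomputable instance CotH.top : TopologicalSpace (CotH F H) :=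
  (inferInstance : TopologicalSpace (ModelProd H (F →L[ℝ] ℝ)))

/-- The model with corners of the cotangent bundle. -/
noncomputable def cotI (I : ModelWithCorners ℝ F H) : ModelWithCorners ℝ (CotE F) (CotH F H) :=
  I.prod 𝓘(ℝ, F →L[ℝ] ℝ)

/-- The cotangent bundle: the total space of Mathlib's vector bundle with fibres
`T_x L →L[ℝ] ℝ`. -/
def CotB (I : ModelWithCorners ℝ F H) (L : Type*) [TopologicalSpace L] [ChartedSpace H L] :
    Type _ := TotalSpace (F →L[ℝ] ℝ) (fun x : L => TangentSpace I x →L[ℝ] ℝ)

variable {I : ModelWithCorners ℝ F H} {L : Type*} [TopologicalSpace L] [ChartedSpace H L]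
  [IsManifold I 1 L]

/-- The topology of the cotangent bundle (Mathlib's). -/
noncomputable instance CotB.top : TopologicalSpace (CotB I L) :=
  (inferInstance : TopologicalSpace (TotalSpace (F →L[ℝ] ℝ)
    (fun x : L => TangentSpace I x →L[ℝ] ℝ)))

/-- The charts of the cotangent bundle (Mathlib's). -/
noncomputable instance CotB.charted : ChartedSpace (CotH F H) (CotB I L) :=
  (inferInstance : ChartedSpace (ModelProd H (F →L[ℝ] ℝ)) (TotalSpace (F →L[ℝ] ℝ)
    (fun x : L => TangentSpace I x →L[ℝ] ℝ)))

omit [IsManifold I 1 L] in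
/-- The base point of a covector. -/
def CotB.base (ξ : CotB I L) : L := TotalSpace.proj ξ

omit [IsManifold I 1 L] in
/-- A point of the cotangent bundle as a linear form on the tangent space at its base point. -/
def CotB.covector (ξ : CotB I L) : TangentSpace I ξ.base →L[ℝ] ℝ := TotalSpace.snd ξ

/-- The canonical one-form of the cotangent bundle: `λ_ξ(w) = ξ(Dπ w)`. -/
noncomputable def canForm (I : ModelWithCorners ℝ F H) {L : Type*} [TopologicalSpace L]
    [ChartedSpace H L] [IsManifold I 1 L] (ξ : CotB I L) : TangentSpace (cotI I) ξ →L[ℝ] ℝ :=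
  ξ.covector.comp (mfderiv (cotI I) I CotB.base ξ)

end cot

/-- `(M, lam)` is equivalent to the cotangent bundle of `L` with its canonical one-form, as an exact
symplectic manifold. -/
def EquivCotangent {E : Type*} [NormedAddCommGroup E] [NormedSpace ℝ E] {HE : Type*}
    [TopologicalSpace HE] (IE : ModelWithCorners ℝ E HE) {M : Type*} [TopologicalSpace M]
    [ChartedSpace HE M] (lam : (x : M) → TangentSpace IE x →L[ℝ] ℝ)
    {F : Type*} [NormedAddCommGroup F] [NormedSpace ℝ F] {H : Type*} [TopologicalSpace H]
    (I : ModelWithCorners ℝ F H) (L : Type*) [TopologicalSpace L] [ChartedSpace H L]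
    [IsManifold I 1 L] : Prop :=
  ExactEquiv IE (cotI I) lam (canForm I (L := L))

end Pool.Agent.H67.Liou
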