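import Pool.Agent.H67.Liou.Cotangent

/-! The exact symplectic structure of the cotangent bundle. -/

open Topology Filter Set Function Bundle
open scoped ContDiff Manifold

set_option linter.unusedSectionVars false

namespace Pool.Agent.H67.Liou

universe u

section std

variable {F : Type u} [NormedAddCommGroup F] [NormedSpace ℝ F]

/-- The standard Liouville form as a linear map. -/
noncomputable def lamStdL (F : Type*) [NormedAddCommGroup F] [NormedSpace ℝ F] :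
    F × (F →L[ℝ] ℝ) →L[ℝ] (F × (F →L[ℝ] ℝ) →L[ℝ] ℝ) :=
  ((ContinuousLinearMap.compL ℝ (F × (F →L[ℝ] ℝ)) F ℝ).flip
    (ContinuousLinearMap.fst ℝ F (F →L[ℝ] ℝ))).comp (ContinuousLinearMap.snd ℝ F (F →L[ℝ] ℝ))

theorem lamStd_eq : lamStd F = ⇑(lamStdL F) := rfl

theorem lamStdL_apply (p v : F × (F →L[ℝ] ℝ)) : lamStdL F p v = p.2 v.1 := rfl

theorem contDiff_lamStd : ContDiff ℝ ∞ (lamStd F) := by
  rw [lamStd_eq]
  exact ContinuousLinearMap.contDiff (𝕜 := ℝ) (E := F × (F →L[ℝ] ℝ))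
    (F := F × (F →L[ℝ] ℝ) →L[ℝ] ℝ) (lamStdL F)

theorem formSmoothAt_lamStd (p : F × (F →L[ℝ] ℝ)) :
    FormSmoothAt 𝓘(ℝ, F × (F →L[ℝ] ℝ)) (lamStd F) p :=
  formSmoothAt_vec.2 contDiff_lamStd.contDiffAt

theorem dvec_lamStd (p u v : F × (F →L[ℝ] ℝ)) : dvec (lamStd F) p u v = u.2 v.1 - v.2 u.1 := by
  unfold dvec
  rw [lamStd_eq, ContinuousLinearMap.fderiv]
  rfl

theorem dOne_lamStd (p u v : F × (F →L[ℝ] ℝ)) :
    dOne 𝓘(ℝ, F × (F →L[ℝ] ℝ)) (lamStd F) p u v = u.2 v.1 - v.2 u.1 :=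
  (dOne_vec (lamStd F) p u v).trans (dvec_lamStd p u v)

theorem nondeg_lamStd (p : F × (F →L[ℝ] ℝ)) : Nondeg 𝓘(ℝ, F × (F →L[ℝ] ℝ)) (lamStd F) p := by
  intro u hu
  have h1 : ∀ v : F × (F →L[ℝ] ℝ), (u : F × (F →L[ℝ] ℝ)).2 v.1 - v.2 (u : F × (F →L[ℝ] ℝ)).1 = 0 :=
    fun v => (dOne_lamStd p u v).symm.trans (hu v)
  have h2 : (u : F × (F →L[ℝ] ℝ)).2 = 0 := by
    ext b
    have := h1 (b, 0)
    simpa using this
  have h3 : (u : F × (F →L[ℝ] ℝ)).1 = 0 := by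
    by_contra hne
    obtain ⟨g, -, hg⟩ := exists_dual_vector ℝ (u : F × (F →L[ℝ] ℝ)).1 (norm_ne_zero_iff.2 hne)
    have := h1 (0, g)
    simp only [map_zero, zero_sub, neg_eq_zero] at this
    rw [this] at hg
    simp only [RCLike.ofReal_real_eq_id, id_eq] at hg
    exact hne (norm_eq_zero.1 hg.symm)
  exact Prod.ext h3 h2

theorem zdual_lamStd [FiniteDimensional ℝ F] (p : F × (F →L[ℝ] ℝ)) :
    zdual 𝓘(ℝ, F × (F →L[ℝ] ℝ)) (lamStd F) p = ((0, p.2) : F × (F →L[ℝ] ℝ)) := by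
  apply zdual_unique (nondeg_lamStd p)
  intro v
  refine (dOne_lamStd p (0, p.2) v).trans ?_
  simp only [map_zero, sub_zero]
  rfl

end std

variable {F : Type u} [NormedAddCommGroup F] [NormedSpace ℝ F] [FiniteDimensional ℝ F]
  {H : Type*} [TopologicalSpace H] {I : ModelWithCorners ℝ F H}
  {L : Type*} [TopologicalSpace L] [ChartedSpace H L]
  [IsManifold I ∞ L] [IsManifold I 1 L] [I.Boundaryless]

theorem pb_kcot_eventually (x₀ : L) {ξ : Cot I L} (hξ : ξ.1 ∈ (extChartAt I x₀).source) :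
    ∀ᶠ ξ' : Cot I L in 𝓝 ξ,
      pb (IC I) 𝓘(ℝ, F × (F →L[ℝ] ℝ)) (kcot I x₀) (lamStd F) ξ' = lamCan I ξ' := by
  filter_upwards [eventually_mem_source x₀ hξ] with ξ' hξ'
  exact pb_kcot x₀ hξ'

theorem formSmoothAt_lamCan (ξ : Cot I L) : FormSmoothAt (IC I) (lamCan I) ξ := by
  have hξ : ξ.1 ∈ (extChartAt I ξ.1).source := mem_extChartAt_source ξ.1
  exact (FormSmoothAt.pb (formSmoothAt_lamStd _) (contMDiffAt_kcot ξ.1 hξ)).congr
    (pb_kcot_eventually ξ.1 hξ)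

theorem nondeg_lamCan (ξ : Cot I L) : Nondeg (IC I) (lamCan I) ξ := by
  have hξ : ξ.1 ∈ (extChartAt I ξ.1).source := mem_extChartAt_source ξ.1
  exact Nondeg.of_pb (contMDiffAt_kcot ξ.1 hξ) (bijective_kcot ξ.1 hξ) (formSmoothAt_lamStd _)
    (nondeg_lamStd _) (pb_kcot_eventually ξ.1 hξ)

/-- The scaling flow of the cotangent bundle. -/
noncomputable def cotScale (I : ModelWithCorners ℝ F H) (t : ℝ) (ξ : Cot I L) : Cot I L :=
  ⟨ξ.1, (t • (ξ.2 : F →L[ℝ] ℝ) : F →L[ℝ] ℝ)⟩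

theorem cotScale_fst (t : ℝ) (ξ : Cot I L) : (cotScale I t ξ).1 = ξ.1 := rfl

theorem kcot_cotScale (x₀ : L) (t : ℝ) (ξ : Cot I L) :
    kcot I x₀ (cotScale I t ξ) = ((kcot I x₀ ξ).1, t • (kcot I x₀ ξ).2) := by
  unfold kcot cotScale
  refine Prod.ext rfl ?_
  refine ContinuousLinearMap.ext fun u => ?_
  rfl

theorem cotScale_eq (x₀ : L) (t : ℝ) {ξ : Cot I L} (hξ : ξ.1 ∈ (extChartAt I x₀).source) :
    cotScale I t ξ = ccot I x₀ ((kcot I x₀ ξ).1, t • (kcot I x₀ ξ).2) := by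
  rw [← kcot_cotScale]
  exact (ccot_kcot x₀ (ξ := cotScale I t ξ) hξ).symm

theorem continuous_cotScale : Continuous (fun p : ℝ × Cot I L => cotScale I p.1 p.2) := by
  rw [continuous_iff_continuousAt]
  rintro ⟨t, ξ⟩
  have hξ : ξ.1 ∈ (extChartAt I ξ.1).source := mem_extChartAt_source ξ.1
  have h1 : ContinuousAt (fun p : ℝ × Cot I L =>
      ((kcot I ξ.1 p.2).1, p.1 • (kcot I ξ.1 p.2).2)) (t, ξ) := by
    have h2 : ContinuousAt (kcot I ξ.1) ξ := (contMDiffAt_kcot ξ.1 hξ).continuousAt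
    have h3 : ContinuousAt (fun p : ℝ × Cot I L => kcot I ξ.1 p.2) (t, ξ) :=
      ContinuousAt.comp (x := (t, ξ)) (g := kcot I ξ.1) (f := Prod.snd) h2 continuousAt_snd
    exact h3.fst.prodMk (continuousAt_fst.smul h3.snd)
  have h4 : ContinuousAt (ccot I ξ.1) ((kcot I ξ.1 ξ).1, t • (kcot I ξ.1 ξ).2) :=
    (contMDiffAt_ccot ξ.1 (p := ((kcot I ξ.1 ξ).1, t • (kcot I ξ.1 ξ).2))
      ((extChartAt I ξ.1).map_source hξ)).continuousAt
  have h5 : ContinuousAt (fun p : ℝ × Cot I L => ccot I ξ.1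
      ((kcot I ξ.1 p.2).1, p.1 • (kcot I ξ.1 p.2).2)) (t, ξ) :=
    ContinuousAt.comp (x := (t, ξ)) (g := ccot I ξ.1)
      (f := fun p : ℝ × Cot I L => ((kcot I ξ.1 p.2).1, p.1 • (kcot I ξ.1 p.2).2)) h4 h1
  refine h5.congr ?_
  have h6 : ∀ᶠ p : ℝ × Cot I L in 𝓝 (t, ξ), p.2.1 ∈ (extChartAt I ξ.1).source :=
    continuousAt_snd.eventually (eventually_mem_source ξ.1 hξ)
  filter_upwards [h6] with p hp
  exact (cotScale_eq ξ.1 p.1 hp).symm

/-- The Liouville flow of the cotangent bundle. -/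
noncomputable def cotFlow (I : ModelWithCorners ℝ F H) (t : ℝ) (ξ : Cot I L) : Cot I L :=
  cotScale I (Real.exp t) ξ

theorem isFlow_cotFlow : IsFlow (IC I) (zdual (IC I) (lamCan I : (ξ : Cot I L) → _))
    (cotFlow I) where
  zero ξ := by
    unfold cotFlow cotScale
    rw [Real.exp_zero, one_smul]
  curve ξ := by
    intro t
    have hξ : ξ.1 ∈ (extChartAt I ξ.1).source := mem_extChartAt_source ξ.1
    set p : F × (F →L[ℝ] ℝ) := kcot I ξ.1 ξ with hp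
    have htgt : p.1 ∈ (extChartAt I ξ.1).target := (extChartAt I ξ.1).map_source hξ
    set γ : ℝ → F × (F →L[ℝ] ℝ) := fun s => (p.1, Real.exp s • p.2) with hγ
    have hcurve : (fun s => cotFlow I s ξ) = ccot I ξ.1 ∘ γ := by
      funext s
      exact cotScale_eq ξ.1 (Real.exp s) hξ
    have hd : HasDerivAt γ ((0, Real.exp t • p.2) : F × (F →L[ℝ] ℝ)) t :=
      (hasDerivAt_const t p.1).prodMk ((Real.hasDerivAt_exp t).smul_const p.2)
    have hd' : HasMFDerivAt 𝓘(ℝ, ℝ) 𝓘(ℝ, F × (F →L[ℝ] ℝ)) γ t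
        ((1 : ℝ →L[ℝ] ℝ).smulRight ((0, Real.exp t • p.2) : F × (F →L[ℝ] ℝ))) :=
      hd.hasFDerivAt.hasMFDerivAt
    have hc : ContMDiffAt 𝓘(ℝ, F × (F →L[ℝ] ℝ)) (IC I) ∞ (ccot I ξ.1) (γ t) :=
      contMDiffAt_ccot ξ.1 htgt
    have h1 := (hc.mdifferentiableAt infty_ne_zero).hasMFDerivAt.comp t hd'
    have h3 : mfderiv 𝓘(ℝ, F × (F →L[ℝ] ℝ)) (IC I) (ccot I ξ.1) (γ t)
        (zdual 𝓘(ℝ, F × (F →L[ℝ] ℝ)) (lamStd F) (γ t)) =
        zdual (IC I) (lamCan I) (ccot I ξ.1 (γ t)) := by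
      apply zdual_map hc (bijective_ccot ξ.1 (p := γ t) htgt).2 (formSmoothAt_lamCan _) (nondeg_lamCan _)
        (formSmoothAt_lamStd _) (nondeg_lamStd _)
      have hev : ∀ᶠ p' : F × (F →L[ℝ] ℝ) in 𝓝 (γ t), p'.1 ∈ (extChartAt I ξ.1).target :=
        continuousAt_fst.eventually ((isOpen_extChartAt_target (I := I) ξ.1).mem_nhds htgt)
      filter_upwards [hev] with p' hp'
      exact pb_ccot ξ.1 hp'
    have h4 : ∀ r : ℝ, (mfderiv 𝓘(ℝ, F × (F →L[ℝ] ℝ)) (IC I) (ccot I ξ.1) (γ t) :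
        F × (F →L[ℝ] ℝ) →L[ℝ] F × (F →L[ℝ] ℝ)) (r • ((0, Real.exp t • p.2) : F × (F →L[ℝ] ℝ))) =
        r • (zdual (IC I) (lamCan I) (ccot I ξ.1 (γ t)) : F × (F →L[ℝ] ℝ)) := by
      intro r
      have h5 : ((0, Real.exp t • p.2) : F × (F →L[ℝ] ℝ)) =
          zdual 𝓘(ℝ, F × (F →L[ℝ] ℝ)) (lamStd F) (γ t) := (zdual_lamStd (γ t)).symm
      have h8 := map_smul (mfderiv 𝓘(ℝ, F × (F →L[ℝ] ℝ)) (IC I) (ccot I ξ.1) (γ t) :
        F × (F →L[ℝ] ℝ) →L[ℝ] F × (F →L[ℝ] ℝ)) r ((0, Real.exp t • p.2) : F × (F →L[ℝ] ℝ))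
      refine h8.trans ?_
      refine congrArg (fun z : F × (F →L[ℝ] ℝ) => r • z) ?_
      refine Eq.trans ?_ h3
      exact congrArg (mfderiv 𝓘(ℝ, F × (F →L[ℝ] ℝ)) (IC I) (ccot I ξ.1) (γ t) :
        F × (F →L[ℝ] ℝ) →L[ℝ] F × (F →L[ℝ] ℝ)) h5
    have h2 : HasMFDerivAt 𝓘(ℝ, ℝ) (IC I) (ccot I ξ.1 ∘ γ) t
        ((1 : ℝ →L[ℝ] ℝ).smulRight (zdual (IC I) (lamCan I) (ccot I ξ.1 (γ t)))) :=
      h1.congr_mfderiv (ContinuousLinearMap.ext h4)
    have key : ∀ f : ℝ → Cot I L, f = ccot I ξ.1 ∘ γ → HasMFDerivAt 𝓘(ℝ, ℝ) (IC I) f t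
        ((1 : ℝ →L[ℝ] ℝ).smulRight (zdual (IC I) (lamCan I) (f t))) := by
      rintro _ rfl
      exact h2
    exact key _ hcurve

/-- The exact symplectic structure of the cotangent bundle. -/
noncomputable def cotStr (I : ModelWithCorners ℝ F H) (L : Type*) [TopologicalSpace L]
    [ChartedSpace H L] [IsManifold I ∞ L] [IsManifold I 1 L] [I.Boundaryless] :
    LStr (IC I) (Cot I L) where
  lam := lamCan I
  smooth := formSmoothAt_lamCan
  nondeg := nondeg_lamCan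
  φ := cotFlow I
  flow := isFlow_cotFlow

theorem t2Space_cot [T2Space L] : T2Space (Cot I L) := by
  rw [t2Space_iff_nhds]
  intro ξ ξ' hne
  have hπ : Continuous (TotalSpace.proj : Cot I L → L) := (contMDiff_proj' (I := I)).continuous
  by_cases h : ξ.1 = ξ'.1
  · have hξ : ξ.1 ∈ (extChartAt I ξ.1).source := mem_extChartAt_source ξ.1
    have hξ' : ξ'.1 ∈ (extChartAt I ξ.1).source := by rw [← h]; exact hξ
    have hk : kcot I ξ.1 ξ ≠ kcot I ξ.1 ξ' := by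
      intro heq
      apply hne
      rw [← ccot_kcot ξ.1 hξ, heq, ccot_kcot ξ.1 hξ']
    obtain ⟨U, V, hU, hV, hxU, hxV, hUV⟩ := t2_separation hk
    have h1 : kcot I ξ.1 ⁻¹' U ∈ 𝓝 ξ :=
      (contMDiffAt_kcot ξ.1 hξ).continuousAt.preimage_mem_nhds (hU.mem_nhds hxU)
    have h2 : kcot I ξ.1 ⁻¹' V ∈ 𝓝 ξ' :=
      (contMDiffAt_kcot ξ.1 hξ').continuousAt.preimage_mem_nhds (hV.mem_nhds hxV)
    exact ⟨_, h1, _, h2, hUV.preimage _⟩
  · obtain ⟨U, V, hU, hV, hxU, hxV, hUV⟩ := t2_separation h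
    exact ⟨_, (hU.preimage hπ).mem_nhds hxU, _, (hV.preimage hπ).mem_nhds hxV, hUV.preimage _⟩

/-- The zero section. -/
noncomputable def zsec (I : ModelWithCorners ℝ F H) (x : L) : Cot I L := ⟨x, 0⟩

theorem contMDiff_zsec : ContMDiff I (IC I) ∞ (zsec I : L → Cot I L) :=
  Bundle.contMDiff_zeroSection ℝ (fun x : L => TangentSpace I x →L[ℝ] ℝ)

theorem cotScale_zero (ξ : Cot I L) : cotScale I 0 ξ = zsec I ξ.1 := by
  unfold cotScale zsec
  rw [zero_smul]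

theorem cotScale_zsec (t : ℝ) (x : L) : cotScale I t (zsec I x) = zsec I x := by
  unfold cotScale zsec
  have : (t • (0 : F →L[ℝ] ℝ) : F →L[ℝ] ℝ) = 0 := smul_zero t
  exact congrArg (fun η : F →L[ℝ] ℝ => (⟨x, η⟩ : Cot I L)) this

theorem absorbs_cot [CompactSpace L] : Absorbs (cotStr I L) (range (zsec I : L → Cot I L)) where
  isCompact := isCompact_range contMDiff_zsec.continuous
  inv := by
    rintro t _ ⟨x, rfl⟩
    exact ⟨x, (cotScale_zsec (Real.exp t) x).symm⟩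
  absorb := by
    intro B hB W hW hCW
    have hsub : ({0} : Set ℝ) ×ˢ B ⊆ (fun p : ℝ × Cot I L => cotScale I p.1 p.2) ⁻¹' W := by
      rintro ⟨s, ξ⟩ ⟨hs, -⟩
      have hs' : s = 0 := hs
      subst hs'
      rw [mem_preimage]
      simp only
      rw [cotScale_zero]
      exact hCW ⟨ξ.1, rfl⟩
    obtain ⟨u, v, hu, -, hu', hv', huv⟩ := generalized_tube_lemma isCompact_singleton hB
      (hW.preimage continuous_cotScale) hsub
    have h0 : u ∈ 𝓝 (0 : ℝ) := hu.mem_nhds (hu' rfl)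
    have h1 : ∀ᶠ t : ℝ in atTop, Real.exp (-t) ∈ u := by
      have : Tendsto (fun t : ℝ => Real.exp (-t)) atTop (𝓝 0) :=
        Real.tendsto_exp_neg_atTop_nhds_zero
      exact this.eventually h0
    obtain ⟨T, hT⟩ := eventually_atTop.1 h1
    refine ⟨max T 0, le_max_right _ _, ?_⟩
    intro t ht ξ hξ
    have h2 : (Real.exp (-t), ξ) ∈ u ×ˢ v := ⟨hT t ((le_max_left _ _).trans ht), hv' hξ⟩
    exact huv h2

end Pool.Agent.H67.Liou
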