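import Pool.Agent.H67.Liou.Absorb

/-! The cotangent bundle, its canonical one-form and its Liouville flow. -/

open Topology Filter Set Function Bundle
open scoped ContDiff Manifold

set_option linter.unusedSectionVars false

namespace Pool.Agent.H67.Liou

universe u

variable {F : Type u} [NormedAddCommGroup F] [NormedSpace ℝ F]
  {H : Type*} [TopologicalSpace H] {I : ModelWithCorners ℝ F H}
  {L : Type*} [TopologicalSpace L] [ChartedSpace H L]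

section general

variable {E : Type*} [NormedAddCommGroup E] [NormedSpace ℝ E]
  {HE : Type*} [TopologicalSpace HE] {IE : ModelWithCorners ℝ E HE}
  {M : Type*} [TopologicalSpace M] [ChartedSpace HE M]
  {E' : Type*} [NormedAddCommGroup E'] [NormedSpace ℝ E']
  {H' : Type*} [TopologicalSpace H'] {J : ModelWithCorners ℝ E' H'}
  {N : Type*} [TopologicalSpace N] [ChartedSpace H' N]

theorem left_inverse_mfderiv {f : N → M} {g : M → N} {x : N}
    (hf : MDifferentiableAt J IE f x) (hg : MDifferentiableAt IE J g (f x))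
    (h : ∀ᶠ x' in 𝓝 x, g (f x') = x') (v : TangentSpace J x) :
    (mfderiv IE J g (f x) : E →L[ℝ] E') (mfderiv J IE f x v) = v := by
  have h1 := mfderiv_comp_apply x hg hf v
  have h2 : (mfderiv J J (g ∘ f) x : E' →L[ℝ] E') = mfderiv J J id x :=
    Filter.EventuallyEq.mfderiv_eq (f₁ := g ∘ f) (f := id) h
  have h3 : (mfderiv J J (g ∘ f) x : E' →L[ℝ] E') v = v := by
    rw [h2, mfderiv_id]
    rfl
  exact h1.symm.trans h3

theorem bijective_of_inverse {f : N → M} {g : M → N} {x : N}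
    (hf : MDifferentiableAt J IE f x) (hg : MDifferentiableAt IE J g (f x))
    (h : ∀ᶠ x' in 𝓝 x, g (f x') = x') (h' : ∀ᶠ y in 𝓝 (f x), f (g y) = y) :
    Bijective (mfderiv J IE f x) := by
  have hx : g (f x) = x := h.self_of_nhds
  constructor
  · intro u v huv
    have h1 := left_inverse_mfderiv hf hg h u
    have h2 := left_inverse_mfderiv hf hg h v
    have h3 : (mfderiv IE J g (f x) : E →L[ℝ] E') (mfderiv J IE f x u) =
        (mfderiv IE J g (f x) : E →L[ℝ] E') (mfderiv J IE f x v) := congrArg _ huv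
    exact h1.symm.trans (h3.trans h2)
  · intro w
    have hf' : MDifferentiableAt J IE f (g (f x)) := by rwa [hx]
    have h1 := left_inverse_mfderiv (f := g) (g := f) hg hf' h' w
    have h2 : (mfderiv J IE f (g (f x)) : E' →L[ℝ] E) = mfderiv J IE f x :=
      mfderiv_congr_point hx
    rw [h2] at h1
    exact ⟨_, h1⟩

variable [IsManifold IE ∞ M] [IsManifold IE 1 M] [IE.Boundaryless]
  [IsManifold J ∞ N] [IsManifold J 1 N] [J.Boundaryless]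

/-- Smoothness and nondegeneracy of the differential transfer through local diffeomorphisms. -/
theorem Nondeg.of_pb {k : N → M} {α : (x : M) → TangentSpace IE x →L[ℝ] ℝ}
    {β : (x : N) → TangentSpace J x →L[ℝ] ℝ} {x : N}
    (hk : ContMDiffAt J IE ∞ k x) (hb : Bijective (mfderiv J IE k x))
    (hα : FormSmoothAt IE α (k x)) (hn : Nondeg IE α (k x))
    (h : ∀ᶠ x' in 𝓝 x, pb J IE k α x' = β x') : Nondeg J β x := by
  intro u hu
  have h1 : mfderiv J IE k x u = 0 := by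
    apply hn
    intro v
    obtain ⟨w, rfl⟩ := hb.2 v
    rw [← dOne_pb hα hk, dOne_congr h]
    exact hu w
  exact hb.1 (h1.trans (map_zero _).symm)

end general

section charts

variable [IsManifold I ∞ L] [IsManifold I 1 L] [I.Boundaryless]

/-- Canonical coordinates to the cotangent bundle. -/
noncomputable def ccot (I : ModelWithCorners ℝ F H) (x₀ : L) (p : F × (F →L[ℝ] ℝ)) : Cot I L :=
  ⟨(extChartAt I x₀).symm p.1, (p.2 : F →L[ℝ] ℝ).comp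
    (mfderiv I 𝓘(ℝ, F) (extChartAt I x₀) ((extChartAt I x₀).symm p.1))⟩

/-- Canonical coordinates of the cotangent bundle. -/
noncomputable def kcot (I : ModelWithCorners ℝ F H) (x₀ : L) (ξ : Cot I L) :
    F × (F →L[ℝ] ℝ) :=
  (extChartAt I x₀ ξ.1, (ξ.2 : TangentSpace I ξ.1 →L[ℝ] ℝ).comp
    (mfderiv 𝓘(ℝ, F) I (extChartAt I x₀).symm (extChartAt I x₀ ξ.1)))

theorem kcot_ccot (x₀ : L) {p : F × (F →L[ℝ] ℝ)} (hp : p.1 ∈ (extChartAt I x₀).target) :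
    kcot I x₀ (ccot I x₀ p) = p := by
  obtain ⟨q, η⟩ := p
  have hx := (extChartAt I x₀).map_target hp
  have hr : extChartAt I x₀ ((extChartAt I x₀).symm q) = q := (extChartAt I x₀).right_inv hp
  have h1 := fun u => mfderiv_chart_symm (I := I) x₀ hx u
  unfold kcot ccot
  refine Prod.ext hr ?_
  refine ContinuousLinearMap.ext fun u => ?_
  exact congrArg η (h1 u)

theorem ccot_kcot (x₀ : L) {ξ : Cot I L} (hξ : ξ.1 ∈ (extChartAt I x₀).source) :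
    ccot I x₀ (kcot I x₀ ξ) = ξ := by
  obtain ⟨x, ζ⟩ := ξ
  have hl : (extChartAt I x₀).symm (extChartAt I x₀ x) = x := (extChartAt I x₀).left_inv hξ
  have key : ∀ (y : L) (ζ' : F →L[ℝ] ℝ), y = x → ζ' = ζ →
      (⟨y, ζ'⟩ : Cot I L) = ⟨x, ζ⟩ := by
    rintro y ζ' rfl rfl
    rfl
  apply key _ _ hl
  refine ContinuousLinearMap.ext fun u => ?_
  have h1 := mfderiv_symm_chart (I := I) x₀ hξ u
  have h2 : (mfderiv I 𝓘(ℝ, F) (extChartAt I x₀)
      ((extChartAt I x₀).symm (extChartAt I x₀ x)) : F →L[ℝ] F) =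
      mfderiv I 𝓘(ℝ, F) (extChartAt I x₀) x := mfderiv_congr_point hl
  have h3 : (ζ : F →L[ℝ] ℝ) ((mfderiv 𝓘(ℝ, F) I (extChartAt I x₀).symm (extChartAt I x₀ x) :
      F →L[ℝ] F) ((mfderiv I 𝓘(ℝ, F) (extChartAt I x₀)
      ((extChartAt I x₀).symm (extChartAt I x₀ x)) : F →L[ℝ] F) u)) = ζ u := by
    rw [h2]
    exact congrArg ζ h1
  exact h3

theorem triv_snd (x₀ : L) {ξ : Cot I L} (hξ : ξ.1 ∈ (extChartAt I x₀).source) :
    (trivializationAt (F →L[ℝ] ℝ) (fun x : L => TangentSpace I x →L[ℝ] ℝ) x₀ ξ).2 =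
      (kcot I x₀ ξ).2 := by
  have hsrc : ξ.1 ∈ (chartAt H x₀).source := by rwa [extChartAt_source] at hξ
  rw [hom_trivializationAt_apply]
  simp only [ContinuousLinearMap.inCoordinates]
  rw [TangentBundle.symmL_trivializationAt hsrc]
  unfold kcot
  rw [I.range_eq_univ, mfderivWithin_univ]
  refine ContinuousLinearMap.ext fun u => ?_
  simp

theorem mem_triv_source (x₀ : L) {ξ : Cot I L} (hξ : ξ.1 ∈ (extChartAt I x₀).source) :
    ξ ∈ (trivializationAt (F →L[ℝ] ℝ) (fun x : L => TangentSpace I x →L[ℝ] ℝ) x₀).source := by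
  rw [hom_trivializationAt_source]
  refine ⟨?_, mem_univ _⟩
  rw [TangentBundle.trivializationAt_baseSet]
  rwa [extChartAt_source] at hξ

theorem contMDiff_proj' : ContMDiff (IC I) I ∞ (TotalSpace.proj : Cot I L → L) :=
  Bundle.contMDiff_proj _

theorem eventually_mem_source (x₀ : L) {ξ : Cot I L} (hξ : ξ.1 ∈ (extChartAt I x₀).source) :
    ∀ᶠ ξ' : Cot I L in 𝓝 ξ, ξ'.1 ∈ (extChartAt I x₀).source :=
  (contMDiff_proj' (I := I) ξ).continuousAt.eventually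
    ((isOpen_extChartAt_source (I := I) x₀).mem_nhds hξ)

theorem contMDiffAt_kcot (x₀ : L) {ξ : Cot I L} (hξ : ξ.1 ∈ (extChartAt I x₀).source) :
    ContMDiffAt (IC I) 𝓘(ℝ, F × (F →L[ℝ] ℝ)) ∞ (kcot I x₀) ξ := by
  have h1 : ContMDiffAt (IC I) 𝓘(ℝ, F) ∞ (fun ξ : Cot I L => extChartAt I x₀ ξ.1) ξ :=
    ContMDiffAt.comp ξ (contMDiffAt_chart x₀ hξ) (contMDiff_proj' ξ)
  have h2 : ContMDiffAt (IC I) 𝓘(ℝ, F →L[ℝ] ℝ) ∞ (fun ξ : Cot I L =>
      (trivializationAt (F →L[ℝ] ℝ) (fun x : L => TangentSpace I x →L[ℝ] ℝ) x₀ ξ).2) ξ :=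
    ((Bundle.Trivialization.contMDiffAt_iff (f := id) (mem_triv_source x₀ hξ)).1
      contMDiffAt_id).2
  have h3 : ContMDiffAt (IC I) 𝓘(ℝ, F →L[ℝ] ℝ) ∞ (fun ξ : Cot I L => (kcot I x₀ ξ).2) ξ := by
    refine h2.congr_of_eventuallyEq ?_
    filter_upwards [eventually_mem_source x₀ hξ] with ξ' hξ'
    exact (triv_snd x₀ hξ').symm
  exact h1.prodMk_space h3

theorem contMDiffAt_ccot (x₀ : L) {p : F × (F →L[ℝ] ℝ)} (hp : p.1 ∈ (extChartAt I x₀).target) :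
    ContMDiffAt 𝓘(ℝ, F × (F →L[ℝ] ℝ)) (IC I) ∞ (ccot I x₀) p := by
  have hx := (extChartAt I x₀).map_target hp
  have hev : ∀ᶠ p' : F × (F →L[ℝ] ℝ) in 𝓝 p, p'.1 ∈ (extChartAt I x₀).target :=
    continuousAt_fst.eventually ((isOpen_extChartAt_target (I := I) x₀).mem_nhds hp)
  rw [Bundle.Trivialization.contMDiffAt_iff (mem_triv_source x₀ hx)]
  constructor
  · have h1 : ContMDiffAt 𝓘(ℝ, F × (F →L[ℝ] ℝ)) 𝓘(ℝ, F) ∞
        (fun p : F × (F →L[ℝ] ℝ) => p.1) p := contMDiffAt_iff_contDiffAt.2 contDiffAt_fst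
    exact ContMDiffAt.comp (x := p) (g := (extChartAt I x₀).symm)
      (f := fun p : F × (F →L[ℝ] ℝ) => p.1) (contMDiffAt_symm x₀ hp) h1
  · have h1 : ContMDiffAt 𝓘(ℝ, F × (F →L[ℝ] ℝ)) 𝓘(ℝ, F →L[ℝ] ℝ) ∞
        (fun p : F × (F →L[ℝ] ℝ) => p.2) p := contMDiffAt_iff_contDiffAt.2 contDiffAt_snd
    refine h1.congr_of_eventuallyEq ?_
    filter_upwards [hev] with p' hp'
    rw [triv_snd x₀ ((extChartAt I x₀).map_target hp'), kcot_ccot x₀ hp']

theorem ccot_kcot_eventually (x₀ : L) {ξ : Cot I L} (hξ : ξ.1 ∈ (extChartAt I x₀).source) :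
    ∀ᶠ ξ' : Cot I L in 𝓝 ξ, ccot I x₀ (kcot I x₀ ξ') = ξ' := by
  filter_upwards [eventually_mem_source x₀ hξ] with ξ' hξ'
  exact ccot_kcot x₀ hξ'

theorem kcot_ccot_eventually (x₀ : L) {p : F × (F →L[ℝ] ℝ)}
    (hp : p.1 ∈ (extChartAt I x₀).target) :
    ∀ᶠ p' : F × (F →L[ℝ] ℝ) in 𝓝 p, kcot I x₀ (ccot I x₀ p') = p' := by
  have hev : ∀ᶠ p' : F × (F →L[ℝ] ℝ) in 𝓝 p, p'.1 ∈ (extChartAt I x₀).target :=
    continuousAt_fst.eventually ((isOpen_extChartAt_target (I := I) x₀).mem_nhds hp)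
  filter_upwards [hev] with p' hp'
  exact kcot_ccot x₀ hp'

theorem bijective_kcot (x₀ : L) {ξ : Cot I L} (hξ : ξ.1 ∈ (extChartAt I x₀).source) :
    Bijective (mfderiv (IC I) 𝓘(ℝ, F × (F →L[ℝ] ℝ)) (kcot I x₀) ξ) := by
  have ht : (kcot I x₀ ξ).1 ∈ (extChartAt I x₀).target := (extChartAt I x₀).map_source hξ
  exact bijective_of_inverse ((contMDiffAt_kcot x₀ hξ).mdifferentiableAt infty_ne_zero)
    ((contMDiffAt_ccot x₀ ht).mdifferentiableAt infty_ne_zero) (ccot_kcot_eventually x₀ hξ)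
    (kcot_ccot_eventually x₀ ht)

theorem bijective_ccot (x₀ : L) {p : F × (F →L[ℝ] ℝ)} (hp : p.1 ∈ (extChartAt I x₀).target) :
    Bijective (mfderiv 𝓘(ℝ, F × (F →L[ℝ] ℝ)) (IC I) (ccot I x₀) p) := by
  have hs : (ccot I x₀ p).1 ∈ (extChartAt I x₀).source := (extChartAt I x₀).map_target hp
  exact bijective_of_inverse ((contMDiffAt_ccot x₀ hp).mdifferentiableAt infty_ne_zero)
    ((contMDiffAt_kcot x₀ hs).mdifferentiableAt infty_ne_zero) (kcot_ccot_eventually x₀ hp)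
    (ccot_kcot_eventually x₀ hs)

/-- The standard Liouville form `η dq`. -/
noncomputable def lamStd (F : Type*) [NormedAddCommGroup F] [NormedSpace ℝ F] :
    F × (F →L[ℝ] ℝ) → F × (F →L[ℝ] ℝ) →L[ℝ] ℝ :=
  fun p => (p.2 : F →L[ℝ] ℝ).comp (ContinuousLinearMap.fst ℝ F (F →L[ℝ] ℝ))

theorem pb_ccot (x₀ : L) {p : F × (F →L[ℝ] ℝ)} (hp : p.1 ∈ (extChartAt I x₀).target) :
    pb 𝓘(ℝ, F × (F →L[ℝ] ℝ)) (IC I) (ccot I x₀) (lamCan I) p = lamStd F p := by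
  have hx := (extChartAt I x₀).map_target hp
  have hr : extChartAt I x₀ ((extChartAt I x₀).symm p.1) = p.1 := (extChartAt I x₀).right_inv hp
  refine ContinuousLinearMap.ext fun v => ?_
  have h1 : pb 𝓘(ℝ, F × (F →L[ℝ] ℝ)) (IC I) (ccot I x₀) (lamCan I) p v =
      (ccot I x₀ p).2 (mfderiv (IC I) I (TotalSpace.proj : Cot I L → L) (ccot I x₀ p)
        (mfderiv 𝓘(ℝ, F × (F →L[ℝ] ℝ)) (IC I) (ccot I x₀) p v)) := rfl
  have h2 := mfderiv_comp_apply p (((contMDiff_proj' (I := I) (L := L))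
    (ccot I x₀ p)).mdifferentiableAt infty_ne_zero)
    ((contMDiffAt_ccot x₀ hp).mdifferentiableAt infty_ne_zero) v
  have h3 : (TotalSpace.proj : Cot I L → L) ∘ ccot I x₀ = (extChartAt I x₀).symm ∘ Prod.fst := rfl
  have h4 : MDifferentiableAt 𝓘(ℝ, F × (F →L[ℝ] ℝ)) 𝓘(ℝ, F)
      (Prod.fst : F × (F →L[ℝ] ℝ) → F) p := differentiableAt_fst.mdifferentiableAt
  have h5 := mfderiv_comp_apply (I := 𝓘(ℝ, F × (F →L[ℝ] ℝ))) (I' := 𝓘(ℝ, F)) (I'' := I)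
    (g := (extChartAt I x₀).symm) (f := (Prod.fst : F × (F →L[ℝ] ℝ) → F)) p
    (mdiffAt_symm (I := I) x₀ hp) h4 v
  have h6 : (mfderiv 𝓘(ℝ, F × (F →L[ℝ] ℝ)) 𝓘(ℝ, F)
      (Prod.fst : F × (F →L[ℝ] ℝ) → F) p : F × (F →L[ℝ] ℝ) →L[ℝ] F) v = v.1 := by
    rw [mfderiv_eq_fderiv, fderiv_fst]
    rfl
  have h7 := mfderiv_chart_symm (I := I) x₀ hx v.1
  rw [hr] at h7
  have h8 : (mfderiv 𝓘(ℝ, F × (F →L[ℝ] ℝ)) I ((TotalSpace.proj : Cot I L → L) ∘ ccot I x₀) p :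
      F × (F →L[ℝ] ℝ) →L[ℝ] F) v =
      (mfderiv 𝓘(ℝ, F) I (extChartAt I x₀).symm p.1 : F →L[ℝ] F) v.1 := by
    have h9 := h5.trans (congrArg (mfderiv 𝓘(ℝ, F) I (extChartAt I x₀).symm p.1 : F →L[ℝ] F) h6)
    exact h9
  rw [h1]
  have h10 : (ccot I x₀ p).2 (mfderiv (IC I) I (TotalSpace.proj : Cot I L → L) (ccot I x₀ p)
        (mfderiv 𝓘(ℝ, F × (F →L[ℝ] ℝ)) (IC I) (ccot I x₀) p v)) =
      (p.2 : F →L[ℝ] ℝ) ((mfderiv I 𝓘(ℝ, F) (extChartAt I x₀) ((extChartAt I x₀).symm p.1) :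
        F →L[ℝ] F) ((mfderiv 𝓘(ℝ, F) I (extChartAt I x₀).symm p.1 : F →L[ℝ] F) v.1)) :=
    congrArg (fun w : F => (p.2 : F →L[ℝ] ℝ) ((mfderiv I 𝓘(ℝ, F) (extChartAt I x₀)
      ((extChartAt I x₀).symm p.1) : F →L[ℝ] F) w)) (h2.symm.trans h8)
  rw [h10]
  exact congrArg (p.2 : F →L[ℝ] ℝ) h7

theorem pb_kcot (x₀ : L) {ξ : Cot I L} (hξ : ξ.1 ∈ (extChartAt I x₀).source) :
    pb (IC I) 𝓘(ℝ, F × (F →L[ℝ] ℝ)) (kcot I x₀) (lamStd F) ξ = lamCan I ξ := by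
  have ht : (kcot I x₀ ξ).1 ∈ (extChartAt I x₀).target := (extChartAt I x₀).map_source hξ
  have h1 : pb (IC I) 𝓘(ℝ, F × (F →L[ℝ] ℝ)) (kcot I x₀) (lamStd F) ξ =
      pb (IC I) 𝓘(ℝ, F × (F →L[ℝ] ℝ)) (kcot I x₀)
        (pb 𝓘(ℝ, F × (F →L[ℝ] ℝ)) (IC I) (ccot I x₀) (lamCan I)) ξ :=
    pb_congr_form (pb_ccot x₀ ht).symm
  rw [h1, ← pb_comp ((contMDiffAt_ccot x₀ ht).mdifferentiableAt infty_ne_zero)
    ((contMDiffAt_kcot x₀ hξ).mdifferentiableAt infty_ne_zero)]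
  have h2 : ccot I x₀ ∘ kcot I x₀ =ᶠ[𝓝 ξ] id := ccot_kcot_eventually x₀ hξ
  rw [pb_congr h2, pb_id]

end charts

end Pool.Agent.H67.Liou
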