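import Mathlib

/-! Definitions used in the statement: one-forms on manifolds, exterior derivatives, flows, convex
domains, cores, Liouville manifolds, Lagrangian cores and the canonical one-form of the cotangent
bundle. -/

open Topology Filter Set Function Bundle
open scoped ContDiff Manifold

namespace Pool.Agent.H67.Liou

/-- The exterior derivative of a one-form `a` on a normed space:
`da_y(u, v) = (D_u a)(v) - (D_v a)(u)`. -/
noncomputable def dvec {E : Type*} [NormedAddCommGroup E] [NormedSpace ℝ E]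
    (a : E → E →L[ℝ] ℝ) (y u v : E) : ℝ :=
  fderiv ℝ a y u v - fderiv ℝ a y v u

section

variable {E : Type*} [NormedAddCommGroup E] [NormedSpace ℝ E]
  {H : Type*} [TopologicalSpace H] {I : ModelWithCorners ℝ E H}
  {M : Type*} [TopologicalSpace M] [ChartedSpace H M]
  {E' : Type*} [NormedAddCommGroup E'] [NormedSpace ℝ E']
  {H' : Type*} [TopologicalSpace H'] {J : ModelWithCorners ℝ E' H'}
  {N : Type*} [TopologicalSpace N] [ChartedSpace H' N]

/-- Pullback of a one-form along a map. -/
noncomputable def pb (J : ModelWithCorners ℝ E' H') (I : ModelWithCorners ℝ E H) (g : N → M)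
    (α : (x : M) → TangentSpace I x →L[ℝ] ℝ) : (x : N) → TangentSpace J x →L[ℝ] ℝ :=
  fun x => (α (g x)).comp (mfderiv J I g x)

/-- The one-form `α` written in the preferred chart at `x₀`. -/
noncomputable def aloc (I : ModelWithCorners ℝ E H) (α : (x : M) → TangentSpace I x →L[ℝ] ℝ)
    (x₀ : M) : E → E →L[ℝ] ℝ :=
  pb 𝓘(ℝ, E) I (extChartAt I x₀).symm α

/-- Smoothness of a one-form at a point: its coefficients in the preferred chart are smooth. -/
def FormSmoothAt (I : ModelWithCorners ℝ E H) (α : (x : M) → TangentSpace I x →L[ℝ] ℝ)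
    (x : M) : Prop :=
  ContDiffAt ℝ ∞ (aloc I α x) (extChartAt I x x)

/-- The exterior derivative of a one-form, computed in the preferred chart. -/
noncomputable def dOne (I : ModelWithCorners ℝ E H) (α : (x : M) → TangentSpace I x →L[ℝ] ℝ)
    (x : M) (u v : TangentSpace I x) : ℝ :=
  dvec (aloc I α x) (extChartAt I x x) (mfderiv I 𝓘(ℝ, E) (extChartAt I x) x u)
    (mfderiv I 𝓘(ℝ, E) (extChartAt I x) x v)

/-- The differential of a function, as a one-form. -/
noncomputable def dfn (I : ModelWithCorners ℝ E H) (f : M → ℝ) :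
    (x : M) → TangentSpace I x →L[ℝ] ℝ :=
  pb I 𝓘(ℝ, ℝ) f (fun _ => ContinuousLinearMap.id ℝ ℝ)

/-- Nondegeneracy of the exterior derivative of a one-form at a point. -/
def Nondeg (I : ModelWithCorners ℝ E H) (α : (x : M) → TangentSpace I x →L[ℝ] ℝ) (x : M) : Prop :=
  ∀ u : TangentSpace I x, (∀ v : TangentSpace I x, dOne I α x u v = 0) → u = 0

/-- `φ` is the (global) flow of the vector field `v`. -/
structure IsFlow (I : ModelWithCorners ℝ E H) (v : (x : M) → TangentSpace I x) (φ : ℝ → M → M) :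
    Prop where
  zero : ∀ x, φ 0 x = x
  curve : ∀ x, IsMIntegralCurve (fun t => φ t x) v

/-- `X₀` is a compact domain with smooth boundary (locally `X₀ = {h ≤ 0}` near each point of the
frontier, with `h` smooth and `dh ≠ 0`) to which `Z` is outward transverse (`dh(Z) > 0`), and the
forward flow of `Z` starting on the boundary sweeps out the complement of the interior. -/
structure ConvexDomain (I : ModelWithCorners ℝ E H) (Z : (x : M) → TangentSpace I x)
    (φ : ℝ → M → M) (X₀ : Set M) : Prop where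
  isCompact : IsCompact X₀
  boundary : ∀ x ∈ frontier X₀, ∃ h : M → ℝ, ContMDiffAt I 𝓘(ℝ, ℝ) ∞ h x ∧ h x = 0 ∧
    (∀ᶠ y in 𝓝 x, y ∈ X₀ ↔ h y ≤ 0) ∧ 0 < dfn I h x (Z x)
  sweep : ∀ y, y ∉ interior X₀ → ∃ x ∈ frontier X₀, ∃ t : ℝ, 0 ≤ t ∧ φ t x = y

/-- The core `⋂_{t > 0} φ^{-t}(X₀)`. -/
def core (φ : ℝ → M → M) (X₀ : Set M) : Set M := ⋂ t ∈ Ioi (0 : ℝ), φ (-t) '' X₀

/-- `(M, lam)` is a Liouville manifold: `lam` is a smooth one-form, `d lam` is nondegenerate, `Z` is
the Liouville vector field (`d lam(Z, w) = lam w`), it is complete with flow `φ`, and `X₀` is a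
compact domain with smooth boundary as in the definition. -/
structure IsLiouville (I : ModelWithCorners ℝ E H) (lam : (x : M) → TangentSpace I x →L[ℝ] ℝ)
    (Z : (x : M) → TangentSpace I x) (φ : ℝ → M → M) (X₀ : Set M) : Prop where
  smooth : ∀ x, FormSmoothAt I lam x
  nondeg : ∀ x, Nondeg I lam x
  dual : ∀ (x : M) (w : TangentSpace I x), dOne I lam x (Z x) w = lam x w
  flow : IsFlow I Z φ
  convex : ConvexDomain I Z φ X₀

/-- `ι : N → M` is a smooth embedding of the (compact) manifold `N` onto the set `C`, isotropic for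
`d lam` (so Lagrangian when `dim M = 2 dim N`). -/
structure IsLagrangianOnto (J : ModelWithCorners ℝ E' H') (I : ModelWithCorners ℝ E H)
    (lam : (x : M) → TangentSpace I x →L[ℝ] ℝ) (ι : N → M) (C : Set M) : Prop where
  smooth : ContMDiff J I ∞ ι
  inj : Injective ι
  immersion : ∀ x, Injective (mfderiv J I ι x)
  range_eq : range ι = C
  isotropic : ∀ (x : N) (u v : TangentSpace J x),
    dOne I lam (ι x) (mfderiv J I ι x u) (mfderiv J I ι x v) = 0

/-- Equivalence of exact symplectic manifolds: a diffeomorphism `Φ` with `Φ^* mu - lam` exact. -/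
def ExactEquiv (I : ModelWithCorners ℝ E H) (J : ModelWithCorners ℝ E' H')
    (lam : (x : M) → TangentSpace I x →L[ℝ] ℝ) (mu : (y : N) → TangentSpace J y →L[ℝ] ℝ) : Prop :=
  ∃ (Φ : Diffeomorph I J M N ∞) (g : M → ℝ), ContMDiff I 𝓘(ℝ, ℝ) ∞ g ∧
    ∀ x, pb I J Φ mu x - lam x = dfn I g x

end

/-- The cotangent bundle, as the total space of Mathlib's bundle of continuous linear maps from
the tangent bundle to the trivial line bundle. -/
abbrev Cot {F : Type*} [NormedAddCommGroup F] [NormedSpace ℝ F] {H : Type*} [TopologicalSpace H]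
    (I : ModelWithCorners ℝ F H) (L : Type*) [TopologicalSpace L] [ChartedSpace H L] :=
  TotalSpace (F →L[ℝ] ℝ) (fun x : L => TangentSpace I x →L[ℝ] ℝ)

/-- The model with corners of the cotangent bundle. -/
noncomputable abbrev IC {F : Type*} [NormedAddCommGroup F] [NormedSpace ℝ F] {H : Type*}
    [TopologicalSpace H] (I : ModelWithCorners ℝ F H) :
    ModelWithCorners ℝ (F × (F →L[ℝ] ℝ)) (ModelProd H (F →L[ℝ] ℝ)) := I.prod 𝓘(ℝ, F →L[ℝ] ℝ)

/-- The canonical one-form on the cotangent bundle: `λ_ξ(w) = ξ(Dπ w)`. -/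
noncomputable def lamCan {F : Type*} [NormedAddCommGroup F] [NormedSpace ℝ F] {H : Type*}
    [TopologicalSpace H] (I : ModelWithCorners ℝ F H) {L : Type*} [TopologicalSpace L]
    [ChartedSpace H L] [IsManifold I 1 L] : (ξ : Cot I L) → TangentSpace (IC I) ξ →L[ℝ] ℝ :=
  fun ξ => (ξ.2 : TangentSpace I ξ.1 →L[ℝ] ℝ).comp
    (mfderiv (IC I) I (TotalSpace.proj : Cot I L → L) ξ)

end Pool.Agent.H67.Liou
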