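import Pool.Agent.H67.Liou.Form

/-! Exact forms, sums of forms, and the dual (Liouville) vector field. -/

open Topology Filter Set Function
open scoped ContDiff Manifold

set_option linter.unusedSectionVars false

namespace Pool.Agent.H67.Liou

universe u

variable {E : Type u} [NormedAddCommGroup E] [NormedSpace ℝ E]
  {H : Type*} [TopologicalSpace H] {I : ModelWithCorners ℝ E H}
  {M : Type*} [TopologicalSpace M] [ChartedSpace H M]
  {E' : Type*} [NormedAddCommGroup E'] [NormedSpace ℝ E']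
  {H' : Type*} [TopologicalSpace H'] {J : ModelWithCorners ℝ E' H'}
  {N : Type*} [TopologicalSpace N] [ChartedSpace H' N]

theorem dfn_apply (f : M → ℝ) (x : M) (v : TangentSpace I x) :
    dfn I f x v = mfderiv I 𝓘(ℝ, ℝ) f x v := rfl

theorem eventually_chart [I.Boundaryless] {p : M → Prop} {x : M} (h : ∀ᶠ x' in 𝓝 x, p x') :
    ∀ᶠ y in 𝓝 (extChartAt I x x), p ((extChartAt I x).symm y) := by
  have h1 : ContinuousAt (extChartAt I x).symm (extChartAt I x x) :=
    continuousAt_extChartAt_symm (I := I) x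
  have h2 : (extChartAt I x).symm (extChartAt I x x) = x :=
    (extChartAt I x).left_inv (mem_extChartAt_source x)
  rw [ContinuousAt, h2] at h1
  exact h1.eventually h

theorem aloc_congr [I.Boundaryless] {α β : (x : M) → TangentSpace I x →L[ℝ] ℝ} {x : M}
    (h : ∀ᶠ x' in 𝓝 x, α x' = β x') : aloc I α x =ᶠ[𝓝 (extChartAt I x x)] aloc I β x := by
  filter_upwards [eventually_chart (I := I) h] with y hy
  exact pb_congr_form hy

theorem FormSmoothAt.congr [I.Boundaryless] {α β : (x : M) → TangentSpace I x →L[ℝ] ℝ} {x : M}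
    (hα : FormSmoothAt I α x) (h : ∀ᶠ x' in 𝓝 x, α x' = β x') : FormSmoothAt I β x :=
  ContDiffAt.congr_of_eventuallyEq hα (aloc_congr h).symm

theorem dOne_congr [I.Boundaryless] {α β : (x : M) → TangentSpace I x →L[ℝ] ℝ} {x : M}
    (h : ∀ᶠ x' in 𝓝 x, α x' = β x') (u v : TangentSpace I x) :
    dOne I α x u v = dOne I β x u v := by
  unfold dOne
  rw [dvec_congr (aloc_congr h)]

theorem FormSmoothAt.add {α β : (x : M) → TangentSpace I x →L[ℝ] ℝ} {x : M}
    (hα : FormSmoothAt I α x) (hβ : FormSmoothAt I β x) :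
    FormSmoothAt I (fun x => α x + β x) x :=
  ContDiffAt.add hα hβ

theorem FormSmoothAt.sub {α β : (x : M) → TangentSpace I x →L[ℝ] ℝ} {x : M}
    (hα : FormSmoothAt I α x) (hβ : FormSmoothAt I β x) :
    FormSmoothAt I (fun x => α x - β x) x := by
  have h1 : aloc I (fun x => α x - β x) x = fun y => aloc I α x y - aloc I β x y := by
    funext y
    ext v
    rfl
  unfold FormSmoothAt
  rw [h1]
  exact ContDiffAt.sub hα hβ

theorem dOne_add {α β : (x : M) → TangentSpace I x →L[ℝ] ℝ} {x : M}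
    (hα : FormSmoothAt I α x) (hβ : FormSmoothAt I β x) (u v : TangentSpace I x) :
    dOne I (fun x => α x + β x) x u v = dOne I α x u v + dOne I β x u v := by
  have h1 : aloc I (fun x => α x + β x) x = aloc I α x + aloc I β x := rfl
  unfold dOne dvec
  rw [h1, fderiv_add (ContDiffAt.differentiableAt hα (by simp))
    (ContDiffAt.differentiableAt hβ (by simp))]
  simp only [ContinuousLinearMap.add_apply]
  ring

theorem dOne_sub {α β : (x : M) → TangentSpace I x →L[ℝ] ℝ} {x : M}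
    (hα : FormSmoothAt I α x) (hβ : FormSmoothAt I β x) (u v : TangentSpace I x) :
    dOne I (fun x => α x - β x) x u v = dOne I α x u v - dOne I β x u v := by
  have h1 : aloc I (fun x => α x - β x) x = aloc I α x - aloc I β x := by
    funext y
    ext v
    rfl
  unfold dOne dvec
  rw [h1, fderiv_sub (ContDiffAt.differentiableAt hα (by simp))
    (ContDiffAt.differentiableAt hβ (by simp))]
  simp only [ContinuousLinearMap.sub_apply]
  ring

section

variable [IsManifold I ∞ M] [IsManifold I 1 M] [I.Boundaryless]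
  [IsManifold J ∞ N] [IsManifold J 1 N] [J.Boundaryless]

theorem formSmoothAt_dfn {f : M → ℝ} {x : M} (hf : ContMDiffAt I 𝓘(ℝ, ℝ) ∞ f x) :
    FormSmoothAt I (dfn I f) x :=
  FormSmoothAt.pb (formSmoothAt_vec.2 contDiffAt_const) hf

theorem dOne_dfn {f : M → ℝ} {x : M} (hf : ContMDiffAt I 𝓘(ℝ, ℝ) ∞ f x)
    (u v : TangentSpace I x) : dOne I (dfn I f) x u v = 0 := by
  unfold dfn
  rw [dOne_pb (formSmoothAt_vec.2 contDiffAt_const) hf]
  have := dOne_vec (fun _ : ℝ => ContinuousLinearMap.id ℝ ℝ) (f x)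
    (mfderiv I 𝓘(ℝ, ℝ) f x u) (mfderiv I 𝓘(ℝ, ℝ) f x v)
  refine this.trans ?_
  unfold dvec
  simp

omit [IsManifold I ∞ M] [IsManifold I 1 M] [I.Boundaryless] in
theorem dvec_sub_left (a : E → E →L[ℝ] ℝ) (y u u' v : E) :
    dvec a y (u - u') v = dvec a y u v - dvec a y u' v := by
  unfold dvec
  rw [map_sub, map_sub, ContinuousLinearMap.sub_apply]
  ring

/-- Bundled exterior derivative on a normed space. -/
noncomputable def dvecL (a : E → E →L[ℝ] ℝ) (y : E) : E →L[ℝ] E →L[ℝ] ℝ :=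
  fderiv ℝ a y - (fderiv ℝ a y).flip

omit [IsManifold I ∞ M] [IsManifold I 1 M] [I.Boundaryless] in
theorem dvecL_apply (a : E → E →L[ℝ] ℝ) (y u v : E) : dvecL a y u v = dvec a y u v := rfl

omit [IsManifold I ∞ M] [IsManifold I 1 M] [I.Boundaryless] in
theorem contDiff_flip : ContDiff ℝ ∞ (fun B : E →L[ℝ] E →L[ℝ] ℝ => B.flip) :=
  LinearIsometryEquiv.contDiff (𝕜 := ℝ) (E := E →L[ℝ] E →L[ℝ] ℝ) (F := E →L[ℝ] E →L[ℝ] ℝ)
    (ContinuousLinearMap.flipₗᵢ ℝ E E ℝ)

omit [IsManifold I ∞ M] [IsManifold I 1 M] [I.Boundaryless] in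
theorem contDiffAt_dvecL {a : E → E →L[ℝ] ℝ} {y : E} (ha : ContDiffAt ℝ ∞ a y) :
    ContDiffAt ℝ ∞ (dvecL a) y := by
  have h1 : ContDiffAt ℝ ∞ (fderiv ℝ a) y := ha.fderiv_right (m := ∞) (by simp)
  have h2 : ContDiffAt ℝ ∞ (fun y => (fderiv ℝ a y).flip) y :=
    contDiff_flip.contDiffAt.comp y h1
  exact h1.sub h2

omit [IsManifold I ∞ M] [IsManifold I 1 M] [I.Boundaryless] in
theorem isInvertible_of_nondeg [FiniteDimensional ℝ E] (B : E →L[ℝ] E →L[ℝ] ℝ)
    (h : ∀ u, (∀ v, B u v = 0) → u = 0) : B.IsInvertible := by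
  have hinj : Injective B := by
    rw [injective_iff_map_eq_zero]
    intro u hu
    apply h
    intro v
    rw [hu]
    rfl
  have hdim : Module.finrank ℝ E = Module.finrank ℝ (E →L[ℝ] ℝ) := by
    have h1 : Module.finrank ℝ (E →L[ℝ] ℝ) = Module.finrank ℝ (E →ₗ[ℝ] ℝ) :=
      (LinearMap.toContinuousLinearMap (𝕜 := ℝ) (E := E) (F' := ℝ)).symm.finrank_eq
    rw [h1, Module.finrank_linearMap_self]
  let e : E ≃ₗ[ℝ] (E →L[ℝ] ℝ) := LinearEquiv.ofInjectiveOfFinrankEq (B : E →ₗ[ℝ] E →L[ℝ] ℝ)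
    hinj hdim
  refine ⟨e.toContinuousLinearEquiv, ?_⟩
  ext u v
  rfl

open Classical in
/-- The vector field dual to the one-form `α` with respect to `dα` (zero where it does not
exist). -/
noncomputable def zdual (I : ModelWithCorners ℝ E H) (α : (x : M) → TangentSpace I x →L[ℝ] ℝ)
    (x : M) : TangentSpace I x :=
  if h : ∃ z : TangentSpace I x, ∀ v : TangentSpace I x, dOne I α x z v = α x v then h.choose
  else 0

theorem dOne_chart {α : (x : M) → TangentSpace I x →L[ℝ] ℝ} (x₀ : M) {y : E}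
    (hy : y ∈ (extChartAt I x₀).target) (h : FormSmoothAt I α ((extChartAt I x₀).symm y))
    (u v : E) :
    dvec (aloc I α x₀) y u v = dOne I α ((extChartAt I x₀).symm y)
      (mfderiv 𝓘(ℝ, E) I (extChartAt I x₀).symm y u)
      (mfderiv 𝓘(ℝ, E) I (extChartAt I x₀).symm y v) := by
  have h1 := dOne_pb (J := 𝓘(ℝ, E)) h (contMDiffAt_symm x₀ hy) u v
  rw [← h1]
  exact (dOne_vec _ _ _ _).symm

omit [IsManifold I ∞ M] [IsManifold I 1 M] [I.Boundaryless] in
theorem dOne_sub_left {α : (x : M) → TangentSpace I x →L[ℝ] ℝ} (x : M)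
    (u u' v : TangentSpace I x) :
    dOne I α x (u - u') v = dOne I α x u v - dOne I α x u' v := by
  unfold dOne
  rw [map_sub]
  exact dvec_sub_left _ _ _ _ _

theorem nondeg_chart {α : (x : M) → TangentSpace I x →L[ℝ] ℝ} (x₀ : M) {y : E}
    (hy : y ∈ (extChartAt I x₀).target) (h : FormSmoothAt I α ((extChartAt I x₀).symm y))
    (hn : Nondeg I α ((extChartAt I x₀).symm y)) (u : E)
    (hu : ∀ v, dvec (aloc I α x₀) y u v = 0) : u = 0 := by
  have hx : (extChartAt I x₀).symm y ∈ (extChartAt I x₀).source := (extChartAt I x₀).map_target hy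
  have hyy : extChartAt I x₀ ((extChartAt I x₀).symm y) = y := (extChartAt I x₀).right_inv hy
  have h1 : (mfderiv 𝓘(ℝ, E) I (extChartAt I x₀).symm y u : E) = 0 := by
    apply hn
    intro v
    have h2 := hu (mfderiv I 𝓘(ℝ, E) (extChartAt I x₀) ((extChartAt I x₀).symm y) v)
    rw [dOne_chart x₀ hy h] at h2
    have h3 := mfderiv_symm_chart (I := I) x₀ hx v
    rw [hyy] at h3
    rw [← h2]
    exact congrArg (fun w : E => dOne I α ((extChartAt I x₀).symm y)
      (mfderiv 𝓘(ℝ, E) I (extChartAt I x₀).symm y u) w) h3.symm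
  have h4 := mfderiv_chart_symm (I := I) x₀ hx u
  rw [hyy] at h4
  rw [← h4]
  exact (congrArg (mfderiv I 𝓘(ℝ, E) (extChartAt I x₀) ((extChartAt I x₀).symm y) : E →L[ℝ] E)
    h1).trans (map_zero _)

theorem zdual_exists [FiniteDimensional ℝ E] {α : (x : M) → TangentSpace I x →L[ℝ] ℝ} {x : M}
    (h : FormSmoothAt I α x) (hn : Nondeg I α x) :
    ∃ z : TangentSpace I x, ∀ v : TangentSpace I x, dOne I α x z v = α x v := by
  have hx := mem_extChartAt_source (I := I) x
  have hz : extChartAt I x x ∈ (extChartAt I x).target := (extChartAt I x).map_source hx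
  have hl : (extChartAt I x).symm (extChartAt I x x) = x := (extChartAt I x).left_inv hx
  have hinv := isInvertible_of_nondeg (dvecL (aloc I α x) (extChartAt I x x)) (fun u hu =>
    nondeg_chart x hz (by rwa [hl]) (by rwa [hl]) u hu)
  obtain ⟨B, hB⟩ := hinv
  -- the coordinate expression
  set b : E →L[ℝ] ℝ := aloc I α x (extChartAt I x x) with hb
  refine ⟨(mfderiv 𝓘(ℝ, E) I (extChartAt I x).symm (extChartAt I x x) : E →L[ℝ] E) (B.symm b), ?_⟩
  intro v
  have h1 : dvecL (aloc I α x) (extChartAt I x x) (B.symm b) = b := by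
    rw [← hB]
    exact B.apply_symm_apply b
  unfold dOne
  rw [mfderiv_chart_symm (I := I) x hx]
  have h2 : dvec (aloc I α x) (extChartAt I x x) (B.symm b)
      (mfderiv I 𝓘(ℝ, E) (extChartAt I x) x v) = b (mfderiv I 𝓘(ℝ, E) (extChartAt I x) x v) :=
    congrArg (fun L : E →L[ℝ] ℝ => L (mfderiv I 𝓘(ℝ, E) (extChartAt I x) x v)) h1
  rw [h2, hb]
  have h3 := mfderiv_symm_chart (I := I) x hx v
  have h4 : ∀ (p : M) (w : E), p = x → w = v → (α p : E →L[ℝ] ℝ) w = (α x : E →L[ℝ] ℝ) v := by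
    rintro p w rfl rfl
    rfl
  exact h4 _ _ hl h3

theorem zdual_spec [FiniteDimensional ℝ E] {α : (x : M) → TangentSpace I x →L[ℝ] ℝ} {x : M}
    (h : FormSmoothAt I α x) (hn : Nondeg I α x) (v : TangentSpace I x) :
    dOne I α x (zdual I α x) v = α x v := by
  have h1 := zdual_exists h hn
  unfold zdual
  rw [dif_pos h1]
  exact h1.choose_spec v

omit [IsManifold I ∞ M] [IsManifold I 1 M] [I.Boundaryless] in
theorem zdual_unique {α : (x : M) → TangentSpace I x →L[ℝ] ℝ} {x : M}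
    (hn : Nondeg I α x) {z : TangentSpace I x} (hz : ∀ v : TangentSpace I x, dOne I α x z v = α x v) :
    zdual I α x = z := by
  have h1 : ∃ z : TangentSpace I x, ∀ v : TangentSpace I x, dOne I α x z v = α x v := ⟨z, hz⟩
  unfold zdual
  rw [dif_pos h1, ← sub_eq_zero]
  apply hn
  intro v
  rw [dOne_sub_left, h1.choose_spec v, hz, sub_self]

omit [I.Boundaryless] in
/-- Smoothness of a vector field from its coefficients in charts. -/
theorem smoothVF_of_local {v : (x : M) → TangentSpace I x}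
    (h : ∀ x₀ : M, ∃ z : E → E, ContDiffAt ℝ ∞ z (extChartAt I x₀ x₀) ∧
      ∀ᶠ x in 𝓝 x₀, mfderiv I 𝓘(ℝ, E) (extChartAt I x₀) x (v x) = z (extChartAt I x₀ x)) :
    SmoothVF I v := by
  intro x₀
  obtain ⟨z, hz, hzv⟩ := h x₀
  have key : ContMDiffAt I 𝓘(ℝ, E) ∞
      (fun x => (trivializationAt E (TangentSpace I) x₀ ⟨x, v x⟩).2) x₀ := by
    have h1 : ContMDiffAt I 𝓘(ℝ, E) ∞ (z ∘ extChartAt I x₀) x₀ :=
      ContMDiffAt.comp x₀ (contMDiffAt_iff_contDiffAt.2 hz)
        (contMDiffAt_extChartAt' (mem_chart_source H x₀))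
    refine h1.congr_of_eventuallyEq ?_
    have h2 : ∀ᶠ x in 𝓝 x₀, x ∈ (chartAt H x₀).source :=
      (chartAt H x₀).open_source.mem_nhds (mem_chart_source H x₀)
    filter_upwards [h2, hzv] with x hx hzx
    have h3 : x ∈ (trivializationAt E (TangentSpace I) x₀).baseSet := by
      rw [TangentBundle.trivializationAt_baseSet]
      exact hx
    rw [← Bundle.Trivialization.continuousLinearMapAt_apply_of_mem (R := ℝ) _ h3,
      TangentBundle.continuousLinearMapAt_trivializationAt hx]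
    exact hzx
  exact (Bundle.contMDiffAt_section x₀).2 key

theorem smoothVF_zdual [FiniteDimensional ℝ E] {α : (x : M) → TangentSpace I x →L[ℝ] ℝ}
    (h : ∀ x, FormSmoothAt I α x) (hn : ∀ x, Nondeg I α x) : SmoothVF I (zdual I α) := by
  have hcomplete : CompleteSpace E := FiniteDimensional.complete ℝ E
  apply smoothVF_of_local
  intro x₀
  have hx₀ := mem_extChartAt_source (I := I) x₀
  have hinv : ∀ y ∈ (extChartAt I x₀).target, (dvecL (aloc I α x₀) y).IsInvertible := by
    intro y hy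
    exact isInvertible_of_nondeg _ (fun u hu => nondeg_chart x₀ hy (h _) (hn _) u hu)
  refine ⟨fun y => (dvecL (aloc I α x₀) y).inverse (aloc I α x₀ y), ?_, ?_⟩
  · have hy₀ := (extChartAt I x₀).map_source hx₀
    have h1 : ContDiffAt ℝ ∞ (fun y => (dvecL (aloc I α x₀) y).inverse) (extChartAt I x₀ x₀) :=
      ContDiffAt.comp _ (hinv _ hy₀).contDiffAt_map_inverse (contDiffAt_dvecL (h x₀))
    exact h1.clm_apply (h x₀)
  · filter_upwards [(isOpen_extChartAt_source (I := I) x₀).mem_nhds hx₀] with x hx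
    have hy := (extChartAt I x₀).map_source hx
    have hl : (extChartAt I x₀).symm (extChartAt I x₀ x) = x := (extChartAt I x₀).left_inv hx
    have h2 := hinv _ hy
    symm
    refine h2.inverse_apply_eq.2 ?_
    ext v
    rw [dvecL_apply]
    have h3 : dvec (aloc I α x₀) (extChartAt I x₀ x)
        (mfderiv I 𝓘(ℝ, E) (extChartAt I x₀) x (zdual I α x)) v = dOne I α
        ((extChartAt I x₀).symm (extChartAt I x₀ x))
        (mfderiv 𝓘(ℝ, E) I (extChartAt I x₀).symm (extChartAt I x₀ x)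
          (mfderiv I 𝓘(ℝ, E) (extChartAt I x₀) x (zdual I α x)))
        (mfderiv 𝓘(ℝ, E) I (extChartAt I x₀).symm (extChartAt I x₀ x) v) :=
      dOne_chart x₀ hy (h _) _ _
    rw [h3]
    have h4 := mfderiv_symm_chart (I := I) x₀ hx (zdual I α x)
    have h5 : ∀ (p : M) (w w' : E), p = x → w = zdual I α x →
        dOne I α p w w' = (α p : E →L[ℝ] ℝ) w' := by
      rintro p w w' rfl rfl
      exact zdual_spec (h p) (hn p) w'
    exact (h5 _ _ _ hl h4).symm

/-- Naturality of the dual vector field under maps with surjective derivative preserving the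
forms. -/
theorem zdual_map [FiniteDimensional ℝ E] [FiniteDimensional ℝ E'] {g : N → M}
    {β : (x : N) → TangentSpace J x →L[ℝ] ℝ}
    {α : (x : M) → TangentSpace I x →L[ℝ] ℝ} {x : N}
    (hg : ContMDiffAt J I ∞ g x) (hsurj : Surjective (mfderiv J I g x))
    (hα : FormSmoothAt I α (g x)) (hnα : Nondeg I α (g x)) (hβ : FormSmoothAt J β x)
    (hnβ : Nondeg J β x) (hpb : ∀ᶠ x' in 𝓝 x, pb J I g α x' = β x') :
    mfderiv J I g x (zdual J β x) = zdual I α (g x) := by
  symm
  apply zdual_unique hnα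
  intro v
  obtain ⟨w, rfl⟩ := hsurj v
  have h1 := dOne_pb hα hg (zdual J β x) w
  rw [dOne_congr hpb, zdual_spec hβ hnβ] at h1
  rw [← h1, ← hpb.self_of_nhds]
  rfl

end

end Pool.Agent.H67.Liou
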