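import Pool.Agent.H67.Liou.Struct

/-! Exact symplectic embeddings. -/

open Topology Filter Set Function
open scoped ContDiff Manifold

set_option linter.unusedSectionVars false

namespace Pool.Agent.H67.Liou

universe u u' u''

variable {E : Type u} [NormedAddCommGroup E] [NormedSpace ℝ E]
  {H : Type*} [TopologicalSpace H] {I : ModelWithCorners ℝ E H}
  {M : Type*} [TopologicalSpace M] [ChartedSpace H M]
  {E' : Type u'} [NormedAddCommGroup E'] [NormedSpace ℝ E']
  {H' : Type*} [TopologicalSpace H'] {J : ModelWithCorners ℝ E' H'}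
  {N : Type*} [TopologicalSpace N] [ChartedSpace H' N]
  {E'' : Type u''} [NormedAddCommGroup E''] [NormedSpace ℝ E'']
  {H'' : Type*} [TopologicalSpace H''] {K : ModelWithCorners ℝ E'' H''}
  {P : Type*} [TopologicalSpace P] [ChartedSpace H'' P]

section dfn

theorem dfn_add_apply {f g : M → ℝ} {x : M} (hf : ContMDiffAt I 𝓘(ℝ, ℝ) ∞ f x)
    (hg : ContMDiffAt I 𝓘(ℝ, ℝ) ∞ g x) (v : TangentSpace I x) :
    dfn I (fun x => f x + g x) x v = dfn I f x v + dfn I g x v := by
  have h1 := ((hf.mdifferentiableAt infty_ne_zero).hasMFDerivAt.add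
    (hg.mdifferentiableAt infty_ne_zero).hasMFDerivAt).mfderiv
  have h2 : dfn I (fun x => f x + g x) x v = mfderiv I 𝓘(ℝ, ℝ) (f + g) x v := rfl
  rw [h2, h1]
  rfl

theorem dfn_sub_apply {f g : M → ℝ} {x : M} (hf : ContMDiffAt I 𝓘(ℝ, ℝ) ∞ f x)
    (hg : ContMDiffAt I 𝓘(ℝ, ℝ) ∞ g x) (v : TangentSpace I x) :
    dfn I (fun x => f x - g x) x v = dfn I f x v - dfn I g x v := by
  have h1 := ((hf.mdifferentiableAt infty_ne_zero).hasMFDerivAt.sub
    (hg.mdifferentiableAt infty_ne_zero).hasMFDerivAt).mfderiv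
  have h2 : dfn I (fun x => f x - g x) x v = mfderiv I 𝓘(ℝ, ℝ) (f - g) x v := rfl
  rw [h2, h1]
  rfl

theorem dfn_const_mul_apply {f : M → ℝ} {x : M} (hf : ContMDiffAt I 𝓘(ℝ, ℝ) ∞ f x) (c : ℝ)
    (v : TangentSpace I x) :
    dfn I (fun x => c * f x) x v = c * dfn I f x v := by
  have h1 := ((hf.mdifferentiableAt infty_ne_zero).hasMFDerivAt.const_smul c).mfderiv
  have h2 : dfn I (fun x => c * f x) x v = mfderiv I 𝓘(ℝ, ℝ) (c • f) x v := rfl
  rw [h2, h1]
  rfl

theorem dfn_neg_apply {f : M → ℝ} {x : M} (hf : ContMDiffAt I 𝓘(ℝ, ℝ) ∞ f x)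
    (v : TangentSpace I x) :
    dfn I (fun x => - f x) x v = - dfn I f x v := by
  have h1 := ((hf.mdifferentiableAt infty_ne_zero).hasMFDerivAt.neg).mfderiv
  have h2 : dfn I (fun x => - f x) x v = mfderiv I 𝓘(ℝ, ℝ) (- f) x v := rfl
  rw [h2, h1]
  rfl

theorem dfn_comp_apply {f : M → ℝ} {g : N → M} {x : N} (hf : ContMDiffAt I 𝓘(ℝ, ℝ) ∞ f (g x))
    (hg : ContMDiffAt J I ∞ g x) (v : TangentSpace J x) :
    dfn J (fun x => f (g x)) x v = dfn I f (g x) (mfderiv J I g x v) := by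
  have h := mfderiv_comp_apply (I := J) (I' := I) (I'' := 𝓘(ℝ, ℝ)) (g := f) (f := g) x
    (hf.mdifferentiableAt infty_ne_zero) (hg.mdifferentiableAt infty_ne_zero) v
  exact h

theorem dfn_congr {f g : M → ℝ} {x : M} (h : f =ᶠ[𝓝 x] g) : dfn I f x = dfn I g x := pb_congr h

theorem dfn_const (c : ℝ) (x : M) : dfn I (fun _ => c) x = 0 := by
  unfold dfn pb
  rw [mfderiv_const]
  ext v
  rfl

end dfn

/-- An exact symplectic embedding `g`, with primitive `k` of `g^* λ' - λ`. -/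
structure ExEmb (S : LStr J N) (S' : LStr I M) (g : N → M) (k : N → ℝ) : Prop where
  smooth : ContMDiff J I ∞ g
  inj : Injective g
  bij : ∀ x, Bijective (mfderiv J I g x)
  smoothK : ContMDiff J 𝓘(ℝ, ℝ) ∞ k
  pull : ∀ x (v : TangentSpace J x), S'.lam (g x) (mfderiv J I g x v) = S.lam x v + dfn J k x v

theorem ExEmb.comp {S : LStr J N} {S' : LStr I M} {S'' : LStr K P} {g : N → M} {k : N → ℝ}
    {h : M → P} {l : M → ℝ} (h2 : ExEmb S' S'' h l) (h1 : ExEmb S S' g k) :
    ExEmb S S'' (h ∘ g) (fun x => k x + l (g x)) where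
  smooth := h2.smooth.comp h1.smooth
  inj := h2.inj.comp h1.inj
  bij x := by
    have h3 := mfderiv_comp x ((h2.smooth (g x)).mdifferentiableAt infty_ne_zero)
      ((h1.smooth x).mdifferentiableAt infty_ne_zero)
    rw [h3]
    exact (h2.bij (g x)).comp (h1.bij x)
  smoothK := h1.smoothK.add (h2.smoothK.comp h1.smooth)
  pull x v := by
    have h3 := mfderiv_comp_apply x ((h2.smooth (g x)).mdifferentiableAt infty_ne_zero)
      ((h1.smooth x).mdifferentiableAt infty_ne_zero) v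
    have h4 : S''.lam ((h ∘ g) x) (mfderiv J K (h ∘ g) x v) =
        S''.lam (h (g x)) (mfderiv I K h (g x) (mfderiv J I g x v)) :=
      congrArg (S''.lam (h (g x)) : E'' →L[ℝ] ℝ) h3
    have h5 : dfn J (fun x => k x + l (g x)) x v = dfn J k x v + dfn J (fun x => l (g x)) x v :=
      dfn_add_apply (h1.smoothK x) ((h2.smoothK.comp h1.smooth) x) v
    rw [h4, h2.pull, h1.pull, h5, ← dfn_comp_apply (h2.smoothK (g x)) (h1.smooth x), add_assoc]

end Pool.Agent.H67.Liou
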