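import Pool.Agent.H67.Liou.Dual

/-! The flow of the Liouville vector field expands the Liouville form. -/

open Topology Filter Set Function
open scoped ContDiff Manifold

set_option linter.unusedSectionVars false

namespace Pool.Agent.H67.Liou

universe u

variable {E : Type u} [NormedAddCommGroup E] [NormedSpace ℝ E]
  {H : Type*} [TopologicalSpace H] {I : ModelWithCorners ℝ E H}
  {M : Type*} [TopologicalSpace M] [ChartedSpace H M]

theorem eq_exp_of_hasDerivAt {h : ℝ → ℝ} (hh : ∀ t, HasDerivAt h (h t) t) (t : ℝ) :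
    h t = Real.exp t * h 0 := by
  have h1 : ∀ s, HasDerivAt (fun s => Real.exp (-s) * h s) 0 s := by
    intro s
    have h2 : HasDerivAt (fun s => Real.exp (-s)) (Real.exp (-s) * (-1)) s :=
      (hasDerivAt_neg s).exp
    have h3 := h2.mul (hh s)
    refine h3.congr_deriv ?_
    ring
  have h4 := is_const_of_deriv_eq_zero (fun s => (h1 s).differentiableAt)
    (fun s => (h1 s).deriv) t 0
  simp only [neg_zero, Real.exp_zero, one_mul] at h4
  rw [← h4, ← mul_assoc, ← Real.exp_add]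
  simp

theorem scalar_ode {μ : ℝ × E → ℝ × E →L[ℝ] ℝ} {s : ℝ} {y w : E}
    (hd : DifferentiableAt ℝ μ (s, y)) (h4 : (fun p => μ p (1, 0)) =ᶠ[𝓝 (s, y)] fun _ => 0)
    (h8 : dvec μ (s, y) (1, 0) (0, w) = μ (s, y) (0, w)) :
    HasDerivAt (fun s => μ (s, y) (0, w)) (μ (s, y) (0, w)) s := by
  have hcurve : HasDerivAt (fun t : ℝ => ((t, y) : ℝ × E)) (1, 0) s :=
    (hasDerivAt_id s).prodMk (hasDerivAt_const s y)
  have h1 : HasDerivAt (fun t => μ (t, y)) (fderiv ℝ μ (s, y) (1, 0)) s :=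
    hd.hasFDerivAt.comp_hasDerivAt s hcurve
  have h2 : HasDerivAt (fun t => μ (t, y) (0, w)) (fderiv ℝ μ (s, y) (1, 0) (0, w)) s := by
    have := h1.clm_apply (hasDerivAt_const s ((0, w) : ℝ × E))
    simpa using this
  refine h2.congr_deriv ?_
  have h3 : HasFDerivAt (fun p => μ p (1, 0)) ((fderiv ℝ μ (s, y)).flip (1, 0)) (s, y) := by
    have := hd.hasFDerivAt.clm_apply (hasFDerivAt_const ((1, 0) : ℝ × E) (s, y))
    simpa using this
  have h6 := ((hasFDerivAt_const (0 : ℝ) (s, y)).congr_of_eventuallyEq h4).unique h3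
  have h7 : fderiv ℝ μ (s, y) (0, w) (1, 0) = 0 := by
    have := congrArg (fun L : ℝ × E →L[ℝ] ℝ => L (0, w)) h6
    simpa using this.symm
  unfold dvec at h8
  rw [h7, sub_zero] at h8
  exact h8

theorem dOne_self (α : (x : M) → TangentSpace I x →L[ℝ] ℝ) (x : M) (u : TangentSpace I x) :
    dOne I α x u u = 0 := by
  unfold dOne dvec
  exact sub_self _

variable [IsManifold I ∞ M] [IsManifold I 1 M] [I.Boundaryless]

theorem apply_zdual [FiniteDimensional ℝ E] {α : (x : M) → TangentSpace I x →L[ℝ] ℝ} {x : M}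
    (h : FormSmoothAt I α x) (hn : Nondeg I α x) : α x (zdual I α x) = 0 := by
  rw [← zdual_spec h hn, dOne_self]

theorem mfderiv_flow_time {v : (x : M) → TangentSpace I x} {φ : ℝ → M → M} (hφ : IsFlow I v φ)
    (t : ℝ) (x : M) :
    mfderiv 𝓘(ℝ, ℝ) I (fun s => φ s x) t (1 : ℝ) = v (φ t x) := by
  rw [(hφ.curve x t).mfderiv]
  exact one_smul ℝ _

theorem pull_flow [FiniteDimensional ℝ E] [T2Space M]
    {α : (x : M) → TangentSpace I x →L[ℝ] ℝ} (h : ∀ x, FormSmoothAt I α x)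
    (hn : ∀ x, Nondeg I α x) {φ : ℝ → M → M} (hφ : IsFlow I (zdual I α) φ) (t : ℝ) (x : M)
    (w : TangentSpace I x) :
    α (φ t x) (mfderiv I I (φ t) x w) = Real.exp t * α x w := by
  have hv := smoothVF_zdual h hn
  set e := extChartAt I x with he
  have hx := mem_extChartAt_source (I := I) x
  have hy : e x ∈ e.target := e.map_source hx
  have hl : e.symm (e x) = x := e.left_inv hx
  have hopen : IsOpen e.target := isOpen_extChartAt_target x
  let G : ℝ × E → M := fun p => φ p.1 (e.symm p.2)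
  have hG : ∀ s, ∀ y ∈ e.target, ContMDiffAt 𝓘(ℝ, ℝ × E) I ∞ G (s, y) := by
    intro s y hy
    have h1 : ContMDiffAt 𝓘(ℝ, ℝ × E) (𝓘(ℝ, ℝ).prod I) ∞
        (fun p : ℝ × E => (p.1, e.symm p.2)) (s, y) := by
      have h2 : ContMDiffAt 𝓘(ℝ, ℝ × E) 𝓘(ℝ, ℝ) ∞ (fun p : ℝ × E => p.1) (s, y) :=
        contMDiffAt_iff_contDiffAt.2 contDiffAt_fst
      have h3 : ContMDiffAt 𝓘(ℝ, ℝ × E) 𝓘(ℝ, E) ∞ (fun p : ℝ × E => p.2) (s, y) :=
        contMDiffAt_iff_contDiffAt.2 contDiffAt_snd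
      have h4 : ContMDiffAt 𝓘(ℝ, ℝ × E) I ∞ (fun p : ℝ × E => e.symm p.2) (s, y) :=
        ContMDiffAt.comp (x := (s, y)) (g := e.symm) (f := fun p : ℝ × E => p.2)
          (contMDiffAt_symm x hy) h3
      exact h2.prodMk h4
    exact ContMDiffAt.comp (x := (s, y)) (g := fun p : ℝ × M => φ p.1 p.2)
      (f := fun p : ℝ × E => (p.1, e.symm p.2)) (hφ.contMDiff hv _) h1
  let μ : ℝ × E → ℝ × E →L[ℝ] ℝ := pb 𝓘(ℝ, ℝ × E) I G α
  have hμ : ∀ s, ∀ y ∈ e.target, ContDiffAt ℝ ∞ μ (s, y) := fun s y hy =>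
    formSmoothAt_vec.1 (FormSmoothAt.pb (h _) (hG s y hy))
  -- time derivative of G
  have hGt : ∀ s, ∀ y ∈ e.target,
      (mfderiv 𝓘(ℝ, ℝ × E) I G (s, y) : ℝ × E →L[ℝ] E) (1, 0) = zdual I α (G (s, y)) := by
    intro s y hy
    have h1 := mfderiv_flow_time hφ s (e.symm y)
    have h2 : MDifferentiableAt 𝓘(ℝ, ℝ) 𝓘(ℝ, ℝ × E) (fun t : ℝ => ((t, y) : ℝ × E)) s := by
      have : DifferentiableAt ℝ (fun t : ℝ => ((t, y) : ℝ × E)) s := by fun_prop
      exact this.mdifferentiableAt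
    have h3 := mfderiv_comp_apply (g := G) (f := fun t : ℝ => ((t, y) : ℝ × E)) s
      ((hG s y hy).mdifferentiableAt (by simp)) h2 (1 : ℝ)
    have h4 : (mfderiv 𝓘(ℝ, ℝ) 𝓘(ℝ, ℝ × E) (fun t : ℝ => ((t, y) : ℝ × E)) s : ℝ →L[ℝ] ℝ × E)
        (1 : ℝ) = ((1, 0) : ℝ × E) := by
      rw [mfderiv_eq_fderiv]
      have h5 : HasDerivAt (fun t : ℝ => ((t, y) : ℝ × E)) (1, 0) s :=
        (hasDerivAt_id s).prodMk (hasDerivAt_const s y)
      have h7 : fderiv ℝ (fun t : ℝ => ((t, y) : ℝ × E)) s 1 = (1, 0) := by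
        rw [h5.hasFDerivAt.fderiv]
        simp
      exact h7
    have h6 : (mfderiv 𝓘(ℝ, ℝ × E) I G (s, y) : ℝ × E →L[ℝ] E)
        ((mfderiv 𝓘(ℝ, ℝ) 𝓘(ℝ, ℝ × E) (fun t : ℝ => ((t, y) : ℝ × E)) s : ℝ →L[ℝ] ℝ × E)
        (1 : ℝ)) = zdual I α (G (s, y)) := h3.symm.trans h1
    rwa [h4] at h6
  have hμ1 : ∀ s, ∀ y ∈ e.target, μ (s, y) (1, 0) = 0 := by
    intro s y hy
    have h1 : μ (s, y) (1, 0) = α (G (s, y)) (mfderiv 𝓘(ℝ, ℝ × E) I G (s, y) (1, 0)) := rfl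
    rw [h1]
    refine (congrArg (α (G (s, y))) (hGt s y hy)).trans ?_
    exact apply_zdual (h _) (hn _)
  have hμd : ∀ s, ∀ y ∈ e.target, ∀ w : E, dvec μ (s, y) (1, 0) (0, w) = μ (s, y) (0, w) := by
    intro s y hy w
    have h1 := dOne_pb (J := 𝓘(ℝ, ℝ × E)) (h _) (hG s y hy) ((1, 0) : ℝ × E) ((0, w) : ℝ × E)
    have h2 : dOne 𝓘(ℝ, ℝ × E) (pb 𝓘(ℝ, ℝ × E) I G α) (s, y) (1, 0) (0, w) =
        dvec μ (s, y) (1, 0) (0, w) := dOne_vec _ _ _ _
    rw [← h2]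
    refine h1.trans ?_
    have h3 : dOne I α (G (s, y)) (mfderiv 𝓘(ℝ, ℝ × E) I G (s, y) (1, 0))
        (mfderiv 𝓘(ℝ, ℝ × E) I G (s, y) (0, w)) = dOne I α (G (s, y)) (zdual I α (G (s, y)))
        (mfderiv 𝓘(ℝ, ℝ × E) I G (s, y) (0, w)) :=
      congrArg (fun z => dOne I α (G (s, y)) z (mfderiv 𝓘(ℝ, ℝ × E) I G (s, y) (0, w)))
        (hGt s y hy)
    refine h3.trans ?_
    exact zdual_spec (h _) (hn _) _
  -- the scalar equation
  have hode : ∀ w : E, ∀ s, HasDerivAt (fun s => μ (s, e x) (0, w)) (μ (s, e x) (0, w)) s := by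
    intro w s
    refine scalar_ode ((hμ s _ hy).differentiableAt (by simp)) ?_ (hμd s (e x) hy w)
    have h5 : ∀ᶠ p : ℝ × E in 𝓝 (s, e x), p.2 ∈ e.target :=
      continuousAt_snd.eventually (hopen.mem_nhds hy)
    filter_upwards [h5] with p hp
    exact hμ1 p.1 p.2 hp
  -- spatial derivative
  have hspace : ∀ s, ∀ w : E, μ (s, e x) (0, w) = α (φ s (e.symm (e x)))
      (mfderiv 𝓘(ℝ, E) I (φ s ∘ e.symm) (e x) w) := by
    intro s w
    have h2 : MDifferentiableAt 𝓘(ℝ, E) 𝓘(ℝ, ℝ × E) (fun y : E => ((s, y) : ℝ × E)) (e x) := by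
      have : DifferentiableAt ℝ (fun y : E => ((s, y) : ℝ × E)) (e x) := by fun_prop
      exact this.mdifferentiableAt
    have h3 := mfderiv_comp_apply (g := G) (f := fun y : E => ((s, y) : ℝ × E)) (e x)
      ((hG s _ hy).mdifferentiableAt (by simp)) h2 w
    have h4 : (mfderiv 𝓘(ℝ, E) 𝓘(ℝ, ℝ × E) (fun y : E => ((s, y) : ℝ × E)) (e x) :
        E →L[ℝ] ℝ × E) w = ((0, w) : ℝ × E) := by
      rw [mfderiv_eq_fderiv]
      have h5 : HasFDerivAt (fun y : E => ((s, y) : ℝ × E))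
          ((0 : E →L[ℝ] ℝ).prod (ContinuousLinearMap.id ℝ E)) (e x) :=
        (hasFDerivAt_const s (e x)).prodMk (hasFDerivAt_id (e x))
      have h7 : fderiv ℝ (fun y : E => ((s, y) : ℝ × E)) (e x) w = (0, w) := by
        rw [h5.fderiv]
        simp
      exact h7
    have h6 : (mfderiv 𝓘(ℝ, E) I (φ s ∘ e.symm) (e x) : E →L[ℝ] E) w =
        (mfderiv 𝓘(ℝ, ℝ × E) I G (s, e x) : ℝ × E →L[ℝ] E) (0, w) :=
      h3.trans (congrArg (mfderiv 𝓘(ℝ, ℝ × E) I G (s, e x) : ℝ × E →L[ℝ] E) h4)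
    exact (congrArg (α (φ s (e.symm (e x))) : E →L[ℝ] ℝ) h6).symm
  set w' : E := (mfderiv I 𝓘(ℝ, E) e x w : E) with hw'
  have hfin := eq_exp_of_hasDerivAt (hode w') t
  rw [hspace t w', hspace 0 w'] at hfin
  have hback : ∀ s, (mfderiv 𝓘(ℝ, E) I (φ s ∘ e.symm) (e x) : E →L[ℝ] E) w' =
      (mfderiv I I (φ s) x : E →L[ℝ] E) w := by
    intro s
    have h1 : MDifferentiableAt I I (φ s) (e.symm (e x)) :=
      ((hφ.contMDiff_time hv s) _).mdifferentiableAt (by simp)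
    have h2 := mfderiv_comp_apply (e x) h1 (mdiffAt_symm (I := I) x hy) w'
    have h3 := mfderiv_symm_chart (I := I) x hx w
    have h4 : ∀ (p : M) (u : E), p = x → u = w →
        (mfderiv I I (φ s) p : E →L[ℝ] E) u = (mfderiv I I (φ s) x : E →L[ℝ] E) w := by
      rintro p u rfl rfl
      rfl
    exact h2.trans (h4 _ _ hl h3)
  have hfin2 : ∀ s, (α (φ s (e.symm (e x))) : E →L[ℝ] ℝ)
      ((mfderiv 𝓘(ℝ, E) I (φ s ∘ e.symm) (e x) : E →L[ℝ] E) w') =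
      α (φ s x) (mfderiv I I (φ s) x w) := by
    intro s
    have h1 : ∀ (p : M) (u : E), p = x → u = (mfderiv I I (φ s) x : E →L[ℝ] E) w →
        (α (φ s p) : E →L[ℝ] ℝ) u = (α (φ s x) : E →L[ℝ] ℝ)
          ((mfderiv I I (φ s) x : E →L[ℝ] E) w) := by
      rintro p u rfl rfl
      rfl
    exact h1 _ _ hl (hback s)
  have hfin3 : α (φ t x) (mfderiv I I (φ t) x w) =
      Real.exp t * α (φ 0 x) (mfderiv I I (φ 0) x w) := by
    rw [← hfin2 t, ← hfin2 0]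
    exact hfin
  rw [hfin3]
  congr 1
  have h0 : φ 0 = id := funext hφ.zero
  have h9 : ∀ (f : M → M), f = id → (α (f x) : E →L[ℝ] ℝ) ((mfderiv I I f x : E →L[ℝ] E) w) =
      (α x : E →L[ℝ] ℝ) w := by
    rintro f rfl
    rw [mfderiv_id]
    rfl
  exact h9 _ h0

end Pool.Agent.H67.Liou
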