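import Pool.Agent.H67.Liou.Core

/-! Liouville manifolds with smooth Lagrangian core are exact symplectomorphic to the cotangent
bundle of the core. -/

open Topology Filter Set Function
open scoped ContDiff Manifold

set_option linter.unusedSectionVars false

namespace Pool.Agent.H67.Liou

universe u v

section diffeo

variable {E : Type*} [NormedAddCommGroup E] [NormedSpace ℝ E] [FiniteDimensional ℝ E]
  {H : Type*} [TopologicalSpace H] {I : ModelWithCorners ℝ E H}
  {M : Type*} [TopologicalSpace M] [ChartedSpace H M]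
  [IsManifold I ∞ M] [IsManifold I 1 M] [I.Boundaryless]
  {E' : Type*} [NormedAddCommGroup E'] [NormedSpace ℝ E'] [FiniteDimensional ℝ E']
  {H' : Type*} [TopologicalSpace H'] {J : ModelWithCorners ℝ E' H'}
  {N : Type*} [TopologicalSpace N] [ChartedSpace H' N]
  [IsManifold J ∞ N] [IsManifold J 1 N] [J.Boundaryless]

/-- A bijective local diffeomorphism is a diffeomorphism. -/
theorem exists_diffeo {f : N → M} (hf : ContMDiff J I ∞ f)
    (hb : ∀ x, Bijective (mfderiv J I f x)) (hbij : Bijective f) :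
    ∃ Φ : Diffeomorph J I N M ∞, ⇑Φ = f := by
  let e : N ≃ M := Equiv.ofBijective f hbij
  have he : ∀ x, e x = f x := fun x => rfl
  have hs : ContMDiff I J ∞ e.symm := by
    intro y
    obtain ⟨x, rfl⟩ := hbij.2 y
    obtain ⟨h, -, hs, h1, -⟩ := ift_manifold (hf x) (hb x)
    refine hs.congr_of_eventuallyEq ?_
    filter_upwards [h1] with y hy
    apply e.injective
    rw [e.apply_symm_apply, he, hy]
  exact ⟨⟨e, hf, hs⟩, rfl⟩

end diffeo

variable {F : Type u} [NormedAddCommGroup F] [NormedSpace ℝ F] [FiniteDimensional ℝ F]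
  {H : Type*} [TopologicalSpace H] {I : ModelWithCorners ℝ F H}
  {L : Type*} [TopologicalSpace L] [ChartedSpace H L]
  [IsManifold I ∞ L] [IsManifold I 1 L] [I.Boundaryless]
  {E : Type v} [NormedAddCommGroup E] [NormedSpace ℝ E] [FiniteDimensional ℝ E]
  {HE : Type*} [TopologicalSpace HE] {IE : ModelWithCorners ℝ E HE}
  {M : Type*} [TopologicalSpace M] [ChartedSpace HE M]
  [IsManifold IE ∞ M] [IsManifold IE 1 M] [IE.Boundaryless]

theorem exactEquiv_cot [T2Space L] [T2Space M] [CompactSpace L]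
    (hdim : Module.finrank ℝ E = 2 * Module.finrank ℝ F)
    {lam : (x : M) → TangentSpace IE x →L[ℝ] ℝ} {Z : (x : M) → TangentSpace IE x}
    {φ : ℝ → M → M} {X₀ : Set M} (hX : IsLiouville IE lam Z φ X₀) {ι : L → M}
    (hι : IsLagrangianOnto I IE lam ι (core φ X₀)) :
    ExactEquiv IE (IC I) lam (lamCan I : (ξ : Cot I L) → TangentSpace (IC I) ξ →L[ℝ] ℝ) := by
  have hZ : Z = zdual IE lam := by
    funext x
    exact (zdual_unique (hX.nondeg x) (hX.dual x)).symm
  subst hZ
  let S : LStr IE M := ⟨lam, hX.smooth, hX.nondeg, φ, hX.flow⟩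
  have hC : ConvexDomain IE (zdual IE S.lam) S.φ X₀ := hX.convex
  have hA : Absorbs S (range ι) := by
    rw [hι.range_eq]
    exact hC.absorbs
  rcases isEmpty_or_nonempty L with hL | hL
  · -- the empty case
    have hM : IsEmpty M := by
      by_contra hne
      rw [not_isEmpty_iff] at hne
      have h1 := hA.nonempty
      rw [range_eq_empty] at h1
      exact not_nonempty_empty h1
    have hCot : IsEmpty (Cot I L) := ⟨fun ξ => hL.false ξ.1⟩
    let e : M ≃ Cot I L := Equiv.equivOfIsEmpty M (Cot I L)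
    exact ⟨⟨e, fun x => (hM.false x).elim, fun ξ => (hCot.false ξ).elim⟩, fun _ => 0,
      contMDiff_const, fun x => (hM.false x).elim⟩
  · have htan : ∀ (x : L) (v : TangentSpace I x), S.lam (ι x) (mfderiv I IE ι x v) = 0 := by
      intro x v
      have h0 : S.φ 0 (ι x) = ι x := S.zero (ι x)
      have h1 : HasMFDerivAt 𝓘(ℝ, ℝ) IE (fun t => S.φ t (ι x)) 0
          ((1 : ℝ →L[ℝ] ℝ).smulRight (zdual IE S.lam (S.φ 0 (ι x)) : E) : ℝ →L[ℝ] E) :=
        S.flow.curve (ι x) 0
      obtain ⟨w, hw⟩ := tangent_of_curve (F →L[ℝ] ℝ) hι.smooth hι.inj (hι.immersion x)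
        (by rw [finrank_dual', hdim, two_mul]) h0 h1 (fun t => by
          have h2 : S.φ t (ι x) ∈ core S.φ X₀ := by
            apply hC.core_inv
            have h3 : ι x ∈ range ι := ⟨x, rfl⟩
            rwa [hι.range_eq] at h3
          rw [hι.range_eq]
          exact h2)
      have hw' : mfderiv I IE ι x w = zdual IE S.lam (ι x) := by
        have key : ∀ y : M, y = ι x → (zdual IE S.lam y : E) = (zdual IE S.lam (ι x) : E) := by
          rintro _ rfl
          rfl
        exact hw.trans (key _ h0)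
      have h4 := zdual_spec (S.smooth (ι x)) (S.nondeg (ι x)) (mfderiv I IE ι x v)
      rw [← hw'] at h4
      rw [← h4]
      exact hι.isotropic x w v
    obtain ⟨f, l, hf, hsurj⟩ := main_equiv S hι.smooth hι.inj hι.immersion hdim htan hA
    obtain ⟨Φ, hΦ⟩ := exists_diffeo hf.smooth hf.bij ⟨hf.inj, hsurj⟩
    refine ⟨Φ, l, hf.smoothK, fun x => ?_⟩
    rw [hΦ]
    ext v
    have h1 := hf.pull x v
    have h2 : (pb IE (IC I) f (lamCan I) x - lam x) v =
      (cotStr I L).lam (f x) (mfderiv IE (IC I) f x v) - S.lam x v := rfl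
    rw [h2, h1]
    ring

end Pool.Agent.H67.Liou
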