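import Pool.Agent.H67.Liou.LocalFlow
import Pool.Agent.H67.Liou.Defs

/-! Global smoothness of flows of complete vector fields. -/

open Topology Filter Set Function
open scoped ContDiff Manifold

namespace Pool.Agent.H67.Liou

universe u

variable {E : Type u} [NormedAddCommGroup E] [NormedSpace ℝ E]
  {H : Type*} [TopologicalSpace H] {I : ModelWithCorners ℝ E H}
  {M : Type*} [TopologicalSpace M] [ChartedSpace H M]

theorem SmoothVF.one [IsManifold I ∞ M] [IsManifold I 1 M] {v : (x : M) → TangentSpace I x}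
    (hv : SmoothVF I v) : ContMDiff I I.tangent 1 (fun x => (⟨x, v x⟩ : TangentBundle I M)) :=
  ContMDiff.of_le hv (by simp)

theorem IsFlow.exists [IsManifold I ∞ M] {v : (x : M) → TangentSpace I x}
    (h : ∀ x, ∃ γ : ℝ → M, γ 0 = x ∧ IsMIntegralCurve γ v) : ∃ φ, IsFlow I v φ := by
  choose γ h0 hc using h
  exact ⟨fun t x => γ x t, h0, hc⟩

section

variable [IsManifold I ∞ M] [IsManifold I 1 M] [I.Boundaryless] [T2Space M]
  {v : (x : M) → TangentSpace I x} {φ : ℝ → M → M}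

theorem IsFlow.eq_of_curve (hφ : IsFlow I v φ) (hv : SmoothVF I v) {γ : ℝ → M}
    (hγ : IsMIntegralCurve γ v) (t : ℝ) : γ t = φ t (γ 0) := by
  have := isMIntegralCurve_Ioo_eq_of_contMDiff_boundaryless (t₀ := 0) hv.one hγ (hφ.curve (γ 0))
    (by rw [hφ.zero])
  exact congrFun this t

theorem IsFlow.add (hφ : IsFlow I v φ) (hv : SmoothVF I v) (s t : ℝ) (x : M) :
    φ (s + t) x = φ s (φ t x) := by
  have h1 := (hφ.curve x).comp_add t
  have h2 := hφ.eq_of_curve hv h1 s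
  simpa using h2

theorem IsFlow.neg_apply (hφ : IsFlow I v φ) (hv : SmoothVF I v) (t : ℝ) (x : M) :
    φ (-t) (φ t x) = x := by
  rw [← hφ.add hv, neg_add_cancel, hφ.zero]

theorem IsFlow.apply_neg (hφ : IsFlow I v φ) (hv : SmoothVF I v) (t : ℝ) (x : M) :
    φ t (φ (-t) x) = x := by
  rw [← hφ.add hv, add_neg_cancel, hφ.zero]

theorem IsFlow.contMDiff_nat [FiniteDimensional ℝ E] (hφ : IsFlow I v φ) (hv : SmoothVF I v)
    (n : ℕ) : ContMDiff (𝓘(ℝ, ℝ).prod I) I n (fun p : ℝ × M => φ p.1 p.2) := by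
  have hmn : IsManifold I n M := IsManifold.of_le (n := ∞) (by exact_mod_cast le_top)
  have hmn1 : IsManifold I (n + 1) M := IsManifold.of_le (n := ∞) (by exact_mod_cast le_top)
  set U : Set (ℝ × M) := {p | ContMDiffAt (𝓘(ℝ, ℝ).prod I) I n (fun p : ℝ × M => φ p.1 p.2) p}
    with hU
  have hUo : IsOpen U := by
    rw [isOpen_iff_mem_nhds]
    intro p hp
    exact (contMDiffAt_iff_contMDiffAt_nhds (by simp)).1 hp
  have hU0 : ∀ x, ((0 : ℝ), x) ∈ U := fun x =>
    (flow_contMDiffAt_zero hv hφ.zero hφ.curve x).of_le (by exact_mod_cast le_top)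
  intro p
  obtain ⟨t, x⟩ := p
  -- the set of good times
  have hcl : IsClopen {t : ℝ | (t, x) ∈ U} := by
    constructor
    · rw [← closure_subset_iff_isClosed]
      intro ts hts
      set y := φ ts x with hy
      have h1 : U ∈ 𝓝 ((0 : ℝ), y) := hUo.mem_nhds (hU0 y)
      rw [nhds_prod_eq, Filter.mem_prod_iff] at h1
      obtain ⟨A, hA, N, hN, hAN⟩ := h1
      have hc : Continuous (fun t => φ t x) := (hφ.curve x).continuous
      have h2 : ∀ᶠ t in 𝓝 ts, φ t x ∈ N := hc.continuousAt.eventually hN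
      have h3 : ∀ᶠ t in 𝓝 ts, ts - t ∈ A := by
        have h4 : ContinuousAt (fun t : ℝ => ts - t) ts := by fun_prop
        rw [ContinuousAt, sub_self] at h4
        exact h4.eventually hA
      obtain ⟨t₁, ht₁, ht₁N, ht₁A⟩ := ((mem_closure_iff_frequently.1 hts).and_eventually
        (h2.and h3)).exists
      have h6 : (ts - t₁, φ t₁ x) ∈ U := hAN (Set.mk_mem_prod ht₁A ht₁N)
      have h7 : (fun p : ℝ × M => φ p.1 p.2) = fun p : ℝ × M => φ (p.1 - t₁) (φ t₁ p.2) := by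
        ext1 p
        rw [← hφ.add hv, sub_add_cancel]
      change ContMDiffAt (𝓘(ℝ, ℝ).prod I) I n (fun p : ℝ × M => φ p.1 p.2) (ts, x)
      rw [h7]
      have h8 : ContMDiffAt (𝓘(ℝ, ℝ).prod I) (𝓘(ℝ, ℝ).prod I) n
          (fun p : ℝ × M => (p.1 - t₁, φ t₁ p.2)) (ts, x) := by
        refine ContMDiffAt.prodMk ?_ ?_
        · have : ContMDiff 𝓘(ℝ, ℝ) 𝓘(ℝ, ℝ) n (fun t : ℝ => t - t₁) :=
            (contDiff_id.sub contDiff_const).contMDiff
          exact this.contMDiffAt.comp (ts, x) contMDiffAt_fst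
        · have h9 : ContMDiffAt (𝓘(ℝ, ℝ).prod I) (𝓘(ℝ, ℝ).prod I) n
              (fun p : ℝ × M => (t₁, p.2)) (ts, x) :=
            contMDiffAt_const.prodMk contMDiffAt_snd
          exact ContMDiffAt.comp (x := (ts, x)) (g := fun p : ℝ × M => φ p.1 p.2)
            (f := fun p : ℝ × M => (t₁, p.2)) ht₁ h9
      exact ContMDiffAt.comp (x := (ts, x)) (g := fun p : ℝ × M => φ p.1 p.2)
        (f := fun p : ℝ × M => (p.1 - t₁, φ t₁ p.2)) h6 h8
    · exact hUo.preimage (continuous_id.prodMk continuous_const)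
  have huniv := hcl.eq_univ ⟨0, hU0 x⟩
  have : t ∈ {t : ℝ | (t, x) ∈ U} := by rw [huniv]; trivial
  exact this

theorem IsFlow.contMDiff [FiniteDimensional ℝ E] (hφ : IsFlow I v φ) (hv : SmoothVF I v) :
    ContMDiff (𝓘(ℝ, ℝ).prod I) I ∞ (fun p : ℝ × M => φ p.1 p.2) := by
  rw [contMDiff_infty]
  exact fun n => hφ.contMDiff_nat hv n

theorem IsFlow.contMDiff_time [FiniteDimensional ℝ E] (hφ : IsFlow I v φ) (hv : SmoothVF I v)
    (t : ℝ) : ContMDiff I I ∞ (φ t) := by
  have h1 : ContMDiff I (𝓘(ℝ, ℝ).prod I) ∞ (fun x : M => (t, x)) :=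
    contMDiff_const.prodMk contMDiff_id
  exact (hφ.contMDiff hv).comp h1

/-- The time `t` map of a flow, as a diffeomorphism. -/
noncomputable def IsFlow.diffeo [FiniteDimensional ℝ E] (hφ : IsFlow I v φ) (hv : SmoothVF I v)
    (t : ℝ) : M ≃ₘ^∞⟮I, I⟯ M where
  toFun := φ t
  invFun := φ (-t)
  left_inv x := hφ.neg_apply hv t x
  right_inv x := hφ.apply_neg hv t x
  contMDiff_toFun := hφ.contMDiff_time hv t
  contMDiff_invFun := hφ.contMDiff_time hv (-t)

end

end Pool.Agent.H67.Liou
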