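import Pool.Agent.H67.Liou.Dual

/-! Flows of compactly supported smooth vector fields on finite-dimensional normed spaces. -/

open Topology Filter Set Function
open scoped ContDiff Manifold

namespace Pool.Agent.H67.Liou

universe u

variable {E : Type u} [NormedAddCommGroup E] [NormedSpace ℝ E]

theorem smoothVF_vec {w : E → E} (hw : ContDiff ℝ ∞ w) :
    SmoothVF 𝓘(ℝ, E) (fun x => (w x : TangentSpace 𝓘(ℝ, E) x)) := by
  apply smoothVF_of_local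
  intro x₀
  refine ⟨w, hw.contDiffAt, ?_⟩
  filter_upwards with x
  have h : (extChartAt 𝓘(ℝ, E) x₀) = PartialEquiv.refl E := by simp
  rw [h]
  simp only [PartialEquiv.refl_coe]
  rw [mfderiv_id]
  rfl

theorem exists_flow_vec [FiniteDimensional ℝ E] {w : E → E} (hw : ContDiff ℝ ∞ w)
    (hc : HasCompactSupport w) :
    ∃ φ : ℝ → E → E, ContDiff ℝ ∞ (fun p : ℝ × E => φ p.1 p.2) ∧ (∀ x, φ 0 x = x) ∧
      ∀ t x, HasDerivAt (fun t => φ t x) (w (φ t x)) t := by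
  have h0 : IsFlow 𝓘(ℝ, E) (fun x : E => ((fun _ => (0 : E)) x : TangentSpace 𝓘(ℝ, E) x))
      (fun _ x => x) := by
    refine ⟨fun x => rfl, fun x t => ?_⟩
    have h1 := hasMFDerivAt_const (I := 𝓘(ℝ, ℝ)) (I' := 𝓘(ℝ, E)) x t
    refine h1.congr_mfderiv ?_
    have h2 : ∀ r : ℝ, (0 : E) = r • (0 : E) := fun r => (smul_zero r).symm
    exact ContinuousLinearMap.ext h2
  obtain ⟨φ, hφ⟩ := exists_flow_of_eq_off_compact (smoothVF_vec (w := fun _ : E => (0 : E))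
    contDiff_const) (smoothVF_vec hw) h0 hc.isCompact (fun x hx => image_eq_zero_of_notMem_tsupport hx)
  refine ⟨φ, ?_, hφ.zero, ?_⟩
  · have h1 := hφ.contMDiff (smoothVF_vec hw)
    have h2 : ContMDiff 𝓘(ℝ, ℝ × E) (𝓘(ℝ, ℝ).prod 𝓘(ℝ, E)) ∞ (fun p : ℝ × E => (p.1, p.2)) := by
      have h3 : ContMDiff 𝓘(ℝ, ℝ × E) 𝓘(ℝ, ℝ) ∞ (fun p : ℝ × E => p.1) :=
        contMDiff_iff_contDiff.2 contDiff_fst
      have h4 : ContMDiff 𝓘(ℝ, ℝ × E) 𝓘(ℝ, E) ∞ (fun p : ℝ × E => p.2) :=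
        contMDiff_iff_contDiff.2 contDiff_snd
      exact h3.prodMk h4
    rw [← contMDiff_iff_contDiff]
    exact h1.comp h2
  · intro t x
    have h1 : HasMFDerivAt 𝓘(ℝ, ℝ) 𝓘(ℝ, E) (fun t => φ t x) t
      ((1 : ℝ →L[ℝ] ℝ).smulRight (w (φ t x))) := hφ.curve x t
    have h2 : HasFDerivAt (fun t => φ t x) ((1 : ℝ →L[ℝ] ℝ).smulRight (w (φ t x))) t :=
      h1.hasFDerivAt
    have h3 := h2.hasDerivAt
    simpa using h3

end Pool.Agent.H67.Liou
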