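import Pool.Agent.H67.Liou.VecForm
import Pool.Agent.H67.Liou.Complete

/-! One-forms on manifolds, pullbacks, smoothness and the exterior derivative. -/

open Topology Filter Set Function
open scoped ContDiff Manifold

set_option linter.unusedSectionVars false

namespace Pool.Agent.H67.Liou

variable {E : Type*} [NormedAddCommGroup E] [NormedSpace ℝ E]
  {H : Type*} [TopologicalSpace H] {I : ModelWithCorners ℝ E H}
  {M : Type*} [TopologicalSpace M] [ChartedSpace H M]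
  {E' : Type*} [NormedAddCommGroup E'] [NormedSpace ℝ E']
  {H' : Type*} [TopologicalSpace H'] {J : ModelWithCorners ℝ E' H'}
  {N : Type*} [TopologicalSpace N] [ChartedSpace H' N]
  {E'' : Type*} [NormedAddCommGroup E''] [NormedSpace ℝ E'']
  {H'' : Type*} [TopologicalSpace H''] {K : ModelWithCorners ℝ E'' H''}
  {P : Type*} [TopologicalSpace P] [ChartedSpace H'' P]

theorem pb_comp {g : N → M} {f : P → N} {α : (x : M) → TangentSpace I x →L[ℝ] ℝ} {x : P}
    (hg : MDifferentiableAt J I g (f x)) (hf : MDifferentiableAt K J f x) :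
    pb K I (g ∘ f) α x = pb K J f (pb J I g α) x := by
  unfold pb
  rw [mfderiv_comp x hg hf]
  rfl

theorem pb_congr {g g' : N → M} {α : (x : M) → TangentSpace I x →L[ℝ] ℝ} {x : N}
    (h : g =ᶠ[𝓝 x] g') : pb J I g α x = pb J I g' α x := by
  have h1 : g x = g' x := h.eq_of_nhds
  have h2 : @Eq (E' →L[ℝ] E) (mfderiv J I g x) (mfderiv J I g' x) := h.mfderiv_eq
  unfold pb
  have h3 : ∀ (p q : M) (A B : E' →L[ℝ] E), p = q → A = B →
      (((α p : E →L[ℝ] ℝ).comp A : E' →L[ℝ] ℝ)) = ((α q : E →L[ℝ] ℝ).comp B) := by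
    rintro p q A B rfl rfl
    rfl
  exact h3 _ _ _ _ h1 h2

theorem pb_congr_form {g : N → M} {α β : (x : M) → TangentSpace I x →L[ℝ] ℝ} {x : N}
    (h : α (g x) = β (g x)) : pb J I g α x = pb J I g β x := by
  unfold pb
  rw [h]

theorem pb_vec (g : E' → E) (a : E → E →L[ℝ] ℝ) : pb 𝓘(ℝ, E') 𝓘(ℝ, E) g a = pbv g a := by
  funext y
  unfold pb pbv
  rw [mfderiv_eq_fderiv]
  rfl

theorem pb_id (α : (x : M) → TangentSpace I x →L[ℝ] ℝ) : pb I I id α = α := by
  funext x
  unfold pb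
  rw [mfderiv_id]
  exact ContinuousLinearMap.comp_id _

section

variable [IsManifold I 1 M] [I.Boundaryless]

theorem mdiffAt_symm (x₀ : M) {y : E} (hy : y ∈ (extChartAt I x₀).target) :
    MDifferentiableAt 𝓘(ℝ, E) I (extChartAt I x₀).symm y := by
  have h := mdifferentiableWithinAt_extChartAt_symm (I := I) hy
  rwa [I.range_eq_univ, mdifferentiableWithinAt_univ] at h

theorem mdiffAt_chart (x₀ : M) {x : M} (hx : x ∈ (extChartAt I x₀).source) :
    MDifferentiableAt I 𝓘(ℝ, E) (extChartAt I x₀) x := by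
  apply mdifferentiableAt_extChartAt
  rwa [extChartAt_source] at hx

/-- The derivative of the inverse chart is inverse to that of the chart. -/
theorem mfderiv_symm_chart (x₀ : M) {x : M} (hx : x ∈ (extChartAt I x₀).source) (u : TangentSpace I x) :
    (mfderiv 𝓘(ℝ, E) I (extChartAt I x₀).symm (extChartAt I x₀ x) :
      E →L[ℝ] E) (mfderiv I 𝓘(ℝ, E) (extChartAt I x₀) x u) = u := by
  have h := mfderivWithin_extChartAt_symm_comp_mfderiv_extChartAt' (I := I) hx
  rw [I.range_eq_univ, mfderivWithin_univ] at h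
  exact congrArg (fun L : TangentSpace I x →L[ℝ] TangentSpace I x => L u) h

theorem mfderiv_chart_symm (x₀ : M) {x : M} (hx : x ∈ (extChartAt I x₀).source) (u : E) :
    (mfderiv I 𝓘(ℝ, E) (extChartAt I x₀) x : E →L[ℝ] E)
      ((mfderiv 𝓘(ℝ, E) I (extChartAt I x₀).symm (extChartAt I x₀ x) :
      E →L[ℝ] E) u) = u := by
  have h := mfderiv_extChartAt_comp_mfderivWithin_extChartAt_symm' (I := I) hx
  rw [I.range_eq_univ, mfderivWithin_univ] at h
  exact congrArg (fun L : E →L[ℝ] E => L u) h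

end

theorem two_le_infty : (2 : WithTop ℕ∞) ≤ ∞ := by
  have h : ∀ n : ℕ, ((n : ℕ) : WithTop ℕ∞) ≤ ∞ := fun n => by exact_mod_cast le_top
  exact h 2

theorem contDiffAt_pbv {g : E' → E} {a : E → E →L[ℝ] ℝ} {y : E'} (hg : ContDiffAt ℝ ∞ g y)
    (ha : ContDiffAt ℝ ∞ a (g y)) : ContDiffAt ℝ ∞ (pbv g a) y := by
  unfold pbv
  exact (ha.comp y hg).clm_comp (hg.fderiv_right (m := ∞) (by simp))

theorem aloc_vec (a : E → E →L[ℝ] ℝ) (x₀ : E) : aloc 𝓘(ℝ, E) a x₀ = a := by
  unfold aloc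
  have h : (extChartAt 𝓘(ℝ, E) x₀).symm = PartialEquiv.refl E := by simp
  rw [h]
  exact pb_id (I := 𝓘(ℝ, E)) a

theorem formSmoothAt_vec {a : E → E →L[ℝ] ℝ} {x : E} :
    FormSmoothAt 𝓘(ℝ, E) a x ↔ ContDiffAt ℝ ∞ a x := by
  unfold FormSmoothAt
  rw [aloc_vec]
  simp

theorem dOne_vec (a : E → E →L[ℝ] ℝ) (x u v : E) : dOne 𝓘(ℝ, E) a x u v = dvec a x u v := by
  unfold dOne
  rw [aloc_vec]
  have h : (extChartAt 𝓘(ℝ, E) x) = PartialEquiv.refl E := by simp
  rw [h]
  simp only [PartialEquiv.refl_coe]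
  rw [mfderiv_id]
  rfl

section

variable [IsManifold I 1 M] [I.Boundaryless] [IsManifold J 1 N] [J.Boundaryless]

/-- The pullback in charts. -/
theorem aloc_pb_apply (x₀ : N) (y₀ : M) {g : N → M} {α : (x : M) → TangentSpace I x →L[ℝ] ℝ}
    {z : E'} (hz : z ∈ (extChartAt J x₀).target)
    (hg : MDifferentiableAt J I g ((extChartAt J x₀).symm z))
    (hgz : g ((extChartAt J x₀).symm z) ∈ (extChartAt I y₀).source) :
    aloc J (pb J I g α) x₀ z =
      pbv (extChartAt I y₀ ∘ g ∘ (extChartAt J x₀).symm) (aloc I α y₀) z := by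
  have hs := mdiffAt_symm (I := J) x₀ hz
  have hgs : MDifferentiableAt 𝓘(ℝ, E') I (g ∘ (extChartAt J x₀).symm) z := hg.comp z hs
  have hc : MDifferentiableAt 𝓘(ℝ, E') 𝓘(ℝ, E)
      (extChartAt I y₀ ∘ g ∘ (extChartAt J x₀).symm) z :=
    (mdiffAt_chart (I := I) y₀ hgz).comp z hgs
  have h1 : aloc J (pb J I g α) x₀ z = pb 𝓘(ℝ, E') I (g ∘ (extChartAt J x₀).symm) α z :=
    (pb_comp hg hs).symm
  have h2 : (g ∘ (extChartAt J x₀).symm) =ᶠ[𝓝 z]
      (extChartAt I y₀).symm ∘ (extChartAt I y₀ ∘ g ∘ (extChartAt J x₀).symm) := by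
    have h3 : ∀ᶠ z' in 𝓝 z, (g ∘ (extChartAt J x₀).symm) z' ∈ (extChartAt I y₀).source :=
      hgs.continuousAt.eventually ((isOpen_extChartAt_source y₀).mem_nhds hgz)
    filter_upwards [h3] with z' hz'
    exact ((extChartAt I y₀).left_inv hz').symm
  have h4 := pb_comp (f := extChartAt I y₀ ∘ g ∘ (extChartAt J x₀).symm) (x := z) (α := α)
    (mdiffAt_symm (I := I) y₀ ((extChartAt I y₀).map_source hgz)) hc
  have h5 : pb 𝓘(ℝ, E') 𝓘(ℝ, E) (extChartAt I y₀ ∘ g ∘ (extChartAt J x₀).symm)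
      (aloc I α y₀) z = pbv (extChartAt I y₀ ∘ g ∘ (extChartAt J x₀).symm) (aloc I α y₀) z :=
    congrFun (pb_vec _ _) z
  exact h1.trans ((pb_congr h2).trans (h4.trans h5))

end

section

variable [IsManifold I ∞ M] [IsManifold I 1 M] [I.Boundaryless]
  [IsManifold J ∞ N] [IsManifold J 1 N] [J.Boundaryless]

theorem contMDiffAt_symm (x₀ : M) {y : E} (hy : y ∈ (extChartAt I x₀).target) :
    ContMDiffAt 𝓘(ℝ, E) I ∞ (extChartAt I x₀).symm y :=
  (contMDiffOn_extChartAt_symm x₀).contMDiffAt ((isOpen_extChartAt_target x₀).mem_nhds hy)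

theorem contMDiffAt_chart (x₀ : M) {x : M} (hx : x ∈ (extChartAt I x₀).source) :
    ContMDiffAt I 𝓘(ℝ, E) ∞ (extChartAt I x₀) x := by
  rw [extChartAt_source] at hx
  exact contMDiffAt_extChartAt' hx

theorem contDiffAt_written (x₀ : N) (y₀ : M) {g : N → M} {z : E'}
    (hz : z ∈ (extChartAt J x₀).target)
    (hg : ContMDiffAt J I ∞ g ((extChartAt J x₀).symm z))
    (hgz : g ((extChartAt J x₀).symm z) ∈ (extChartAt I y₀).source) :
    ContDiffAt ℝ ∞ (extChartAt I y₀ ∘ g ∘ (extChartAt J x₀).symm) z := by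
  rw [← contMDiffAt_iff_contDiffAt]
  exact (contMDiffAt_chart (I := I) y₀ hgz).comp z (hg.comp z (contMDiffAt_symm (I := J) x₀ hz))

theorem eventually_contMDiffAt_one {g : N → M} {x : N} (hg : ContMDiffAt J I ∞ g x) :
    ∀ᶠ x' in 𝓝 x, ContMDiffAt J I 1 g x' :=
  (contMDiffAt_iff_contMDiffAt_nhds (by simp)).1 (hg.of_le (by simp))

/-- The pullback in charts, near a point. -/
theorem aloc_pb_eventually (x₀ : N) (y₀ : M) {g : N → M}
    {α : (x : M) → TangentSpace I x →L[ℝ] ℝ}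
    {z : E'} (hz : z ∈ (extChartAt J x₀).target)
    (hg : ContMDiffAt J I ∞ g ((extChartAt J x₀).symm z))
    (hgz : g ((extChartAt J x₀).symm z) ∈ (extChartAt I y₀).source) :
    aloc J (pb J I g α) x₀ =ᶠ[𝓝 z]
      pbv (extChartAt I y₀ ∘ g ∘ (extChartAt J x₀).symm) (aloc I α y₀) := by
  have hs := (contMDiffAt_symm (I := J) x₀ hz).continuousAt
  have h1 : ∀ᶠ z' in 𝓝 z, z' ∈ (extChartAt J x₀).target :=
    (isOpen_extChartAt_target x₀).mem_nhds hz
  have h2 := hs.eventually (eventually_contMDiffAt_one hg)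
  have h3 : ∀ᶠ z' in 𝓝 z, g ((extChartAt J x₀).symm z') ∈ (extChartAt I y₀).source :=
    (ContinuousAt.comp (x := z) (g := g) (f := (extChartAt J x₀).symm)
      hg.continuousAt hs).eventually ((isOpen_extChartAt_source y₀).mem_nhds hgz)
  filter_upwards [h1, h2, h3] with z' h1 h2 h3
  exact aloc_pb_apply x₀ y₀ h1 (h2.mdifferentiableAt (by simp)) h3

theorem contDiffAt_aloc {α : (x : M) → TangentSpace I x →L[ℝ] ℝ} (x₀ : M) {z : E}
    (hz : z ∈ (extChartAt I x₀).target) (h : FormSmoothAt I α ((extChartAt I x₀).symm z)) :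
    ContDiffAt ℝ ∞ (aloc I α x₀) z := by
  have h1 := aloc_pb_eventually (g := (id : M → M)) (α := α) (I := I) (J := I) x₀
    ((extChartAt I x₀).symm z) hz contMDiffAt_id (mem_extChartAt_source _)
  rw [pb_id] at h1
  refine ContDiffAt.congr_of_eventuallyEq ?_ h1
  exact contDiffAt_pbv (contDiffAt_written (I := I) (J := I) x₀ _ hz contMDiffAt_id
    (mem_extChartAt_source _)) h

theorem FormSmoothAt.pb {g : N → M} {α : (x : M) → TangentSpace I x →L[ℝ] ℝ} {x₀ : N}
    (hα : FormSmoothAt I α (g x₀)) (hg : ContMDiffAt J I ∞ g x₀) :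
    FormSmoothAt J (pb J I g α) x₀ := by
  have hx := mem_extChartAt_source (I := J) x₀
  have hz : extChartAt J x₀ x₀ ∈ (extChartAt J x₀).target := (extChartAt J x₀).map_source hx
  have hl : (extChartAt J x₀).symm (extChartAt J x₀ x₀) = x₀ := (extChartAt J x₀).left_inv hx
  have hg' : ContMDiffAt J I ∞ g ((extChartAt J x₀).symm (extChartAt J x₀ x₀)) := by rwa [hl]
  have hgz : g ((extChartAt J x₀).symm (extChartAt J x₀ x₀)) ∈ (extChartAt I (g x₀)).source := by
    rw [hl]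
    exact mem_extChartAt_source _
  refine ContDiffAt.congr_of_eventuallyEq ?_ (aloc_pb_eventually x₀ (g x₀) hz hg' hgz)
  refine contDiffAt_pbv (contDiffAt_written x₀ (g x₀) hz hg' hgz) ?_
  simp only [comp_apply, hl]
  exact hα

/-- Naturality of the exterior derivative. -/
theorem dOne_pb {g : N → M} {α : (x : M) → TangentSpace I x →L[ℝ] ℝ} {x₀ : N}
    (hα : FormSmoothAt I α (g x₀)) (hg : ContMDiffAt J I ∞ g x₀) (u v : TangentSpace J x₀) :
    dOne J (Pool.Agent.H67.Liou.pb J I g α) x₀ u v =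
      dOne I α (g x₀) (mfderiv J I g x₀ u) (mfderiv J I g x₀ v) := by
  have hx := mem_extChartAt_source (I := J) x₀
  have hz : extChartAt J x₀ x₀ ∈ (extChartAt J x₀).target := (extChartAt J x₀).map_source hx
  have hl : (extChartAt J x₀).symm (extChartAt J x₀ x₀) = x₀ := (extChartAt J x₀).left_inv hx
  have hg' : ContMDiffAt J I ∞ g ((extChartAt J x₀).symm (extChartAt J x₀ x₀)) := by rwa [hl]
  have hgz : g ((extChartAt J x₀).symm (extChartAt J x₀ x₀)) ∈ (extChartAt I (g x₀)).source := by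
    rw [hl]
    exact mem_extChartAt_source _
  have hw := contDiffAt_written x₀ (g x₀) hz hg' hgz
  have hpt : (extChartAt I (g x₀) ∘ g ∘ (extChartAt J x₀).symm) (extChartAt J x₀ x₀) =
      extChartAt I (g x₀) (g x₀) := by
    change extChartAt I (g x₀) (g ((extChartAt J x₀).symm (extChartAt J x₀ x₀))) = _
    rw [hl]
  have hd : DifferentiableAt ℝ (aloc I α (g x₀))
      ((extChartAt I (g x₀) ∘ g ∘ (extChartAt J x₀).symm) (extChartAt J x₀ x₀)) := by
    rw [hpt]
    exact ContDiffAt.differentiableAt hα (by simp)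
  unfold dOne
  rw [dvec_congr (aloc_pb_eventually x₀ (g x₀) hz hg' hgz), dvec_pbv (hw.of_le two_le_infty) hd, hpt]
  have key : ∀ w : TangentSpace J x₀,
      fderiv ℝ (extChartAt I (g x₀) ∘ g ∘ (extChartAt J x₀).symm) (extChartAt J x₀ x₀)
        (mfderiv J 𝓘(ℝ, E') (extChartAt J x₀) x₀ w) =
      mfderiv I 𝓘(ℝ, E) (extChartAt I (g x₀)) (g x₀) (mfderiv J I g x₀ w) := by
    intro w
    have h1 : MDifferentiableAt 𝓘(ℝ, E') 𝓘(ℝ, E)
        (extChartAt I (g x₀) ∘ g ∘ (extChartAt J x₀).symm) (extChartAt J x₀ x₀) :=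
      (contMDiffAt_iff_contDiffAt.2 hw).mdifferentiableAt (by simp)
    have h2 : MDifferentiableAt J 𝓘(ℝ, E') (extChartAt J x₀) x₀ := mdiffAt_chart x₀ hx
    have h3 := mfderiv_comp_apply x₀ h1 h2 w
    have h4 : (extChartAt I (g x₀) ∘ g ∘ (extChartAt J x₀).symm) ∘ (extChartAt J x₀) =ᶠ[𝓝 x₀]
        extChartAt I (g x₀) ∘ g := by
      filter_upwards [(isOpen_extChartAt_source (I := J) x₀).mem_nhds hx] with x' hx'
      simp only [comp_apply]
      rw [(extChartAt J x₀).left_inv hx']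
    have h5 := mfderiv_comp_apply x₀ (mdiffAt_chart (I := I) (g x₀) (mem_extChartAt_source _))
      (hg.mdifferentiableAt (by simp)) w
    rw [mfderiv_eq_fderiv] at h3
    have h6 : mfderiv J 𝓘(ℝ, E) ((extChartAt I (g x₀) ∘ g ∘ (extChartAt J x₀).symm) ∘
        (extChartAt J x₀)) x₀ w = mfderiv J 𝓘(ℝ, E) (extChartAt I (g x₀) ∘ g) x₀ w :=
      congrArg (fun L : E' →L[ℝ] E => L w) h4.mfderiv_eq
    exact h3.symm.trans (h6.trans h5)
  rw [key u, key v]

end

end Pool.Agent.H67.Liou
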