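import Pool.Agent.H67.Liou.Adapted

/-! Germs of exact symplectic maps from the cotangent bundle, along the zero section. -/

open Topology Filter Set Function Bundle
open scoped ContDiff Manifold

set_option linter.unusedSectionVars false

namespace Pool.Agent.H67.Liou

universe u v

section general

variable {E : Type*} [NormedAddCommGroup E] [NormedSpace ℝ E]
  {HE : Type*} [TopologicalSpace HE] {IE : ModelWithCorners ℝ E HE}
  {M : Type*} [TopologicalSpace M] [ChartedSpace HE M]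
  {E' : Type*} [NormedAddCommGroup E'] [NormedSpace ℝ E']
  {H' : Type*} [TopologicalSpace H'] {J : ModelWithCorners ℝ E' H'}
  {N : Type*} [TopologicalSpace N] [ChartedSpace H' N]
  [IsManifold IE ∞ M] [IsManifold IE 1 M] [IE.Boundaryless]
  [IsManifold J ∞ N] [IsManifold J 1 N] [J.Boundaryless]

theorem dOne_zero_left (α : (x : M) → TangentSpace IE x →L[ℝ] ℝ) (x : M) (v : TangentSpace IE x) :
    dOne IE α x 0 v = 0 := by
  have h := dOne_sub_left (α := α) x 0 0 v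
  rwa [sub_self, sub_self] at h

theorem injective_of_pb {k : N → M} {α : (x : M) → TangentSpace IE x →L[ℝ] ℝ}
    {β : (x : N) → TangentSpace J x →L[ℝ] ℝ} {x : N}
    (hk : ContMDiffAt J IE ∞ k x) (hα : FormSmoothAt IE α (k x)) (hn : Nondeg J β x)
    (h : ∀ᶠ x' in 𝓝 x, pb J IE k α x' = β x') : Injective (mfderiv J IE k x) := by
  rw [injective_iff_map_eq_zero]
  intro u hu
  apply hn
  intro v
  rw [← dOne_congr h, dOne_pb hα hk, hu, dOne_zero_left]

theorem bijective_of_pb [FiniteDimensional ℝ E] [FiniteDimensional ℝ E']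
    (hdim : Module.finrank ℝ E' = Module.finrank ℝ E)
    {k : N → M} {α : (x : M) → TangentSpace IE x →L[ℝ] ℝ}
    {β : (x : N) → TangentSpace J x →L[ℝ] ℝ} {x : N}
    (hk : ContMDiffAt J IE ∞ k x) (hα : FormSmoothAt IE α (k x)) (hn : Nondeg J β x)
    (h : ∀ᶠ x' in 𝓝 x, pb J IE k α x' = β x') : Bijective (mfderiv J IE k x) := by
  let A : E' →L[ℝ] E := mfderiv J IE k x
  have h1 : Injective (A : E' →ₗ[ℝ] E) := injective_of_pb hk hα hn h
  have h2 : Surjective (A : E' →ₗ[ℝ] E) :=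
    (LinearMap.injective_iff_surjective_of_finrank_eq_finrank hdim).1 h1
  exact ⟨h1, h2⟩

end general

variable {F : Type u} [NormedAddCommGroup F] [NormedSpace ℝ F] [FiniteDimensional ℝ F]
  {H : Type*} [TopologicalSpace H] {I : ModelWithCorners ℝ F H}
  {L : Type*} [TopologicalSpace L] [ChartedSpace H L]
  [IsManifold I ∞ L] [IsManifold I 1 L] [I.Boundaryless]
  {E : Type v} [NormedAddCommGroup E] [NormedSpace ℝ E] [FiniteDimensional ℝ E]
  {HE : Type*} [TopologicalSpace HE] {IE : ModelWithCorners ℝ E HE}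
  {M : Type*} [TopologicalSpace M] [ChartedSpace HE M]
  [IsManifold IE ∞ M] [IsManifold IE 1 M] [IE.Boundaryless]

/-- `h` is defined near the zero covector over `x₀`, pulls the Liouville form back to the
canonical form, and restricts to `ι` on the zero section. -/
def GermAt (S : LStr IE M) (ι : L → M) (h : Cot I L → M) (x₀ : L) : Prop :=
  (∀ᶠ ξ in 𝓝 (zsec I x₀), ContMDiffAt (IC I) IE ∞ h ξ ∧
    pb (IC I) IE h S.lam ξ = lamCan I ξ) ∧ ∀ᶠ x in 𝓝 x₀, h (zsec I x) = ι x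

theorem kcot_zsec (x₀ x : L) : kcot I x₀ (zsec I x) = (extChartAt I x₀ x, 0) := by
  unfold kcot zsec
  refine Prod.ext rfl ?_
  exact ContinuousLinearMap.zero_comp _

theorem GermAt.bijective {S : LStr IE M} {ι : L → M} {h : Cot I L → M} {x₀ : L}
    (hdim : Module.finrank ℝ E = 2 * Module.finrank ℝ F)
    (hg : GermAt S ι h x₀) :
    ∀ᶠ ξ in 𝓝 (zsec I x₀), Bijective (mfderiv (IC I) IE h ξ) := by
  filter_upwards [hg.1.eventually_nhds] with ξ hξ
  refine bijective_of_pb ?_ hξ.self_of_nhds.1 (S.smooth _) (nondeg_lamCan ξ)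
    (hξ.mono fun ξ' h' => h'.2)
  rw [Module.finrank_prod, finrank_dual', hdim, two_mul]

theorem exists_germ (S : LStr IE M) {ι : L → M} (hι : ContMDiff I IE ∞ ι)
    (hinj : ∀ x, Injective (mfderiv I IE ι x))
    (hdim : Module.finrank ℝ E = 2 * Module.finrank ℝ F) (hvan : ∀ x, S.lam (ι x) = 0)
    (x₀ : L) : ∃ h : Cot I L → M, GermAt S ι h x₀ := by
  set q₀ := extChartAt I x₀ x₀ with hq₀
  have hx := mem_extChartAt_source (I := I) x₀
  obtain ⟨c, hc, hcι⟩ := exists_adapted (G := F →L[ℝ] ℝ) hι (hinj x₀)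
    (by rw [finrank_dual', hdim, two_mul])
  let μ : F × (F →L[ℝ] ℝ) → F × (F →L[ℝ] ℝ) →L[ℝ] ℝ := pb 𝓘(ℝ, F × (F →L[ℝ] ℝ)) IE c S.lam
  have H1 : ∀ᶠ y in 𝓝 ((q₀, 0) : F × (F →L[ℝ] ℝ)), ContDiffAt ℝ ∞ μ y := by
    filter_upwards [hc] with y hy
    exact formSmoothAt_vec.1 (FormSmoothAt.pb (S.smooth _) hy.1)
  have H2 : ∀ᶠ q in 𝓝 q₀, μ (q, 0) = 0 := by
    filter_upwards [hcι] with q hq
    have h1 : S.lam (c (q, 0)) = 0 := by
      rw [hq]
      exact hvan _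
    have h2 : μ (q, 0) = (S.lam (c (q, 0)) : E →L[ℝ] ℝ).comp
      (mfderiv 𝓘(ℝ, F × (F →L[ℝ] ℝ)) IE c (q, 0)) := rfl
    rw [h2, h1]
    exact ContinuousLinearMap.zero_comp _
  have H3 : ∀ᶠ y in 𝓝 ((q₀, 0) : F × (F →L[ℝ] ℝ)), ∀ u, (∀ v, dvec μ y u v = 0) → u = 0 := by
    filter_upwards [hc] with y hy u hu
    have h1 : Nondeg 𝓘(ℝ, F × (F →L[ℝ] ℝ)) μ y :=
      Nondeg.of_pb hy.1 hy.2 (S.smooth _) (S.nondeg _) (Eventually.of_forall fun _ => rfl)
    apply h1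
    intro v
    exact (dOne_vec μ y u v).trans (hu v)
  obtain ⟨Ψ, hΨs, hΨp, hΨ0⟩ := local_normal_form (finrank_dual' F).symm H1 H2 H3
  have hk0 : kcot I x₀ (zsec I x₀) = (q₀, 0) := kcot_zsec x₀ x₀
  have hkc : Tendsto (kcot I x₀) (𝓝 (zsec I x₀)) (𝓝 (q₀, 0)) := by
    have h1 : ContinuousAt (kcot I x₀) (zsec I x₀) :=
      (contMDiffAt_kcot x₀ (ξ := zsec I x₀) hx).continuousAt
    rwa [ContinuousAt, hk0] at h1
  have hΨc : Tendsto Ψ (𝓝 (q₀, 0)) (𝓝 (q₀, 0)) := by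
    have h1 : ContinuousAt Ψ (q₀, 0) := hΨs.self_of_nhds.continuousAt
    rwa [ContinuousAt, hΨ0.self_of_nhds] at h1
  refine ⟨c ∘ (Ψ ∘ kcot I x₀), ?_, ?_⟩
  · filter_upwards [eventually_mem_source (I := I) x₀ (ξ := zsec I x₀) hx, hkc.eventually hΨs,
      hkc.eventually hΨp, hkc.eventually (hΨc.eventually hc)] with ξ h1 h2 h3 h4
    have hks := contMDiffAt_kcot (I := I) x₀ h1
    have hΨm : ContMDiffAt 𝓘(ℝ, F × (F →L[ℝ] ℝ)) 𝓘(ℝ, F × (F →L[ℝ] ℝ)) ∞ Ψ (kcot I x₀ ξ) :=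
      contMDiffAt_iff_contDiffAt.2 h2
    refine ⟨h4.1.comp ξ (hΨm.comp ξ hks), ?_⟩
    rw [pb_comp (g := c) (f := Ψ ∘ kcot I x₀) (h4.1.mdifferentiableAt infty_ne_zero)
      ((hΨm.comp ξ hks).mdifferentiableAt infty_ne_zero),
      pb_comp (hΨm.mdifferentiableAt infty_ne_zero) (hks.mdifferentiableAt infty_ne_zero)]
    have h5 : pb 𝓘(ℝ, F × (F →L[ℝ] ℝ)) 𝓘(ℝ, F × (F →L[ℝ] ℝ)) Ψ μ (kcot I x₀ ξ) =
        lamStd F (kcot I x₀ ξ) := by
      rw [pb_vec]
      exact h3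
    rw [← pb_kcot x₀ h1]
    exact pb_congr_form h5
  · have h1 : Tendsto (extChartAt I x₀) (𝓝 x₀) (𝓝 q₀) := continuousAt_extChartAt (I := I) x₀
    filter_upwards [h1.eventually hΨ0, h1.eventually hcι,
      (isOpen_extChartAt_source (I := I) x₀).mem_nhds hx] with x h2 h3 h4
    change c (Ψ (kcot I x₀ (zsec I x))) = ι x
    rw [kcot_zsec, h2, h3, (extChartAt I x₀).left_inv h4]

end Pool.Agent.H67.Liou
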