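import Pool.Agent.H67.Liou.Germ

/-! Uniqueness of germs of exact symplectic maps from the cotangent bundle. -/

open Topology Filter Set Function Bundle
open scoped ContDiff Manifold

set_option linter.unusedSectionVars false

namespace Pool.Agent.H67.Liou

universe u v

variable {F : Type u} [NormedAddCommGroup F] [NormedSpace ℝ F] [FiniteDimensional ℝ F]
  {H : Type*} [TopologicalSpace H] {I : ModelWithCorners ℝ F H}
  {L : Type*} [TopologicalSpace L] [ChartedSpace H L]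
  [IsManifold I ∞ L] [IsManifold I 1 L] [I.Boundaryless]
  {E : Type v} [NormedAddCommGroup E] [NormedSpace ℝ E] [FiniteDimensional ℝ E]
  {HE : Type*} [TopologicalSpace HE] {IE : ModelWithCorners ℝ E HE}
  {M : Type*} [TopologicalSpace M] [ChartedSpace HE M]
  [IsManifold IE ∞ M] [IsManifold IE 1 M] [IE.Boundaryless]

theorem surjective_proj (ξ : Cot I L) :
    Surjective (mfderiv (IC I) I (TotalSpace.proj : Cot I L → L) ξ) := by
  intro w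
  have hξ : ξ.1 ∈ (extChartAt I ξ.1).source := mem_extChartAt_source ξ.1
  obtain ⟨u, hu⟩ := (bijective_kcot ξ.1 hξ).2
    (((mfderiv I 𝓘(ℝ, F) (extChartAt I ξ.1) ξ.1 : F →L[ℝ] F) w, 0) : F × (F →L[ℝ] ℝ))
  refine ⟨u, ?_⟩
  apply (bijective_mfderiv_chart (I := I) ξ.1 hξ).1
  have hk := (contMDiffAt_kcot (I := I) ξ.1 hξ).mdifferentiableAt infty_ne_zero
  have h1 := mfderiv_comp_apply (I := IC I) (I' := 𝓘(ℝ, F × (F →L[ℝ] ℝ))) (I'' := 𝓘(ℝ, F))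
    (g := (Prod.fst : F × (F →L[ℝ] ℝ) → F)) (f := kcot I ξ.1) ξ
    (differentiableAt_fst.mdifferentiableAt) hk u
  have h2 := mfderiv_comp_apply (I := IC I) (I' := I) (I'' := 𝓘(ℝ, F))
    (g := extChartAt I ξ.1) (f := (TotalSpace.proj : Cot I L → L)) ξ
    (mdiffAt_chart ξ.1 hξ) ((contMDiff_proj' ξ).mdifferentiableAt infty_ne_zero) u
  have h3 : (Prod.fst : F × (F →L[ℝ] ℝ) → F) ∘ kcot I ξ.1 =
      extChartAt I ξ.1 ∘ (TotalSpace.proj : Cot I L → L) := rfl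
  rw [h3] at h1
  have h4 : (mfderiv 𝓘(ℝ, F × (F →L[ℝ] ℝ)) 𝓘(ℝ, F) (Prod.fst : F × (F →L[ℝ] ℝ) → F)
      (kcot I ξ.1 ξ) : F × (F →L[ℝ] ℝ) →L[ℝ] F)
      (mfderiv (IC I) 𝓘(ℝ, F × (F →L[ℝ] ℝ)) (kcot I ξ.1) ξ u) =
      (mfderiv I 𝓘(ℝ, F) (extChartAt I ξ.1) ξ.1 : F →L[ℝ] F) w := by
    rw [hu, mfderiv_eq_fderiv, fderiv_fst]
    rfl
  exact h2.symm.trans (h1.trans h4)

theorem trap_cot {U : Set (Cot I L)} (hU : IsOpen U) {ξ₀ : Cot I L}
    (h : ∀ s ∈ Icc (0 : ℝ) 1, cotScale I s ξ₀ ∈ U) :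
    ∃ V : Set (Cot I L), IsOpen V ∧ ξ₀ ∈ V ∧ V ⊆ U ∧
      ∀ ξ ∈ V, ∀ s ∈ Icc (0 : ℝ) 1, cotScale I s ξ ∈ U := by
  have hsub : Icc (0 : ℝ) 1 ×ˢ ({ξ₀} : Set (Cot I L)) ⊆
      (fun p : ℝ × Cot I L => cotScale I p.1 p.2) ⁻¹' U := by
    rintro ⟨s, ξ⟩ ⟨hs, hξ⟩
    have hξ' : ξ = ξ₀ := hξ
    subst hξ'
    exact h s hs
  obtain ⟨u, v, -, hv, hu', hv', huv⟩ := generalized_tube_lemma isCompact_Icc isCompact_singleton
    (hU.preimage continuous_cotScale) hsub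
  refine ⟨v, hv, hv' rfl, ?_, ?_⟩
  · intro ξ hξ
    have h1 : ((1 : ℝ), ξ) ∈ u ×ˢ v := ⟨hu' ⟨zero_le_one, le_rfl⟩, hξ⟩
    have h2 := huv h1
    have h3 : cotScale I 1 ξ = ξ := by
      unfold cotScale
      rw [one_smul]
    rw [mem_preimage] at h2
    simp only at h2
    rwa [h3] at h2
  · intro ξ hξ s hs
    have h1 : (s, ξ) ∈ u ×ˢ v := ⟨hu' hs, hξ⟩
    exact huv h1

theorem tendsto_cotFlow_neg (ξ : Cot I L) :
    Tendsto (fun t : ℝ => cotFlow I (-t) ξ) atTop (𝓝 (zsec I ξ.1)) := by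
  have h1 : Tendsto (fun t : ℝ => Real.exp (-t)) atTop (𝓝 0) :=
    Real.tendsto_exp_neg_atTop_nhds_zero
  have h2 : Continuous (fun s : ℝ => cotScale I s ξ) :=
    continuous_cotScale.comp (continuous_id.prodMk continuous_const)
  have h3 := (h2.tendsto 0).comp h1
  rw [cotScale_zero] at h3
  exact h3

theorem exp_mem_Icc {t : ℝ} (ht : 0 ≤ t) : Real.exp (-t) ∈ Icc (0 : ℝ) 1 :=
  ⟨(Real.exp_pos _).le, Real.exp_le_one_iff.2 (by linarith)⟩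

/-- Rigidity: a map preserving the canonical form and the zero section is the identity. -/
theorem rigidity [T2Space L] {g : Cot I L → Cot I L} {U : Set (Cot I L)} (hU : IsOpen U)
    (hg : ∀ ξ ∈ U, ContMDiffAt (IC I) (IC I) ∞ g ξ)
    (hpb : ∀ ξ ∈ U, pb (IC I) (IC I) g (lamCan I) ξ = lamCan I ξ)
    (hz : ∀ x : L, zsec I x ∈ U → g (zsec I x) = zsec I x) {V : Set (Cot I L)} (hV : IsOpen V)
    (hVU : ∀ ξ ∈ V, ∀ s ∈ Icc (0 : ℝ) 1, cotScale I s ξ ∈ U) : ∀ ξ ∈ V, g ξ = ξ := by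
  have hT2 : T2Space (Cot I L) := t2Space_cot
  have hπc : Continuous (TotalSpace.proj : Cot I L → L) := (contMDiff_proj' (I := I)).continuous
  have hb : ∀ ξ ∈ U, Bijective (mfderiv (IC I) (IC I) g ξ) := by
    intro ξ hξ
    refine bijective_of_pb rfl (hg ξ hξ) (formSmoothAt_lamCan _) (nondeg_lamCan ξ) ?_
    filter_upwards [hU.mem_nhds hξ] with ξ' hξ'
    exact hpb ξ' hξ'
  have hVU' : V ⊆ U := by
    intro ξ hξ
    have h1 := hVU ξ hξ 1 ⟨zero_le_one, le_rfl⟩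
    have h3 : cotScale I 1 ξ = ξ := by
      unfold cotScale
      rw [one_smul]
    rwa [h3] at h1
  have hproj : ∀ ξ ∈ V, (g ξ).1 = ξ.1 := by
    intro ξ hξ
    have hint : ∀ t : ℝ, 0 ≤ t → g (cotFlow I (-t) ξ) = cotFlow I (-t) (g ξ) := by
      intro t ht
      refine intertwine (cotStr I L) (cotStr I L) hU hg hb hpb (a := -t) (b := 0) (by linarith)
        le_rfl ?_ ⟨le_rfl, by linarith⟩
      intro s hs
      have h1 := hVU ξ hξ (Real.exp s) ⟨(Real.exp_pos _).le, Real.exp_le_one_iff.2 hs.2⟩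
      exact h1
    have hzU : zsec I ξ.1 ∈ U := by
      have h1 := hVU ξ hξ 0 ⟨le_rfl, zero_le_one⟩
      rwa [cotScale_zero] at h1
    have h1 : Tendsto (fun t : ℝ => (g (cotFlow I (-t) ξ)).1) atTop (𝓝 (g (zsec I ξ.1)).1) := by
      have h2 : ContinuousAt g (zsec I ξ.1) := (hg _ hzU).continuousAt
      exact (hπc.tendsto _).comp (h2.tendsto.comp (tendsto_cotFlow_neg ξ))
    rw [hz _ hzU] at h1
    have h3 : (fun t : ℝ => (g (cotFlow I (-t) ξ)).1) =ᶠ[atTop] fun _ => (g ξ).1 := by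
      filter_upwards [eventually_ge_atTop 0] with t ht
      rw [hint t ht]
      rfl
    have h4 : Tendsto (fun _ : ℝ => (g ξ).1) atTop (𝓝 ξ.1) := h1.congr' h3
    exact tendsto_nhds_unique tendsto_const_nhds h4
  intro ξ hξ
  have h1 : (TotalSpace.proj : Cot I L → L) ∘ g =ᶠ[𝓝 ξ] TotalSpace.proj := by
    filter_upwards [hV.mem_nhds hξ] with ξ' hξ'
    exact hproj ξ' hξ'
  have hgd := (hg ξ (hVU' hξ)).mdifferentiableAt infty_ne_zero
  have h2 : ∀ w, (mfderiv (IC I) I (TotalSpace.proj : Cot I L → L) (g ξ) :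
      F × (F →L[ℝ] ℝ) →L[ℝ] F) (mfderiv (IC I) (IC I) g ξ w) =
      (mfderiv (IC I) I (TotalSpace.proj : Cot I L → L) ξ : F × (F →L[ℝ] ℝ) →L[ℝ] F) w := by
    intro w
    have h3 := mfderiv_comp_apply ξ ((contMDiff_proj' (I := I) (L := L)
      (g ξ)).mdifferentiableAt infty_ne_zero) hgd w
    have h4 : (mfderiv (IC I) I ((TotalSpace.proj : Cot I L → L) ∘ g) ξ :
        F × (F →L[ℝ] ℝ) →L[ℝ] F) = mfderiv (IC I) I (TotalSpace.proj : Cot I L → L) ξ :=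
      h1.mfderiv_eq
    rw [h4] at h3
    exact h3.symm
  have h5 : ((g ξ).2 : F →L[ℝ] ℝ) = (ξ.2 : F →L[ℝ] ℝ) := by
    refine ContinuousLinearMap.ext fun v => ?_
    obtain ⟨w, hw⟩ := surjective_proj ξ v
    have h6 := congrArg (fun T : F × (F →L[ℝ] ℝ) →L[ℝ] ℝ => T w) (hpb ξ (hVU' hξ))
    have h7 : ((g ξ).2 : F →L[ℝ] ℝ) ((mfderiv (IC I) I (TotalSpace.proj : Cot I L → L) (g ξ) :
      F × (F →L[ℝ] ℝ) →L[ℝ] F) (mfderiv (IC I) (IC I) g ξ w)) =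
      (ξ.2 : F →L[ℝ] ℝ) ((mfderiv (IC I) I (TotalSpace.proj : Cot I L → L) ξ :
        F × (F →L[ℝ] ℝ) →L[ℝ] F) w) := h6
    rw [h2 w] at h7
    have h8 : (mfderiv (IC I) I (TotalSpace.proj : Cot I L → L) ξ :
        F × (F →L[ℝ] ℝ) →L[ℝ] F) w = v := hw
    rw [h8] at h7
    exact h7
  have key : ∀ (ζ ζ' : Cot I L), ζ.1 = ζ'.1 → (ζ.2 : F →L[ℝ] ℝ) = ζ'.2 → ζ = ζ' := by
    rintro ⟨x, a⟩ ⟨y, b⟩ h h'
    simp only at h
    subst h
    exact congrArg (fun η : F →L[ℝ] ℝ => (⟨x, η⟩ : Cot I L)) h'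
  exact key _ _ (hproj ξ hξ) h5

theorem germ_unique [T2Space L] [T2Space M] {S : LStr IE M} {ι : L → M}
    (hdim : Module.finrank ℝ E = 2 * Module.finrank ℝ F)
    {h₁ h₂ : Cot I L → M} {x₀ : L} (H₁ : GermAt S ι h₁ x₀) (H₂ : GermAt S ι h₂ x₀) :
    h₁ =ᶠ[𝓝 (zsec I x₀)] h₂ := by
  have hT2 : T2Space (Cot I L) := t2Space_cot
  obtain ⟨k, hk0, hks, hk1, hk2⟩ := ift_manifold_nhds
    ((H₂.1.mono fun ξ h => h.1).and (H₂.bijective hdim))
  have he : h₂ (zsec I x₀) = ι x₀ := H₂.2.self_of_nhds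
  have he1 : h₁ (zsec I x₀) = ι x₀ := H₁.2.self_of_nhds
  have hc₁ : Tendsto h₁ (𝓝 (zsec I x₀)) (𝓝 (h₂ (zsec I x₀))) := by
    have := H₁.1.self_of_nhds.1.continuousAt
    rwa [ContinuousAt, he1, ← he] at this
  have hkc : Tendsto k (𝓝 (h₂ (zsec I x₀))) (𝓝 (zsec I x₀)) := by
    have := hks.self_of_nhds.continuousAt
    rwa [ContinuousAt, hk0] at this
  set g : Cot I L → Cot I L := k ∘ h₁ with hg
  have hπ : Tendsto (fun ξ : Cot I L => ξ.1) (𝓝 (zsec I x₀)) (𝓝 x₀) :=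
    (contMDiff_proj' (I := I) (L := L)).continuous.continuousAt
  -- all the relations near the base point
  have hall : ∀ᶠ ξ in 𝓝 (zsec I x₀), ContMDiffAt (IC I) (IC I) ∞ g ξ ∧
      pb (IC I) (IC I) g (lamCan I) ξ = lamCan I ξ ∧ g (zsec I ξ.1) = zsec I ξ.1 ∧
      h₂ (g ξ) = h₁ ξ := by
    have hz2 : ∀ᶠ x in 𝓝 x₀, k (h₂ (zsec I x)) = zsec I x := by
      have : Tendsto (zsec I) (𝓝 x₀) (𝓝 (zsec I x₀)) :=
        (contMDiff_zsec (I := I) (L := L)).continuous.continuousAt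
      exact this.eventually hk2
    have hrel : ∀ᶠ ξ in 𝓝 (zsec I x₀), h₂ (g ξ) = h₁ ξ := hc₁.eventually hk1
    filter_upwards [H₁.1, hc₁.eventually hks, hrel.eventually_nhds,
      (hkc.comp hc₁).eventually H₂.1, hπ.eventually hz2, hπ.eventually H₂.2,
      hπ.eventually H₁.2] with ξ h1 h2 h3 h4 h5 h6 h7
    have hgs : ContMDiffAt (IC I) (IC I) ∞ g ξ := ContMDiffAt.comp ξ h2 h1.1
    refine ⟨hgs, ?_, ?_, h3.self_of_nhds⟩
    · have h8 : pb (IC I) (IC I) g (lamCan I) ξ =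
          pb (IC I) (IC I) g (pb (IC I) IE h₂ S.lam) ξ := pb_congr_form h4.2.symm
      have h9 : (h₂ ∘ g) =ᶠ[𝓝 ξ] h₁ := h3
      rw [h8, ← pb_comp (h4.1.mdifferentiableAt infty_ne_zero)
        (hgs.mdifferentiableAt infty_ne_zero), pb_congr h9, h1.2]
    · change k (h₁ (zsec I ξ.1)) = zsec I ξ.1
      rw [h7, ← h6, h5]
  obtain ⟨U, hUall, hUo, hU0⟩ := eventually_nhds_iff.1 hall
  obtain ⟨V, hV, hV0, -, hVU⟩ := trap_cot hUo (ξ₀ := zsec I x₀) (fun s _ => by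
    rw [cotScale_zsec]; exact hU0)
  have hrig := rigidity hUo (fun ξ hξ => (hUall ξ hξ).1) (fun ξ hξ => (hUall ξ hξ).2.1)
    (fun x hx => (hUall _ hx).2.2.1) hV hVU
  filter_upwards [hV.mem_nhds hV0, hUo.mem_nhds hU0] with ξ h1 h2
  rw [← (hUall ξ h2).2.2.2, hrig ξ h1]

end Pool.Agent.H67.Liou
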