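import Pool.Agent.H67.Liou.GermUnique

/-! The global exact symplectic embedding of the cotangent bundle. -/

open Topology Filter Set Function Bundle
open scoped ContDiff Manifold

set_option linter.unusedSectionVars false

namespace Pool.Agent.H67.Liou

universe u v

section transport

variable {E : Type u} [NormedAddCommGroup E] [NormedSpace ℝ E]
  {H : Type*} [TopologicalSpace H] {I : ModelWithCorners ℝ E H}
  {M : Type*} [TopologicalSpace M] [ChartedSpace H M]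
  {E' : Type v} [NormedAddCommGroup E'] [NormedSpace ℝ E']
  {H' : Type*} [TopologicalSpace H'] {J : ModelWithCorners ℝ E' H'}
  {N : Type*} [TopologicalSpace N] [ChartedSpace H' N]
  [FiniteDimensional ℝ E] [IsManifold I ∞ M] [IsManifold I 1 M] [I.Boundaryless]
  [FiniteDimensional ℝ E'] [IsManifold J ∞ N] [IsManifold J 1 N] [J.Boundaryless]
  [T2Space M] [T2Space N]

theorem transport (S : LStr J N) (S' : LStr I M) {g j : N → M} {x₀ : N} {t : ℝ}
    (hjs : ContMDiffAt J I ∞ j (S.φ (-t) x₀)) (hb : Bijective (mfderiv J I j (S.φ (-t) x₀)))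
    (hp : pb J I j S'.lam (S.φ (-t) x₀) = S.lam (S.φ (-t) x₀))
    (ht : g =ᶠ[𝓝 x₀] fun x => S'.φ t (j (S.φ (-t) x))) :
    ContMDiffAt J I ∞ g x₀ ∧ Bijective (mfderiv J I g x₀) ∧ pb J I g S'.lam x₀ = S.lam x₀ := by
  have hd1 : MDifferentiableAt J J (S.φ (-t)) x₀ :=
    (S.smooth_time (-t) x₀).mdifferentiableAt infty_ne_zero
  have hd2 : MDifferentiableAt J I j (S.φ (-t) x₀) := hjs.mdifferentiableAt infty_ne_zero
  have hd3 : MDifferentiableAt I I (S'.φ t) ((j ∘ S.φ (-t)) x₀) :=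
    (S'.smooth_time t _).mdifferentiableAt infty_ne_zero
  refine ⟨?_, ?_, ?_⟩
  · refine ContMDiffAt.congr_of_eventuallyEq ?_ ht
    have h1 : ContMDiffAt J I ∞ (fun x => j (S.φ (-t) x)) x₀ :=
      ContMDiffAt.comp x₀ hjs (S.smooth_time (-t) x₀)
    exact ContMDiffAt.comp x₀ (S'.smooth_time t _) h1
  · have h1 : (mfderiv J I g x₀ : E' →L[ℝ] E) =
        mfderiv J I (S'.φ t ∘ (j ∘ S.φ (-t))) x₀ := ht.mfderiv_eq
    rw [mfderiv_comp x₀ hd3 (hd2.comp x₀ hd1), mfderiv_comp x₀ hd2 hd1] at h1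
    have h2 : Bijective ((mfderiv I I (S'.φ t) (j (S.φ (-t) x₀))).comp
          ((mfderiv J I j (S.φ (-t) x₀)).comp (mfderiv J J (S.φ (-t)) x₀)) : E' →L[ℝ] E) :=
      (S'.bij t _).comp (hb.comp (S.bij (-t) x₀))
    have h3 : (mfderiv J I g x₀ : E' →L[ℝ] E) =
        ((mfderiv I I (S'.φ t) (j (S.φ (-t) x₀))).comp
          ((mfderiv J I j (S.φ (-t) x₀)).comp (mfderiv J J (S.φ (-t)) x₀)) : E' →L[ℝ] E) := h1
    rw [← h3] at h2
    exact h2
  · ext v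
    have h1 : pb J I g S'.lam x₀ = pb J I (S'.φ t ∘ (j ∘ S.φ (-t))) S'.lam x₀ := pb_congr ht
    rw [h1, pb_comp hd3 (hd2.comp x₀ hd1)]
    have h2 : pb J I (j ∘ S.φ (-t)) (pb I I (S'.φ t) S'.lam) x₀ v =
        S'.lam (S'.φ t (j (S.φ (-t) x₀))) (mfderiv I I (S'.φ t) (j (S.φ (-t) x₀))
          (mfderiv J I (j ∘ S.φ (-t)) x₀ v)) := rfl
    rw [h2, S'.pull]
    have h4 : pb J I (j ∘ S.φ (-t)) S'.lam x₀ v = S.lam (S.φ (-t) x₀)
        (mfderiv J J (S.φ (-t)) x₀ v) := by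
      rw [pb_comp hd2 hd1]
      have h6 : pb J J (S.φ (-t)) (pb J I j S'.lam) x₀ v = pb J I j S'.lam (S.φ (-t) x₀)
        (mfderiv J J (S.φ (-t)) x₀ v) := rfl
      rw [h6, hp]
    have h7 : (S'.lam (j (S.φ (-t) x₀))) ((mfderiv J I (j ∘ S.φ (-t)) x₀) v) =
        pb J I (j ∘ S.φ (-t)) S'.lam x₀ v := rfl
    rw [h7, h4, S.pull, ← mul_assoc, ← Real.exp_add]
    simp

end transport

variable {F : Type u} [NormedAddCommGroup F] [NormedSpace ℝ F] [FiniteDimensional ℝ F]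
  {H : Type*} [TopologicalSpace H] {I : ModelWithCorners ℝ F H}
  {L : Type*} [TopologicalSpace L] [ChartedSpace H L]
  [IsManifold I ∞ L] [IsManifold I 1 L] [I.Boundaryless]
  {E : Type v} [NormedAddCommGroup E] [NormedSpace ℝ E] [FiniteDimensional ℝ E]
  {HE : Type*} [TopologicalSpace HE] {IE : ModelWithCorners ℝ E HE}
  {M : Type*} [TopologicalSpace M] [ChartedSpace HE M]
  [IsManifold IE ∞ M] [IsManifold IE 1 M] [IE.Boundaryless]

theorem exists_global [T2Space L] [T2Space M] (S : LStr IE M) {ι : L → M}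
    (hι : ContMDiff I IE ∞ ι) (hιi : Injective ι)
    (hinj : ∀ x, Injective (mfderiv I IE ι x))
    (hdim : Module.finrank ℝ E = 2 * Module.finrank ℝ F) (hvan : ∀ x, S.lam (ι x) = 0) :
    ∃ g : Cot I L → M, ExEmb (cotStr I L) S g (fun _ => 0) ∧ ∀ x, g (zsec I x) = ι x := by
  have hT2 : T2Space (Cot I L) := t2Space_cot
  have hzc : Continuous (zsec I : L → Cot I L) := (contMDiff_zsec (I := I) (L := L)).continuous
  have hπc : Continuous (TotalSpace.proj : Cot I L → L) := (contMDiff_proj' (I := I)).continuous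
  choose h hh using fun x₀ : L => exists_germ (I := I) S hι hinj hdim hvan x₀
  -- good neighbourhoods
  have hU : ∀ x : L, ∃ U : Set (Cot I L), IsOpen U ∧ zsec I x ∈ U ∧ InjOn (h x) U ∧
      ∀ ξ ∈ U, ContMDiffAt (IC I) IE ∞ (h x) ξ ∧ pb (IC I) IE (h x) S.lam ξ = lamCan I ξ ∧
        Bijective (mfderiv (IC I) IE (h x) ξ) ∧ h x (zsec I ξ.1) = ι ξ.1 := by
    intro x
    obtain ⟨k, -, -, -, hk2⟩ := ift_manifold_nhds
      (((hh x).1.mono fun ξ h => h.1).and ((hh x).bijective hdim))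
    have hπ : Tendsto (fun ξ : Cot I L => ξ.1) (𝓝 (zsec I x)) (𝓝 x) := hπc.continuousAt
    obtain ⟨U, hUall, hUo, hU0⟩ := eventually_nhds_iff.1
      ((((hh x).1.and ((hh x).bijective hdim)).and (hπ.eventually (hh x).2)).and hk2)
    refine ⟨U, hUo, hU0, ?_, ?_⟩
    · intro ξ hξ ξ' hξ' heq
      rw [← (hUall ξ hξ).2, ← (hUall ξ' hξ').2, heq]
    · intro ξ hξ
      obtain ⟨⟨⟨⟨h1, h2⟩, h3⟩, h4⟩, -⟩ := hUall ξ hξ
      exact ⟨h1, h2, h3, h4⟩
  choose U hUo hU0 hUinj hUall using hU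
  have hV := fun x : L => trap_cot (hUo x) (ξ₀ := zsec I x) (fun s _ => by
    rw [cotScale_zsec]; exact hU0 x)
  choose V hVo hV0 hVU hVs using hV
  have hint : ∀ x : L, ∀ ξ : Cot I L, ∀ t : ℝ, 0 ≤ t → (∀ s, 0 ≤ s → s ≤ t →
      cotFlow I (-s) ξ ∈ U x) → h x (cotFlow I (-t) ξ) = S.φ (-t) (h x ξ) := by
    intro x ξ t ht horb
    refine intertwine (cotStr I L) S (hUo x) (fun ξ hξ => (hUall x ξ hξ).1)
      (fun ξ hξ => (hUall x ξ hξ).2.2.1) (fun ξ hξ => (hUall x ξ hξ).2.1)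
      (a := -t) (b := 0) (by linarith) le_rfl ?_ ⟨le_rfl, by linarith⟩
    intro s hs
    have h1 := horb (-s) (by linarith [hs.2]) (by linarith [hs.1])
    rwa [neg_neg] at h1
  -- `ι x` is fixed by the flow
  have hfix : ∀ x : L, ∀ t : ℝ, 0 ≤ t → S.φ (-t) (ι x) = ι x := by
    intro x t ht
    have hz : ∀ s : ℝ, cotFlow I s (zsec I x) = zsec I x := fun s => cotScale_zsec _ x
    have h1 := hint x (zsec I x) t ht (fun s _ _ => by rw [hz]; exact hU0 x)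
    have h2 : h x (zsec I x) = ι x := (hUall x _ (hU0 x)).2.2.2
    rw [hz, h2] at h1
    exact h1.symm
  have hfix' : ∀ x : L, ∀ t : ℝ, 0 ≤ t → S.φ t (ι x) = ι x := by
    intro x t ht
    conv_lhs => rw [← hfix x t ht]
    exact S.apply_neg t _
  have hT : ∀ ξ : Cot I L, ∃ T : ℝ, 0 ≤ T ∧ ∀ t, T ≤ t → cotFlow I (-t) ξ ∈ U ξ.1 := by
    intro ξ
    have h1 : ∀ᶠ t : ℝ in atTop, cotFlow I (-t) ξ ∈ U ξ.1 :=
      (tendsto_cotFlow_neg ξ).eventually ((hUo ξ.1).mem_nhds (hU0 ξ.1))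
    obtain ⟨T, hT⟩ := eventually_atTop.1 h1
    exact ⟨max T 0, le_max_right _ _, fun t ht => hT t ((le_max_left _ _).trans ht)⟩
  choose T hT0 hT using hT
  have hind : ∀ x : L, ∀ ξ : Cot I L, ∀ t t' : ℝ, (∀ s, t ≤ s → s ≤ t' → cotFlow I (-s) ξ ∈ U x) →
      t ≤ t' → S.φ t' (h x (cotFlow I (-t') ξ)) = S.φ t (h x (cotFlow I (-t) ξ)) := by
    intro x ξ t t' ht htt'
    have hadd : ∀ a b : ℝ, cotFlow I (a + b) ξ = cotFlow I a (cotFlow I b ξ) :=
      fun a b => (cotStr I L).add a b ξ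
    have h1 := hint x (cotFlow I (-t) ξ) (t' - t) (by linarith) (fun s hs hs' => by
      rw [← hadd]
      have : -s + -t = -(t + s) := by ring
      rw [this]
      exact ht _ (by linarith) (by linarith))
    rw [← hadd] at h1
    have h2 : -(t' - t) + -t = -t' := by ring
    rw [h2] at h1
    rw [h1, ← S.add]
    congr 1
    ring
  set g : Cot I L → M := fun ξ => S.φ (T ξ) (h ξ.1 (cotFlow I (-(T ξ)) ξ)) with hg
  have hgen : ∀ ξ : Cot I L, ∀ t : ℝ, (∀ s, t ≤ s → cotFlow I (-s) ξ ∈ U ξ.1) →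
      g ξ = S.φ t (h ξ.1 (cotFlow I (-t) ξ)) := by
    intro ξ t ht
    rcases le_total t (T ξ) with hle | hle
    · exact hind ξ.1 ξ t (T ξ) (fun s hs _ => ht s hs) hle
    · exact (hind ξ.1 ξ (T ξ) t (fun s hs _ => hT ξ s hs) hle).symm
  -- local description
  have hloc : ∀ ξ₀ : Cot I L, ∃ t : ℝ, cotFlow I (-t) ξ₀ ∈ U ξ₀.1 ∧
      g =ᶠ[𝓝 ξ₀] fun ξ => S.φ t (h ξ₀.1 (cotFlow I (-t) ξ)) := by
    intro ξ₀
    have h1 : ∀ᶠ t : ℝ in atTop, cotFlow I (-t) ξ₀ ∈ V ξ₀.1 :=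
      (tendsto_cotFlow_neg ξ₀).eventually ((hVo ξ₀.1).mem_nhds (hV0 ξ₀.1))
    obtain ⟨t, ht⟩ := h1.exists
    refine ⟨t, hVU _ ht, ?_⟩
    have hct : Continuous (cotFlow I (-t) : Cot I L → Cot I L) := (cotStr I L).continuous_time (-t)
    filter_upwards [(hVo ξ₀.1).preimage hct |>.mem_nhds ht] with ξ hξ
    -- the two germs agree near the zero covector over `ξ.1`
    have hzU : zsec I ξ.1 ∈ U ξ₀.1 := by
      have h2 := hVs ξ₀.1 _ hξ 0 ⟨le_rfl, zero_le_one⟩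
      rwa [cotScale_zero] at h2
    have hgerm : GermAt S ι (h ξ₀.1) ξ.1 := by
      constructor
      · filter_upwards [(hUo ξ₀.1).mem_nhds hzU] with ξ' hξ'
        exact ⟨(hUall _ ξ' hξ').1, (hUall _ ξ' hξ').2.1⟩
      · have h2 : ∀ᶠ x in 𝓝 ξ.1, zsec I x ∈ U ξ₀.1 :=
          hzc.continuousAt.eventually ((hUo ξ₀.1).mem_nhds hzU)
        filter_upwards [h2] with x hx
        exact (hUall _ _ hx).2.2.2
    have heq := germ_unique hdim (hh ξ.1) hgerm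
    have h3 : ∀ᶠ s : ℝ in atTop, h ξ.1 (cotFlow I (-s) ξ) = h ξ₀.1 (cotFlow I (-s) ξ) :=
      (tendsto_cotFlow_neg ξ).eventually heq
    obtain ⟨s, hs1, hs2, hs3⟩ :=
      (h3.and ((eventually_ge_atTop (T ξ)).and (eventually_ge_atTop t))).exists
    rw [hgen ξ s (fun r hr => hT ξ r (hs2.trans hr)), hs1]
    refine hind ξ₀.1 ξ t s (fun r hr _ => ?_) hs3
    have h4 := hVs ξ₀.1 _ hξ (Real.exp (-(r - t))) (exp_mem_Icc (by linarith))
    have h5 : cotScale I (Real.exp (-(r - t))) (cotFlow I (-t) ξ) = cotFlow I (-r) ξ := by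
      have h6 : cotFlow I (-(r - t) + -t) ξ = cotFlow I (-(r - t)) (cotFlow I (-t) ξ) :=
        (cotStr I L).add _ _ ξ
      have h7 : -(r - t) + -t = -r := by ring
      rw [h7] at h6
      exact h6.symm
    rwa [h5] at h4
  have htr : ∀ ξ₀ : Cot I L, ContMDiffAt (IC I) IE ∞ g ξ₀ ∧ Bijective (mfderiv (IC I) IE g ξ₀) ∧
      pb (IC I) IE g S.lam ξ₀ = lamCan I ξ₀ := by
    intro ξ₀
    obtain ⟨t, htU, ht⟩ := hloc ξ₀
    obtain ⟨h1, h2, h3, -⟩ := hUall ξ₀.1 _ htU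
    exact transport (cotStr I L) S h1 h3 h2 ht
  -- values on the zero section
  have hgz : ∀ x, g (zsec I x) = ι x := by
    intro x
    have hz : ∀ s : ℝ, cotFlow I s (zsec I x) = zsec I x := fun s => cotScale_zsec _ x
    rw [hgen (zsec I x) 0 (fun s _ => by rw [hz]; exact hU0 x), hz]
    rw [S.zero]
    exact (hUall x _ (hU0 x)).2.2.2
  -- limits
  have hlim : ∀ ξ : Cot I L, Tendsto (fun t : ℝ => S.φ (-t) (g ξ)) atTop (𝓝 (ι ξ.1)) := by
    intro ξ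
    have h1 : Tendsto (fun t : ℝ => h ξ.1 (cotFlow I (-t) ξ)) atTop (𝓝 (ι ξ.1)) := by
      have h2 : ContinuousAt (h ξ.1) (zsec I ξ.1) := (hUall ξ.1 _ (hU0 ξ.1)).1.continuousAt
      have h3 := h2.tendsto.comp (tendsto_cotFlow_neg ξ)
      rwa [show h ξ.1 (zsec I ξ.1) = ι ξ.1 from (hUall ξ.1 _ (hU0 ξ.1)).2.2.2] at h3
    refine h1.congr' ?_
    filter_upwards [eventually_ge_atTop (T ξ)] with t ht
    rw [hgen ξ t (fun s hs => hT ξ s (ht.trans hs)), S.neg_apply]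
  have hginj : Injective g := by
    intro ξ ξ' heq
    have h1 : ξ.1 = ξ'.1 := by
      apply hιi
      have h2 := hlim ξ
      rw [heq] at h2
      exact tendsto_nhds_unique h2 (hlim ξ')
    set t := max (T ξ) (T ξ') with ht
    have h2 : ∀ s, t ≤ s → cotFlow I (-s) ξ ∈ U ξ.1 :=
      fun s hs => hT ξ s ((le_max_left _ _).trans hs)
    have h3 : ∀ s, t ≤ s → cotFlow I (-s) ξ' ∈ U ξ'.1 :=
      fun s hs => hT ξ' s ((le_max_right _ _).trans hs)
    rw [hgen ξ t h2, hgen ξ' t h3] at heq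
    have h4 := S.injective_time t heq
    rw [← h1] at h4 h3
    have h5 := hUinj ξ.1 (h2 t le_rfl) (h3 t le_rfl) h4
    exact (cotStr I L).injective_time (-t) h5
  exact ⟨g, ExEmb.of_pb (fun ξ => (htr ξ).1) hginj (fun ξ => (htr ξ).2.1)
    (fun ξ => (htr ξ).2.2), hgz⟩

end Pool.Agent.H67.Liou
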