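import Pool.Agent.H67.Liou.Path

/-! Division lemma (Hadamard) with smooth dependence. -/

open Topology Filter Set MeasureTheory
open scoped ContDiff

namespace Pool.Agent.H67.Liou

universe u

variable {V : Type u} [NormedAddCommGroup V] [NormedSpace ℝ V]
  {E : Type u} [NormedAddCommGroup E] [NormedSpace ℝ E]

/-- The path `s ↦ (s r, y)`, depending linearly on `(r, y)`. -/
noncomputable def segCLM (V : Type u) [NormedAddCommGroup V] [NormedSpace ℝ V] :
    ℝ × V →L[ℝ] C(TI, ℝ × V) :=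
  LinearMap.mkContinuous (𝕜 := ℝ) (𝕜₂ := ℝ) (E := ℝ × V) (F := C(TI, ℝ × V))
    { toFun := fun p => ⟨fun s => ((s : ℝ) * p.1, p.2), by fun_prop⟩
      map_add' := fun p q => by
        ext s
        · simp [mul_add]
        · simp
      map_smul' := fun c p => by
        ext s
        · simp [mul_left_comm]
        · simp } 2 (by
    intro p
    refine (ContinuousMap.norm_le _ (by positivity)).2 fun s => ?_
    have h1 : |(s : ℝ)| ≤ 2 := abs_le.2 ⟨s.2.1, s.2.2⟩
    have h2 : ‖p.1‖ ≤ ‖p‖ := norm_fst_le p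
    have h3 : ‖p.2‖ ≤ ‖p‖ := norm_snd_le p
    have h4 : 0 ≤ ‖p‖ := norm_nonneg p
    change ‖((s : ℝ) * p.1, p.2)‖ ≤ 2 * ‖p‖
    rw [Prod.norm_mk, norm_mul, Real.norm_eq_abs]
    refine max_le ?_ (by linarith)
    exact mul_le_mul h1 h2 (norm_nonneg _) (by norm_num))

theorem segCLM_apply (p : ℝ × V) (s : TI) : segCLM V p s = ((s : ℝ) * p.1, p.2) := rfl

theorem hasDerivAt_fst_curve {f : ℝ × V → E} (hf : ContDiff ℝ ∞ f) (r : ℝ) (y : V) :
    HasDerivAt (fun r => f (r, y)) (fderiv ℝ f (r, y) (1, 0)) r := by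
  have h1 : DifferentiableAt ℝ f (r, y) := (hf.differentiable (by simp)) _
  have hcurve : HasDerivAt (fun t : ℝ => ((t, y) : ℝ × V)) (1, 0) r :=
    (hasDerivAt_id r).prodMk (hasDerivAt_const r y)
  exact h1.hasFDerivAt.comp_hasDerivAt r hcurve

theorem hadamard [CompleteSpace E] {f : ℝ × V → E} (hf : ContDiff ℝ ∞ f) :
    ∃ h : ℝ × V → E, ContDiff ℝ ∞ h ∧ (∀ r y, f (r, y) = f (0, y) + r • h (r, y)) ∧
      (∀ y, h (0, y) = fderiv ℝ f (0, y) (1, 0)) ∧
      (∀ y, (∀ r, f (r, y) = f (0, y)) → ∀ r, h (r, y) = 0) := by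
  set g : ℝ × V → E := fun p => fderiv ℝ f p (1, 0) with hg
  have hgs : ContDiff ℝ ∞ g :=
    (hf.fderiv_right (m := ∞) (by simp)).clm_apply contDiff_const
  let gC : C(ℝ × V, E) := ⟨g, hgs.continuous⟩
  have h1m : (1 : ℝ) ∈ Icc (-2 : ℝ) 2 := by constructor <;> norm_num
  set h : ℝ × V → E := fun p => integCLM E (gC.comp (segCLM V p)) (pr 1) with hh
  have hhs : ContDiff ℝ ∞ h := by
    have h1 : ContDiff ℝ ∞ (fun p : ℝ × V => gC.comp (segCLM V p)) :=
      (nem_contDiff (K := TI) gC hgs).comp (segCLM V).contDiff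
    exact (ContinuousMap.evalCLM ℝ (pr 1)).contDiff.comp ((integCLM E).contDiff.comp h1)
  have hval : ∀ r y, h (r, y) = ∫ s in (0 : ℝ)..1, g (s * r, y) := by
    intro r y
    have h2 : h (r, y) = ∫ s in (0 : ℝ)..((pr 1 : TI) : ℝ), (gC.comp (segCLM V (r, y))) (pr s) :=
      rfl
    rw [h2, pr_of_mem h1m]
    apply intervalIntegral.integral_congr
    intro s hs
    rw [uIcc_of_le zero_le_one] at hs
    have h3 : s ∈ Icc (-2 : ℝ) 2 := ⟨by linarith [hs.1], by linarith [hs.2]⟩
    change g ((segCLM V (r, y)) (pr s)) = g (s * r, y)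
    rw [segCLM_apply, pr_of_mem h3]
  refine ⟨h, hhs, ?_, ?_, ?_⟩
  · intro r y
    have h2 : ∀ s ∈ uIcc (0 : ℝ) 1, HasDerivAt (fun s => f (s * r, y)) (r • g (s * r, y)) s := by
      intro s _
      have h3 : HasDerivAt (fun r' => f (r', y)) (g (s * r, y)) (s * r) :=
        hasDerivAt_fst_curve hf (s * r) y
      have h4 : HasDerivAt (fun s : ℝ => s * r) r s := by
        simpa using (hasDerivAt_id s).mul_const r
      exact h3.scomp s h4
    have hcont : Continuous (fun s : ℝ => r • g (s * r, y)) := by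
      have : Continuous g := hgs.continuous
      fun_prop
    have h5 := intervalIntegral.integral_eq_sub_of_hasDerivAt h2 (hcont.intervalIntegrable _ _)
    rw [intervalIntegral.integral_smul, ← hval] at h5
    rw [h5]
    simp
  · intro y
    rw [hval]
    simp [hg]
  · intro y hy r
    rw [hval]
    have h2 : ∀ s, g (s, y) = 0 := by
      intro s
      have h3 : HasDerivAt (fun r => f (r, y)) (g (s, y)) s := hasDerivAt_fst_curve hf s y
      have h4 : HasDerivAt (fun r => f (r, y)) 0 s := by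
        have h5 : (fun r => f (r, y)) = fun _ => f (0, y) := funext hy
        rw [h5]
        exact hasDerivAt_const _ _
      exact h3.unique h4
    simp [h2]

end Pool.Agent.H67.Liou
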