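import Pool.Agent.H67.Liou.Dual

/-! The inverse function theorem for manifolds, and injective local diffeomorphisms. -/

open Topology Filter Set Function
open scoped ContDiff Manifold

set_option linter.unusedSectionVars false

namespace Pool.Agent.H67.Liou

variable {E : Type*} [NormedAddCommGroup E] [NormedSpace ℝ E]
  {H : Type*} [TopologicalSpace H] {I : ModelWithCorners ℝ E H}
  {M : Type*} [TopologicalSpace M] [ChartedSpace H M]
  {E' : Type*} [NormedAddCommGroup E'] [NormedSpace ℝ E']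
  {H' : Type*} [TopologicalSpace H'] {J : ModelWithCorners ℝ E' H'}
  {N : Type*} [TopologicalSpace N] [ChartedSpace H' N]

theorem infty_ne_zero : (∞ : WithTop ℕ∞) ≠ 0 := by simp

theorem ift_vec [FiniteDimensional ℝ E'] [FiniteDimensional ℝ E] {f : E' → E} {a : E'}
    (hf : ContDiffAt ℝ ∞ f a) (hb : Bijective (fderiv ℝ f a)) :
    ∃ h : E → E', h (f a) = a ∧ ContDiffAt ℝ ∞ h (f a) ∧ (∀ᶠ y in 𝓝 (f a), f (h y) = y) ∧
      (∀ᶠ x in 𝓝 a, h (f x) = x) := by
  have hcomplete : CompleteSpace E' := FiniteDimensional.complete ℝ E'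
  let A : E' ≃L[ℝ] E :=
    (LinearEquiv.ofBijective (fderiv ℝ f a : E' →ₗ[ℝ] E) hb).toContinuousLinearEquiv
  have hA : (A : E' →L[ℝ] E) = fderiv ℝ f a := by
    ext v
    rfl
  have hf' : HasFDerivAt f (A : E' →L[ℝ] E) a := by
    rw [hA]
    exact (hf.differentiableAt infty_ne_zero).hasFDerivAt
  set Φ := hf.toOpenPartialHomeomorph f hf' infty_ne_zero with hΦ
  have hsrc : a ∈ Φ.source := hf.mem_toOpenPartialHomeomorph_source hf' infty_ne_zero
  have htgt : f a ∈ Φ.target := hf.image_mem_toOpenPartialHomeomorph_target hf' infty_ne_zero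
  have hcoe : ∀ x, Φ x = f x := fun x => rfl
  refine ⟨Φ.symm, ?_, ?_, ?_, ?_⟩
  · exact Φ.left_inv hsrc
  · exact hf.to_localInverse hf' infty_ne_zero
  · filter_upwards [Φ.open_target.mem_nhds htgt] with y hy
    exact Φ.right_inv hy
  · filter_upwards [Φ.open_source.mem_nhds hsrc] with x hx
    exact Φ.left_inv hx

variable [IsManifold I ∞ M] [IsManifold I 1 M] [I.Boundaryless]
  [IsManifold J ∞ N] [IsManifold J 1 N] [J.Boundaryless]

theorem fderiv_written {g : N → M} {x : N} (hg : ContMDiffAt J I ∞ g x) (w : E') :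
    fderiv ℝ (extChartAt I (g x) ∘ g ∘ (extChartAt J x).symm)
      (extChartAt J x x) w = (mfderiv I 𝓘(ℝ, E) (extChartAt I (g x)) (g x) : E →L[ℝ] E)
        ((mfderiv J I g x : E' →L[ℝ] E)
        ((mfderiv 𝓘(ℝ, E') J (extChartAt J x).symm (extChartAt J x x) : E' →L[ℝ] E') w)) := by
  have hx := mem_extChartAt_source (I := J) x
  have hgx := mem_extChartAt_source (I := I) (g x)
  have hz : extChartAt J x x ∈ (extChartAt J x).target := (extChartAt J x).map_source hx
  have hl : (extChartAt J x).symm (extChartAt J x x) = x := (extChartAt J x).left_inv hx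
  have hg' : MDifferentiableAt J I g ((extChartAt J x).symm (extChartAt J x x)) := by
    rw [hl]
    exact hg.mdifferentiableAt infty_ne_zero
  have hs := mdiffAt_symm (I := J) x hz
  have hgs : MDifferentiableAt 𝓘(ℝ, E') I (g ∘ (extChartAt J x).symm) (extChartAt J x x) :=
    hg'.comp _ hs
  have h1 : MDifferentiableAt I 𝓘(ℝ, E) (extChartAt I (g x))
      ((g ∘ (extChartAt J x).symm) (extChartAt J x x)) := by
    change MDifferentiableAt I 𝓘(ℝ, E) (extChartAt I (g x))
      (g ((extChartAt J x).symm (extChartAt J x x)))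
    rw [hl]
    exact mdiffAt_chart (g x) hgx
  have h2 := mfderiv_comp_apply (extChartAt J x x) h1 hgs w
  have h3 := mfderiv_comp_apply (extChartAt J x x) hg' hs w
  rw [mfderiv_eq_fderiv] at h2
  have h4 : ∀ (p : N) (w' : E'), p = x →
      (mfderiv I 𝓘(ℝ, E) (extChartAt I (g x)) (g p) : E →L[ℝ] E)
        ((mfderiv J I g p : E' →L[ℝ] E) w') =
      (mfderiv I 𝓘(ℝ, E) (extChartAt I (g x)) (g x) : E →L[ℝ] E)
        ((mfderiv J I g x : E' →L[ℝ] E) w') := by
    rintro p w' rfl
    rfl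
  refine h2.trans ?_
  refine Eq.trans ?_ (h4 _ _ hl)
  exact congrArg (mfderiv I 𝓘(ℝ, E) (extChartAt I (g x))
    (g ((extChartAt J x).symm (extChartAt J x x))) : E →L[ℝ] E) h3

theorem bijective_mfderiv_chart (x₀ : M) {x : M} (hx : x ∈ (extChartAt I x₀).source) :
    Bijective (mfderiv I 𝓘(ℝ, E) (extChartAt I x₀) x : E →L[ℝ] E) := by
  constructor
  · intro u v huv
    rw [← mfderiv_symm_chart (I := I) x₀ hx u, ← mfderiv_symm_chart (I := I) x₀ hx v]
    exact congrArg _ huv
  · intro u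
    exact ⟨_, mfderiv_chart_symm (I := I) x₀ hx u⟩

theorem bijective_mfderiv_symm (x₀ : M) {y : E} (hy : y ∈ (extChartAt I x₀).target) :
    Bijective (mfderiv 𝓘(ℝ, E) I (extChartAt I x₀).symm y : E →L[ℝ] E) := by
  have hx := (extChartAt I x₀).map_target hy
  have hr : extChartAt I x₀ ((extChartAt I x₀).symm y) = y := (extChartAt I x₀).right_inv hy
  constructor
  · intro u v huv
    have h1 := mfderiv_chart_symm (I := I) x₀ hx u
    have h2 := mfderiv_chart_symm (I := I) x₀ hx v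
    rw [hr] at h1 h2
    rw [← h1, ← h2]
    exact congrArg _ huv
  · intro u
    have h1 := mfderiv_symm_chart (I := I) x₀ hx u
    rw [hr] at h1
    exact ⟨_, h1⟩

theorem bijective_written {g : N → M} {x : N} (hg : ContMDiffAt J I ∞ g x)
    (hb : Bijective (mfderiv J I g x)) :
    Bijective (fderiv ℝ (extChartAt I (g x) ∘ g ∘ (extChartAt J x).symm) (extChartAt J x x)) := by
  have hx := mem_extChartAt_source (I := J) x
  have hz : extChartAt J x x ∈ (extChartAt J x).target := (extChartAt J x).map_source hx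
  have h4 := (bijective_mfderiv_chart (I := I) (g x) (mem_extChartAt_source (g x))).comp
    (hb.comp (bijective_mfderiv_symm (I := J) x hz))
  have h5 : (fderiv ℝ (extChartAt I (g x) ∘ g ∘ (extChartAt J x).symm) (extChartAt J x x) :
      E' → E) = (mfderiv I 𝓘(ℝ, E) (extChartAt I (g x)) (g x) : E →L[ℝ] E) ∘
        ((mfderiv J I g x : E' →L[ℝ] E) ∘
        (mfderiv 𝓘(ℝ, E') J (extChartAt J x).symm (extChartAt J x x) : E' →L[ℝ] E')) :=
    funext (fderiv_written hg)
  rw [h5]
  exact h4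

/-- Inverse function theorem on manifolds. -/
theorem ift_manifold [FiniteDimensional ℝ E'] [FiniteDimensional ℝ E] {g : N → M} {x : N}
    (hg : ContMDiffAt J I ∞ g x) (hb : Bijective (mfderiv J I g x)) :
    ∃ h : M → N, h (g x) = x ∧ ContMDiffAt I J ∞ h (g x) ∧ (∀ᶠ y in 𝓝 (g x), g (h y) = y) ∧
      (∀ᶠ x' in 𝓝 x, h (g x') = x') := by
  set eN := extChartAt J x with heN
  set eM := extChartAt I (g x) with heM
  have hx : x ∈ eN.source := mem_extChartAt_source (I := J) x
  have hgx : g x ∈ eM.source := mem_extChartAt_source (I := I) (g x)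
  have hz : eN x ∈ eN.target := eN.map_source hx
  have hl : eN.symm (eN x) = x := eN.left_inv hx
  have hg' : ContMDiffAt J I ∞ g (eN.symm (eN x)) := by rwa [hl]
  have hgz : g (eN.symm (eN x)) ∈ eM.source := by rwa [hl]
  have hf := contDiffAt_written x (g x) hz hg' hgz
  obtain ⟨hv, hv0, hvs, hv1, hv2⟩ := ift_vec hf (bijective_written hg hb)
  have hfa : (eM ∘ g ∘ eN.symm) (eN x) = eM (g x) := by
    change eM (g (eN.symm (eN x))) = _
    rw [hl]
  rw [hfa] at hv0 hvs hv1
  have hcM : ContinuousAt eM (g x) := continuousAt_extChartAt (I := I) (g x)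
  have hcN : ContinuousAt eN x := continuousAt_extChartAt (I := J) x
  have hsm : ContMDiffAt I J ∞ (eN.symm ∘ hv ∘ eM) (g x) := by
    have h1 : ContMDiffAt I 𝓘(ℝ, E') ∞ (hv ∘ eM) (g x) :=
      (contMDiffAt_iff_contDiffAt.2 hvs).comp (g x) (contMDiffAt_chart (g x) hgx)
    refine ContMDiffAt.comp (g x) ?_ h1
    change ContMDiffAt 𝓘(ℝ, E') J ∞ eN.symm (hv (eM (g x)))
    rw [hv0]
    exact contMDiffAt_symm x hz
  refine ⟨eN.symm ∘ hv ∘ eM, ?_, hsm, ?_, ?_⟩
  · change eN.symm (hv (eM (g x))) = x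
    rw [hv0, hl]
  · have h1 : ∀ᶠ y in 𝓝 (g x), y ∈ eM.source := (isOpen_extChartAt_source (g x)).mem_nhds hgx
    have h2 : ∀ᶠ y in 𝓝 (g x), (eM ∘ g ∘ eN.symm) (hv (eM y)) = eM y := hcM.eventually hv1
    have h3 : ∀ᶠ y in 𝓝 (g x), g ((eN.symm ∘ hv ∘ eM) y) ∈ eM.source := by
      have h4 : (eN.symm ∘ hv ∘ eM) (g x) = x := by
        change eN.symm (hv (eM (g x))) = x
        rw [hv0, hl]
      have h5 : ContinuousAt g ((eN.symm ∘ hv ∘ eM) (g x)) := by
        rw [h4]
        exact hg.continuousAt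
      have h6 : ContinuousAt (fun y => g ((eN.symm ∘ hv ∘ eM) y)) (g x) :=
        ContinuousAt.comp (x := g x) (g := g) (f := eN.symm ∘ hv ∘ eM) h5 hsm.continuousAt
      apply h6.eventually
      have h7 : g ((eN.symm ∘ hv ∘ eM) (g x)) = g x := by rw [h4]
      simp only [h7]
      exact (isOpen_extChartAt_source (g x)).mem_nhds hgx
    filter_upwards [h1, h2, h3] with y h1 h2 h3
    exact eM.injOn h3 h1 h2
  · have h1 : ∀ᶠ x' in 𝓝 x, x' ∈ eN.source := (isOpen_extChartAt_source x).mem_nhds hx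
    have h2 : ∀ᶠ x' in 𝓝 x, hv ((eM ∘ g ∘ eN.symm) (eN x')) = eN x' := hcN.eventually hv2
    filter_upwards [h1, h2] with x' h1 h2
    have h3 : (eM ∘ g ∘ eN.symm) (eN x') = eM (g x') := by
      change eM (g (eN.symm (eN x'))) = _
      rw [eN.left_inv h1]
    rw [h3] at h2
    change eN.symm (hv (eM (g x'))) = x'
    rw [h2, eN.left_inv h1]

theorem isOpen_range_of_bij [FiniteDimensional ℝ E'] [FiniteDimensional ℝ E] {g : N → M}
    (hg : ContMDiff J I ∞ g) (hb : ∀ x, Bijective (mfderiv J I g x)) : IsOpen (range g) := by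
  rw [isOpen_iff_mem_nhds]
  rintro _ ⟨x, rfl⟩
  obtain ⟨h, -, -, h1, -⟩ := ift_manifold (hg x) (hb x)
  filter_upwards [h1] with y hy
  exact ⟨h y, hy⟩

/-- The inverse of an injective local diffeomorphism is smooth. -/
theorem contMDiffAt_invFun [FiniteDimensional ℝ E'] [FiniteDimensional ℝ E] [Nonempty N]
    {g : N → M} {x : N}
    (hg : ContMDiffAt J I ∞ g x) (hb : Bijective (mfderiv J I g x)) (hinj : Injective g) :
    ContMDiffAt I J ∞ (invFun g) (g x) := by
  obtain ⟨h, -, hs, h1, -⟩ := ift_manifold hg hb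
  refine hs.congr_of_eventuallyEq ?_
  filter_upwards [h1] with y hy
  have : invFun g (g (h y)) = h y := leftInverse_invFun hinj (h y)
  rwa [hy] at this

/-- Inverse function theorem on manifolds, with smoothness near the point. -/
theorem ift_manifold_nhds [FiniteDimensional ℝ E'] [FiniteDimensional ℝ E] {g : N → M} {x : N}
    (hg : ∀ᶠ x' in 𝓝 x, ContMDiffAt J I ∞ g x' ∧ Bijective (mfderiv J I g x')) :
    ∃ h : M → N, h (g x) = x ∧ (∀ᶠ y in 𝓝 (g x), ContMDiffAt I J ∞ h y) ∧
      (∀ᶠ y in 𝓝 (g x), g (h y) = y) ∧ (∀ᶠ x' in 𝓝 x, h (g x') = x') := by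
  obtain ⟨h, h0, hs, h1, h2⟩ := ift_manifold hg.self_of_nhds.1 hg.self_of_nhds.2
  refine ⟨h, h0, ?_, h1, h2⟩
  have hc : Tendsto h (𝓝 (g x)) (𝓝 x) := by
    have := hs.continuousAt
    rwa [ContinuousAt, h0] at this
  have hcn : ∀ᶠ y in 𝓝 (g x), ContinuousAt h y := by
    filter_upwards [eventually_contMDiffAt_one hs] with y hy
    exact hy.continuousAt
  filter_upwards [hc.eventually hg, h1.eventually_nhds, hcn] with y hy1 hy2 hy3
  -- the local inverse at `h y`
  obtain ⟨k, -, hks, -, hk2⟩ := ift_manifold hy1.1 hy1.2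
  have hgy : g (h y) = y := hy2.self_of_nhds
  rw [hgy] at hks
  refine hks.congr_of_eventuallyEq ?_
  filter_upwards [hy2, hy3.eventually hk2] with y' h3 h4
  rw [h3] at h4
  exact h4.symm

end Pool.Agent.H67.Liou
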