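import Pool.Agent.H67.Liou.Path

/-! Smoothness of flows of vector fields on manifolds, near time zero. -/

open Topology Filter Set Function
open scoped ContDiff Manifold

namespace Pool.Agent.H67.Liou

universe u

variable {E : Type u} [NormedAddCommGroup E] [NormedSpace ℝ E]
  {H : Type*} [TopologicalSpace H] {I : ModelWithCorners ℝ E H}
  {M : Type*} [TopologicalSpace M] [ChartedSpace H M]

/-- The vector field `v` written in the preferred chart at `x₀`. -/
noncomputable def vloc (I : ModelWithCorners ℝ E H) [IsManifold I 1 M]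
    (v : (x : M) → TangentSpace I x) (x₀ : M) : E → E := fun y =>
  tangentCoordChange I ((extChartAt I x₀).symm y) x₀ ((extChartAt I x₀).symm y)
    (v ((extChartAt I x₀).symm y))

/-- A vector field is smooth. -/
def SmoothVF (I : ModelWithCorners ℝ E H) [IsManifold I ∞ M] (v : (x : M) → TangentSpace I x) :
    Prop :=
  ContMDiff I I.tangent ∞ (fun x => (⟨x, v x⟩ : TangentBundle I M))

set_option backward.isDefEq.respectTransparency false in
theorem vloc_contDiffOn [IsManifold I ∞ M] [IsManifold I 1 M] {v : (x : M) → TangentSpace I x}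
    (hv : SmoothVF I v) (x₀ : M) :
    ContDiffOn ℝ ∞ (vloc I v x₀) (extChartAt I x₀).target := by
  have h := (contMDiff_iff.1 hv).2 x₀ (⟨x₀, v x₀⟩ : TangentBundle I M)
  have hset : (extChartAt I x₀).target ∩ (extChartAt I x₀).symm ⁻¹'
      ((fun x => (⟨x, v x⟩ : TangentBundle I M)) ⁻¹'
        (extChartAt I.tangent (⟨x₀, v x₀⟩ : TangentBundle I M)).source) =
      (extChartAt I x₀).target := by
    apply inter_eq_left.2
    intro y hy
    have := (extChartAt I x₀).map_target hy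
    simp only [mem_preimage]
    rw [extChartAt_source, TangentBundle.mem_chart_source_iff]
    rwa [extChartAt_source] at this
  rw [hset] at h
  exact h.snd

set_option backward.isDefEq.respectTransparency false in
/-- A curve in the chart solving the local equation gives an integral curve on the manifold. -/
theorem hasMFDerivAt_symm_comp [IsManifold I 1 M] [I.Boundaryless]
    {v : (x : M) → TangentSpace I x} {x₀ : M} {f : ℝ → E} {t : ℝ}
    (h : HasDerivAt f (vloc I v x₀ (f t)) t) (hf : f t ∈ (extChartAt I x₀).target) :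
    HasMFDerivAt 𝓘(ℝ, ℝ) I ((extChartAt I x₀).symm ∘ f) t
      ((1 : ℝ →L[ℝ] ℝ).smulRight (v ((extChartAt I x₀).symm (f t)))) := by
  let xₜ : M := (extChartAt I x₀).symm (f t)
  have h : HasDerivAt f (x := t) <| fderivWithin ℝ (extChartAt I x₀ ∘ (extChartAt I xₜ).symm)
    (range I) (extChartAt I xₜ xₜ) (v xₜ) := h
  rw [← tangentCoordChange_def] at h
  have hft1 := mem_preimage.mp <|
    mem_of_mem_of_subset hf (extChartAt I x₀).target_subset_preimage_source
  have hft2 := mem_extChartAt_source (I := I) xₜ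
  refine ⟨(continuousAt_extChartAt_symm'' hf).comp h.continuousAt,
    HasDerivWithinAt.hasFDerivWithinAt ?_⟩
  simp only [mfld_simps, hasDerivWithinAt_univ]
  change HasDerivAt ((extChartAt I xₜ ∘ (extChartAt I x₀).symm) ∘ f) (v xₜ) t
  rw [← tangentCoordChange_self (I := I) (x := xₜ) (z := xₜ) (v := v xₜ) hft2,
    ← tangentCoordChange_comp (x := x₀) ⟨⟨hft2, hft1⟩, hft2⟩]
  apply HasFDerivAt.comp_hasDerivAt _ _ h
  have hopen : IsOpen (extChartAt I x₀).target := isOpen_extChartAt_target x₀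
  apply HasFDerivWithinAt.hasFDerivAt (s := range I) _ <|
    mem_nhds_iff.mpr ⟨(extChartAt I x₀).target,
      extChartAt_target_subset_range .., hopen, hf⟩
  have h9 : HasFDerivWithinAt (extChartAt I xₜ ∘ (extChartAt I x₀).symm)
      (tangentCoordChange I x₀ xₜ xₜ) (range I) (extChartAt I x₀ xₜ) :=
    hasFDerivWithinAt_tangentCoordChange ⟨hft1, hft2⟩
  have h10 : extChartAt I x₀ xₜ = f t := (extChartAt I x₀).right_inv hf
  rw [h10] at h9
  exact h9

/-- A locally defined smooth map can be extended, near a point, to a smooth map with compact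
support. -/
theorem exists_contDiff_ext [FiniteDimensional ℝ E] {E' : Type*} [NormedAddCommGroup E']
    [NormedSpace ℝ E'] {f : E → E'} {s : Set E} (hs : IsOpen s) (hf : ContDiffOn ℝ ∞ f s)
    {y₀ : E} (hy₀ : y₀ ∈ s) :
    ∃ g : E → E', ContDiff ℝ ∞ g ∧ HasCompactSupport g ∧ g =ᶠ[𝓝 y₀] f := by
  obtain ⟨ε, hε, hεs⟩ := Metric.isOpen_iff.1 hs y₀ hy₀
  let b : ContDiffBump y₀ := ⟨ε / 4, ε / 2, by positivity, by linarith⟩
  have hcb : Metric.closedBall y₀ (ε / 2) ⊆ s :=
    (Metric.closedBall_subset_ball (by linarith)).trans hεs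
  have hts : tsupport b = Metric.closedBall y₀ (ε / 2) := b.tsupport_eq
  refine ⟨fun y => b y • f y, ?_, ?_, ?_⟩
  · rw [contDiff_iff_contDiffAt]
    intro y
    by_cases hy : y ∈ s
    · exact b.contDiff.contDiffAt.smul (hf.contDiffAt (hs.mem_nhds hy))
    · have hy' : y ∈ (tsupport b)ᶜ := by
        rw [hts]
        exact fun h => hy (hcb h)
      have h1 : (fun y => b y • f y) =ᶠ[𝓝 y] fun _ => 0 := by
        filter_upwards [(isClosed_tsupport b).isOpen_compl.mem_nhds hy'] with z hz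
        rw [image_eq_zero_of_notMem_tsupport hz, zero_smul]
      exact contDiffAt_const.congr_of_eventuallyEq h1
  · apply HasCompactSupport.smul_right
    exact b.hasCompactSupport
  · filter_upwards [b.eventuallyEq_one] with y hy
    rw [hy]
    exact one_smul ℝ _

set_option backward.isDefEq.respectTransparency false in
/-- Local flow: short-time integral curves depending smoothly on the time scale and the initial
point. -/
theorem local_flow [FiniteDimensional ℝ E] [IsManifold I ∞ M] [IsManifold I 1 M]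
    [I.Boundaryless] {v : (x : M) → TangentSpace I x} (hv : SmoothVF I v) (x₀ : M) :
    ∃ ψ : ℝ × E → C(TI, E), ContDiffAt ℝ ∞ ψ (0, extChartAt I x₀ x₀) ∧
      ψ (0, extChartAt I x₀ x₀) = constCLM E (extChartAt I x₀ x₀) ∧
      ∀ᶠ p in 𝓝 ((0 : ℝ), extChartAt I x₀ x₀),
        (∀ t : TI, ψ p t ∈ (extChartAt I x₀).target) ∧ ψ p (pr 0) = p.2 ∧
        IsMIntegralCurveOn ((extChartAt I x₀).symm ∘ fun t => ψ p (pr t))
          (fun x => (p.1 • v x : TangentSpace I x)) (Ioo (-2) 2) := by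
  have hcomplete : CompleteSpace E := FiniteDimensional.complete ℝ E
  set e := extChartAt I x₀ with he
  set y₀ := e x₀ with hy₀
  have htopen : IsOpen e.target := isOpen_extChartAt_target x₀
  have hy₀t : y₀ ∈ e.target := e.map_source (mem_extChartAt_source x₀)
  obtain ⟨g, hg, -, hgv⟩ := exists_contDiff_ext htopen (vloc_contDiffOn hv x₀) hy₀t
  let V : C(E, E) := ⟨g, hg.continuous⟩
  obtain ⟨ψ, hψ, hψ0, hψeq⟩ := exists_path V hg y₀
  refine ⟨ψ, hψ, hψ0, ?_⟩
  -- a ball on which everything is fine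
  obtain ⟨r, hr, hrt⟩ := Metric.eventually_nhds_iff_ball.1 (hgv.and (htopen.mem_nhds hy₀t))
  -- paths close to the constant path stay in the ball
  have hnear : ∀ᶠ p in 𝓝 ((0 : ℝ), y₀), ∀ t : TI, ψ p t ∈ Metric.ball y₀ r := by
    have h1 : ContinuousAt ψ (0, y₀) := hψ.continuousAt
    have h2 : ∀ᶠ p in 𝓝 ((0 : ℝ), y₀), dist (ψ p) (ψ (0, y₀)) < r :=
      h1.eventually (Metric.ball_mem_nhds _ hr)
    filter_upwards [h2] with p hp t
    rw [Metric.mem_ball]
    calc dist (ψ p t) y₀ = dist (ψ p t) (ψ (0, y₀) t) := by rw [hψ0]; rfl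
      _ ≤ dist (ψ p) (ψ (0, y₀)) := ContinuousMap.dist_apply_le_dist t
      _ < r := hp
  filter_upwards [hnear, hψeq] with p hp1 hp2
  obtain ⟨τ, y⟩ := p
  refine ⟨fun t => (hrt _ (hp1 t)).2, ?_, ?_⟩
  · have h00 : (0 : ℝ) ∈ Icc (-2 : ℝ) 2 := by constructor <;> norm_num
    have h3 : ψ (τ, y) = constCLM E y + τ • integCLM E (V.comp (ψ (τ, y))) := by
      have := hp2
      unfold pathEq at this
      simp only at this
      rw [sub_sub, sub_eq_zero] at this
      exact this
    have h4 : ψ (τ, y) (pr 0) =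
        (constCLM E y + τ • integCLM E (V.comp (ψ (τ, y)))) (pr 0) :=
      congrArg (fun g : C(TI, E) => g (pr 0)) h3
    rw [h4]
    change y + τ • ∫ s in (0 : ℝ)..((pr 0 : TI) : ℝ), _ = y
    rw [pr_of_mem h00]
    simp
  · let vv : (x : M) → TangentSpace I x := fun x => τ • v x
    have hvloc : ∀ z, vloc I vv x₀ z = τ • vloc I v x₀ z := fun z =>
      map_smul (tangentCoordChange I (e.symm z) x₀ (e.symm z)) τ (v (e.symm z))
    intro t ht
    apply HasMFDerivAt.hasMFDerivWithinAt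
    have hball := hp1 (pr t)
    obtain ⟨h1, h2⟩ := hrt _ hball
    refine hasMFDerivAt_symm_comp (I := I) (v := vv) (x₀ := x₀) ?_ h2
    rw [hvloc, ← h1]
    exact hasDerivAt_of_pathEq hp2 ht

set_option backward.isDefEq.respectTransparency false in
theorem flow_contMDiffAt_zero [FiniteDimensional ℝ E] [IsManifold I ∞ M] [IsManifold I 1 M]
    [I.Boundaryless] [T2Space M]
    {v : (x : M) → TangentSpace I x} (hv : SmoothVF I v) {φ : ℝ → M → M}
    (hφ0 : ∀ x, φ 0 x = x) (hφ : ∀ x, IsMIntegralCurve (fun t => φ t x) v) (x₀ : M) :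
    ContMDiffAt (𝓘(ℝ, ℝ).prod I) I ∞ (fun p : ℝ × M => φ p.1 p.2) (0, x₀) := by
  obtain ⟨ψ, hψ, hψ0, hψc⟩ := local_flow hv x₀
  set e := extChartAt I x₀ with he
  set y₀ := e x₀ with hy₀
  have htopen : IsOpen e.target := isOpen_extChartAt_target x₀
  have hy₀t : y₀ ∈ e.target := e.map_source (mem_extChartAt_source x₀)
  -- the flow in the chart
  have hflow : ∀ᶠ p in 𝓝 ((0 : ℝ), y₀), φ p.1 (e.symm p.2) = e.symm (ψ p (pr 1)) := by
    filter_upwards [hψc] with p hp
    obtain ⟨τ, y⟩ := p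
    obtain ⟨-, hinit0, hc1⟩ := hp
    let vv : (x : M) → TangentSpace I x := fun x => τ • v x
    have hvv : ContMDiff I I.tangent 1 (fun x => (⟨x, vv x⟩ : TangentBundle I M)) := by
      have h1 : ContMDiff I I.tangent 1 (fun x => (⟨x, v x⟩ : TangentBundle I M)) :=
        ContMDiff.of_le hv (by simp)
      exact h1.const_smul_section
    -- second curve
    have hc2 : IsMIntegralCurveOn (fun t => φ (τ * t) (e.symm y)) vv (Ioo (-2) 2) := by
      have h1 := (hφ (e.symm y)).comp_mul τ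
      have h2 : ((fun t => φ t (e.symm y)) ∘ (· * τ)) = fun t => φ (τ * t) (e.symm y) := by
        ext1 t
        simp [mul_comm]
      rw [h2] at h1
      exact h1.isMIntegralCurveOn _
    have h00 : (0 : ℝ) ∈ Ioo (-2 : ℝ) 2 := by constructor <;> norm_num
    have hinit : (e.symm ∘ fun t => ψ (τ, y) (pr t)) 0 = (fun t => φ (τ * t) (e.symm y)) 0 := by
      simp only [comp_apply, mul_zero, hφ0, hinit0]
    have heq := isMIntegralCurveOn_Ioo_eqOn_of_contMDiff_boundaryless h00 hvv hc1 hc2 hinit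
    have h1 : (1 : ℝ) ∈ Ioo (-2 : ℝ) 2 := by constructor <;> norm_num
    have := heq h1
    simp only [comp_apply, mul_one] at this
    exact this.symm
  -- conclude
  have hev : (fun p : ℝ × M => φ p.1 p.2) =ᶠ[𝓝 (0, x₀)]
      fun p : ℝ × M => e.symm (ψ (p.1, e p.2) (pr 1)) := by
    have hcont : ContinuousAt (fun p : ℝ × M => (p.1, e p.2)) (0, x₀) :=
      continuousAt_fst.prodMk (ContinuousAt.comp (x := ((0 : ℝ), x₀)) (f := Prod.snd) (g := e)
        (continuousAt_extChartAt (I := I) x₀) continuousAt_snd)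
    have h1 := hcont.eventually hflow
    have h2 : ∀ᶠ p : ℝ × M in 𝓝 (0, x₀), p.2 ∈ e.source :=
      continuousAt_snd.eventually ((isOpen_extChartAt_source x₀).mem_nhds
        (mem_extChartAt_source x₀))
    filter_upwards [h1, h2] with p hp1 hp2
    rw [← hp1, e.left_inv hp2]
  refine ContMDiffAt.congr_of_eventuallyEq ?_ hev
  have hev1 : ContMDiffAt (𝓘(ℝ, ℝ).prod I) 𝓘(ℝ, ℝ × E) ∞ (fun p : ℝ × M => (p.1, e p.2)) (0, x₀) := by
    have h1 : ContMDiffAt (𝓘(ℝ, ℝ).prod I) 𝓘(ℝ, ℝ) ∞ (fun p : ℝ × M => p.1) (0, x₀) :=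
      contMDiffAt_fst
    have h2 : ContMDiffAt (𝓘(ℝ, ℝ).prod I) 𝓘(ℝ, E) ∞ (fun p : ℝ × M => e p.2) (0, x₀) :=
      (contMDiffAt_extChartAt (n := ∞)).comp (0, x₀) contMDiffAt_snd
    exact h1.prodMk_space h2
  have hev2 : ContMDiffAt 𝓘(ℝ, ℝ × E) 𝓘(ℝ, E) ∞ (fun p : ℝ × E => ψ p (pr 1)) (0, y₀) := by
    rw [contMDiffAt_iff_contDiffAt]
    exact (ContinuousMap.evalCLM ℝ (pr 1)).contDiff.contDiffAt.comp _ hψ
  have hev3 : ContMDiffAt 𝓘(ℝ, E) I ∞ e.symm y₀ :=
    (contMDiffOn_extChartAt_symm x₀).contMDiffAt (htopen.mem_nhds hy₀t)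
  have h5 : ψ (0, y₀) (pr 1) = y₀ := by rw [hψ0]; rfl
  have h6 : ContMDiffAt (𝓘(ℝ, ℝ).prod I) 𝓘(ℝ, E) ∞ (fun p : ℝ × M => ψ (p.1, e p.2) (pr 1)) (0, x₀) :=
    ContMDiffAt.comp (x := ((0 : ℝ), x₀)) (g := fun p : ℝ × E => ψ p (pr 1))
      (f := fun p : ℝ × M => (p.1, e p.2)) hev2 hev1
  refine ContMDiffAt.comp (x := ((0 : ℝ), x₀)) (g := e.symm)
    (f := fun p : ℝ × M => ψ (p.1, e p.2) (pr 1)) ?_ h6
  simp only
  rw [h5]
  exact hev3

end Pool.Agent.H67.Liou
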