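import Pool.Agent.H67.Liou.RescaledFlow

/-! Local normal form: near a Lagrangian on which it vanishes, a Liouville form is the canonical
form of the cotangent bundle. -/

open Topology Filter Set Function
open scoped ContDiff Manifold

set_option linter.unusedSectionVars false

namespace Pool.Agent.H67.Liou

universe u

theorem hasDerivAt_of_dvec {E : Type*} [NormedAddCommGroup E] [NormedSpace ℝ E]
    {μ : ℝ × E → ℝ × E →L[ℝ] ℝ} {s : ℝ} {y w : E}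
    (hd : DifferentiableAt ℝ μ (s, y)) (h4 : (fun p => μ p (1, 0)) =ᶠ[𝓝 (s, y)] fun _ => 0) :
    HasDerivAt (fun s => μ (s, y) (0, w)) (dvec μ (s, y) (1, 0) (0, w)) s := by
  have hcurve : HasDerivAt (fun t : ℝ => ((t, y) : ℝ × E)) (1, 0) s :=
    (hasDerivAt_id s).prodMk (hasDerivAt_const s y)
  have h1 : HasDerivAt (fun t => μ (t, y)) (fderiv ℝ μ (s, y) (1, 0)) s :=
    hd.hasFDerivAt.comp_hasDerivAt s hcurve
  have h2 : HasDerivAt (fun t => μ (t, y) (0, w)) (fderiv ℝ μ (s, y) (1, 0) (0, w)) s := by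
    have := h1.clm_apply (hasDerivAt_const s ((0, w) : ℝ × E))
    simpa using this
  refine h2.congr_deriv ?_
  have h3 : HasFDerivAt (fun p => μ p (1, 0)) ((fderiv ℝ μ (s, y)).flip (1, 0)) (s, y) := by
    have := hd.hasFDerivAt.clm_apply (hasFDerivAt_const ((1, 0) : ℝ × E) (s, y))
    simpa using this
  have h6 := ((hasFDerivAt_const (0 : ℝ) (s, y)).congr_of_eventuallyEq h4).unique h3
  have h7 : fderiv ℝ μ (s, y) (0, w) (1, 0) = 0 := by
    have := congrArg (fun L : ℝ × E →L[ℝ] ℝ => L (0, w)) h6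
    simpa using this.symm
  unfold dvec
  rw [h7, sub_zero]

/-- Solutions of `r h' = h` which are differentiable at zero are linear. -/
theorem linear_of_ode {h : ℝ → ℝ} {d ε : ℝ} (h0 : h 0 = 0) (hd : HasDerivAt h d 0)
    (hode : ∀ r, 0 < r → r < ε → ∃ h', HasDerivAt h h' r ∧ r * h' = h r) {r : ℝ} (hr : 0 ≤ r)
    (hrε : r < ε) : h r = r * d := by
  rcases hr.eq_or_lt with rfl | hr
  · rw [h0, zero_mul]
  have h1 : EqOn (deriv (fun s => h s / s)) 0 (Ioo 0 ε) := by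
    intro s hs
    obtain ⟨h', hh', hh⟩ := hode s hs.1 hs.2
    have h2 : HasDerivAt (fun s => h s / s) ((h' * s - h s * 1) / s ^ 2) s :=
      hh'.div (hasDerivAt_id s) hs.1.ne'
    rw [h2.deriv, ← hh]
    simp only [Pi.zero_apply, mul_one]
    rw [mul_comm, sub_self, zero_div]
  have h2 : DifferentiableOn ℝ (fun s => h s / s) (Ioo 0 ε) := by
    intro s hs
    obtain ⟨h', hh', -⟩ := hode s hs.1 hs.2
    exact (hh'.div (hasDerivAt_id s) hs.1.ne').differentiableAt.differentiableWithinAt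
  have h3 : ∀ s ∈ Ioo 0 ε, h s / s = h r / r := fun s hs =>
    isOpen_Ioo.is_const_of_deriv_eq_zero isPreconnected_Ioo h2 h1 hs ⟨hr, hrε⟩
  have h4 : Tendsto (slope h 0) (𝓝[>] 0) (𝓝 d) :=
    (hasDerivAt_iff_tendsto_slope.1 hd).mono_left (nhdsWithin_mono _ (fun x hx => ne_of_gt hx))
  have h5 : slope h 0 =ᶠ[𝓝[>] 0] fun _ => h r / r := by
    have h6 : Ioo 0 ε ∈ 𝓝[>] (0 : ℝ) := Ioo_mem_nhdsGT (hr.trans hrε)
    filter_upwards [h6] with s hs
    rw [slope_def_field, h0, sub_zero, sub_zero, h3 s hs]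
  have h7 : Tendsto (fun _ : ℝ => h r / r) (𝓝[>] 0) (𝓝 d) := h4.congr' h5
  have h8 : h r / r = d := tendsto_nhds_unique tendsto_const_nhds h7
  rw [← h8]
  field_simp

variable {F G : Type u} [NormedAddCommGroup F] [NormedSpace ℝ F] [FiniteDimensional ℝ F]
  [NormedAddCommGroup G] [NormedSpace ℝ G] [FiniteDimensional ℝ G]

/-- The pullback of the form under the blown-down rescaled flow is linear in the time. -/
theorem pull_rescaled {μ : F × G → F × G →L[ℝ] ℝ} {Z : F × G → F × G}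
    {Φ : ℝ × (F × G) → F × G} (hΦ : ContDiff ℝ ∞ Φ) (hΦ0 : ∀ y, Φ (0, y) = (y.1, 0)) {ε : ℝ}
    (hε : 0 < ε) {y : F × G}
    (hP : ∀ᶠ y' in 𝓝 y, ∀ r, |r| < ε → (ContDiffAt ℝ ∞ μ (Φ (r, y')) ∧
      dvecL μ (Φ (r, y')) (Z (Φ (r, y'))) = μ (Φ (r, y'))) ∧
      r • fderiv ℝ Φ (r, y') (1, 0) = Z (Φ (r, y')))
    (hy2 : (fderiv ℝ Φ (0, y) (1, 0)).2 = y.2)
    (hμ0 : ∀ᶠ q in 𝓝 y.1, μ (q, 0) = 0) {r : ℝ} (hr : 0 ≤ r) (hrε : r < ε) (w : F × G) :
    pbv Φ μ (r, y) (0, w) = r * fderiv ℝ μ (y.1, 0) (0, y.2) (w.1, 0) := by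
  have hy := hP.self_of_nhds
  have h00 : |(0 : ℝ)| < ε := by simpa using hε
  have hτd : ∀ s, |s| < ε → ContDiffAt ℝ ∞ (pbv Φ μ) (s, y) := fun s hs =>
    contDiffAt_pbv hΦ.contDiffAt (hy s hs).1.1
  have hμy : DifferentiableAt ℝ μ (y.1, 0) := by
    have h1 := (hy 0 h00).1.1
    rw [hΦ0] at h1
    exact h1.differentiableAt (by simp)
  have hμy0 : μ (y.1, 0) = 0 := hμ0.self_of_nhds
  -- the derivative in the fibre direction at time zero
  have hDΦ0 : fderiv ℝ Φ (0, y) (0, w) = (w.1, 0) := by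
    have h1 : HasFDerivAt (fun y' : F × G => ((0, y') : ℝ × (F × G)))
        (ContinuousLinearMap.inr ℝ ℝ (F × G)) y :=
      (hasFDerivAt_const (0 : ℝ) y).prodMk (hasFDerivAt_id y)
    have h2 : HasFDerivAt (fun y' : F × G => Φ (0, y'))
        ((fderiv ℝ Φ (0, y)).comp (ContinuousLinearMap.inr ℝ ℝ (F × G))) y :=
      HasFDerivAt.comp (x := y) (g := Φ) (f := fun y' : F × G => ((0, y') : ℝ × (F × G)))
        (hΦ.differentiable (by simp) (0, y)).hasFDerivAt h1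
    have h3 : HasFDerivAt (fun y' : F × G => Φ (0, y'))
        ((ContinuousLinearMap.fst ℝ F G).prod (0 : F × G →L[ℝ] G)) y := by
      have h4 : (fun y' : F × G => Φ (0, y')) = fun y' => (y'.1, (0 : G)) := funext hΦ0
      rw [h4]
      exact (hasFDerivAt_fst).prodMk (hasFDerivAt_const (0 : G) y)
    have h5 := congrArg (fun T : F × G →L[ℝ] F × G => T w) (h2.unique h3)
    simpa using h5
  refine linear_of_ode (h := fun r => pbv Φ μ (r, y) (0, w)) (ε := ε) ?_ ?_ ?_ hr hrε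
  · unfold pbv
    rw [hΦ0, hμy0]
    simp
  · -- derivative at zero
    have hcurve : HasDerivAt (fun t : ℝ => ((t, y) : ℝ × (F × G))) (1, 0) 0 :=
      (hasDerivAt_id 0).prodMk (hasDerivAt_const 0 y)
    have h1 : HasDerivAt (fun t : ℝ => Φ (t, y)) (fderiv ℝ Φ (0, y) (1, 0)) 0 :=
      hasDerivAt_fst_curve hΦ 0 y
    have h2 : HasFDerivAt μ (fderiv ℝ μ (y.1, 0)) (Φ (0, y)) := by
      rw [hΦ0]
      exact hμy.hasFDerivAt
    have h3 : HasDerivAt (fun t : ℝ => μ (Φ (t, y)))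
        (fderiv ℝ μ (y.1, 0) (fderiv ℝ Φ (0, y) (1, 0))) 0 := h2.comp_hasDerivAt (0 : ℝ) h1
    have h4 : DifferentiableAt ℝ (fderiv ℝ Φ) (0, y) :=
      (hΦ.fderiv_right (m := ∞) (by simp)).differentiable (by simp) _
    have h5 : HasDerivAt (fun t : ℝ => fderiv ℝ Φ (t, y)) (fderiv ℝ (fderiv ℝ Φ) (0, y) (1, 0)) 0 :=
      h4.hasFDerivAt.comp_hasDerivAt (0 : ℝ) hcurve
    have h6 : HasDerivAt (fun t : ℝ => fderiv ℝ Φ (t, y) (0, w))
        (fderiv ℝ (fderiv ℝ Φ) (0, y) (1, 0) (0, w)) 0 := by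
      have := h5.clm_apply (hasDerivAt_const (0 : ℝ) ((0, w) : ℝ × (F × G)))
      simpa using this
    have h7 := h3.clm_apply h6
    refine h7.congr_deriv ?_
    rw [hΦ0, hμy0, hDΦ0]
    simp only [ContinuousLinearMap.zero_apply, add_zero]
    have h8 : fderiv ℝ Φ (0, y) (1, 0) = ((fderiv ℝ Φ (0, y) (1, 0)).1, 0) + (0, y.2) := by
      refine Prod.ext ?_ ?_
      · simp
      · simp [hy2]
    rw [h8, map_add, fderiv_form_horizontal hμy hμ0, zero_add]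
  · intro s hs hsε
    have hsa : |s| < ε := by rwa [abs_of_pos hs]
    refine ⟨_, hasDerivAt_of_dvec ((hτd s hsa).differentiableAt (by simp)) ?_, ?_⟩
    · have h1 : ∀ᶠ p : ℝ × (F × G) in 𝓝 (s, y), 0 < p.1 ∧ p.1 < ε :=
        continuousAt_fst.eventually (Ioo_mem_nhds hs hsε)
      have h2 : ∀ᶠ p : ℝ × (F × G) in 𝓝 (s, y), ∀ r, |r| < ε → (ContDiffAt ℝ ∞ μ (Φ (r, p.2)) ∧
          dvecL μ (Φ (r, p.2)) (Z (Φ (r, p.2))) = μ (Φ (r, p.2))) ∧
          r • fderiv ℝ Φ (r, p.2) (1, 0) = Z (Φ (r, p.2)) := by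
        have hc : ContinuousAt (Prod.snd : ℝ × (F × G) → F × G) (s, y) := continuousAt_snd
        exact hc.eventually hP
      filter_upwards [h1, h2] with p hp1 hp2
      obtain ⟨t, y'⟩ := p
      obtain ⟨⟨-, h3⟩, h4⟩ := hp2 t (by rw [abs_of_pos hp1.1]; exact hp1.2)
      have h5 : t * μ (Φ (t, y')) (fderiv ℝ Φ (t, y') (1, 0)) = 0 := by
        rw [← smul_eq_mul, ← map_smul, h4, ← h3, dvecL_apply]
        unfold dvec
        exact sub_self _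
      exact (mul_eq_zero.1 h5).resolve_left hp1.1.ne'
    · obtain ⟨⟨h2, h3⟩, h4⟩ := hy s hsa
      rw [dvec_pbv (hΦ.contDiffAt.of_le two_le_infty) (h2.differentiableAt (by simp)),
        ← dvecL_apply, ← smul_eq_mul, ← smul_apply, ← map_smul, h4, h3]
      rfl

/-- The fibre derivative of a one-form along `F × 0`. -/
noncomputable def fibDer (μ : F × G → F × G →L[ℝ] ℝ) (q : F) : G →L[ℝ] (F →L[ℝ] ℝ) :=
  ((ContinuousLinearMap.compL ℝ F (F × G) ℝ).flip (ContinuousLinearMap.inl ℝ F G)).comp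
    ((fderiv ℝ μ (q, 0)).comp (ContinuousLinearMap.inr ℝ F G))

theorem fibDer_apply (μ : F × G → F × G →L[ℝ] ℝ) (q : F) (P : G) (a : F) :
    fibDer μ q P a = fderiv ℝ μ (q, 0) (0, P) (a, 0) := rfl

theorem contDiffAt_fibDer {μ : F × G → F × G →L[ℝ] ℝ} {q : F} (h : ContDiffAt ℝ ∞ μ (q, 0)) :
    ContDiffAt ℝ ∞ (fibDer μ) q := by
  have h1 : ContDiffAt ℝ ∞ (fun q : F => ((q, 0) : F × G)) q :=
    contDiffAt_id.prodMk contDiffAt_const
  have h2 : ContDiffAt ℝ ∞ (fun q : F => fderiv ℝ μ (q, 0)) q :=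
    ContDiffAt.comp (x := q) (g := fderiv ℝ μ) (f := fun q : F => ((q, 0) : F × G))
      (h.fderiv_right (m := ∞) (by simp)) h1
  have h3 : ContDiffAt ℝ ∞ (fun q : F => (fderiv ℝ μ (q, 0)).comp
      (ContinuousLinearMap.inr ℝ F G)) q := h2.clm_comp contDiffAt_const
  have h4 : ContDiffAt ℝ ∞ (fun q : F =>
      ((ContinuousLinearMap.compL ℝ F (F × G) ℝ).flip (ContinuousLinearMap.inl ℝ F G)).comp
        ((fderiv ℝ μ (q, 0)).comp (ContinuousLinearMap.inr ℝ F G))) q :=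
    contDiffAt_const.clm_comp h3
  exact h4

theorem isInvertible_fibDer (hdim : Module.finrank ℝ F = Module.finrank ℝ G)
    {μ : F × G → F × G →L[ℝ] ℝ} {q : F} (hμ : DifferentiableAt ℝ μ (q, 0))
    (hμ0 : ∀ᶠ q' in 𝓝 q, μ (q', 0) = 0) (hn : ∀ u, (∀ v, dvec μ (q, 0) u v = 0) → u = 0) :
    (fibDer μ q).IsInvertible := by
  have hh := fderiv_form_horizontal hμ hμ0
  have hinj : Injective (fibDer μ q) := by
    rw [injective_iff_map_eq_zero]
    intro P hP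
    exact snd_eq_zero_of_isotropic hdim (dvecL μ (q, 0)) (dvecL_anti μ (q, 0)) hn
      (fun a b => by
        rw [dvecL_apply]
        unfold dvec
        rw [hh a, hh b]
        simp) (z := ((0, P) : F × G)) (fun a => by
        rw [dvecL_apply]
        unfold dvec
        rw [hh a, ← fibDer_apply, hP]
        simp)
  have hdim' : Module.finrank ℝ G = Module.finrank ℝ (F →L[ℝ] ℝ) := by
    rw [finrank_dual', hdim]
  let e : G ≃ₗ[ℝ] (F →L[ℝ] ℝ) := LinearEquiv.ofInjectiveOfFinrankEq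
    (fibDer μ q : G →ₗ[ℝ] F →L[ℝ] ℝ) hinj hdim'
  refine ⟨e.toContinuousLinearEquiv, ?_⟩
  ext u v
  rfl

/-- Local normal form. -/
theorem local_normal_form (hdim : Module.finrank ℝ F = Module.finrank ℝ G)
    {μ : F × G → F × G →L[ℝ] ℝ} {q₀ : F}
    (H1 : ∀ᶠ y in 𝓝 ((q₀, 0) : F × G), ContDiffAt ℝ ∞ μ y)
    (H2 : ∀ᶠ q in 𝓝 q₀, μ (q, 0) = 0)
    (H3 : ∀ᶠ y in 𝓝 ((q₀, 0) : F × G), ∀ u, (∀ v, dvec μ y u v = 0) → u = 0) :
    ∃ Ψ : F × (F →L[ℝ] ℝ) → F × G,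
      (∀ᶠ p in 𝓝 ((q₀, 0) : F × (F →L[ℝ] ℝ)), ContDiffAt ℝ ∞ Ψ p) ∧
      (∀ᶠ p in 𝓝 ((q₀, 0) : F × (F →L[ℝ] ℝ)), pbv Ψ μ p = lamStd F p) ∧
      (∀ᶠ q in 𝓝 q₀, Ψ (q, 0) = (q, 0)) := by
  have hcomplete : CompleteSpace (F × G) := FiniteDimensional.complete ℝ (F × G)
  have hcG : CompleteSpace G := FiniteDimensional.complete ℝ G
  -- the dual vector field
  obtain ⟨O₀, hO₀, hO₀o, hO₀m⟩ := eventually_nhds_iff.1 (H1.and H3)
  have hinv : ∀ y ∈ O₀, (dvecL μ y).IsInvertible := fun y hy =>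
    isInvertible_of_nondeg _ (hO₀ y hy).2
  have hZl : ContDiffOn ℝ ∞ (fun y => (dvecL μ y).inverse (μ y)) O₀ := by
    intro y hy
    apply ContDiffAt.contDiffWithinAt
    have h1 : ContDiffAt ℝ ∞ (fun y => (dvecL μ y).inverse) y :=
      ContDiffAt.comp y (hinv y hy).contDiffAt_map_inverse (contDiffAt_dvecL (hO₀ y hy).1)
    exact h1.clm_apply (hO₀ y hy).1
  obtain ⟨Z, hZ, -, hZe⟩ := exists_contDiff_ext hO₀o hZl hO₀m
  have hgood : ∀ᶠ y in 𝓝 ((q₀, 0) : F × G), ContDiffAt ℝ ∞ μ y ∧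
      (∀ u, (∀ v, dvec μ y u v = 0) → u = 0) ∧ dvecL μ y (Z y) = μ y := by
    filter_upwards [hZe, hO₀o.mem_nhds hO₀m] with y hy hyO
    refine ⟨(hO₀ y hyO).1, (hO₀ y hyO).2, ?_⟩
    rw [hy]
    exact (hinv y hyO).self_apply_inverse _
  have hin : Tendsto (fun q : F => ((q, 0) : F × G)) (𝓝 q₀) (𝓝 (q₀, 0)) := by
    have : ContinuousAt (fun q : F => ((q, 0) : F × G)) q₀ := by fun_prop
    exact this
  have hq : ∀ᶠ q in 𝓝 q₀, (ContDiffAt ℝ ∞ μ (q, 0) ∧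
      (∀ u, (∀ v, dvec μ (q, 0) u v = 0) → u = 0)) ∧
      (∀ᶠ y in 𝓝 ((q, 0) : F × G), dvecL μ y (Z y) = μ y) ∧ ∀ᶠ q' in 𝓝 q, μ (q', 0) = 0 := by
    filter_upwards [hin.eventually hgood.eventually_nhds, H2.eventually_nhds] with q h1 h2
    exact ⟨⟨h1.self_of_nhds.1, h1.self_of_nhds.2.1⟩, h1.mono fun y hy => hy.2.2, h2⟩
  have hZ0 : ∀ᶠ q in 𝓝 q₀, Z (q, 0) = 0 := by
    filter_upwards [hq] with q hq
    obtain ⟨⟨-, hn⟩, hd, h0⟩ := hq
    apply hn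
    intro v
    rw [← dvecL_apply, hd.self_of_nhds, h0.self_of_nhds]
    rfl
  have hZ1 : ∀ᶠ q in 𝓝 q₀, ∀ p, (fderiv ℝ Z (q, 0) (0, p)).2 = p := by
    filter_upwards [hq, hZ0] with q hq hq0 p
    obtain ⟨⟨hs, hn⟩, hd, h0⟩ := hq
    exact linearization hdim hs h0 hn (hZ.differentiable (by simp) _) hq0 hd p
  obtain ⟨W, hW, hW0, hZW⟩ := rescale hZ hZ0 hZ1
  obtain ⟨Φ, hΦ, hΦ0, ε, hε, hΦε⟩ := exists_rescaled_flow hW hW0 hZW
    (O := {y | ContDiffAt ℝ ∞ μ y ∧ dvecL μ y (Z y) = μ y})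
    (hgood.mono fun y hy => ⟨hy.1, hy.2.2⟩)
  set ρ : ℝ := ε / 2 with hρ
  have hρ0 : 0 < ρ := by positivity
  have hρε : ρ < ε := by rw [hρ]; linarith
  -- the reparametrisation
  set n : F × (F →L[ℝ] ℝ) → F × G := fun p => (p.1, ρ⁻¹ • (fibDer μ p.1).inverse p.2) with hn
  have hinvM : ∀ᶠ q in 𝓝 q₀, (fibDer μ q).IsInvertible ∧ ContDiffAt ℝ ∞ (fibDer μ) q := by
    filter_upwards [hq] with q hq
    obtain ⟨⟨hs, hn⟩, hd, h0⟩ := hq
    exact ⟨isInvertible_fibDer hdim (hs.differentiableAt (by simp)) h0 hn, contDiffAt_fibDer hs⟩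
  have hfst : Tendsto (fun p : F × (F →L[ℝ] ℝ) => p.1) (𝓝 (q₀, 0)) (𝓝 q₀) := by
    have : ContinuousAt (fun p : F × (F →L[ℝ] ℝ) => p.1) (q₀, 0) := by fun_prop
    exact this
  have hns : ∀ᶠ p in 𝓝 ((q₀, 0) : F × (F →L[ℝ] ℝ)), ContDiffAt ℝ ∞ n p := by
    filter_upwards [hfst.eventually hinvM] with p hp
    have h1 : ContDiffAt ℝ ∞ (fun p : F × (F →L[ℝ] ℝ) => fibDer μ p.1) p :=
      ContDiffAt.comp (x := p) (g := fibDer μ) (f := fun p : F × (F →L[ℝ] ℝ) => p.1)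
        hp.2 contDiffAt_fst
    have h2 : ContDiffAt ℝ ∞ (fun p : F × (F →L[ℝ] ℝ) => (fibDer μ p.1).inverse) p :=
      ContDiffAt.comp (x := p) (g := ContinuousLinearMap.inverse)
        (f := fun p : F × (F →L[ℝ] ℝ) => fibDer μ p.1) hp.1.contDiffAt_map_inverse h1
    exact contDiffAt_fst.prodMk (contDiffAt_const.smul (h2.clm_apply contDiffAt_snd))
  have hn0 : ∀ q, n (q, 0) = (q, 0) := by
    intro q
    simp [hn]
  have hnc : Tendsto n (𝓝 (q₀, 0)) (𝓝 (q₀, 0)) := by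
    have h1 : ContinuousAt n (q₀, 0) := hns.self_of_nhds.continuousAt
    rw [ContinuousAt, hn0] at h1
    exact h1
  refine ⟨fun p => Φ (ρ, n p), ?_, ?_, ?_⟩
  · filter_upwards [hns] with p hp
    exact ContDiffAt.comp (x := p) (g := Φ) (f := fun p => (ρ, n p)) hΦ.contDiffAt
      (contDiffAt_const.prodMk hp)
  · have hfst2 : Tendsto (fun y : F × G => y.1) (𝓝 (q₀, 0)) (𝓝 q₀) := by
      have : ContinuousAt (fun y : F × G => y.1) (q₀, 0) := by fun_prop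
      exact this
    have h1 : ∀ᶠ y in 𝓝 ((q₀, 0) : F × G), (∀ᶠ y' in 𝓝 y, ∀ r, |r| < ε →
        (ContDiffAt ℝ ∞ μ (Φ (r, y')) ∧ dvecL μ (Φ (r, y')) (Z (Φ (r, y'))) = μ (Φ (r, y'))) ∧
        r • fderiv ℝ Φ (r, y') (1, 0) = Z (Φ (r, y'))) ∧
        (fderiv ℝ Φ (0, y) (1, 0)).2 = y.2 ∧ ∀ᶠ q in 𝓝 y.1, μ (q, 0) = 0 := by
      have h2 : ∀ᶠ y in 𝓝 ((q₀, 0) : F × G), ∀ r, |r| < ε →
        (ContDiffAt ℝ ∞ μ (Φ (r, y)) ∧ dvecL μ (Φ (r, y)) (Z (Φ (r, y))) = μ (Φ (r, y))) ∧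
        r • fderiv ℝ Φ (r, y) (1, 0) = Z (Φ (r, y)) := hΦε.mono fun y hy => hy.2.1
      filter_upwards [h2.eventually_nhds, hΦε, hfst2.eventually hq] with y h3 h4 h5
      exact ⟨h3, h4.1, h5.2.2⟩
    filter_upwards [hnc.eventually h1, hns, hfst.eventually hinvM] with p hp hps hpM
    obtain ⟨h2, h3, h4⟩ := hp
    refine ContinuousLinearMap.ext fun v => ?_
    have h5 : HasFDerivAt (fun p => (ρ, n p)) ((0 : F × (F →L[ℝ] ℝ) →L[ℝ] ℝ).prod
        (fderiv ℝ n p)) p :=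
      (hasFDerivAt_const ρ p).prodMk (hps.differentiableAt (by simp)).hasFDerivAt
    have h6 : fderiv ℝ (fun p => Φ (ρ, n p)) p v = fderiv ℝ Φ (ρ, n p) (0, fderiv ℝ n p v) := by
      have h7 : HasFDerivAt (fun p => Φ (ρ, n p)) ((fderiv ℝ Φ (ρ, n p)).comp
          ((0 : F × (F →L[ℝ] ℝ) →L[ℝ] ℝ).prod (fderiv ℝ n p))) p :=
        HasFDerivAt.comp (x := p) (g := Φ) (f := fun p => (ρ, n p))
          (hΦ.differentiable (by simp) _).hasFDerivAt h5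
      rw [h7.fderiv]
      rfl
    have h8 : pbv (fun p => Φ (ρ, n p)) μ p v = pbv Φ μ (ρ, n p) (0, fderiv ℝ n p v) := by
      unfold pbv
      rw [ContinuousLinearMap.comp_apply, h6]
      rfl
    have h9 := pull_rescaled hΦ hΦ0 hε h2 h3 h4 hρ0.le hρε (fderiv ℝ n p v)
    have h10 : (fderiv ℝ n p v).1 = v.1 := by
      have h11 : HasFDerivAt (fun p => (n p).1)
          ((ContinuousLinearMap.fst ℝ F G).comp (fderiv ℝ n p)) p :=
        (ContinuousLinearMap.fst ℝ F G).hasFDerivAt.comp p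
          (hps.differentiableAt (by simp)).hasFDerivAt
      have h12 : HasFDerivAt (fun p => (n p).1) (ContinuousLinearMap.fst ℝ F (F →L[ℝ] ℝ)) p :=
        hasFDerivAt_fst
      have h13 := congrArg (fun T : F × (F →L[ℝ] ℝ) →L[ℝ] F => T v) (h11.unique h12)
      exact h13
    have h14 : (n p).1 = p.1 := rfl
    have h15 : (n p).2 = ρ⁻¹ • (fibDer μ p.1).inverse p.2 := rfl
    rw [h8, h9, h10, h14, ← fibDer_apply, h15, map_smul, hpM.1.self_apply_inverse,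
      smul_apply, smul_eq_mul, ← mul_assoc, mul_inv_cancel₀ hρ0.ne', one_mul]
    rfl
  · have h1 : ∀ᶠ q in 𝓝 q₀, Φ (ρ, (q, 0)) = (q, 0) := by
      filter_upwards [hin.eventually hΦε] with q hq
      exact hq.2.2 ρ (by rw [abs_of_pos hρ0]; exact hρε) rfl
    filter_upwards [h1] with q hq
    rw [hn0, hq]

end Pool.Agent.H67.Liou
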