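import Pool.Agent.H67.Liou.Absorption

/-! The back-and-forth argument producing an exact symplectomorphism. -/

open Topology Filter Set Function
open scoped ContDiff Manifold

set_option linter.unusedSectionVars false

namespace Pool.Agent.H67.Liou

universe u u'

variable {E : Type u} [NormedAddCommGroup E] [NormedSpace ℝ E]
  {H : Type*} [TopologicalSpace H] {I : ModelWithCorners ℝ E H}
  {M : Type*} [TopologicalSpace M] [ChartedSpace H M]
  {E' : Type u'} [NormedAddCommGroup E'] [NormedSpace ℝ E']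
  {H' : Type*} [TopologicalSpace H'] {J : ModelWithCorners ℝ E' H'}
  {N : Type*} [TopologicalSpace N] [ChartedSpace H' N]
  [FiniteDimensional ℝ E] [IsManifold I ∞ M] [IsManifold I 1 M] [I.Boundaryless] [T2Space M]
  [FiniteDimensional ℝ E'] [IsManifold J ∞ N] [IsManifold J 1 N] [J.Boundaryless] [T2Space N]

/-- Equality of maps and primitives near a set. -/
def GermEq (C : Set N) (g g' : N → M) (k k' : N → ℝ) : Prop :=
  ∃ W, IsOpen W ∧ C ⊆ W ∧ ∀ x ∈ W, g x = g' x ∧ k x = k' x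

omit [TopologicalSpace M] [ChartedSpace H' N] [T2Space N] in
theorem GermEq.refl' (C : Set N) (g : N → M) (k : N → ℝ) : GermEq C g g k k :=
  ⟨univ, isOpen_univ, subset_univ _, fun _ _ => ⟨rfl, rfl⟩⟩

theorem absorb_step {S₀ : LStr J N} {S₁ : LStr I M} {C₀ : Set N} {C₁ : Set M}
    (hA₀ : Absorbs S₀ C₀) {i : N → M} {kI : N → ℝ} {j : M → N} {kJ : M → ℝ}
    (hj : ExEmb S₁ S₀ j kJ) (hjC : ∀ y ∈ C₁, j y ∈ C₀)
    (hid : ∃ W, IsOpen W ∧ C₀ ⊆ W ∧ ∀ x ∈ W, j (i x) = x ∧ kI x + kJ (i x) = 0)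
    {a : N → M} {ka : N → ℝ} (ha : ExEmb S₀ S₁ a ka) (hag : GermEq C₀ a i ka kI)
    {B : Set N} (hB : IsCompact B) :
    ∃ (b : M → N) (kb : M → ℝ), ExEmb S₁ S₀ b kb ∧ GermEq C₁ b j kb kJ ∧ ∀ x ∈ B, b (a x) = x := by
  obtain ⟨W, hW, hCW, hWi⟩ := hid
  obtain ⟨W', hW', hCW', hWa⟩ := hag
  obtain ⟨f, l, hf, -, ⟨V, hV, hCV, hVf⟩, hfB⟩ := absorption hA₀ (hj.comp ha)
    ⟨W ∩ W', hW.inter hW', subset_inter hCW hCW', fun x hx => by
      obtain ⟨h1, h2⟩ := hWa x hx.2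
      obtain ⟨h3, h4⟩ := hWi x hx.1
      constructor
      · change j (a x) = x
        rw [h1, h3]
      · rw [h1, h2, h4]⟩ hB
  refine ⟨f ∘ j, _, hf.comp hj, ⟨j ⁻¹' V, hV.preimage hj.smooth.continuous,
    fun y hy => hCV (hjC y hy), ?_⟩, hfB⟩
  intro y hy
  obtain ⟨h1, h2⟩ := hVf (j y) hy
  constructor
  · exact h1
  · simp only [h2, add_zero]

/-- A function with vanishing differential is constant along orbits. -/
theorem const_along_orbit (S : LStr J N) {u : N → ℝ} (hu : ContMDiff J 𝓘(ℝ, ℝ) ∞ u) {O : Set N}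
    (hd : ∀ y ∈ O, dfn J u y = 0) {x : N} {T : ℝ} (hT : 0 ≤ T)
    (horb : ∀ t, 0 ≤ t → t ≤ T → S.φ (-t) x ∈ O) : u (S.φ (-T) x) = u x := by
  have hc : Continuous (fun t => u (S.φ (-t) x)) :=
    hu.continuous.comp ((S.continuous_orbit x).comp continuous_neg)
  have h1 : ∀ t ∈ Ico 0 T, HasDerivWithinAt (fun t => u (S.φ (-t) x)) 0 (Ici t) t := by
    intro t ht
    have h2 : HasMFDerivAt 𝓘(ℝ, ℝ) J (fun t => S.φ t x) (-t) _ := S.flow.curve x (-t)
    have h3 := ((hu (S.φ (-t) x)).mdifferentiableAt infty_ne_zero).hasMFDerivAt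
    have h4 := h3.comp (-t) h2
    have h5 : (mfderiv J 𝓘(ℝ, ℝ) u (S.φ (-t) x) : E' →L[ℝ] ℝ) = 0 :=
      hd _ (horb t ht.1 ht.2.le)
    have h6 : HasFDerivAt (u ∘ fun t => S.φ t x) (0 : ℝ →L[ℝ] ℝ) (-t) := by
      refine HasMFDerivAt.hasFDerivAt ?_
      refine h4.congr_mfderiv ?_
      refine ContinuousLinearMap.ext fun r => ?_
      exact congrArg (fun L : E' →L[ℝ] ℝ => L _) h5
    have h7 : HasDerivAt (u ∘ fun t => S.φ t x) 0 (-t) := by
      have := h6.hasDerivAt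
      simpa using this
    have h8 := h7.scomp t (hasDerivAt_neg t)
    have h9 : HasDerivAt (fun t => u (S.φ (-t) x)) 0 t := by
      refine h8.congr_deriv ?_
      simp
    exact h9.hasDerivWithinAt
  have h2 := constant_of_has_deriv_right_zero hc.continuousOn h1 T ⟨hT, le_rfl⟩
  simp only [neg_zero] at h2
  rw [h2, S.zero]

/-- A stage of the back-and-forth construction. -/
structure Stage (N M : Type*) where
  a : N → M
  ka : N → ℝ
  b : M → N
  kb : M → ℝ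
  B : Set N
  A : Set M

/-- The invariants of a stage. -/
structure Stage.Good (S₀ : LStr J N) (S₁ : LStr I M) (C₀ : Set N) (C₁ : Set M) (i : N → M)
    (kI : N → ℝ) (j : M → N) (kJ : M → ℝ) (s : Stage N M) : Prop where
  ha : ExEmb S₀ S₁ s.a s.ka
  hag : GermEq C₀ s.a i s.ka kI
  hb : ExEmb S₁ S₀ s.b s.kb
  hbg : GermEq C₁ s.b j s.kb kJ
  hB : IsCompact s.B
  hA : IsCompact s.A
  hba : ∀ x ∈ s.B, s.b (s.a x) = x
  haB : ∀ x ∈ s.B, s.a x ∈ s.A
  hback : ∀ x ∈ s.B, ∀ t, 0 ≤ t → S₀.φ (-t) x ∈ s.B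

/-- The back-and-forth argument. -/
theorem swindle {S₀ : LStr J N} {S₁ : LStr I M} {C₀ : Set N} {C₁ : Set M}
    (hA₀ : Absorbs S₀ C₀) (hA₁ : Absorbs S₁ C₁) {i : N → M} {kI : N → ℝ} {j : M → N}
    {kJ : M → ℝ} (hi : ExEmb S₀ S₁ i kI) (hj : ExEmb S₁ S₀ j kJ) (hiC : ∀ x ∈ C₀, i x ∈ C₁)
    (hjC : ∀ y ∈ C₁, j y ∈ C₀)
    (hid : ∃ W, IsOpen W ∧ C₀ ⊆ W ∧ ∀ x ∈ W, j (i x) = x ∧ kI x + kJ (i x) = 0)
    (hid' : ∃ W, IsOpen W ∧ C₁ ⊆ W ∧ ∀ x ∈ W, i (j x) = x ∧ kJ x + kI (j x) = 0) :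
    ∃ (f : N → M) (l : N → ℝ), ExEmb S₀ S₁ f l ∧ Surjective f := by
  have hsc₀ := hA₀.sigmaCompact
  have hsc₁ := hA₁.sigmaCompact
  have hlc₀ : LocallyCompactSpace N := Manifold.locallyCompact_of_finiteDimensional J
  have hlc₁ : LocallyCompactSpace M := Manifold.locallyCompact_of_finiteDimensional I
  let K₀ : CompactExhaustion N := CompactExhaustion.choice N
  let K₁ : CompactExhaustion M := CompactExhaustion.choice M
  -- the initial stage
  obtain ⟨s₀, hs₀⟩ : ∃ s : Stage N M, s.Good S₀ S₁ C₀ C₁ i kI j kJ := by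
    obtain ⟨B, hB, -, -, hback⟩ := hA₀.hull (isCompact_empty (X := N))
    obtain ⟨b, kb, hb, hbg, hba⟩ := absorb_step hA₀ hj hjC hid hi (GermEq.refl' _ _ _) hB
    exact ⟨⟨i, kI, b, kb, B, i '' B⟩, ⟨hi, GermEq.refl' _ _ _, hb, hbg, hB,
      hB.image hi.smooth.continuous, hba, fun x hx => mem_image_of_mem _ hx, hback⟩⟩
  -- the inductive step
  have hstep : ∀ (n : ℕ) (s : {s : Stage N M // s.Good S₀ S₁ C₀ C₁ i kI j kJ}),
      ∃ s' : {s : Stage N M // s.Good S₀ S₁ C₀ C₁ i kI j kJ},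
        (∀ y ∈ s.1.A, s'.1.a (s.1.b y) = y) ∧ s.1.B ⊆ s'.1.B ∧ (∀ y ∈ s.1.A, s.1.b y ∈ s'.1.B) ∧
        K₀ n ⊆ s'.1.B ∧ s.1.A ⊆ s'.1.A ∧ K₁ n ⊆ s'.1.A := by
    rintro n ⟨s, hs⟩
    obtain ⟨a', ka', ha', hag', hab'⟩ := absorb_step hA₁ hi hiC hid' hs.hb hs.hbg hs.hA
    obtain ⟨B', hB', hBB', -, hback'⟩ := hA₀.hull
      ((hs.hB.union (hs.hA.image hs.hb.smooth.continuous)).union (K₀.isCompact n))
    obtain ⟨b', kb', hb', hbg', hba'⟩ := absorb_step hA₀ hj hjC hid ha' hag' hB'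
    refine ⟨⟨⟨a', ka', b', kb', B', (s.A ∪ a' '' B') ∪ K₁ n⟩, ⟨ha', hag', hb', hbg', hB',
      (hs.hA.union (hB'.image ha'.smooth.continuous)).union (K₁.isCompact n), hba',
      fun x hx => Or.inl (Or.inr (mem_image_of_mem _ hx)), hback'⟩⟩, hab', ?_, ?_, ?_, ?_, ?_⟩
    · exact fun x hx => hBB' (Or.inl (Or.inl hx))
    · exact fun y hy => hBB' (Or.inl (Or.inr (mem_image_of_mem _ hy)))
    · exact fun x hx => hBB' (Or.inr hx)
    · exact fun x hx => Or.inl (Or.inl hx)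
    · exact fun x hx => Or.inr hx
  choose next hnext using hstep
  let st : ℕ → {s : Stage N M // s.Good S₀ S₁ C₀ C₁ i kI j kJ} := fun n =>
    Nat.rec ⟨s₀, hs₀⟩ (fun n s => next n s) n
  have hst : ∀ n, st (n + 1) = next n (st n) := fun n => rfl
  have hP : ∀ n, (∀ y ∈ (st n).1.A, (st (n + 1)).1.a ((st n).1.b y) = y) ∧
      (st n).1.B ⊆ (st (n + 1)).1.B ∧ (∀ y ∈ (st n).1.A, (st n).1.b y ∈ (st (n + 1)).1.B) ∧
      K₀ n ⊆ (st (n + 1)).1.B ∧ (st n).1.A ⊆ (st (n + 1)).1.A ∧ K₁ n ⊆ (st (n + 1)).1.A :=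
    fun n => hnext n (st n)
  have hBmono : Monotone (fun n => (st n).1.B) := monotone_nat_of_le_succ fun n => (hP n).2.1
  have hAmono : Monotone (fun n => (st n).1.A) := monotone_nat_of_le_succ fun n => (hP n).2.2.2.2.1
  -- stabilisation of `a`
  have ha1 : ∀ n, ∀ x ∈ (st n).1.B, (st (n + 1)).1.a x = (st n).1.a x := by
    intro n x hx
    have h1 := (hP n).1 _ ((st n).2.haB x hx)
    rwa [(st n).2.hba x hx] at h1
  have ha2 : ∀ n m, n ≤ m → ∀ x ∈ (st n).1.B, (st m).1.a x = (st n).1.a x := by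
    intro n m hnm
    induction m, hnm using Nat.le_induction with
    | base => exact fun x _ => rfl
    | succ m hm ih =>
      intro x hx
      rw [ha1 m x (hBmono hm hx), ih x hx]
  -- stabilisation of the primitives
  have hk1 : ∀ n, ∀ x ∈ interior (st n).1.B, (st (n + 1)).1.ka x = (st n).1.ka x := by
    intro n x hx
    have hu : ContMDiff J 𝓘(ℝ, ℝ) ∞ (fun x => (st (n + 1)).1.ka x - (st n).1.ka x) :=
      (st (n + 1)).2.ha.smoothK.sub (st n).2.ha.smoothK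
    have hd : ∀ y ∈ interior (st n).1.B,
        dfn J (fun x => (st (n + 1)).1.ka x - (st n).1.ka x) y = 0 := by
      intro y hy
      ext v
      rw [dfn_sub_apply ((st (n + 1)).2.ha.smoothK y) ((st n).2.ha.smoothK y)]
      have h1 := (st (n + 1)).2.ha.pull y v
      have h2 := (st n).2.ha.pull y v
      have h3 : (st (n + 1)).1.a =ᶠ[𝓝 y] (st n).1.a := by
        filter_upwards [isOpen_interior.mem_nhds hy] with z hz
        exact ha1 n z (interior_subset hz)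
      have h4 : S₁.lam ((st (n + 1)).1.a y) (mfderiv J I (st (n + 1)).1.a y v) =
          S₁.lam ((st n).1.a y) (mfderiv J I (st n).1.a y v) := by
        have h5 : pb J I (st (n + 1)).1.a S₁.lam y = pb J I (st n).1.a S₁.lam y := pb_congr h3
        exact congrArg (fun L : E' →L[ℝ] ℝ => L v) h5
      rw [h4, h2] at h1
      change dfn J (st (n + 1)).1.ka y v - dfn J (st n).1.ka y v = 0
      linarith
    obtain ⟨W₁, hW₁, hCW₁, h₁⟩ := (st (n + 1)).2.hag
    obtain ⟨W₂, hW₂, hCW₂, h₂⟩ := (st n).2.hag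
    obtain ⟨T, hT0, hT⟩ := hA₀.absorb {x} isCompact_singleton (W₁ ∩ W₂) (hW₁.inter hW₂)
      (subset_inter hCW₁ hCW₂)
    have horb : ∀ t, 0 ≤ t → t ≤ T → S₀.φ (-t) x ∈ interior (st n).1.B := by
      intro t ht _
      have hV : IsOpen (S₀.φ t ⁻¹' interior (st n).1.B) :=
        isOpen_interior.preimage (S₀.continuous_time t)
      have hVB : S₀.φ t ⁻¹' interior (st n).1.B ⊆ (st n).1.B := by
        intro y hy
        have h3 := (st n).2.hback _ (interior_subset hy) t ht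
        rwa [S₀.neg_apply] at h3
      apply interior_maximal hVB hV
      rw [mem_preimage, S₀.apply_neg]
      exact hx
    have h3 := const_along_orbit S₀ hu hd hT0 horb
    obtain ⟨h4, h5⟩ := hT T le_rfl x rfl
    rw [(h₁ _ h4).2, (h₂ _ h5).2, sub_self] at h3
    linarith
  have hk2 : ∀ n m, n ≤ m → ∀ x ∈ interior (st n).1.B, (st m).1.ka x = (st n).1.ka x := by
    intro n m hnm
    induction m, hnm using Nat.le_induction with
    | base => exact fun x _ => rfl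
    | succ m hm ih =>
      intro x hx
      rw [hk1 m x (interior_mono (hBmono hm) hx), ih x hx]
  -- exhaustion
  have hexh : ∀ x : N, ∃ n, x ∈ interior (st n).1.B := by
    intro x
    obtain ⟨n, hn⟩ := K₀.exists_mem x
    refine ⟨n + 1 + 1, ?_⟩
    exact interior_mono (hP (n + 1)).2.2.2.1 (K₀.subset_interior_succ n hn)
  choose ν hν using hexh
  have hf : ∀ x m, x ∈ interior (st m).1.B → (st m).1.a x = (st (ν x)).1.a x := by
    intro x m hm
    rcases le_total m (ν x) with h | h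
    · exact (ha2 m _ h x (interior_subset hm)).symm
    · exact ha2 _ m h x (interior_subset (hν x))
  have hl : ∀ x m, x ∈ interior (st m).1.B → (st m).1.ka x = (st (ν x)).1.ka x := by
    intro x m hm
    rcases le_total m (ν x) with h | h
    · exact (hk2 m _ h x hm).symm
    · exact hk2 _ m h x (hν x)
  have hfe : ∀ x, (fun x => (st (ν x)).1.a x) =ᶠ[𝓝 x] (st (ν x)).1.a := by
    intro x
    filter_upwards [isOpen_interior.mem_nhds (hν x)] with y hy
    exact (hf y _ hy).symm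
  have hle : ∀ x, (fun x => (st (ν x)).1.ka x) =ᶠ[𝓝 x] (st (ν x)).1.ka := by
    intro x
    filter_upwards [isOpen_interior.mem_nhds (hν x)] with y hy
    exact (hl y _ hy).symm
  refine ⟨fun x => (st (ν x)).1.a x, fun x => (st (ν x)).1.ka x, ⟨?_, ?_, ?_, ?_, ?_⟩, ?_⟩
  · intro x
    exact ((st (ν x)).2.ha.smooth x).congr_of_eventuallyEq (hfe x)
  · intro x y hxy
    simp only at hxy
    set m := max (ν x) (ν y) with hm
    have h1 := ha2 (ν x) m (le_max_left _ _) x (interior_subset (hν x))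
    have h2 := ha2 (ν y) m (le_max_right _ _) y (interior_subset (hν y))
    rw [← h1, ← h2] at hxy
    exact (st m).2.ha.inj hxy
  · intro x
    have h1 : (mfderiv J I (fun x => (st (ν x)).1.a x) x : E' →L[ℝ] E) =
        mfderiv J I (st (ν x)).1.a x := (hfe x).mfderiv_eq
    have h2 : Bijective (mfderiv J I (st (ν x)).1.a x : E' →L[ℝ] E) := (st (ν x)).2.ha.bij x
    rw [← h1] at h2
    exact h2
  · intro x
    exact ((st (ν x)).2.ha.smoothK x).congr_of_eventuallyEq (hle x)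
  · intro x v
    have h1 : pb J I (fun x => (st (ν x)).1.a x) S₁.lam x = pb J I (st (ν x)).1.a S₁.lam x :=
      pb_congr (hfe x)
    have h2 := (st (ν x)).2.ha.pull x v
    have h3 : S₁.lam ((st (ν x)).1.a x) (mfderiv J I (fun x => (st (ν x)).1.a x) x v) =
        S₁.lam ((st (ν x)).1.a x) (mfderiv J I (st (ν x)).1.a x v) :=
      congrArg (fun L : E' →L[ℝ] ℝ => L v) h1
    rw [h3, h2, dfn_congr (hle x)]
  · intro y
    obtain ⟨n, hn⟩ := K₁.exists_mem y
    have hyA : y ∈ (st (n + 1)).1.A := (hP n).2.2.2.2.2 hn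
    have h1 := (hP (n + 1)).1 y hyA
    have h2 := (hP (n + 1)).2.2.1 y hyA
    refine ⟨(st (n + 1)).1.b y, ?_⟩
    simp only
    set x := (st (n + 1)).1.b y with hx
    set m := max (ν x) (n + 1 + 1) with hm
    have h3 := ha2 (ν x) m (le_max_left _ _) x (interior_subset (hν x))
    have h4 := ha2 (n + 1 + 1) m (le_max_right _ _) x h2
    rw [← h3, h4, h1]

end Pool.Agent.H67.Liou
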