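import Pool.Agent.H67.Liou.Prim
import Pool.Agent.H67.Liou.Swindle

/-! The exact symplectomorphism onto the cotangent bundle. -/

open Topology Filter Set Function
open scoped ContDiff Manifold

set_option linter.unusedSectionVars false

namespace Pool.Agent.H67.Liou

universe u v

variable {F : Type u} [NormedAddCommGroup F] [NormedSpace ℝ F] [FiniteDimensional ℝ F]
  {H : Type*} [TopologicalSpace H] {I : ModelWithCorners ℝ F H}
  {L : Type*} [TopologicalSpace L] [ChartedSpace H L]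
  [IsManifold I ∞ L] [IsManifold I 1 L] [I.Boundaryless]
  {E : Type v} [NormedAddCommGroup E] [NormedSpace ℝ E] [FiniteDimensional ℝ E]
  {HE : Type*} [TopologicalSpace HE] {IE : ModelWithCorners ℝ E HE}
  {M : Type*} [TopologicalSpace M] [ChartedSpace HE M]
  [IsManifold IE ∞ M] [IsManifold IE 1 M] [IE.Boundaryless]

theorem main_equiv [T2Space L] [T2Space M] [CompactSpace L] [Nonempty L] (S : LStr IE M)
    {ι : L → M} (hι : ContMDiff I IE ∞ ι) (hιi : Injective ι)
    (hinj : ∀ x, Injective (mfderiv I IE ι x))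
    (hdim : Module.finrank ℝ E = 2 * Module.finrank ℝ F)
    (htan : ∀ (x : L) (v : TangentSpace I x), S.lam (ι x) (mfderiv I IE ι x v) = 0)
    (hA : Absorbs S (range ι)) :
    ∃ (f : M → Cot I L) (l : M → ℝ), ExEmb S (cotStr I L) f l ∧ Surjective f := by
  have hT2 : T2Space (Cot I L) := t2Space_cot
  have hscM : SigmaCompactSpace M := hA.sigmaCompact
  have hA0 : Absorbs (cotStr I L) (range (zsec I : L → Cot I L)) := absorbs_cot
  have hscC : SigmaCompactSpace (Cot I L) := hA0.sigmaCompact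
  have hne : Nonempty (Cot I L) := ⟨zsec I (Classical.arbitrary L)⟩
  obtain ⟨f, hf, ⟨C, hC, hfC⟩, hf1⟩ := exists_primitive (F →L[ℝ] ℝ) S.smooth hι hιi hinj
    (by rw [finrank_dual', hdim, two_mul]) htan
  obtain ⟨S', hS'⟩ := S.exists_perturb hf hC hfC
  have hvan : ∀ x, S'.lam (ι x) = 0 := by
    intro x
    rw [hS', (hf1 x).2, sub_self]
  obtain ⟨g, hg, hgz⟩ := exists_global S' hι hιi hinj hdim hvan
  have hfg : ContMDiff (IC I) 𝓘(ℝ, ℝ) ∞ (fun ξ => f (g ξ)) := hf.comp hg.smooth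
  -- `g` as an exact embedding for `S`
  have hgS : ExEmb (cotStr I L) S g (fun ξ => f (g ξ)) := by
    refine ⟨hg.smooth, hg.inj, hg.bij, hfg, fun ξ v => ?_⟩
    have h1 := hg.pull ξ v
    rw [dfn_const, hS'] at h1
    have h2 := dfn_comp_apply (hf (g ξ)) (hg.smooth ξ) v
    rw [h2]
    have h3 : (S.lam (g ξ) - dfn IE f (g ξ)) (mfderiv (IC I) IE g ξ v) =
      S.lam (g ξ) (mfderiv (IC I) IE g ξ v) - dfn IE f (g ξ) (mfderiv (IC I) IE g ξ v) := rfl
    rw [h3] at h1
    have h4 : (0 : TangentSpace (IC I) ξ →L[ℝ] ℝ) v = 0 := rfl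
    rw [h4, add_zero] at h1
    linarith
  -- the perturbed structure of the cotangent bundle
  obtain ⟨χ, hχ, C', hC', -, hχ0, V, hV, hKV, -, hχ1⟩ :=
    exists_cutoff (I := IC I) hA0.isCompact isOpen_univ (subset_univ _)
  set k : Cot I L → ℝ := fun ξ => -(χ ξ * f (g ξ)) with hk
  have hks : ContMDiff (IC I) 𝓘(ℝ, ℝ) ∞ k := (hχ.mul hfg).neg
  obtain ⟨S'', hS''⟩ := (cotStr I L).exists_perturb hks hC' (fun ξ hξ => by
    simp only [hk, hχ0 ξ hξ, zero_mul, neg_zero])
  have hrange : IsOpen (range g) := isOpen_range_of_bij hg.smooth hg.bij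
  have hli : ∀ ξ, invFun g (g ξ) = ξ := leftInverse_invFun hg.inj
  have hjs : ∀ y ∈ range g, ContMDiffAt IE (IC I) ∞ (invFun g) y := by
    rintro _ ⟨ξ, rfl⟩
    exact contMDiffAt_invFun (hg.smooth ξ) (hg.bij ξ) hg.inj
  have hjc : ContinuousOn (invFun g) (range g) := fun y hy =>
    (hjs y hy).continuousAt.continuousWithinAt
  set U : Set M := range g ∩ invFun g ⁻¹' V with hU
  have hUo : IsOpen U := hjc.isOpen_inter_preimage hrange hV
  have hιU : range ι ⊆ U := by
    rintro _ ⟨x, rfl⟩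
    rw [← hgz x]
    refine ⟨⟨_, rfl⟩, ?_⟩
    rw [mem_preimage, hli]
    exact hKV ⟨x, rfl⟩
  have hgj : ∀ y ∈ range g, g (invFun g y) = y := by
    rintro _ ⟨ξ, rfl⟩
    rw [hli]
  -- derivative of the inverse
  have hder : ∀ y ∈ range g, ∀ w : TangentSpace IE y,
      (mfderiv (IC I) IE g (invFun g y) : F × (F →L[ℝ] ℝ) →L[ℝ] E)
        (mfderiv IE (IC I) (invFun g) y w) = w := by
    intro y hy w
    have h1 : (g ∘ invFun g) =ᶠ[𝓝 y] id := by
      filter_upwards [hrange.mem_nhds hy] with z hz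
      exact hgj z hz
    have h2 := mfderiv_comp y (hg.smooth _ |>.mdifferentiableAt infty_ne_zero)
      ((hjs y hy).mdifferentiableAt infty_ne_zero)
    have h3 : (mfderiv IE IE (g ∘ invFun g) y : E →L[ℝ] E) = mfderiv IE IE id y := h1.mfderiv_eq
    have h4 : (mfderiv IE IE (g ∘ invFun g) y : E →L[ℝ] E) w = w := by
      rw [h3, mfderiv_id]
      rfl
    have h5 : (mfderiv IE IE (g ∘ invFun g) y : E →L[ℝ] E) w =
      (mfderiv (IC I) IE g (invFun g y) : F × (F →L[ℝ] ℝ) →L[ℝ] E)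
        (mfderiv IE (IC I) (invFun g) y w) := congrArg (fun A : E →L[ℝ] E => A w) h2
    rw [← h5, h4]
  have hbij : ∀ y ∈ range g, Bijective (mfderiv IE (IC I) (invFun g) y) := by
    intro y hy
    have h1 := hder y hy
    have h2 := hg.bij (invFun g y)
    constructor
    · intro w w' hww
      have h3 := h1 w
      have h4 := h1 w'
      rw [hww] at h3
      exact h3.symm.trans h4
    · intro z
      refine ⟨mfderiv (IC I) IE g (invFun g y) z, ?_⟩
      apply h2.1
      exact h1 _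
  have hpb : ∀ y ∈ U, pb IE (IC I) (invFun g) S''.lam y = S.lam y := by
    intro y hy
    ext w
    have h1 : pb IE (IC I) (invFun g) S''.lam y w =
      S''.lam (invFun g y) (mfderiv IE (IC I) (invFun g) y w) := rfl
    have h2 := hS'' (invFun g y)
    have h3 : S''.lam (invFun g y) (mfderiv IE (IC I) (invFun g) y w) =
        lamCan I (invFun g y) (mfderiv IE (IC I) (invFun g) y w) -
        dfn (IC I) k (invFun g y) (mfderiv IE (IC I) (invFun g) y w) := by
      rw [h2]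
      rfl
    have h4 := hgS.pull (invFun g y) (mfderiv IE (IC I) (invFun g) y w)
    have h5 : S.lam (g (invFun g y)) (mfderiv (IC I) IE g (invFun g y)
        (mfderiv IE (IC I) (invFun g) y w)) = S.lam y w := by
      have key : ∀ (y' : M) (w' : E), y' = y → w' = w →
          (S.lam y' : E →L[ℝ] ℝ) w' = (S.lam y : E →L[ℝ] ℝ) w := by
        rintro _ _ rfl rfl
        rfl
      exact key _ _ (hgj y hy.1) (hder y hy.1 w)
    have h6 : dfn (IC I) k (invFun g y) (mfderiv IE (IC I) (invFun g) y w) =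
        - dfn (IC I) (fun ξ => f (g ξ)) (invFun g y) (mfderiv IE (IC I) (invFun g) y w) := by
      have h7 : k =ᶠ[𝓝 (invFun g y)] fun ξ => -(f (g ξ)) := by
        filter_upwards [hV.mem_nhds hy.2] with ξ hξ
        simp only [hk, hχ1 ξ hξ, one_mul]
      rw [dfn_congr h7, dfn_neg_apply (hfg _)]
    rw [h1, h3, h6]
    rw [h5] at h4
    rw [h4]
    change _ = lamCan I (invFun g y) (mfderiv IE (IC I) (invFun g) y w) + _
    ring
  obtain ⟨j, hj, W₀, hW₀, hCW₀, hjW⟩ := exists_extension S S'' hA hUo hιU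
    (fun y hy => hjs y hy.1) (fun y hy => hbij y hy.1) hpb (fun y hy y' hy' heq => by
      rw [← hgj y hy.1, heq, hgj y' hy'.1])
  have hkj : ContMDiff IE 𝓘(ℝ, ℝ) ∞ (fun y => k (j y)) := hks.comp hj.smooth
  have hjS : ExEmb S (cotStr I L) j (fun y => k (j y)) := by
    refine ⟨hj.smooth, hj.inj, hj.bij, hkj, fun y w => ?_⟩
    have h1 := hj.pull y w
    rw [dfn_const, hS''] at h1
    rw [dfn_comp_apply (hks _) (hj.smooth y) w]
    have h3 : ((cotStr I L).lam (j y) - dfn (IC I) k (j y)) (mfderiv IE (IC I) j y w) =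
      (cotStr I L).lam (j y) (mfderiv IE (IC I) j y w) -
        dfn (IC I) k (j y) (mfderiv IE (IC I) j y w) := rfl
    rw [h3] at h1
    have h4 : (0 : TangentSpace IE y →L[ℝ] ℝ) w = 0 := rfl
    rw [h4, add_zero] at h1
    linarith
  refine swindle hA hA0 (i := j) (j := g) hjS hgS ?_ ?_ ⟨W₀ ∩ U, hW₀.inter hUo,
    subset_inter hCW₀ hιU, ?_⟩ ⟨V ∩ g ⁻¹' W₀, hV.inter (hW₀.preimage hg.smooth.continuous),
    ?_, ?_⟩
  · rintro _ ⟨x, rfl⟩
    rw [hjW _ (hCW₀ ⟨x, rfl⟩), ← hgz x, hli]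
    exact ⟨x, rfl⟩
  · rintro _ ⟨x, rfl⟩
    rw [hgz]
    exact ⟨x, rfl⟩
  · intro y hy
    rw [hjW y hy.1, hgj y hy.2.1]
    refine ⟨rfl, ?_⟩
    simp only [hk]
    rw [hχ1 _ hy.2.2, hgj y hy.2.1]
    ring
  · rintro _ ⟨x, rfl⟩
    refine ⟨hKV ⟨x, rfl⟩, ?_⟩
    rw [mem_preimage, hgz]
    exact hCW₀ ⟨x, rfl⟩
  · intro ξ hξ
    rw [hjW _ hξ.2, hli]
    refine ⟨rfl, ?_⟩
    simp only [hk]
    rw [hχ1 _ hξ.1]
    ring

end Pool.Agent.H67.Liou
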