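import Mathlib

/-! Smoothness of the superposition operator `γ ↦ V ∘ γ` on `C(K, F)`. -/

open Topology Filter Set
open scoped ContDiff

namespace Pool.Agent.H67.Liou

universe u

variable {K : Type*} [TopologicalSpace K] [CompactSpace K]

/-- pointwise application of operators, as a bilinear map -/
noncomputable def appLM (K : Type*) [TopologicalSpace K] [CompactSpace K]
    (F F' : Type*) [NormedAddCommGroup F] [NormedSpace ℝ F]
    [NormedAddCommGroup F'] [NormedSpace ℝ F'] :
    C(K, F →L[ℝ] F') →ₗ[ℝ] C(K, F) →ₗ[ℝ] C(K, F') where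
  toFun A :=
    { toFun := fun h => (⟨fun t => A t (h t), A.continuous.clm_apply h.continuous⟩ : C(K, F'))
      map_add' := fun h k => by ext t; simp
      map_smul' := fun c h => by ext t; simp }
  map_add' A B := by ext h t; simp
  map_smul' c A := by ext h t; simp

theorem appLM_bound (K : Type*) [TopologicalSpace K] [CompactSpace K]
    (F F' : Type*) [NormedAddCommGroup F] [NormedSpace ℝ F]
    [NormedAddCommGroup F'] [NormedSpace ℝ F'] (A : C(K, F →L[ℝ] F')) (h : C(K, F)) :
    ‖appLM K F F' A h‖ ≤ 1 * ‖A‖ * ‖h‖ := by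
  rw [one_mul, ContinuousMap.norm_le _ (by positivity)]
  intro t
  exact ((A t).le_opNorm (h t)).trans
    (mul_le_mul (A.norm_coe_le_norm t) (h.norm_coe_le_norm t) (norm_nonneg _) (by positivity))

/-- pointwise application of operators, as a continuous bilinear map -/
noncomputable def appCLM (K : Type*) [TopologicalSpace K] [CompactSpace K]
    (F F' : Type*) [NormedAddCommGroup F] [NormedSpace ℝ F]
    [NormedAddCommGroup F'] [NormedSpace ℝ F'] :
    C(K, F →L[ℝ] F') →L[ℝ] C(K, F) →L[ℝ] C(K, F') :=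
  LinearMap.mkContinuous₂ (𝕜 := ℝ) (𝕜₂ := ℝ) (𝕜₃ := ℝ) (E := C(K, F →L[ℝ] F')) (F := C(K, F))
    (G := C(K, F')) (σ₁₃ := RingHom.id ℝ) (σ₂₃ := RingHom.id ℝ) (appLM K F F') 1
    (appLM_bound K F F')

theorem appCLM_apply {F F' : Type*} [NormedAddCommGroup F] [NormedSpace ℝ F]
    [NormedAddCommGroup F'] [NormedSpace ℝ F'] (A : C(K, F →L[ℝ] F')) (h : C(K, F)) (t : K) :
    appCLM K F F' A h t = A t (h t) := rfl

theorem nem_hasFDerivAt {F F' : Type*} [NormedAddCommGroup F] [NormedSpace ℝ F]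
    [NormedAddCommGroup F'] [NormedSpace ℝ F'] (V : C(F, F')) (W : C(F, F →L[ℝ] F'))
    (hVW : ∀ x, HasFDerivAt V (W x) x) (γ : C(K, F)) :
    HasFDerivAt (fun γ : C(K, F) => V.comp γ) (appCLM K F F' (W.comp γ)) γ := by
  rw [hasFDerivAt_iff_isLittleO_nhds_zero, Asymptotics.isLittleO_iff]
  intro ε hε
  have hK : IsCompact (range γ) := isCompact_range γ.continuous
  have huc := hK.uniformContinuousAt_of_continuousAt W (fun x _ => W.continuous.continuousAt)
    (Metric.dist_mem_uniformity hε)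
  obtain ⟨δ, hδ, hδW⟩ := Metric.mem_uniformity_dist.1 huc
  filter_upwards [Metric.ball_mem_nhds (0 : C(K, F)) hδ] with h hh
  rw [mem_ball_zero_iff] at hh
  rw [ContinuousMap.norm_le _ (by positivity)]
  intro t
  have ht : ‖h t‖ ≤ ‖h‖ := h.norm_coe_le_norm t
  have key : ‖V (γ t + h t) - V (γ t) - W (γ t) (γ t + h t - γ t)‖ ≤ ε * ‖γ t + h t - γ t‖ := by
    refine (convex_ball (γ t) δ).norm_image_sub_le_of_norm_hasFDerivWithin_le'
      (f := V) (f' := W) (φ := W (γ t)) (fun x _ => (hVW x).hasFDerivWithinAt) ?_ ?_ ?_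
    · intro x hx
      have h1 : dist (γ t) x < δ := by rw [dist_comm]; exact hx
      have h2 := hδW h1 (mem_range_self t)
      have h3 : dist (W (γ t)) (W x) < ε := h2
      rw [dist_comm, dist_eq_norm] at h3
      exact h3.le
    · exact Metric.mem_ball_self hδ
    · rw [Metric.mem_ball, dist_eq_norm, add_sub_cancel_left]
      exact lt_of_le_of_lt ht hh
  rw [add_sub_cancel_left] at key
  calc ‖(V.comp (γ + h) - V.comp γ - appCLM K F F' (W.comp γ) h) t‖
      = ‖V (γ t + h t) - V (γ t) - W (γ t) (h t)‖ := rfl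
    _ ≤ ε * ‖h t‖ := key
    _ ≤ ε * ‖h‖ := mul_le_mul_of_nonneg_left ht hε.le

theorem nem_contDiff_nat {F : Type u} [NormedAddCommGroup F] [NormedSpace ℝ F] (n : ℕ) :
    ∀ {F' : Type u} [NormedAddCommGroup F'] [NormedSpace ℝ F'] (V : C(F, F')),
      ContDiff ℝ n V → ContDiff ℝ n (fun γ : C(K, F) => V.comp γ) := by
  induction n with
  | zero =>
    intro F' _ _ V _
    rw [Nat.cast_zero, contDiff_zero]
    exact ContinuousMap.continuous_postcomp V
  | succ n ih =>
    intro F' _ _ V hV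
    have hV1 : ContDiff ℝ ((n : WithTop ℕ∞) + 1) V := by exact_mod_cast hV
    rw [contDiff_succ_iff_fderiv] at hV1
    obtain ⟨hd, -, hn⟩ := hV1
    let W : C(F, F →L[ℝ] F') := ⟨fderiv ℝ V, hn.continuous⟩
    have hfd : ∀ γ : C(K, F), HasFDerivAt (fun γ : C(K, F) => V.comp γ)
        (appCLM K F F' (W.comp γ)) γ := fun γ =>
      nem_hasFDerivAt V W (fun x => (hd x).hasFDerivAt) γ
    have : ContDiff ℝ ((n : WithTop ℕ∞) + 1) (fun γ : C(K, F) => V.comp γ) := by
      rw [contDiff_succ_iff_fderiv]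
      refine ⟨fun γ => (hfd γ).differentiableAt, fun h => by simp at h, ?_⟩
      have heq : fderiv ℝ (fun γ : C(K, F) => V.comp γ) =
          fun γ => appCLM K F F' (W.comp γ) := by
        ext1 γ
        exact (hfd γ).fderiv
      rw [heq]
      exact (appCLM K F F').contDiff.comp (ih W hn)
    exact_mod_cast this

/-- The superposition operator of a smooth map is smooth. -/
theorem nem_contDiff {F F' : Type u} [NormedAddCommGroup F] [NormedSpace ℝ F]
    [NormedAddCommGroup F'] [NormedSpace ℝ F'] (V : C(F, F')) (hV : ContDiff ℝ ∞ V) :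
    ContDiff ℝ ∞ (fun γ : C(K, F) => V.comp γ) := by
  rw [contDiff_infty] at hV ⊢
  exact fun n => nem_contDiff_nat n V (hV n)

end Pool.Agent.H67.Liou
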