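import Pool.Agent.H67.Liou.FlowVec
import Pool.Agent.H67.Liou.Hadamard
import Pool.Agent.H67.Liou.CotFlow

/-! Local normal form of a Liouville form vanishing along a Lagrangian: linear part of the dual
vector field and the rescaled vector field. -/

open Topology Filter Set Function
open scoped ContDiff Manifold

set_option linter.unusedSectionVars false

namespace Pool.Agent.H67.Liou

universe u

variable {F G : Type u} [NormedAddCommGroup F] [NormedSpace ℝ F] [FiniteDimensional ℝ F]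
  [NormedAddCommGroup G] [NormedSpace ℝ G] [FiniteDimensional ℝ G]

theorem finrank_dual' (E : Type*) [NormedAddCommGroup E] [NormedSpace ℝ E]
    [FiniteDimensional ℝ E] : Module.finrank ℝ (E →L[ℝ] ℝ) = Module.finrank ℝ E := by
  have h1 : Module.finrank ℝ (E →L[ℝ] ℝ) = Module.finrank ℝ (E →ₗ[ℝ] ℝ) :=
    (LinearMap.toContinuousLinearMap (𝕜 := ℝ) (E := E) (F' := ℝ)).symm.finrank_eq
  rw [h1, Module.finrank_linearMap_self]

theorem snd_eq_zero_of_isotropic (hdim : Module.finrank ℝ F = Module.finrank ℝ G)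
    (B : F × G →L[ℝ] F × G →L[ℝ] ℝ) (hanti : ∀ u v, B u v = - B v u)
    (hn : ∀ u, (∀ v, B u v = 0) → u = 0) (hiso : ∀ a b : F, B (a, 0) (b, 0) = 0) {z : F × G}
    (hz : ∀ a : F, B z (a, 0) = 0) : z.2 = 0 := by
  by_contra h
  obtain ⟨g, -, hg⟩ := exists_dual_vector ℝ z.2 (norm_ne_zero_iff.2 h)
  let T : F →ₗ[ℝ] (G →L[ℝ] ℝ) :=
    { toFun := fun a => (B (a, 0)).comp (ContinuousLinearMap.inr ℝ F G)
      map_add' := fun a b => by
        ext p
        have : ((a + b, 0) : F × G) = (a, 0) + (b, 0) := by simp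
        simp only [ContinuousLinearMap.comp_apply, ContinuousLinearMap.inr_apply,
          ContinuousLinearMap.add_apply, this, map_add]
      map_smul' := fun c a => by
        ext p
        have : ((c • a, 0) : F × G) = c • (a, 0) := by simp
        simp only [ContinuousLinearMap.comp_apply, ContinuousLinearMap.inr_apply,
          ContinuousLinearMap.smul_apply, this, map_smul, RingHom.id_apply] }
  have hTapp : ∀ a p, T a p = B (a, 0) (0, p) := fun a p => rfl
  have hsplit : ∀ v : F × G, v = (v.1, 0) + (0, v.2) := fun v => by simp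
  have hinj : Injective T := by
    rw [injective_iff_map_eq_zero]
    intro a ha
    have h1 : ((a, 0) : F × G) = 0 := by
      apply hn
      intro v
      rw [hsplit v, map_add, hiso, ← hTapp, ha]
      simp
    exact congrArg Prod.fst h1
  have hsurj : Surjective T := (LinearMap.injective_iff_surjective_of_finrank_eq_finrank
    (by rw [finrank_dual', hdim])).1 hinj
  obtain ⟨a, ha⟩ := hsurj g
  have h2 : B (a, 0) (0, z.2) = g z.2 := by rw [← hTapp, ha]
  have h3 := hz a
  have h4 : B z (a, 0) = B (z.1, 0) (a, 0) + B (0, z.2) (a, 0) := by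
    conv_lhs => rw [hsplit z]
    rw [map_add, ContinuousLinearMap.add_apply]
  rw [h4, hiso, hanti, h2, zero_add, neg_eq_zero] at h3
  rw [h3] at hg
  simp only [RCLike.ofReal_real_eq_id, id_eq] at hg
  exact h (norm_eq_zero.1 hg.symm)

theorem dvecL_anti (μ : F × G → F × G →L[ℝ] ℝ) (y u v : F × G) :
    dvecL μ y u v = - dvecL μ y v u := by
  rw [dvecL_apply, dvecL_apply]
  unfold dvec
  ring

/-- A one-form vanishing along `F × 0` has vanishing derivative along `F × 0`. -/
theorem fderiv_form_horizontal {μ : F × G → F × G →L[ℝ] ℝ} {q : F}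
    (hμ : DifferentiableAt ℝ μ (q, 0)) (hμ0 : ∀ᶠ q' in 𝓝 q, μ (q', 0) = 0) (a : F) :
    fderiv ℝ μ (q, 0) (a, 0) = 0 := by
  have h1 : HasFDerivAt (fun q' : F => ((q', 0) : F × G)) (ContinuousLinearMap.inl ℝ F G) q :=
    (hasFDerivAt_id q).prodMk (hasFDerivAt_const (0 : G) q)
  have h2 : HasFDerivAt (fun q' : F => μ (q', 0))
      ((fderiv ℝ μ (q, 0)).comp (ContinuousLinearMap.inl ℝ F G)) q :=
    HasFDerivAt.comp (x := q) (g := μ) (f := fun q' : F => ((q', 0) : F × G)) hμ.hasFDerivAt h1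
  have h3 : HasFDerivAt (fun q' : F => μ (q', 0)) (0 : F →L[ℝ] (F × G →L[ℝ] ℝ)) q :=
    (hasFDerivAt_const (0 : F × G →L[ℝ] ℝ) q).congr_of_eventuallyEq hμ0
  have h4 := congrArg (fun T : F →L[ℝ] (F × G →L[ℝ] ℝ) => T a) (h2.unique h3)
  simpa using h4

/-- The linear part of the dual vector field along the zero set. -/
theorem linearization (hdim : Module.finrank ℝ F = Module.finrank ℝ G)
    {μ : F × G → F × G →L[ℝ] ℝ} {q : F} {Z : F × G → F × G}
    (hμ : ContDiffAt ℝ ∞ μ (q, 0)) (hμ0 : ∀ᶠ q' in 𝓝 q, μ (q', 0) = 0)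
    (hn : ∀ u, (∀ v, dvec μ (q, 0) u v = 0) → u = 0)
    (hZ : DifferentiableAt ℝ Z (q, 0)) (hZ0 : Z (q, 0) = 0)
    (hdual : ∀ᶠ y in 𝓝 ((q, 0) : F × G), dvecL μ y (Z y) = μ y) (p : G) :
    (fderiv ℝ Z (q, 0) (0, p)).2 = p := by
  have hμd : DifferentiableAt ℝ μ (q, 0) := hμ.differentiableAt (by simp)
  have hD : DifferentiableAt ℝ (dvecL μ) (q, 0) :=
    (contDiffAt_dvecL hμ).differentiableAt (by simp)
  have hh := fderiv_form_horizontal hμd hμ0
  have h1 : HasFDerivAt (fun y => dvecL μ y (Z y))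
      ((dvecL μ (q, 0)).comp (fderiv ℝ Z (q, 0)) + (fderiv ℝ (dvecL μ) (q, 0)).flip (Z (q, 0)))
      (q, 0) := hD.hasFDerivAt.clm_apply hZ.hasFDerivAt
  have h2 : HasFDerivAt (fun y => dvecL μ y (Z y)) (fderiv ℝ μ (q, 0)) (q, 0) :=
    hμd.hasFDerivAt.congr_of_eventuallyEq hdual
  have h3 : ∀ v, dvecL μ (q, 0) (fderiv ℝ Z (q, 0) v) = fderiv ℝ μ (q, 0) v := by
    intro v
    have h4 := congrArg (fun T : F × G →L[ℝ] (F × G →L[ℝ] ℝ) => T v) (h1.unique h2)
    simpa [hZ0] using h4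
  have h5 := snd_eq_zero_of_isotropic hdim (dvecL μ (q, 0)) (dvecL_anti μ (q, 0)) hn
    (fun a b => by
      rw [dvecL_apply]
      unfold dvec
      rw [hh a, hh b]
      simp) (z := fderiv ℝ Z (q, 0) (0, p) - (0, p)) (fun a => by
      rw [map_sub, ContinuousLinearMap.sub_apply, h3, dvecL_apply]
      unfold dvec
      rw [hh a]
      simp)
  have h6 : (fderiv ℝ Z (q, 0) (0, p)).2 - p = 0 := h5
  exact sub_eq_zero.1 h6

/-- The rescaled vector field. -/
theorem rescale {Z : F × G → F × G} (hZ : ContDiff ℝ ∞ Z) {q₀ : F}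
    (h0 : ∀ᶠ q in 𝓝 q₀, Z (q, 0) = 0)
    (h1 : ∀ᶠ q in 𝓝 q₀, ∀ p, (fderiv ℝ Z (q, 0) (0, p)).2 = p) :
    ∃ W : ℝ × (F × G) → F × G, ContDiff ℝ ∞ W ∧ (∀ r q, W (r, (q, 0)) = 0) ∧
      ∀ᶠ q in 𝓝 q₀, ∀ (r : ℝ) (P : G), Z (q, r • P) =
        (r • (W (r, (q, P))).1, r • P + (r * r) • (W (r, (q, P))).2) := by
  have hcF : CompleteSpace F := FiniteDimensional.complete ℝ F
  have hcG : CompleteSpace G := FiniteDimensional.complete ℝ G
  set f : ℝ × (F × G) → F × G := fun x => Z (x.2.1, x.1 • x.2.2) - (0, x.1 • x.2.2) with hf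
  have hfs : ContDiff ℝ ∞ f := by
    have h2 : ContDiff ℝ ∞ (fun x : ℝ × (F × G) => x.1 • x.2.2) :=
      contDiff_fst.smul (contDiff_snd.comp contDiff_snd)
    have h3 : ContDiff ℝ ∞ (fun x : ℝ × (F × G) => (x.2.1, x.1 • x.2.2)) :=
      (contDiff_fst.comp contDiff_snd).prodMk h2
    exact (hZ.comp h3).sub (contDiff_const.prodMk h2)
  obtain ⟨k, hk, hk1, hk2, hk3⟩ := hadamard hfs
  obtain ⟨l, hl, hl1, -, hl3⟩ := hadamard (contDiff_snd.comp hk)
  have hf0 : ∀ r q, f (r, (q, 0)) = f (0, (q, 0)) := by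
    intro r q
    simp only [hf, smul_zero]
  refine ⟨fun x => ((k x).1, l x), (contDiff_fst.comp hk).prodMk hl, ?_, ?_⟩
  · intro r q
    have h2 : ∀ r, k (r, (q, 0)) = 0 := hk3 (q, 0) (fun r => hf0 r q)
    have h3 : l (r, (q, 0)) = 0 := by
      apply hl3
      intro r
      simp only [comp_apply, h2]
    simp only [h2, h3]
    rfl
  · filter_upwards [h0, h1] with q hq0 hq1
    intro r P
    have h2 : f (0, (q, P)) = 0 := by
      simp only [hf, zero_smul, hq0]
      simp
    -- the derivative of `f` at `r = 0`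
    have h3 : fderiv ℝ f (0, (q, P)) (1, 0) = fderiv ℝ Z (q, 0) (0, P) - (0, P) := by
      have h4 : HasDerivAt (fun r : ℝ => f (r, (q, P))) (fderiv ℝ f (0, (q, P)) (1, 0)) 0 :=
        hasDerivAt_fst_curve hfs 0 (q, P)
      have h5 : HasDerivAt (fun r : ℝ => ((q, r • P) : F × G)) (0, P) 0 := by
        have := (hasDerivAt_const (0 : ℝ) q).prodMk ((hasDerivAt_id (0 : ℝ)).smul_const P)
        simpa using this
      have h6 : HasDerivAt (fun r : ℝ => Z (q, r • P)) (fderiv ℝ Z (q, 0) (0, P)) 0 := by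
        have h7 : HasFDerivAt Z (fderiv ℝ Z (q, 0)) (q, (0 : ℝ) • P) := by
          rw [zero_smul]
          exact (hZ.differentiable (by simp) (q, 0)).hasFDerivAt
        exact h7.comp_hasDerivAt (0 : ℝ) h5
      have h8 : HasDerivAt (fun r : ℝ => ((0, r • P) : F × G)) (0, P) 0 := by
        have := (hasDerivAt_const (0 : ℝ) (0 : F)).prodMk ((hasDerivAt_id (0 : ℝ)).smul_const P)
        simpa using this
      exact h4.unique (h6.sub h8)
    have h9 : (k (0, (q, P))).2 = 0 := by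
      rw [hk2, h3]
      simp [hq1]
    have h10 := hk1 r (q, P)
    have h11 := hl1 r (q, P)
    simp only [comp_apply] at h11
    rw [h9, zero_add] at h11
    rw [h2, zero_add] at h10
    have h12 : Z (q, r • P) = r • k (r, (q, P)) + (0, r • P) := by
      rw [← h10]
      simp only [hf]
      abel
    rw [h12]
    refine Prod.ext ?_ ?_
    · simp
    · simp only [Prod.snd_add, Prod.smul_snd]
      rw [h11, smul_smul, add_comm]

end Pool.Agent.H67.Liou
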