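import Pool.Agent.H67.Liou.Nemytskii

/-! Smooth dependence of short-time solutions on time scale and initial condition, through the
implicit function theorem on a space of paths. -/

open Topology Filter Set MeasureTheory
open scoped ContDiff

namespace Pool.Agent.H67.Liou

universe u

/-- the compact time interval -/
abbrev TI : Type := Set.Icc (-2 : ℝ) 2

instance : Fact ((-2 : ℝ) ≤ 2) := ⟨by norm_num⟩

/-- the inclusion-retraction of `ℝ` onto `TI` -/
noncomputable def pr : ℝ → TI := projIcc (-2 : ℝ) 2 (by norm_num)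

theorem continuous_pr : Continuous pr := continuous_projIcc

theorem pr_of_mem {t : ℝ} (ht : t ∈ Set.Icc (-2 : ℝ) 2) : pr t = ⟨t, ht⟩ :=
  projIcc_of_mem _ ht

variable {E : Type u} [NormedAddCommGroup E] [NormedSpace ℝ E]

/-- integration from `0` on paths -/
noncomputable def integLM (E : Type u) [NormedAddCommGroup E] [NormedSpace ℝ E] :
    C(TI, E) →ₗ[ℝ] C(TI, E) where
  toFun g := ⟨fun t => ∫ s in (0 : ℝ)..t, g (pr s), by
    have h : Continuous (fun t : ℝ => ∫ s in (0 : ℝ)..t, g (pr s)) :=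
      intervalIntegral.continuous_primitive
        (fun a b => (g.continuous.comp continuous_pr).intervalIntegrable a b) 0
    exact h.comp continuous_subtype_val⟩
  map_add' g h := by
    ext t
    simp only [ContinuousMap.coe_mk, ContinuousMap.add_apply]
    exact intervalIntegral.integral_add
      ((g.continuous.comp continuous_pr).intervalIntegrable _ _)
      ((h.continuous.comp continuous_pr).intervalIntegrable _ _)
  map_smul' c g := by
    ext t
    simp only [ContinuousMap.coe_mk, ContinuousMap.smul_apply, RingHom.id_apply]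
    exact intervalIntegral.integral_smul _ _

theorem integLM_apply (g : C(TI, E)) (t : TI) :
    integLM E g t = ∫ s in (0 : ℝ)..t, g (pr s) := rfl

theorem integLM_bound (g : C(TI, E)) : ‖integLM E g‖ ≤ 2 * ‖g‖ := by
  rw [ContinuousMap.norm_le _ (by positivity)]
  intro t
  rw [integLM_apply]
  have h1 : ‖∫ s in (0 : ℝ)..t, g (pr s)‖ ≤ ‖g‖ * |(t : ℝ) - 0| :=
    intervalIntegral.norm_integral_le_of_norm_le_const fun s _ => g.norm_coe_le_norm _
  have h2 : |(t : ℝ) - 0| ≤ 2 := by
    rw [sub_zero, abs_le]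
    exact ⟨t.2.1, t.2.2⟩
  have h3 : 0 ≤ ‖g‖ := by positivity
  nlinarith

/-- integration from `0` on paths, as a continuous linear map -/
noncomputable def integCLM (E : Type u) [NormedAddCommGroup E] [NormedSpace ℝ E] :
    C(TI, E) →L[ℝ] C(TI, E) :=
  LinearMap.mkContinuous (𝕜 := ℝ) (𝕜₂ := ℝ) (E := C(TI, E)) (F := C(TI, E)) (integLM E) 2
    integLM_bound

theorem integCLM_apply (g : C(TI, E)) (t : TI) :
    integCLM E g t = ∫ s in (0 : ℝ)..t, g (pr s) := rfl

/-- constant paths -/
noncomputable def constCLM (E : Type u) [NormedAddCommGroup E] [NormedSpace ℝ E] :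
    E →L[ℝ] C(TI, E) :=
  LinearMap.mkContinuous (𝕜 := ℝ) (𝕜₂ := ℝ) (E := E) (F := C(TI, E))
    { toFun := fun x => ContinuousMap.const TI x
      map_add' := fun x y => by ext t; simp
      map_smul' := fun c x => by ext t; simp } 1 (by
    intro x
    rw [one_mul]
    refine (ContinuousMap.norm_le _ (norm_nonneg x)).2 fun t => ?_
    exact le_rfl)

theorem constCLM_apply (x : E) (t : TI) : constCLM E x t = x := rfl

/-- The equation of integral paths. -/
noncomputable def pathEq (V : C(E, E)) : (ℝ × E) × C(TI, E) → C(TI, E) :=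
  fun q => q.2 - constCLM E q.1.2 - q.1.1 • integCLM E (V.comp q.2)

theorem pathEq_contDiff (V : C(E, E)) (hV : ContDiff ℝ ∞ V) : ContDiff ℝ ∞ (pathEq V) := by
  unfold pathEq
  have h1 : ContDiff ℝ ∞ (fun q : (ℝ × E) × C(TI, E) => integCLM E (V.comp q.2)) :=
    (integCLM E).contDiff.comp ((nem_contDiff V hV).comp contDiff_snd)
  have h2 : ContDiff ℝ ∞ (fun q : (ℝ × E) × C(TI, E) => constCLM E q.1.2) :=
    (constCLM E).contDiff.comp (contDiff_snd.comp contDiff_fst)
  exact (contDiff_snd.sub h2).sub ((contDiff_fst.comp contDiff_fst).smul h1)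

theorem exists_path [CompleteSpace E] (V : C(E, E)) (hV : ContDiff ℝ ∞ V) (x₀ : E) :
    ∃ ψ : ℝ × E → C(TI, E), ContDiffAt ℝ ∞ ψ (0, x₀) ∧ ψ (0, x₀) = constCLM E x₀ ∧
      ∀ᶠ p in 𝓝 ((0 : ℝ), x₀), pathEq V (p, ψ p) = 0 := by
  have hcd : ContDiffAt ℝ ∞ (pathEq V) (((0 : ℝ), x₀), constCLM E x₀) :=
    (pathEq_contDiff V hV).contDiffAt
  have hzero : pathEq V (((0 : ℝ), x₀), constCLM E x₀) = 0 := by
    unfold pathEq
    simp
  have hfd : fderiv ℝ (pathEq V) (((0 : ℝ), x₀), constCLM E x₀) ∘L
      ContinuousLinearMap.inr ℝ (ℝ × E) C(TI, E) = ContinuousLinearMap.id ℝ C(TI, E) := by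
    have h1 : HasFDerivAt (fun γ : C(TI, E) => pathEq V (((0 : ℝ), x₀), γ))
        (fderiv ℝ (pathEq V) (((0 : ℝ), x₀), constCLM E x₀) ∘L
          ContinuousLinearMap.inr ℝ (ℝ × E) C(TI, E)) (constCLM E x₀) := by
      have h2 := (hcd.differentiableAt (by simp)).hasFDerivAt
      exact h2.comp (constCLM E x₀) (hasFDerivAt_prodMk_right _ _)
    have h3 : HasFDerivAt (fun γ : C(TI, E) => pathEq V (((0 : ℝ), x₀), γ))
        (ContinuousLinearMap.id ℝ C(TI, E)) (constCLM E x₀) := by
      have : (fun γ : C(TI, E) => pathEq V (((0 : ℝ), x₀), γ)) = fun γ => γ - constCLM E x₀ := by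
        ext1 γ
        unfold pathEq
        simp
      rw [this]
      exact (hasFDerivAt_id _).sub_const _
    exact h1.unique h3
  have hinv : (fderiv ℝ (pathEq V) (((0 : ℝ), x₀), constCLM E x₀) ∘L
      ContinuousLinearMap.inr ℝ (ℝ × E) C(TI, E)).IsInvertible := by
    rw [hfd]
    exact ⟨ContinuousLinearEquiv.refl ℝ _, rfl⟩
  refine ⟨hcd.implicitFunction (by simp) hinv, hcd.contDiffAt_implicitFunction (by simp) hinv,
    hcd.implicitFunction_apply_self (by simp) hinv, ?_⟩
  filter_upwards [hcd.eventually_apply_implicitFunction (by simp) hinv] with p hp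
  rw [hp, hzero]

/-- The path solving the integral equation solves the differential equation. -/
theorem hasDerivAt_of_pathEq [CompleteSpace E] {V : C(E, E)} {τ : ℝ} {x : E} {γ : C(TI, E)}
    (h : pathEq V ((τ, x), γ) = 0) {t : ℝ} (ht : t ∈ Set.Ioo (-2 : ℝ) 2) :
    HasDerivAt (fun t : ℝ => γ (pr t)) (τ • V (γ (pr t))) t := by
  have h1 : ∀ s ∈ Set.Ioo (-2 : ℝ) 2, γ (pr s) = x + τ • ∫ r in (0 : ℝ)..s, V (γ (pr r)) := by
    intro s hs
    have h2 : γ = constCLM E x + τ • integCLM E (V.comp γ) := by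
      unfold pathEq at h
      simp only at h
      rw [sub_sub, sub_eq_zero] at h
      exact h
    have h3 : γ (pr s) = (constCLM E x + τ • integCLM E (V.comp γ)) (pr s) :=
      congrArg (fun g : C(TI, E) => g (pr s)) h2
    rw [h3, pr_of_mem (Ioo_subset_Icc_self hs)]
    rfl
  have hcont : Continuous (fun r : ℝ => V (γ (pr r))) :=
    V.continuous.comp (γ.continuous.comp continuous_pr)
  have h4 : HasDerivAt (fun s : ℝ => x + τ • ∫ r in (0 : ℝ)..s, V (γ (pr r)))
      (τ • V (γ (pr t))) t := by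
    have := (intervalIntegral.integral_hasDerivAt_right (hcont.intervalIntegrable 0 t)
      (hcont.stronglyMeasurableAtFilter _ _) hcont.continuousAt)
    exact (this.const_smul τ).const_add x
  refine h4.congr_of_eventuallyEq ?_
  filter_upwards [isOpen_Ioo.mem_nhds ht] with s hs using h1 s hs

end Pool.Agent.H67.Liou
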