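import Pool.Agent.H67.Liou.Glob
import Pool.Agent.H67.Liou.Absorption

/-! A function with prescribed one-jet along a compact embedded submanifold. -/

open Topology Filter Set Function
open scoped ContDiff Manifold

set_option linter.unusedSectionVars false

namespace Pool.Agent.H67.Liou

universe u v

variable {F : Type u} [NormedAddCommGroup F] [NormedSpace ℝ F] [FiniteDimensional ℝ F]
  {H : Type*} [TopologicalSpace H] {I : ModelWithCorners ℝ F H}
  {L : Type*} [TopologicalSpace L] [ChartedSpace H L]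
  [IsManifold I ∞ L] [IsManifold I 1 L] [I.Boundaryless]
  {G : Type*} [NormedAddCommGroup G] [NormedSpace ℝ G] [FiniteDimensional ℝ G]
  {E : Type v} [NormedAddCommGroup E] [NormedSpace ℝ E] [FiniteDimensional ℝ E]
  {HE : Type*} [TopologicalSpace HE] {IE : ModelWithCorners ℝ E HE}
  {M : Type*} [TopologicalSpace M] [ChartedSpace HE M]
  [IsManifold IE ∞ M] [IsManifold IE 1 M] [IE.Boundaryless]

theorem fderiv_linear_in_normal {μ : F × G → F × G →L[ℝ] ℝ} {q : F}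
    (hμ : DifferentiableAt ℝ μ (q, 0)) (v : F × G) :
    fderiv ℝ (fun p : F × G => μ (p.1, 0) (0, p.2)) (q, 0) v = μ (q, 0) (0, v.2) := by
  have h1 : HasFDerivAt (fun p : F × G => ((p.1, 0) : F × G))
      ((ContinuousLinearMap.inl ℝ F G).comp (ContinuousLinearMap.fst ℝ F G)) (q, 0) :=
    ((ContinuousLinearMap.inl ℝ F G).comp (ContinuousLinearMap.fst ℝ F G)).hasFDerivAt
  have h2 : HasFDerivAt (fun p : F × G => ((0, p.2) : F × G))
      ((ContinuousLinearMap.inr ℝ F G).comp (ContinuousLinearMap.snd ℝ F G)) (q, 0) :=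
    ((ContinuousLinearMap.inr ℝ F G).comp (ContinuousLinearMap.snd ℝ F G)).hasFDerivAt
  have h3 : HasFDerivAt (fun p : F × G => μ (p.1, 0))
      ((fderiv ℝ μ (q, 0)).comp
        ((ContinuousLinearMap.inl ℝ F G).comp (ContinuousLinearMap.fst ℝ F G))) (q, 0) :=
    HasFDerivAt.comp (x := ((q, 0) : F × G)) (g := μ) (f := fun p : F × G => ((p.1, 0) : F × G))
      hμ.hasFDerivAt h1
  have h4 := h3.clm_apply h2
  rw [h4.fderiv]
  simp only [ContinuousLinearMap.add_apply, ContinuousLinearMap.comp_apply,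
    ContinuousLinearMap.flip_apply, ContinuousLinearMap.coe_fst', ContinuousLinearMap.coe_snd',
    ContinuousLinearMap.inl_apply, ContinuousLinearMap.inr_apply]
  have h5 : (fderiv ℝ μ (q, 0)) (v.1, 0) (0, 0) = 0 := map_zero (fderiv ℝ μ (q, 0) (v.1, 0))
  rw [h5, add_zero]

theorem contDiffAt_linear_in_normal {μ : F × G → F × G →L[ℝ] ℝ} {p : F × G}
    (hμ : ContDiffAt ℝ ∞ μ (p.1, 0)) :
    ContDiffAt ℝ ∞ (fun p : F × G => μ (p.1, 0) (0, p.2)) p := by
  have h1 : ContDiffAt ℝ ∞ (fun p : F × G => ((p.1, 0) : F × G)) p :=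
    contDiffAt_fst.prodMk contDiffAt_const
  have h2 : ContDiffAt ℝ ∞ (fun p : F × G => ((0, p.2) : F × G)) p :=
    contDiffAt_const.prodMk contDiffAt_snd
  have h3 : ContDiffAt ℝ ∞ (fun p : F × G => μ (p.1, 0)) p :=
    ContDiffAt.comp (x := p) (g := μ) (f := fun p : F × G => ((p.1, 0) : F × G)) hμ h1
  exact h3.clm_apply h2

/-- The local construction. -/
theorem local_primitive (G : Type*) [NormedAddCommGroup G] [NormedSpace ℝ G]
    [FiniteDimensional ℝ G] {α : (x : M) → TangentSpace IE x →L[ℝ] ℝ}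
    (hα : ∀ x, FormSmoothAt IE α x) {ι : L → M} (hι : ContMDiff I IE ∞ ι) {x₀ : L}
    (hinj : Injective (mfderiv I IE ι x₀))
    (hdim : Module.finrank ℝ E = Module.finrank ℝ F + Module.finrank ℝ G)
    (htan : ∀ (x : L) (v : TangentSpace I x), α (ι x) (mfderiv I IE ι x v) = 0) :
    ∃ f : M → ℝ, (∀ᶠ y in 𝓝 (ι x₀), ContMDiffAt IE 𝓘(ℝ, ℝ) ∞ f y) ∧
      ∀ᶠ x in 𝓝 x₀, f (ι x) = 0 ∧ dfn IE f (ι x) = α (ι x) := by
  set q₀ := extChartAt I x₀ x₀ with hq₀
  have hx := mem_extChartAt_source (I := I) x₀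
  have hz : q₀ ∈ (extChartAt I x₀).target := (extChartAt I x₀).map_source hx
  have hl : (extChartAt I x₀).symm q₀ = x₀ := (extChartAt I x₀).left_inv hx
  obtain ⟨c, hc, hcι⟩ := exists_adapted (G := G) hι hinj hdim
  have hc0 : c (q₀, 0) = ι x₀ := by rw [hcι.self_of_nhds, hl]
  obtain ⟨k, hk0, hks, hk1, hk2⟩ := ift_manifold_nhds hc
  rw [hc0] at hk0 hks hk1
  let μ : F × G → F × G →L[ℝ] ℝ := pb 𝓘(ℝ, F × G) IE c α
  have H1 : ∀ᶠ y in 𝓝 ((q₀, 0) : F × G), ContDiffAt ℝ ∞ μ y := by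
    filter_upwards [hc] with y hy
    exact formSmoothAt_vec.1 (FormSmoothAt.pb (hα _) hy.1)
  set h : F × G → ℝ := fun p => μ (p.1, 0) (0, p.2) with hh
  have hpr : Tendsto (fun p : F × G => ((p.1, 0) : F × G)) (𝓝 (q₀, 0)) (𝓝 (q₀, 0)) := by
    have h1 : ContinuousAt (fun p : F × G => ((p.1, 0) : F × G)) (q₀, 0) := by fun_prop
    exact h1
  have hhs : ∀ᶠ p in 𝓝 ((q₀, 0) : F × G), ContDiffAt ℝ ∞ h p := by
    filter_upwards [hpr.eventually H1] with p hp
    exact contDiffAt_linear_in_normal hp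
  have hkc : Tendsto k (𝓝 (ι x₀)) (𝓝 (q₀, 0)) := by
    have h1 : ContinuousAt k (ι x₀) := hks.self_of_nhds.continuousAt
    rwa [ContinuousAt, hk0] at h1
  have hfs : ∀ᶠ y in 𝓝 (ι x₀), ContMDiffAt IE 𝓘(ℝ, ℝ) ∞ (h ∘ k) y := by
    filter_upwards [hks, hkc.eventually hhs] with y h1 h2
    have h3 : ContMDiffAt 𝓘(ℝ, F × G) 𝓘(ℝ, ℝ) ∞ h (k y) := contMDiffAt_iff_contDiffAt.2 h2
    exact h3.comp y h1
  refine ⟨h ∘ k, hfs, ?_⟩
  have hq : Tendsto (fun x : L => ((extChartAt I x₀ x, 0) : F × G)) (𝓝 x₀) (𝓝 (q₀, 0)) := by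
    have h1 : ContinuousAt (extChartAt I x₀) x₀ := continuousAt_extChartAt (I := I) x₀
    exact h1.prodMk continuousAt_const
  have hq' : Tendsto (extChartAt I x₀) (𝓝 x₀) (𝓝 q₀) := continuousAt_extChartAt (I := I) x₀
  filter_upwards [(isOpen_extChartAt_source (I := I) x₀).mem_nhds hx, hq.eventually H1,
    hq.eventually hk2.eventually_nhds, hq.eventually hc, hq'.eventually hcι.eventually_nhds,
    hι.continuous.continuousAt.eventually hfs] with x hxs h1 h2 h3 h4 h5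
  set q := extChartAt I x₀ x with hqdef
  have hqt : q ∈ (extChartAt I x₀).target := (extChartAt I x₀).map_source hxs
  have hcx : c (q, 0) = ι x := by
    rw [h4.self_of_nhds, (extChartAt I x₀).left_inv hxs]
  have hkx : k (ι x) = (q, 0) := by
    rw [← hcx]
    exact h2.self_of_nhds
  constructor
  · change h (k (ι x)) = 0
    rw [hkx]
    exact map_zero (μ (q, 0))
  · -- the tangential part
    have htan' : ∀ u : F, μ (q, 0) (u, 0) = 0 := by
      intro u
      have e1 : HasFDerivAt (fun q' : F => ((q', 0) : F × G)) (ContinuousLinearMap.inl ℝ F G) q :=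
        (ContinuousLinearMap.inl ℝ F G).hasFDerivAt
      have e2 := (h3.1.mdifferentiableAt infty_ne_zero).hasMFDerivAt.comp q e1.hasMFDerivAt
      have e3 : (c ∘ fun q' : F => ((q', 0) : F × G)) =ᶠ[𝓝 q] ι ∘ (extChartAt I x₀).symm := by
        filter_upwards [h4] with q' hq'
        exact hq'
      have hιd : MDifferentiableAt I IE ι ((extChartAt I x₀).symm q) :=
        (hι _).mdifferentiableAt infty_ne_zero
      have e4 := mfderiv_comp q hιd (mdiffAt_symm (I := I) x₀ hqt)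
      have e5 : mfderiv 𝓘(ℝ, F) IE (c ∘ fun q' : F => ((q', 0) : F × G)) q =
        (mfderiv 𝓘(ℝ, F × G) IE c (q, 0)).comp (ContinuousLinearMap.inl ℝ F G) := e2.mfderiv
      have e6 : pb 𝓘(ℝ, F) IE (c ∘ fun q' : F => ((q', 0) : F × G)) α q =
          pb 𝓘(ℝ, F) IE (ι ∘ (extChartAt I x₀).symm) α q := pb_congr e3
      have e7 : pb 𝓘(ℝ, F) IE (c ∘ fun q' : F => ((q', 0) : F × G)) α q u = μ (q, 0) (u, 0) :=
        congrArg (fun A : F →L[ℝ] E => (α (c (q, 0)) : E →L[ℝ] ℝ) (A u)) e5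
      have e8 : pb 𝓘(ℝ, F) IE (ι ∘ (extChartAt I x₀).symm) α q u = 0 := by
        rw [pb_comp hιd (mdiffAt_symm (I := I) x₀ hqt)]
        exact htan _ _
      rw [← e7, e6, e8]
    have key : ∀ w : F × G, dfn IE (h ∘ k) (c (q, 0)) (mfderiv 𝓘(ℝ, F × G) IE c (q, 0) w) =
        α (c (q, 0)) (mfderiv 𝓘(ℝ, F × G) IE c (q, 0) w) := by
      intro w
      have e1 : ContMDiffAt IE 𝓘(ℝ, ℝ) ∞ (h ∘ k) (c (q, 0)) := by
        rw [hcx]
        exact h5
      have e2 := dfn_comp_apply (f := h ∘ k) (g := c) (x := (q, 0)) e1 h3.1 w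
      rw [← e2]
      have e3 : (fun p => (h ∘ k) (c p)) =ᶠ[𝓝 ((q, 0) : F × G)] h := by
        filter_upwards [h2] with p hp
        change h (k (c p)) = h p
        rw [hp]
      rw [dfn_congr e3]
      have e4 : dfn 𝓘(ℝ, F × G) h (q, 0) w = fderiv ℝ h (q, 0) w := by
        change mfderiv 𝓘(ℝ, F × G) 𝓘(ℝ, ℝ) h (q, 0) w = _
        rw [mfderiv_eq_fderiv]
        rfl
      rw [e4, hh, fderiv_linear_in_normal (h1.differentiableAt infty_ne_zero)]
      have e5 : μ (q, 0) w = μ (q, 0) (w.1, 0) + μ (q, 0) (0, w.2) := by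
        rw [← map_add]
        congr 1
        exact Prod.ext (add_zero _).symm (zero_add _).symm
      have e6 : μ (q, 0) w = α (c (q, 0)) (mfderiv 𝓘(ℝ, F × G) IE c (q, 0) w) := rfl
      rw [← e6, e5, htan', zero_add]
    have key2 : dfn IE (h ∘ k) (c (q, 0)) = α (c (q, 0)) := by
      ext v
      obtain ⟨w, rfl⟩ := h3.2.2 v
      exact key w
    rw [hcx] at key2
    exact key2

theorem dfn_mul_apply {f g : M → ℝ} {x : M} (hf : ContMDiffAt IE 𝓘(ℝ, ℝ) ∞ f x)
    (hg : ContMDiffAt IE 𝓘(ℝ, ℝ) ∞ g x) (v : TangentSpace IE x) :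
    dfn IE (fun x => f x * g x) x v = f x * dfn IE g x v + g x * dfn IE f x v := by
  have h1 := ((hf.mdifferentiableAt infty_ne_zero).hasMFDerivAt.mul
    (hg.mdifferentiableAt infty_ne_zero).hasMFDerivAt).mfderiv
  have h2 : dfn IE (fun x => f x * g x) x v = mfderiv IE 𝓘(ℝ, ℝ) (f * g) x v := rfl
  rw [h2, h1]
  rfl

/-- A compactly supported function with prescribed one-jet along a compact submanifold. -/
theorem exists_primitive (G : Type*) [NormedAddCommGroup G] [NormedSpace ℝ G]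
    [FiniteDimensional ℝ G] [T2Space M] [SigmaCompactSpace M] [CompactSpace L]
    {α : (x : M) → TangentSpace IE x →L[ℝ] ℝ}
    (hα : ∀ x, FormSmoothAt IE α x) {ι : L → M} (hι : ContMDiff I IE ∞ ι) (hιi : Injective ι)
    (hinj : ∀ x, Injective (mfderiv I IE ι x))
    (hdim : Module.finrank ℝ E = Module.finrank ℝ F + Module.finrank ℝ G)
    (htan : ∀ (x : L) (v : TangentSpace I x), α (ι x) (mfderiv I IE ι x v) = 0) :
    ∃ f : M → ℝ, ContMDiff IE 𝓘(ℝ, ℝ) ∞ f ∧ (∃ C, IsCompact C ∧ ∀ x ∉ C, f x = 0) ∧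
      ∀ x, f (ι x) = 0 ∧ dfn IE f (ι x) = α (ι x) := by
  choose f hfs hfv using fun x₀ => local_primitive (I := I) G hα hι (hinj x₀) hdim htan
  have hemb : IsClosedEmbedding ι := hι.continuous.isClosedEmbedding hιi
  have hU : ∀ x₀ : L, ∃ U : Set M, IsOpen U ∧ ι x₀ ∈ U ∧
      (∀ y ∈ U, ContMDiffAt IE 𝓘(ℝ, ℝ) ∞ (f x₀) y) ∧
      ∀ x, ι x ∈ U → f x₀ (ι x) = 0 ∧ dfn IE (f x₀) (ι x) = α (ι x) := by
    intro x₀
    have h1 := hfv x₀
    rw [hemb.isInducing.nhds_eq_comap, eventually_comap] at h1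
    obtain ⟨U, hU, hUo, hU0⟩ := eventually_nhds_iff.1 ((hfs x₀).and h1)
    exact ⟨U, hUo, hU0, fun y hy => (hU y hy).1, fun x hx => (hU _ hx).2 x rfl⟩
  choose U hUo hU0 hUs hUv using hU
  have hKc : IsCompact (range ι) := isCompact_range hι.continuous
  obtain ⟨t, ht⟩ := hKc.elim_finite_subcover U hUo (by
    rintro _ ⟨x, rfl⟩
    exact mem_iUnion.2 ⟨x, hU0 x⟩)
  obtain ⟨ρ, hρ⟩ := SmoothPartitionOfUnity.exists_isSubordinate IE hKc.isClosed
    (fun i : t => U i) (fun i => hUo i) (by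
      intro y hy
      obtain ⟨i, hi, hyi⟩ := mem_iUnion₂.1 (ht hy)
      exact mem_iUnion.2 ⟨⟨i, hi⟩, hyi⟩)
  set Gf : t → M → ℝ := fun i y => ρ i y * f i y with hGf
  have hρs : ∀ i : t, ContMDiff IE 𝓘(ℝ, ℝ) ∞ (ρ i) := fun i => (ρ i).contMDiff
  have hzero : ∀ (i : t) (y : M), y ∉ tsupport (ρ i) → Gf i =ᶠ[𝓝 y] fun _ => 0 := by
    intro i y hy
    filter_upwards [(isClosed_tsupport (ρ i)).isOpen_compl.mem_nhds hy] with z hz
    simp only [hGf]
    rw [image_eq_zero_of_notMem_tsupport hz, zero_mul]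
  have hGs : ∀ i : t, ContMDiff IE 𝓘(ℝ, ℝ) ∞ (Gf i) := by
    intro i y
    by_cases hy : y ∈ tsupport (ρ i)
    · exact (hρs i y).mul (hUs i y (hρ i hy))
    · exact contMDiffAt_const.congr_of_eventuallyEq (hzero i y hy)
  have hG0 : ∀ (i : t) (x : L), Gf i (ι x) = 0 := by
    intro i x
    by_cases hy : ι x ∈ tsupport (ρ i)
    · simp only [hGf]
      rw [(hUv i x (hρ i hy)).1, mul_zero]
    · exact (hzero i _ hy).self_of_nhds
  have hGd : ∀ (i : t) (x : L) (v : TangentSpace IE (ι x)),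
      dfn IE (Gf i) (ι x) v = ρ i (ι x) * α (ι x) v := by
    intro i x v
    by_cases hy : ι x ∈ tsupport (ρ i)
    · have h1 := dfn_mul_apply (hρs i (ι x)) (hUs i _ (hρ i hy)) v
      have h2 : dfn IE (Gf i) (ι x) v = dfn IE (fun y => ρ i y * f i y) (ι x) v := rfl
      rw [h2, h1, (hUv i x (hρ i hy)).1, (hUv i x (hρ i hy)).2, zero_mul, add_zero]
    · rw [dfn_congr (hzero i _ hy), dfn_const, image_eq_zero_of_notMem_tsupport hy, zero_mul]
      rfl
  have hsum : ∀ s : Finset t, ContMDiff IE 𝓘(ℝ, ℝ) ∞ (fun y => ∑ i ∈ s, Gf i y) ∧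
      ∀ (x : L) (v : TangentSpace IE (ι x)),
        dfn IE (fun y => ∑ i ∈ s, Gf i y) (ι x) v = (∑ i ∈ s, ρ i (ι x)) * α (ι x) v := by
    intro s
    classical
    induction s using Finset.induction_on with
    | empty =>
      simp only [Finset.sum_empty]
      refine ⟨contMDiff_const, fun x v => ?_⟩
      rw [dfn_const, zero_mul]
      rfl
    | insert a s ha ih =>
      simp only [Finset.sum_insert ha]
      refine ⟨(hGs a).add ih.1, fun x v => ?_⟩
      rw [dfn_add_apply (hGs a _) (ih.1 _), hGd, ih.2, add_mul]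
  obtain ⟨χ, hχ, C, hC, -, hχ0, V, hV, hKV, -, hχ1⟩ :=
    exists_cutoff (I := IE) hKc isOpen_univ (subset_univ _)
  refine ⟨fun y => χ y * ∑ i : t, Gf i y, hχ.mul (hsum Finset.univ).1, ⟨C, hC, fun x hx => ?_⟩,
    fun x => ⟨?_, ?_⟩⟩
  · simp only [hχ0 x hx, zero_mul]
  · simp only [hG0, Finset.sum_const_zero, mul_zero]
  · have h1 : (fun y => χ y * ∑ i : t, Gf i y) =ᶠ[𝓝 (ι x)] fun y => ∑ i : t, Gf i y := by
      filter_upwards [hV.mem_nhds (hKV ⟨x, rfl⟩)] with y hy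
      rw [hχ1 y hy, one_mul]
    rw [dfn_congr h1]
    ext v
    rw [(hsum Finset.univ).2 x v]
    have h2 := ρ.sum_eq_one (x := ι x) ⟨x, rfl⟩
    rw [finsum_eq_sum_of_fintype] at h2
    rw [h2, one_mul]

end Pool.Agent.H67.Liou
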