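import Pool.Agent.H67.Liou.Normal

/-! The flow of the rescaled vector field, blown down. -/

open Topology Filter Set Function
open scoped ContDiff Manifold

set_option linter.unusedSectionVars false

namespace Pool.Agent.H67.Liou

universe u

variable {F G : Type u} [NormedAddCommGroup F] [NormedSpace ℝ F] [FiniteDimensional ℝ F]
  [NormedAddCommGroup G] [NormedSpace ℝ G] [FiniteDimensional ℝ G]

theorem eq_add_of_hasDerivAt_one {f : ℝ → ℝ} {ε : ℝ} (h : ∀ r, |r| < ε → HasDerivAt f 1 r)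
    (hε : 0 < ε) {r : ℝ} (hr : |r| < ε) : f r = f 0 + r := by
  have h1 : EqOn (deriv (fun s => f s - s)) 0 (Ioo (-ε) ε) := by
    intro s hs
    have h0 : HasDerivAt (fun s => f s - s) (1 - 1) s :=
      (h s (abs_lt.2 hs)).sub (hasDerivAt_id s)
    rw [h0.deriv]
    simp
  have h2 : DifferentiableOn ℝ (fun s => f s - s) (Ioo (-ε) ε) := fun s hs =>
    ((h s (abs_lt.2 hs)).sub (hasDerivAt_id s)).differentiableAt.differentiableWithinAt
  have h3 := isOpen_Ioo.is_const_of_deriv_eq_zero isPreconnected_Ioo h2 h1 (x := r) (y := 0)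
    (abs_lt.1 hr) (abs_lt.1 (by simpa using hε))
  simp only [sub_zero] at h3
  linarith

theorem exists_rescaled_flow {Z : F × G → F × G} {W : ℝ × (F × G) → F × G}
    (hW : ContDiff ℝ ∞ W) (hW0 : ∀ r q, W (r, (q, 0)) = 0) {q₀ : F}
    (hZW : ∀ᶠ q in 𝓝 q₀, ∀ (r : ℝ) (P : G), Z (q, r • P) =
        (r • (W (r, (q, P))).1, r • P + (r * r) • (W (r, (q, P))).2))
    {O : Set (F × G)} (hO : O ∈ 𝓝 ((q₀, 0) : F × G)) :
    ∃ Φ : ℝ × (F × G) → F × G, ContDiff ℝ ∞ Φ ∧ (∀ y, Φ (0, y) = (y.1, 0)) ∧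
      ∃ ε > 0, ∀ᶠ y in 𝓝 ((q₀, 0) : F × G), (fderiv ℝ Φ (0, y) (1, 0)).2 = y.2 ∧
        (∀ r, |r| < ε → Φ (r, y) ∈ O ∧ r • fderiv ℝ Φ (r, y) (1, 0) = Z (Φ (r, y))) ∧
        (∀ r, |r| < ε → y.2 = 0 → Φ (r, y) = y) := by
  set w : ℝ × (F × G) → ℝ × (F × G) := fun x => (1, W x) with hw
  have hws : ContDiff ℝ ∞ w := contDiff_const.prodMk hW
  obtain ⟨g, hg, hgc, hgw⟩ := exists_contDiff_ext (s := univ) isOpen_univ hws.contDiffOn
    (y₀ := ((0, (q₀, 0)) : ℝ × (F × G))) (mem_univ _)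
  obtain ⟨φ, hφ, hφ0, hφd⟩ := exists_flow_vec hg hgc
  set X : ℝ × (F × G) → ℝ × (F × G) := fun p => φ p.1 (0, p.2) with hX
  have hXs : ContDiff ℝ ∞ X := by
    have h1 : ContDiff ℝ ∞ (fun p : ℝ × (F × G) => (p.1, ((0 : ℝ), p.2))) :=
      contDiff_fst.prodMk (contDiff_const.prodMk contDiff_snd)
    exact hφ.comp h1
  have hXd : ∀ r y, HasDerivAt (fun r => X (r, y)) (g (X (r, y))) r := fun r y =>
    hφd r (0, y)
  have hX0 : ∀ y, X (0, y) = (0, y) := fun y => hφ0 (0, y)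
  set Φ : ℝ × (F × G) → F × G := fun p => ((X p).2.1, p.1 • (X p).2.2) with hΦ
  have hΦs : ContDiff ℝ ∞ Φ := by
    have h1 : ContDiff ℝ ∞ (fun p => (X p).2.1) :=
      contDiff_fst.comp (contDiff_snd.comp hXs)
    have h2 : ContDiff ℝ ∞ (fun p => (X p).2.2) :=
      contDiff_snd.comp (contDiff_snd.comp hXs)
    exact h1.prodMk (contDiff_fst.smul h2)
  -- the good neighbourhood
  have hgood : ∀ᶠ x in 𝓝 ((0, (q₀, 0)) : ℝ × (F × G)), g x = w x ∧
      (∀ (r : ℝ) (P : G), Z (x.2.1, r • P) =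
        (r • (W (r, (x.2.1, P))).1, r • P + (r * r) • (W (r, (x.2.1, P))).2)) ∧
      (x.2.1, x.1 • x.2.2) ∈ O := by
    refine hgw.and (Filter.Eventually.and ?_ ?_)
    · have h1 : ContinuousAt (fun x : ℝ × (F × G) => x.2.1) (0, (q₀, 0)) := by fun_prop
      exact h1.eventually hZW
    · have h1 : ContinuousAt (fun x : ℝ × (F × G) => (x.2.1, x.1 • x.2.2)) (0, (q₀, 0)) := by
        fun_prop
      apply h1.eventually
      simpa using hO
  have hgood2 : ∀ᶠ p in 𝓝 ((0, (q₀, 0)) : ℝ × (F × G)), (g (X p) = w (X p) ∧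
      (∀ (r : ℝ) (P : G), Z ((X p).2.1, r • P) =
        (r • (W (r, ((X p).2.1, P))).1, r • P + (r * r) • (W (r, ((X p).2.1, P))).2)) ∧
      ((X p).2.1, (X p).1 • (X p).2.2) ∈ O) ∧ g p = w p := by
    refine Filter.Eventually.and ?_ hgw
    have h1 : ContinuousAt X (0, (q₀, 0)) := hXs.continuous.continuousAt
    have h2 := h1.eventually (p := fun x => g x = w x ∧
      (∀ (r : ℝ) (P : G), Z (x.2.1, r • P) =
        (r • (W (r, (x.2.1, P))).1, r • P + (r * r) • (W (r, (x.2.1, P))).2)) ∧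
      (x.2.1, x.1 • x.2.2) ∈ O)
    rw [hX0] at h2
    exact h2 hgood
  rw [nhds_prod_eq, eventually_prod_iff] at hgood2
  obtain ⟨pa, hpa, pb, hpb, hab⟩ := hgood2
  obtain ⟨ε, hε, hεa⟩ := Metric.eventually_nhds_iff_ball.1 hpa
  have hpa' : ∀ r : ℝ, |r| < ε → pa r := fun r hr => hεa r (by
    rw [Metric.mem_ball, Real.dist_eq, sub_zero]; exact hr)
  refine ⟨Φ, hΦs, ?_, ε, hε, ?_⟩
  · intro y
    simp only [hΦ, hX0, zero_smul]
  filter_upwards [hpb] with y hy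
  have hfirst : ∀ r, |r| < ε → (X (r, y)).1 = r := by
    intro r hr
    have h1 : ∀ s, |s| < ε → HasDerivAt (fun s => (X (s, y)).1) 1 s := by
      intro s hs
      have h2 := (hXd s y).fst
      rw [(hab (hpa' s hs) hy).1.1] at h2
      exact h2
    have h2 := eq_add_of_hasDerivAt_one h1 hε hr
    rw [hX0] at h2
    simpa using h2
  have hderiv : ∀ r, |r| < ε → fderiv ℝ Φ (r, y) (1, 0) =
      ((W (X (r, y))).1, (X (r, y)).2.2 + r • (W (X (r, y))).2) := by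
    intro r hr
    have h1 : HasDerivAt (fun r => Φ (r, y)) (fderiv ℝ Φ (r, y) (1, 0)) r :=
      hasDerivAt_fst_curve hΦs r y
    have h2 := hXd r y
    rw [(hab (hpa' r hr) hy).1.1] at h2
    have h3 : HasDerivAt (fun r => (X (r, y)).2.1) (W (X (r, y))).1 r := h2.snd.fst
    have h4 : HasDerivAt (fun r => (X (r, y)).2.2) (W (X (r, y))).2 r := h2.snd.snd
    have h5 : HasDerivAt (fun r => r • (X (r, y)).2.2)
        (r • (W (X (r, y))).2 + (1 : ℝ) • (X (r, y)).2.2) r := (hasDerivAt_id r).smul h4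
    have h6 := h1.unique (h3.prodMk h5)
    rw [h6]
    refine Prod.ext rfl ?_
    simp only [one_smul]
    abel
  refine ⟨?_, ?_, ?_⟩
  · rw [hderiv 0 (by simpa using hε), hX0]
    simp
  · intro r hr
    obtain ⟨⟨h1, h2, h3⟩, -⟩ := hab (hpa' r hr) hy
    rw [hfirst r hr] at h3
    refine ⟨h3, ?_⟩
    rw [hderiv r hr]
    have h4 : Z (Φ (r, y)) = Z ((X (r, y)).2.1, r • (X (r, y)).2.2) := rfl
    have h5 : X (r, y) = (r, ((X (r, y)).2.1, (X (r, y)).2.2)) :=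
      Prod.ext (hfirst r hr) rfl
    rw [h4, h2 r (X (r, y)).2.2, ← h5]
    refine Prod.ext rfl ?_
    simp only [Prod.smul_snd, smul_add, smul_smul]
  · intro r hr hy2
    have hyq : y = (y.1, 0) := Prod.ext rfl hy2
    obtain ⟨C, hC⟩ := ContDiff.lipschitzWith_of_hasCompactSupport hgc hg (by simp)
    have h1 : ∀ s ∈ Ioo (-ε) ε, HasDerivAt (fun s => X (s, y)) (g (X (s, y))) s ∧
        X (s, y) ∈ (univ : Set (ℝ × (F × G))) := fun s _ => ⟨hXd s y, mem_univ _⟩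
    have h2 : ∀ s ∈ Ioo (-ε) ε, HasDerivAt (fun s : ℝ => ((s, y) : ℝ × (F × G)))
        (g (s, y)) s ∧ (s, y) ∈ (univ : Set (ℝ × (F × G))) := by
      intro s hs
      refine ⟨?_, mem_univ _⟩
      have h3 := (hab (hpa' s (abs_lt.2 hs)) hy).2
      rw [h3]
      have h4 : w (s, y) = (1, 0) := by
        simp only [hw]
        rw [hyq, hW0]
      rw [h4]
      exact (hasDerivAt_id s).prodMk (hasDerivAt_const s y)
    have h0 : (0 : ℝ) ∈ Ioo (-ε) ε := ⟨by linarith, hε⟩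
    have h3 := ODE_solution_unique_of_mem_Ioo (v := fun _ => g) (s := fun _ => univ) (K := C)
      (fun t _ => hC.lipschitzOnWith) h0 h1 h2 (hX0 y)
    have h4 : X (r, y) = (r, y) := h3 (abs_lt.1 hr)
    have h5 : Φ (r, y) = (y.1, r • y.2) := by
      simp only [hΦ, h4]
    rw [h5, hy2, smul_zero, ← hy2]

end Pool.Agent.H67.Liou
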