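import Pool.Agent.H67.Liou.Expand
import Pool.Agent.H67.Liou.Inverse

/-! Exact symplectic structures with complete Liouville flow. -/

open Topology Filter Set Function
open scoped ContDiff Manifold

set_option linter.unusedSectionVars false

namespace Pool.Agent.H67.Liou

universe u u'

/-- An exact symplectic structure whose Liouville vector field is complete. -/
structure LStr {E : Type u} [NormedAddCommGroup E] [NormedSpace ℝ E]
    {H : Type*} [TopologicalSpace H] (I : ModelWithCorners ℝ E H)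
    (M : Type*) [TopologicalSpace M] [ChartedSpace H M] where
  /-- the Liouville form -/
  lam : (x : M) → TangentSpace I x →L[ℝ] ℝ
  smooth : ∀ x, FormSmoothAt I lam x
  nondeg : ∀ x, Nondeg I lam x
  /-- the Liouville flow -/
  φ : ℝ → M → M
  flow : IsFlow I (zdual I lam) φ

variable {E : Type u} [NormedAddCommGroup E] [NormedSpace ℝ E]
  {H : Type*} [TopologicalSpace H] {I : ModelWithCorners ℝ E H}
  {M : Type*} [TopologicalSpace M] [ChartedSpace H M]
  {E' : Type u'} [NormedAddCommGroup E'] [NormedSpace ℝ E']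
  {H' : Type*} [TopologicalSpace H'] {J : ModelWithCorners ℝ E' H'}
  {N : Type*} [TopologicalSpace N] [ChartedSpace H' N]

section

variable [FiniteDimensional ℝ E] [IsManifold I ∞ M] [IsManifold I 1 M] [I.Boundaryless]

theorem zdual_congr {α β : (x : M) → TangentSpace I x →L[ℝ] ℝ} {x : M}
    (hα : FormSmoothAt I α x) (hn : Nondeg I α x)
    (h : ∀ᶠ x' in 𝓝 x, α x' = β x') : zdual I β x = zdual I α x := by
  apply zdual_unique
  · intro u hu
    apply hn
    intro v
    rw [dOne_congr h]
    exact hu v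
  · intro v
    rw [← dOne_congr h, zdual_spec hα hn, h.self_of_nhds]

namespace LStr

variable (S : LStr I M)

theorem smoothZ : SmoothVF I (zdual I S.lam) := smoothVF_zdual S.smooth S.nondeg

theorem zero (x : M) : S.φ 0 x = x := S.flow.zero x

variable [T2Space M]

theorem add (s t : ℝ) (x : M) : S.φ (s + t) x = S.φ s (S.φ t x) := S.flow.add S.smoothZ s t x

theorem neg_apply (t : ℝ) (x : M) : S.φ (-t) (S.φ t x) = x := S.flow.neg_apply S.smoothZ t x

theorem apply_neg (t : ℝ) (x : M) : S.φ t (S.φ (-t) x) = x := S.flow.apply_neg S.smoothZ t x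

theorem smooth_time (t : ℝ) : ContMDiff I I ∞ (S.φ t) := S.flow.contMDiff_time S.smoothZ t

theorem smooth_joint : ContMDiff (𝓘(ℝ, ℝ).prod I) I ∞ (fun p : ℝ × M => S.φ p.1 p.2) :=
  S.flow.contMDiff S.smoothZ

theorem continuous_joint : Continuous (fun p : ℝ × M => S.φ p.1 p.2) := S.smooth_joint.continuous

theorem continuous_time (t : ℝ) : Continuous (S.φ t) := (S.smooth_time t).continuous

theorem continuous_orbit (x : M) : Continuous (fun t => S.φ t x) :=
  S.continuous_joint.comp (continuous_id.prodMk continuous_const)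

theorem pull (t : ℝ) (x : M) (w : TangentSpace I x) :
    S.lam (S.φ t x) (mfderiv I I (S.φ t) x w) = Real.exp t * S.lam x w :=
  pull_flow S.smooth S.nondeg S.flow t x w

theorem injective_time (t : ℝ) : Injective (S.φ t) := by
  intro x y hxy
  rw [← S.neg_apply t x, ← S.neg_apply t y, hxy]

theorem surjective_time (t : ℝ) : Surjective (S.φ t) := fun x => ⟨_, S.apply_neg t x⟩

theorem bij (t : ℝ) (x : M) : Bijective (mfderiv I I (S.φ t) x) := by
  have h := (S.flow.diffeo S.smoothZ t).mfderivToContinuousLinearEquiv (by simp) x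
  exact ((S.flow.diffeo S.smoothZ t).mfderivToContinuousLinearEquiv (by simp) x).bijective

/-- Perturbation by a compactly supported exact form. -/
theorem exists_perturb {k : M → ℝ} (hk : ContMDiff I 𝓘(ℝ, ℝ) ∞ k) {C : Set M}
    (hC : IsCompact C) (hkC : ∀ x ∉ C, k x = 0) :
    ∃ S' : LStr I M, ∀ x, S'.lam x = S.lam x - dfn I k x := by
  set lam' : (x : M) → TangentSpace I x →L[ℝ] ℝ := fun x => S.lam x - dfn I k x with hlam'
  have hsm : ∀ x, FormSmoothAt I lam' x := fun x =>
    FormSmoothAt.sub (S.smooth x) (formSmoothAt_dfn (hk x))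
  have hnd : ∀ x, Nondeg I lam' x := by
    intro x u hu
    apply S.nondeg x
    intro v
    have h1 := hu v
    rw [hlam', dOne_sub (S.smooth x) (formSmoothAt_dfn (hk x)), dOne_dfn (hk x), sub_zero] at h1
    exact h1
  have heq : ∀ x ∉ C, zdual I lam' x = zdual I S.lam x := by
    intro x hx
    apply zdual_congr (S.smooth x) (S.nondeg x)
    have h1 : ∀ᶠ x' in 𝓝 x, x' ∉ C := hC.isClosed.isOpen_compl.mem_nhds hx
    have h2 : ∀ᶠ x' in 𝓝 x, k =ᶠ[𝓝 x'] fun _ => 0 := by
      have h3 : ∀ᶠ x' in 𝓝 x, k x' = 0 := h1.mono hkC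
      exact h3.eventually_nhds
    filter_upwards [h2] with x' hx'
    have h4 : dfn I k x' = 0 := by
      have h5 : dfn I k x' = dfn I (fun _ : M => (0 : ℝ)) x' := pb_congr hx'
      rw [h5]
      unfold dfn pb
      rw [mfderiv_const]
      ext v
      rfl
    rw [hlam']
    simp only [h4, sub_zero]
  obtain ⟨φ', hφ'⟩ := exists_flow_of_eq_off_compact S.smoothZ (smoothVF_zdual hsm hnd) S.flow hC heq
  exact ⟨⟨lam', hsm, hnd, φ', hφ'⟩, fun x => rfl⟩

end LStr

end

section

variable [FiniteDimensional ℝ E] [IsManifold I ∞ M] [IsManifold I 1 M] [I.Boundaryless]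
  [FiniteDimensional ℝ E'] [IsManifold J ∞ N] [IsManifold J 1 N] [J.Boundaryless]
  [T2Space M] [T2Space N]

/-- Maps preserving the Liouville forms intertwine the flows, as long as the orbit stays in the
domain. -/
theorem intertwine (S : LStr J N) (S' : LStr I M) {g : N → M} {U : Set N} (hU : IsOpen U)
    (hg : ∀ x ∈ U, ContMDiffAt J I ∞ g x) (hb : ∀ x ∈ U, Bijective (mfderiv J I g x))
    (hpb : ∀ x ∈ U, pb J I g S'.lam x = S.lam x) {x : N} {a b : ℝ} (ha : a ≤ 0) (hb0 : 0 ≤ b)
    (hseg : ∀ s ∈ Icc a b, S.φ s x ∈ U) {s : ℝ} (hs : s ∈ Icc a b) :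
    g (S.φ s x) = S'.φ s (g x) := by
  have hc := S.continuous_orbit x
  have hpre : IsOpen ((fun t => S.φ t x) ⁻¹' U) := hU.preimage hc
  obtain ⟨ε₁, hε₁, h1⟩ := Metric.isOpen_iff.1 hpre a (hseg a ⟨le_rfl, ha.trans hb0⟩)
  obtain ⟨ε₂, hε₂, h2⟩ := Metric.isOpen_iff.1 hpre b (hseg b ⟨ha.trans hb0, le_rfl⟩)
  have hin : ∀ t ∈ Ioo (a - ε₁) (b + ε₂), S.φ t x ∈ U := by
    intro t ht
    rcases lt_or_ge t a with h | h
    · apply h1
      rw [Metric.mem_ball, Real.dist_eq, abs_lt]
      constructor <;> linarith [ht.1]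
    · rcases lt_or_ge b t with h' | h'
      · apply h2
        rw [Metric.mem_ball, Real.dist_eq, abs_lt]
        constructor <;> linarith [ht.2]
      · exact hseg t ⟨h, h'⟩
  have hcurve1 : IsMIntegralCurveOn (fun t => g (S.φ t x)) (zdual I S'.lam)
      (Ioo (a - ε₁) (b + ε₂)) := by
    intro t ht
    have hmem := hin t ht
    have h3 := (S.flow.curve x t)
    have h4 := ((hg _ hmem).mdifferentiableAt infty_ne_zero).hasMFDerivAt
    have h5 := h4.comp t h3
    have h6 : mfderiv J I g (S.φ t x) (zdual J S.lam (S.φ t x)) =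
        zdual I S'.lam (g (S.φ t x)) := by
      apply zdual_map (hg _ hmem) (hb _ hmem).2 (S'.smooth _) (S'.nondeg _) (S.smooth _)
        (S.nondeg _)
      filter_upwards [hU.mem_nhds hmem] with x' hx'
      exact hpb x' hx'
    apply HasMFDerivAt.hasMFDerivWithinAt
    refine h5.congr_mfderiv ?_
    have h7 : ∀ r : ℝ, ((mfderiv J I g (S.φ t x) : E' →L[ℝ] E)) (r • (zdual J S.lam (S.φ t x))) =
        r • (zdual I S'.lam (g (S.φ t x)) : E) := by
      intro r
      have h8 := map_smul (mfderiv J I g (S.φ t x) : E' →L[ℝ] E) r (zdual J S.lam (S.φ t x))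
      exact h8.trans (congrArg (fun z : E => r • z) h6)
    exact ContinuousLinearMap.ext h7
  have hcurve2 : IsMIntegralCurveOn (fun t => S'.φ t (g x)) (zdual I S'.lam)
      (Ioo (a - ε₁) (b + ε₂)) := (S'.flow.curve (g x)).isMIntegralCurveOn _
  have h0 : (0 : ℝ) ∈ Ioo (a - ε₁) (b + ε₂) := ⟨by linarith, by linarith⟩
  have heq := isMIntegralCurveOn_Ioo_eqOn_of_contMDiff_boundaryless h0 S'.smoothZ.one hcurve1
    hcurve2 (by simp only [S.zero, S'.zero])
  exact heq ⟨by linarith [hs.1], by linarith [hs.2]⟩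

end

end Pool.Agent.H67.Liou
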