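import Pool.Agent.H67.Liou.Defs

/-! One-forms on normed spaces and their exterior derivatives. -/

open Topology Filter Set Function
open scoped ContDiff

namespace Pool.Agent.H67.Liou

variable {E : Type*} [NormedAddCommGroup E] [NormedSpace ℝ E]
  {E' : Type*} [NormedAddCommGroup E'] [NormedSpace ℝ E']

/-- Pullback of a one-form between normed spaces. -/
noncomputable def pbv (g : E' → E) (a : E → E →L[ℝ] ℝ) : E' → E' →L[ℝ] ℝ :=
  fun y => (a (g y)).comp (fderiv ℝ g y)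

theorem dvec_congr {a b : E → E →L[ℝ] ℝ} {y : E} (h : a =ᶠ[𝓝 y] b) (u v : E) :
    dvec a y u v = dvec b y u v := by
  unfold dvec
  rw [h.fderiv_eq]

theorem fderiv_pbv_apply {g : E' → E} {a : E → E →L[ℝ] ℝ} {y : E'}
    (hg : ContDiffAt ℝ 2 g y) (ha : DifferentiableAt ℝ a (g y)) (u v : E') :
    fderiv ℝ (pbv g a) y u v = fderiv ℝ a (g y) (fderiv ℝ g y u) (fderiv ℝ g y v) +
      a (g y) (fderiv ℝ (fderiv ℝ g) y u v) := by
  have hg1 : DifferentiableAt ℝ g y := hg.differentiableAt (by simp)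
  have hg2 : DifferentiableAt ℝ (fderiv ℝ g) y :=
    (hg.fderiv_right (m := 1) (by norm_num)).differentiableAt (by simp)
  have h1 : HasFDerivAt (fun y => a (g y)) ((fderiv ℝ a (g y)).comp (fderiv ℝ g y)) y :=
    ha.hasFDerivAt.comp y hg1.hasFDerivAt
  have h2 := (h1.clm_comp hg2.hasFDerivAt).fderiv
  unfold pbv
  rw [h2]
  simp [add_comm]

theorem isSymm_snd {g : E' → E} {y : E'} (hg : ContDiffAt ℝ 2 g y) (u v : E') :
    fderiv ℝ (fderiv ℝ g) y u v = fderiv ℝ (fderiv ℝ g) y v u := by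
  have := hg.isSymmSndFDerivAt (by simp)
  exact this u v

/-- Naturality of the exterior derivative. -/
theorem dvec_pbv {g : E' → E} {a : E → E →L[ℝ] ℝ} {y : E'}
    (hg : ContDiffAt ℝ 2 g y) (ha : DifferentiableAt ℝ a (g y)) (u v : E') :
    dvec (pbv g a) y u v = dvec a (g y) (fderiv ℝ g y u) (fderiv ℝ g y v) := by
  unfold dvec
  rw [fderiv_pbv_apply hg ha, fderiv_pbv_apply hg ha, isSymm_snd hg u v]
  ring

/-- The derivative of a pulled back primitive along trajectories: infinitesimal form of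
`φ_t^* λ = e^t λ`. -/
theorem hasDerivAt_pull {F : ℝ × E' → E} {a : E → E →L[ℝ] ℝ} {z : E → E} {t₀ c : ℝ} {x₀ : E'}
    (hF : ContDiffAt ℝ 2 F (t₀, x₀)) (ha : DifferentiableAt ℝ a (F (t₀, x₀)))
    (hz : DifferentiableAt ℝ z (F (t₀, x₀)))
    (hode : ∀ᶠ p in 𝓝 (t₀, x₀), fderiv ℝ F p (1, 0) = c • z (F p))
    (hdual : ∀ᶠ p in 𝓝 (F (t₀, x₀)), ∀ v, dvec a p (z p) v = a p v) (w : E') :
    HasDerivAt (fun t => a (F (t, x₀)) (fderiv ℝ F (t, x₀) (0, w)))
      (c * a (F (t₀, x₀)) (fderiv ℝ F (t₀, x₀) (0, w))) t₀ := by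
  set p₀ : ℝ × E' := (t₀, x₀) with hp₀
  have hF1 : DifferentiableAt ℝ F p₀ := hF.differentiableAt (by simp)
  have hF2 : DifferentiableAt ℝ (fderiv ℝ F) p₀ :=
    (hF.fderiv_right (m := 1) (by norm_num)).differentiableAt (by simp)
  -- the curve t ↦ (t, x₀)
  have hcurve : HasDerivAt (fun t : ℝ => ((t, x₀) : ℝ × E')) (1, 0) t₀ :=
    (hasDerivAt_id t₀).prodMk (hasDerivAt_const t₀ x₀)
  have h1 : HasDerivAt (fun t => F (t, x₀)) (fderiv ℝ F p₀ (1, 0)) t₀ :=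
    hF1.hasFDerivAt.comp_hasDerivAt t₀ hcurve
  have h2 : HasDerivAt (fun t => a (F (t, x₀))) (fderiv ℝ a (F p₀) (fderiv ℝ F p₀ (1, 0))) t₀ :=
    ha.hasFDerivAt.comp_hasDerivAt t₀ h1
  have h3 : HasDerivAt (fun t => fderiv ℝ F (t, x₀)) (fderiv ℝ (fderiv ℝ F) p₀ (1, 0)) t₀ :=
    hF2.hasFDerivAt.comp_hasDerivAt t₀ hcurve
  have h4 : HasDerivAt (fun t => fderiv ℝ F (t, x₀) (0, w))
      (fderiv ℝ (fderiv ℝ F) p₀ (1, 0) (0, w)) t₀ := by
    have := h3.clm_apply (hasDerivAt_const t₀ ((0, w) : ℝ × E'))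
    simpa using this
  -- second derivative
  have h5 : fderiv ℝ (fderiv ℝ F) p₀ (1, 0) (0, w) =
      c • fderiv ℝ z (F p₀) (fderiv ℝ F p₀ (0, w)) := by
    rw [isSymm_snd hF]
    have h6 : HasFDerivAt (fun p => fderiv ℝ F p (1, 0))
        ((fderiv ℝ (fderiv ℝ F) p₀).flip (1, 0)) p₀ := by
      have := hF2.hasFDerivAt.clm_apply (hasFDerivAt_const ((1, 0) : ℝ × E') p₀)
      simpa using this
    have h7 : HasFDerivAt (fun p => c • z (F p)) (c • (fderiv ℝ z (F p₀)).comp (fderiv ℝ F p₀)) p₀ :=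
      (hz.hasFDerivAt.comp p₀ hF1.hasFDerivAt).const_smul c
    have h8 := (h7.congr_of_eventuallyEq hode).unique h6
    have h9 := congrArg (fun L : ℝ × E' →L[ℝ] E => L (0, w)) h8
    simpa using h9.symm
  have h10 := h2.clm_apply h4
  refine h10.congr_deriv ?_
  have hode0 : fderiv ℝ F p₀ (1, 0) = c • z (F p₀) := hode.self_of_nhds
  have hdual0 : ∀ v, dvec a (F p₀) (z (F p₀)) v = a (F p₀) v := hdual.self_of_nhds
  -- a(z) = 0 near F p₀
  have haz : ∀ᶠ p in 𝓝 (F p₀), a p (z p) = 0 := by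
    filter_upwards [hdual] with p hp
    rw [← hp (z p)]
    unfold dvec
    exact sub_self _
  have h11 : HasFDerivAt (fun p => a p (z p)) (0 : E →L[ℝ] ℝ) (F p₀) :=
    (hasFDerivAt_const (0 : ℝ) (F p₀)).congr_of_eventuallyEq haz
  have h12 := (ha.hasFDerivAt.clm_apply hz.hasFDerivAt).unique h11
  have h13 : ∀ u, fderiv ℝ a (F p₀) u (z (F p₀)) + a (F p₀) (fderiv ℝ z (F p₀) u) = 0 := by
    intro u
    have h14 := congrArg (fun L : E →L[ℝ] ℝ => L u) h12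
    simp at h14
    linarith
  have h15 := hdual0 (fderiv ℝ F p₀ (0, w))
  have h16 := h13 (fderiv ℝ F p₀ (0, w))
  unfold dvec at h15
  rw [h5, hode0]
  simp only [map_smul, ContinuousLinearMap.smul_apply, smul_eq_mul]
  change c * fderiv ℝ a (F p₀) (z (F p₀)) (fderiv ℝ F p₀ (0, w)) +
    c * a (F p₀) (fderiv ℝ z (F p₀) (fderiv ℝ F p₀ (0, w))) = _
  rw [← mul_add]
  congr 1
  linarith

end Pool.Agent.H67.Liou
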